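import Pool.Agent.T6.H97.TA.Defs

set_option autoImplicit false

namespace Pool.Agent.T6.H97.TA

open Finset Matrix Filter Topology MeasureTheory
open Pool.Agent.H548.TL (g1 g2 g3 tf Sm s12 s23 Tx)

namespace ModAe

/-- the zeros of a continuous function which is a nonzero polynomial on all lines of a given
direction are a null set -/
lemma ae_ne {ι : Type} [Fintype ι] (F : (ι → ℝ) → ℝ) (hF : Continuous F) (v : ι → ℝ)
    (h : ∀ u, ∃ P : Polynomial ℝ, P ≠ 0 ∧ ∀ t : ℝ, F (u + t • v) = P.eval t) :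
    ∀ᵐ u : ι → ℝ, F u ≠ 0 := by
  have hs : MeasurableSet {u : ι → ℝ | F u ≠ 0} := by
    have : IsOpen {u : ι → ℝ | F u ≠ 0} := isOpen_ne_fun hF continuous_const
    exact this.measurableSet
  refine ae_mem_of_ae_add_linearMap_mem (LinearMap.toSpanSingleton ℝ (ι → ℝ) v)
    (volume : Measure ℝ) (volume : Measure (ι → ℝ)) hs ?_
  intro y
  obtain ⟨P, hP, hPt⟩ := h y
  have hfin : {t : ℝ | P.IsRoot t}.Finite := by
    refine (P.roots.toFinset.finite_toSet).subset ?_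
    intro t ht
    simp only [Finset.mem_coe, Multiset.mem_toFinset]
    exact (Polynomial.mem_roots hP).2 ht
  have hz := hfin.measure_zero (volume : Measure ℝ)
  rw [← compl_mem_ae_iff] at hz
  filter_upwards [hz] with t ht
  intro h0
  apply ht
  show P.eval t = 0
  rw [← hPt]
  exact h0

lemma lin_ae {ι : Type} [Fintype ι] [DecidableEq ι] (c : ι → ℝ) (hc : c ≠ 0) :
    ∀ᵐ u : ι → ℝ, c ⬝ᵥ u ≠ 0 := by
  obtain ⟨i, hi⟩ := Function.ne_iff.1 hc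
  refine ae_ne (fun u => c ⬝ᵥ u) (by unfold dotProduct; fun_prop) (Pi.single i 1) (fun u => ?_)
  refine ⟨Polynomial.C (c i) * Polynomial.X + Polynomial.C (c ⬝ᵥ u), ?_, ?_⟩
  · intro h0
    have h1 := congrArg (fun P => Polynomial.coeff P 1) h0
    simp at h1
    exact hi h1
  · intro t
    simp only [dotProduct_add, dotProduct_smul, dotProduct_single, mul_one, smul_eq_mul,
      Polynomial.eval_add, Polynomial.eval_mul, Polynomial.eval_C, Polynomial.eval_X]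
    ring

lemma bil_ae (c : Matrix (Fin 3) (Fin 3) ℝ) (i j : Fin 3) (hc : c i j ≠ 0) :
    ∀ᵐ u : Fin 3 ⊕ Fin 3 → ℝ, (u ∘ Sum.inl) ⬝ᵥ (c *ᵥ (u ∘ Sum.inr)) ≠ 0 := by
  refine ae_ne (fun u : Fin 3 ⊕ Fin 3 → ℝ => (u ∘ Sum.inl) ⬝ᵥ (c *ᵥ (u ∘ Sum.inr)))
    (by unfold mulVec dotProduct Function.comp; fun_prop)
    (Sum.elim (Pi.single i 1) (Pi.single j 1)) (fun u => ?_)
  refine ⟨Polynomial.C (c i j) * Polynomial.X ^ 2 +
    Polynomial.C ((u ∘ Sum.inl) ⬝ᵥ (c *ᵥ (Pi.single j 1)) + (Pi.single i 1 : Fin 3 → ℝ) ⬝ᵥ (c *ᵥ (u ∘ Sum.inr))) *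
      Polynomial.X + Polynomial.C ((u ∘ Sum.inl) ⬝ᵥ (c *ᵥ (u ∘ Sum.inr))), ?_, ?_⟩
  · intro h0
    have h1 := congrArg (fun P => Polynomial.coeff P 2) h0
    simp [Polynomial.coeff_X, Polynomial.coeff_C] at h1
    exact hc h1
  · intro t
    have e1 : (u + t • (Sum.elim (Pi.single i 1) (Pi.single j 1) : Fin 3 ⊕ Fin 3 → ℝ)) ∘ Sum.inl =
        (u ∘ Sum.inl) + t • (Pi.single i 1 : Fin 3 → ℝ) := by
      funext x; simp
    have e2 : (u + t • (Sum.elim (Pi.single i 1) (Pi.single j 1) : Fin 3 ⊕ Fin 3 → ℝ)) ∘ Sum.inr =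
        (u ∘ Sum.inr) + t • (Pi.single j 1 : Fin 3 → ℝ) := by
      funext x; simp
    have e3 : (Pi.single i 1 : Fin 3 → ℝ) ⬝ᵥ (c *ᵥ (Pi.single j 1 : Fin 3 → ℝ)) = c i j := by
      simp
    simp only [e1, e2, mulVec_add, mulVec_smul, add_dotProduct, dotProduct_add, smul_dotProduct,
      dotProduct_smul, smul_eq_mul, e3, Polynomial.eval_add, Polynomial.eval_mul,
      Polynomial.eval_C, Polynomial.eval_X, Polynomial.eval_pow]
    ring

lemma g3_dot (T : T3) (x y e : Fin 3 → ℝ) :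
    g3 T x y ⬝ᵥ e = x ⬝ᵥ ((Matrix.of fun i j => ∑ k, (T i j k : ℝ) * e k) *ᵥ y) := by
  unfold g3 mulVec dotProduct
  simp only [Fin.sum_univ_three, Matrix.of_apply]
  ring

lemma ent (hBr : StmtBr) (T : T3) (hT : Sm ℂ T) (e : Fin 3 → ℝ) (he : e ≠ 0) :
    ∃ i j, ∑ k, (T i j k : ℝ) * e k ≠ 0 := by
  by_contra hcon
  push Not at hcon
  have h1 := (hBr (s12 (s23 T)) (Sm.s12 (Sm.s23 hT))).1
  have he' : (fun k => (e k : ℂ)) ≠ 0 := by
    intro h
    apply he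
    funext k
    have := congrFun h k
    simpa using this
  obtain ⟨k, k', j, j', h⟩ := h1 (fun k => (e k : ℂ)) he'
  apply h
  have h0 : ∀ a c : Fin 3, W978.QN.mp (s12 (s23 T)) (fun k => (e k : ℂ)) a c = 0 := by
    intro a c
    unfold W978.QN.mp
    have := hcon c a
    have h2 : ((∑ k, (T c a k : ℝ) * e k : ℝ) : ℂ) = 0 := by rw [this]; simp
    rw [← h2]
    push_cast
    rfl
  unfold W978.QN.mnr
  rw [h0, h0, h0, h0]
  ring

lemma g3_ae (hBr : StmtBr) (T : T3) (hT : Sm ℂ T) (e : Fin 3 → ℝ) (he : e ≠ 0) :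
    ∀ᵐ u : Fin 3 ⊕ Fin 3 → ℝ, g3 T (u ∘ Sum.inl) (u ∘ Sum.inr) ⬝ᵥ e ≠ 0 := by
  obtain ⟨i, j, hij⟩ := ent hBr T hT e he
  have := bil_ae (Matrix.of fun i j => ∑ k, (T i j k : ℝ) * e k) i j hij
  filter_upwards [this] with u hu
  rw [g3_dot]
  exact hu

lemma orth (f : Fin 3 → ℤ) : ∃ e : Fin 3 → ℝ, e ≠ 0 ∧ (fun j => (f j : ℝ)) ⬝ᵥ e = 0 := by
  by_cases h : f 0 = 0 ∧ f 1 = 0
  · refine ⟨![1, 0, 0], ?_, ?_⟩
    · intro h0
      have := congrFun h0 0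
      simp at this
    · simp [dotProduct, Fin.sum_univ_three, h.1]
  · refine ⟨![(f 1 : ℝ), -(f 0 : ℝ), 0], ?_, ?_⟩
    · intro h0
      apply h
      have h1 := congrFun h0 0
      have h2 := congrFun h0 1
      simp at h1 h2
      exact ⟨h2, h1⟩
    · simp [dotProduct, Fin.sum_univ_three]
      ring

lemma pat_cont {n : ℕ} (f : Fin n → Fin 3 → ℤ) (σ : Fin n → Bool)
    (φ : (Fin 3 ⊕ Fin 3 → ℝ) → (Fin 3 → ℝ)) (hφ : Continuous φ) (u : Fin 3 ⊕ Fin 3 → ℝ)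
    (h : ∀ i, f i ≠ 0 → (fun j => (f i j : ℝ)) ⬝ᵥ φ u ≠ 0) :
    ContinuousAt (fun u => Pat f σ (φ u)) u := by
  have hS : ∀ i, Continuous (fun u => ∑ j, (f i j : ℝ) * φ u j) := by
    intro i
    have : ∀ j, Continuous (fun u => φ u j) := fun j => (continuous_apply j).comp hφ
    fun_prop
  have key : ∀ i, ∀ᶠ u' in 𝓝 u, ((0 ≤ ∑ j, (f i j : ℝ) * φ u' j) ↔
      (0 ≤ ∑ j, (f i j : ℝ) * φ u j)) := by
    intro i
    by_cases hf : f i = 0
    · exact Filter.Eventually.of_forall (fun u' => by simp [hf])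
    · have h1 := h i hf
      have h2 : (∑ j, (f i j : ℝ) * φ u j) ≠ 0 := h1
      rcases lt_or_gt_of_ne h2 with h3 | h3
      · have h4 := (hS i).continuousAt.eventually_lt (g := fun _ => (0 : ℝ)) continuousAt_const h3
        filter_upwards [h4] with u' hu'
        constructor
        · intro h5; exact absurd hu' (not_lt.2 h5)
        · intro h5; exact absurd h3 (not_lt.2 h5)
      · have h4 := (continuousAt_const (y := (0 : ℝ))).eventually_lt (hS i).continuousAt h3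
        filter_upwards [h4] with u' hu'
        exact ⟨fun _ => h3.le, fun _ => hu'.le⟩
  have key2 : ∀ᶠ u' in 𝓝 u, ∀ i, ((0 ≤ ∑ j, (f i j : ℝ) * φ u' j) ↔
      (0 ≤ ∑ j, (f i j : ℝ) * φ u j)) := Filter.eventually_all.2 key
  have key3 : (fun _ => Pat f σ (φ u)) =ᶠ[𝓝 u] (fun u' => Pat f σ (φ u')) := by
    filter_upwards [key2] with u' hu'
    unfold Pat
    have : (∀ i, (0 ≤ ∑ j, (f i j : ℝ) * φ u j ↔ σ i = true)) ↔
        (∀ i, (0 ≤ ∑ j, (f i j : ℝ) * φ u' j ↔ σ i = true)) := by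
      constructor
      · intro h i; rw [hu' i]; exact h i
      · intro h i; rw [← hu' i]; exact h i
    simp only [this]
  exact continuousAt_const.congr key3

end ModAe

theorem ae (hVc : StmtVc) (hBr : StmtBr) : StmtAe := by
  intro T hT n n1 n2 f σ f1 σ1 f2 σ2 K
  have N1 : ∀ i, f1 i ≠ 0 → ∀ᵐ u : Fin 3 ⊕ Fin 3 → ℝ,
      (fun j => (f1 i j : ℝ)) ⬝ᵥ (u ∘ Sum.inl) ≠ 0 := by
    intro i hi
    have h0 : (Sum.elim (fun j => (f1 i j : ℝ)) 0 : Fin 3 ⊕ Fin 3 → ℝ) ≠ 0 := by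
      intro h
      apply hi
      funext j
      have := congrFun h (Sum.inl j)
      simpa using this
    filter_upwards [ModAe.lin_ae _ h0] with u hu
    intro h
    apply hu
    simpa [dotProduct, Fintype.sum_sum_type] using h
  have N2 : ∀ i, f2 i ≠ 0 → ∀ᵐ u : Fin 3 ⊕ Fin 3 → ℝ,
      (fun j => (f2 i j : ℝ)) ⬝ᵥ (u ∘ Sum.inr) ≠ 0 := by
    intro i hi
    have h0 : (Sum.elim 0 (fun j => (f2 i j : ℝ)) : Fin 3 ⊕ Fin 3 → ℝ) ≠ 0 := by
      intro h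
      apply hi
      funext j
      have := congrFun h (Sum.inr j)
      simpa using this
    filter_upwards [ModAe.lin_ae _ h0] with u hu
    intro h
    apply hu
    simpa [dotProduct, Fintype.sum_sum_type] using h
  have N3 : ∀ᵐ u : Fin 3 ⊕ Fin 3 → ℝ, g3 T (u ∘ Sum.inl) (u ∘ Sum.inr) 2 ≠ 0 := by
    have h0 : (Pi.single 2 1 : Fin 3 → ℝ) ≠ 0 := by
      intro h
      have := congrFun h 2
      simp at this
    filter_upwards [ModAe.g3_ae hBr T hT (Pi.single 2 1) h0] with u hu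
    simpa using hu
  have N4 : ∀ i, ∀ᵐ u : Fin 3 ⊕ Fin 3 → ℝ, ∀ t : ℝ,
      g3 T (u ∘ Sum.inl) (u ∘ Sum.inr) ≠ fun j => t * (f i j : ℝ) := by
    intro i
    obtain ⟨e, he, hfe⟩ := ModAe.orth (f i)
    filter_upwards [ModAe.g3_ae hBr T hT e he] with u hu
    intro t ht
    apply hu
    rw [ht]
    have : (fun j => t * (f i j : ℝ)) = t • (fun j => (f i j : ℝ)) := by funext j; simp
    rw [this, smul_dotProduct, hfe, smul_zero]
  have N1' : ∀ᵐ u : Fin 3 ⊕ Fin 3 → ℝ, ∀ i, f1 i ≠ 0 →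
      (fun j => (f1 i j : ℝ)) ⬝ᵥ (u ∘ Sum.inl) ≠ 0 := by
    rw [ae_all_iff]
    intro i
    by_cases hi : f1 i = 0
    · exact Filter.Eventually.of_forall (fun u h => absurd hi h)
    · filter_upwards [N1 i hi] with u hu _
      exact hu
  have N2' : ∀ᵐ u : Fin 3 ⊕ Fin 3 → ℝ, ∀ i, f2 i ≠ 0 →
      (fun j => (f2 i j : ℝ)) ⬝ᵥ (u ∘ Sum.inr) ≠ 0 := by
    rw [ae_all_iff]
    intro i
    by_cases hi : f2 i = 0
    · exact Filter.Eventually.of_forall (fun u h => absurd hi h)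
    · filter_upwards [N2 i hi] with u hu _
      exact hu
  have N4' : ∀ᵐ u : Fin 3 ⊕ Fin 3 → ℝ, ∀ i, ∀ t : ℝ,
      g3 T (u ∘ Sum.inl) (u ∘ Sum.inr) ≠ fun j => t * (f i j : ℝ) := by
    rw [ae_all_iff]
    exact N4
  filter_upwards [N1', N2', N3, N4'] with u h1 h2 h3 h4
  have c1 : ContinuousAt (fun u : Fin 3 ⊕ Fin 3 → ℝ => Pat f1 σ1 (u ∘ Sum.inl)) u :=
    ModAe.pat_cont f1 σ1 (fun u => u ∘ Sum.inl) (by unfold Function.comp; fun_prop) u h1
  have c2 : ContinuousAt (fun u : Fin 3 ⊕ Fin 3 → ℝ => Pat f2 σ2 (u ∘ Sum.inr)) u :=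
    ModAe.pat_cont f2 σ2 (fun u => u ∘ Sum.inr) (by unfold Function.comp; fun_prop) u h2
  have c3 : Continuous (fun u : Fin 3 ⊕ Fin 3 → ℝ => g3 T (u ∘ Sum.inl) (u ∘ Sum.inr)) := by
    unfold g3 Function.comp
    fun_prop
  have c4 : ContinuousAt (fun u : Fin 3 ⊕ Fin 3 → ℝ => Vv f σ (g3 T (u ∘ Sum.inl) (u ∘ Sum.inr))) u :=
    ContinuousAt.comp (g := Vv f σ)
      (f := fun u : Fin 3 ⊕ Fin 3 → ℝ => g3 T (u ∘ Sum.inl) (u ∘ Sum.inr))
      (hVc n f σ _ h3 (fun i _ t => h4 i t)) c3.continuousAt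
  exact (c1.mul c2).mul (c4.min continuousAt_const)

end Pool.Agent.T6.H97.TA
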