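import Mathlib
import Pool.Agent.T6.H81.BG.Defs
import Pool.Agent.W978.QO.Stm

/-!
The number of rational points of bounded height, for all adelic anticanonical heights, on the
smooth divisors of type `(1,1,1)` in the threefold product of the projective plane: definitions
and the statements of the modules.
-/

set_option autoImplicit false

namespace Pool.Agent.T6.H97.TA

open Finset Matrix Filter Topology MeasureTheory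
open Pool.Agent.H548.WM (ht bx)
open Pool.Agent.H548.TL (g1 g2 g3 tf Sm s12 s23 Tx)
open Pool.Agent.T6.H81.BA (Cell)

/-- The coefficients of a trilinear form. -/
abbrev T3 : Type := Fin 3 → Fin 3 → Fin 3 → ℤ

/-- The determinant of the bilinear form for a given first argument. -/
noncomputable def D1 {R : Type*} [CommRing R] (T : T3) (x : Fin 3 → R) : R := (Tx T x).det

/-- The determinant of the bilinear form for a given second argument. -/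
noncomputable def D2 {R : Type*} [CommRing R] (T : T3) (y : Fin 3 → R) : R := (Tx (s12 T) y).det

/-- The determinant of the bilinear form for a given third argument. -/
noncomputable def D3 {R : Type*} [CommRing R] (T : T3) (z : Fin 3 → R) : R :=
  (Tx (s12 (s23 T)) z).det

/-- Primitive integer vectors. -/
def Pr {N : ℕ} (v : Fin N → ℤ) : Prop := univ.gcd v = 1

/-- The points of the open set of the divisor. -/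
def U3 (T : T3) (x y z : Fin 3 → ℤ) : Prop :=
  tf T x y z = 0 ∧ D1 T x ≠ 0 ∧ D2 T y ≠ 0 ∧ D3 T z ≠ 0

open Classical in
/-- The number of the points in a box with given properties of the three vectors. -/
noncomputable def Cnt (T : T3) (c1 c2 c3 : (Fin 3 → ℤ) → Prop) (A B Y : ℕ) : ℕ :=
  ((bx 3 A ×ˢ bx 3 B ×ˢ bx 3 Y).filter fun t => U3 T t.1 t.2.1 t.2.2 ∧ c1 t.1 ∧ c2 t.2.1 ∧
    c3 t.2.2).card

/-- Cells: primitive vectors in a residue class, with given signs of some linear forms. -/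
def IsCell (c : (Fin 3 → ℤ) → Prop) : Prop :=
  ∃ (n : ℕ) (f : Fin n → Fin 3 → ℤ) (σ : Fin n → Bool) (q : ℕ) (r : Fin 3 → ℤ), 1 ≤ q ∧
    ∀ v, c v ↔ Cell f σ q r v

open Classical in
/-- The pairs of primitive vectors in a box with nonzero determinants. -/
noncomputable def Pa (T : T3) (A B : ℕ) : Finset ((Fin 3 → ℤ) × (Fin 3 → ℤ)) :=
  (bx 3 A ×ˢ bx 3 B).filter fun t => Pr t.1 ∧ Pr t.2 ∧ D1 T t.1 ≠ 0 ∧ D2 T t.2 ≠ 0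

open Classical in
/-- The number of the vectors of a cell in the plane orthogonal to `w`. -/
noncomputable def pl (c : (Fin 3 → ℤ) → Prop) (w : Fin 3 → ℤ) (Y : ℕ) : ℕ :=
  ((bx 3 Y).filter fun v => w ⬝ᵥ v = 0 ∧ c v).card

/-- `F w` is the density of the cell `c` in the plane orthogonal to `w`. -/
def IsDen (c : (Fin 3 → ℤ) → Prop) (F : (Fin 3 → ℤ) → ℝ) : Prop :=
  ∀ w : Fin 3 → ℤ, w ≠ 0 →
    Tendsto (fun Y : ℕ => (pl c w Y : ℝ) / (Y : ℝ) ^ 2) atTop (𝓝 (F w))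

/-! ### Analysis -/

open Classical in
/-- Module Riem: Riemann sums. -/
def StmtRiem : Prop := ∀ (ι : Type) [Fintype ι] (h : (ι → ℝ) → ℝ) (K R : ℝ), (∀ x, |h x| ≤ K) →
  (∀ x, (∃ i, R < |x i|) → h x = 0) → (∀ᵐ x : ι → ℝ, ContinuousAt h x) →
  ∀ N : ℕ, 1 ≤ N → ∀ ε : ℝ, 0 < ε → ∃ M : ℝ, 0 < M ∧ ∀ (X : ι → ℝ), (∀ i, M ≤ X i) →
    ∀ (r : ι → ℤ) (Q : ℕ), (∀ i, R * X i ≤ Q) →
    |(∑ z ∈ (Fintype.piFinset fun _ : ι => Icc (-(Q : ℤ)) Q).filter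
        (fun z => ∀ i, (N : ℤ) ∣ z i - r i), h (fun i => (z i : ℝ) / X i)) -
      (∫ x, h x) * (∏ i, X i) / (N : ℝ) ^ Fintype.card ι| ≤ ε * ∏ i, X i

open Classical in
/-- Module Equi: averages over pairs of primitive vectors. -/
def StmtEqui : Prop := ∀ (h : (Fin 3 → ℝ) → (Fin 3 → ℝ) → ℝ) (K : ℝ), (∀ x y, |h x y| ≤ K) →
  (∀ᵐ u : Fin 3 ⊕ Fin 3 → ℝ,
    ContinuousAt (fun u : Fin 3 ⊕ Fin 3 → ℝ => h (u ∘ Sum.inl) (u ∘ Sum.inr)) u) →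
  ∀ N : ℕ, 1 ≤ N → ∀ θ : (Fin 3 → ℤ) → (Fin 3 → ℤ) → ℝ,
  (∀ x x' y y' : Fin 3 → ℤ, (∀ j, (N : ℤ) ∣ x' j - x j) → (∀ j, (N : ℤ) ∣ y' j - y j) →
    θ x' y' = θ x y) →
  ∃ κ : ℝ, ∀ ε : ℝ, 0 < ε → ∃ M : ℕ, ∀ A B : ℕ, M ≤ A → M ≤ B →
    |(∑ t ∈ (bx 3 A ×ˢ bx 3 B).filter (fun t => Pr t.1 ∧ Pr t.2), θ t.1 t.2 *
        h (fun i => (t.1 i : ℝ) / A) (fun i => (t.2 i : ℝ) / B)) -
      κ * ((A : ℝ) * B) ^ 3| ≤ ε * ((A : ℝ) * B) ^ 3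

/-- The area of the part of the plane orthogonal to `w` which lies in the cube and has the given
signs, divided by the length of `w` (computed with the projection to the first two coordinates;
`0` if the last coordinate of `w` is `0`). -/
noncomputable def Vv {n : ℕ} (f : Fin n → Fin 3 → ℤ) (σ : Fin n → Bool) (w : Fin 3 → ℝ) : ℝ :=
  |w 2|⁻¹ * (volume {s : Fin 2 → ℝ | |s 0| ≤ 1 ∧ |s 1| ≤ 1 ∧ |w 0 * s 0 + w 1 * s 1| ≤ |w 2| ∧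
    ∀ i, (0 ≤ (f i 0 : ℝ) * s 0 + f i 1 * s 1 - f i 2 * ((w 0 * s 0 + w 1 * s 1) / w 2) ↔
      σ i = true)}).toReal

/-- Module Vb: bound and homogeneity. -/
def StmtVb : Prop := ∀ (n : ℕ) (f : Fin n → Fin 3 → ℤ) (σ : Fin n → Bool) (w : Fin 3 → ℝ),
  (∀ j, Vv f σ w * |w j| ≤ 4) ∧ ∀ t : ℝ, 0 < t → Vv f σ (t • w) = t⁻¹ * Vv f σ w

/-- Module Vc: continuity. -/
def StmtVc : Prop := ∀ (n : ℕ) (f : Fin n → Fin 3 → ℤ) (σ : Fin n → Bool) (w : Fin 3 → ℝ),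
  w 2 ≠ 0 → (∀ i, f i ≠ 0 → ∀ t : ℝ, w ≠ fun j => t * (f i j : ℝ)) → ContinuousAt (Vv f σ) w

open Classical in
/-- The indicator function of a sign pattern. -/
noncomputable def Pat {n : ℕ} (f : Fin n → Fin 3 → ℤ) (σ : Fin n → Bool) (x : Fin 3 → ℝ) : ℝ :=
  if ∀ i, (0 ≤ ∑ j, (f i j : ℝ) * x j ↔ σ i = true) then 1 else 0

/-- Module Ae: continuity almost everywhere. -/
def StmtAe : Prop := ∀ T : T3, Sm ℂ T → ∀ (n n1 n2 : ℕ) (f : Fin n → Fin 3 → ℤ) (σ : Fin n → Bool)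
  (f1 : Fin n1 → Fin 3 → ℤ) (σ1 : Fin n1 → Bool) (f2 : Fin n2 → Fin 3 → ℤ) (σ2 : Fin n2 → Bool)
  (K : ℝ), ∀ᵐ u : Fin 3 ⊕ Fin 3 → ℝ, ContinuousAt (fun u : Fin 3 ⊕ Fin 3 → ℝ =>
    Pat f1 σ1 (u ∘ Sum.inl) * Pat f2 σ2 (u ∘ Sum.inr) *
      min (Vv f σ (g3 T (u ∘ Sum.inl) (u ∘ Sum.inr))) K) u

/-! ### Planes -/

/-- Module Dens: the density of a cell in a plane. -/
def StmtDens : Prop := ∀ (n : ℕ) (f : Fin n → Fin 3 → ℤ) (σ : Fin n → Bool) (q : ℕ)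
  (r : Fin 3 → ℤ), 1 ≤ q → ∃ c0 : ℝ, 0 ≤ c0 ∧ ∀ w : Fin 3 → ℤ, w 2 ≠ 0 →
    Tendsto (fun Y : ℕ => (pl (Cell f σ q r) w Y : ℝ) / (Y : ℝ) ^ 2) atTop
      (𝓝 (c0 * (if (q : ℤ) * univ.gcd w ∣ w ⬝ᵥ r then ((univ.gcd w : ℤ) : ℝ) else 0) *
        Vv f σ (fun j => (w j : ℝ))))

/-! ### Sums over pairs -/

/-- Module Avg: the average of the sum of powers of divisors. -/
def StmtAvg : Prop := ∀ b : T3, (∃ p : Fin 3 → ℂ, (Matrix.of (W978.QN.mp b p)).det ≠ 0) →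
  ∃ C : ℝ, 0 < C ∧ ∀ X : ℕ, 1 ≤ X →
    ∑ p ∈ (W978.QN.bx X).filter (fun p => W978.QN.dm (W978.QN.mp b p) ≠ 0),
      ∑ g ∈ (W978.QN.dm (W978.QN.mp b p)).natAbs.divisors, (g : ℝ) ^ (-(3 / 4) : ℝ) ≤
      C * (X : ℝ) ^ 3

open Classical in
/-- Module Q2: the sum over the second point, large content or small norm (a variant of
`W978.QO.sum_q2`). -/
def StmtQ2 : Prop := ∀ (A K : ℕ) (_ : 1 ≤ A) (CA CS : ℝ) (_ : 0 < CA) (_ : 0 < CS)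
    (M : Fin 3 → Fin 3 → ℤ) (X₁ X₂ : ℕ) (_ : 1 ≤ X₁) (_ : 1 ≤ X₂)
    (_ : W978.QN.dm M ≠ 0)
    (_ : ∀ (g : ℤ) (q q' : Fin 3 → ℤ), (∀ k, g ∣ W978.QN.wv M q k) →
      (∀ k, g ∣ W978.QN.wv M q' k) → ∀ i, g ∣ K * W978.QN.cp q q' i)
    (_ : ∀ q ∈ W978.QN.bx X₂, ∀ k, 2 * |W978.QN.wv M q k| ≤ A * X₁ * X₂)
    (_ : ∀ (Y g : ℕ), 1 ≤ g → g ≤ Y → Y ≤ A * X₁ * X₂ →
      ∀ Q : Finset (Fin 3 → ℤ),
      (∀ q ∈ Q, W978.QN.Prim q ∧ W978.QN.nm q ≤ X₂ ∧ ∀ k, |W978.QN.wv M q k| ≤ Y) →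
      (∀ q ∈ Q, ∀ q' ∈ Q, ∀ i, (g : ℤ) ∣ K * W978.QN.cp q q' i) →
      (Q.card : ℝ) ≤ CA * (Nat.log 2 X₂ + 1) * (1 + Y * X₂ / (X₁ * g)) ^ 2)
    (_ : ∀ (Y g : ℕ), 1 ≤ g →
      ∀ Q : Finset (Fin 3 → ℤ),
      (∀ q ∈ Q, W978.QN.Prim q ∧ W978.QN.nm q ≤ X₂ ∧ ∀ k, |W978.QN.wv M q k| ≤ Y) →
      (∀ q ∈ Q, ∀ q' ∈ Q, ∀ i, (g : ℤ) ∣ K * W978.QN.cp q q' i) →
      (Q.card : ℝ) ≤ CS * ((X₂ : ℝ) + g) * (1 + Y / (X₁ * g)) ^ 2)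
    (E : ℝ) (_ : 1 ≤ E) (_ : ((Nat.log 2 X₂ : ℕ) : ℝ) + 1 ≤ E)
    (_ : ((Nat.log 2 (A * X₁ * X₂) : ℕ) : ℝ) + 1 ≤ E)
    (_ : (((W978.QN.dm M).natAbs.divisors.card : ℕ) : ℝ) ≤ E)
    (s : ℝ) (_ : 1 ≤ s) (_ : s ^ 4 = X₂) (G : ℕ) (Z : ℝ) (_ : 0 ≤ Z),
    ∑ q ∈ (W978.QN.bx X₂).filter (fun q => W978.QN.Prim q ∧ G ≤ W978.QN.ct (W978.QN.wv M q) ∧
        (W978.QN.nm (W978.QN.wv M q) : ℝ) ≤ Z),
      ((W978.QN.ct (W978.QN.wv M q) : ℝ) / (W978.QN.nm (W978.QN.wv M q) : ℝ)) ≤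
    32 * CS * (1 + A) * ((X₂ : ℝ) / (X₁ : ℝ) ^ 2) * Z *
      (∑ g ∈ (W978.QN.dm M).natAbs.divisors.filter (fun g => G ≤ g), (1 / (g : ℝ))) +
    E ^ 3 * ((8 * A * CA + 16 * CS) * (1 + (X₂ : ℝ) ^ 2 / (X₁ * s)))

open Classical in
/-- Module Tail: pairs for which the content is large or the norm is small. -/
def StmtTail : Prop := ∀ T : T3, Sm ℂ T → ∀ ε : ℝ, 0 < ε → ∃ (G M : ℕ) (δ : ℝ), 0 < δ ∧
  ∀ A B : ℕ, M ≤ A → M ≤ B →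
    ∑ t ∈ (Pa T A B).filter (fun t => (G : ℤ) < univ.gcd (g3 T t.1 t.2) ∨
        (ht (g3 T t.1 t.2) : ℝ) < δ * ((A : ℝ) * B)),
      ((univ.gcd (g3 T t.1 t.2) : ℤ) : ℝ) / (ht (g3 T t.1 t.2) : ℝ) ≤ ε * ((A : ℝ) * B) ^ 2

open Classical in
/-- Module Zer: zeros of determinants and bilinear forms. -/
def StmtZer : Prop := ∀ T : T3, Sm ℂ T → ∃ C : ℝ, 0 ≤ C ∧ ∀ A B : ℕ, 1 ≤ A → 1 ≤ B →
  ((((bx 3 A).filter fun x => D1 T x = 0).card : ℕ) : ℝ) ≤ C * (A : ℝ) ^ 2 ∧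
  ((((bx 3 A ×ˢ bx 3 B).filter fun t => g3 T t.1 t.2 2 = 0).card : ℕ) : ℝ) ≤
    C * ((A : ℝ) ^ 2 * (B : ℝ) ^ 3 + (A : ℝ) ^ 3 * (B : ℝ) ^ 2)

open Classical in
/-- Module Reg: the sum of the densities. -/
def StmtReg : Prop := ∀ T : T3, Sm ℂ T → ∀ c1 c2 c3 : (Fin 3 → ℤ) → Prop, IsCell c1 → IsCell c2 →
  IsCell c3 → ∀ F : (Fin 3 → ℤ) → ℝ, IsDen c3 F → ∃ κ : ℝ, ∀ ε : ℝ, 0 < ε → ∃ M : ℕ,
    ∀ A B : ℕ, M ≤ A → M ≤ B →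
      |(∑ t ∈ (Pa T A B).filter (fun t => c1 t.1 ∧ c2 t.2), F (g3 T t.1 t.2)) -
        κ * ((A : ℝ) * B) ^ 2| ≤ ε * ((A : ℝ) * B) ^ 2

/-- Module Err: densities exist, and the sum of the error terms is small. -/
def StmtErr : Prop := ∀ T : T3, Sm ℂ T → ∀ c : (Fin 3 → ℤ) → Prop, IsCell c →
  ∃ F : (Fin 3 → ℤ) → ℝ, IsDen c F ∧ ∀ ε : ℝ, 0 < ε → ∃ M : ℕ,
    ∀ A B Y : ℕ, M ≤ A → M ≤ B → ((A : ℝ) * B) ^ (1 + ε) ≤ (Y : ℝ) ^ 2 →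
      ∑ t ∈ Pa T A B, |(pl c (g3 T t.1 t.2) Y : ℝ) - F (g3 T t.1 t.2) * (Y : ℝ) ^ 2| ≤
        ε * ((A : ℝ) * B * Y) ^ 2

/-- Module Few: points with `D3 = 0`. -/
def StmtFew : Prop := ∀ T : T3, Sm ℂ T → ∀ ε : ℝ, 0 < ε → ∃ M : ℕ,
    ∀ A B Y : ℕ, M ≤ A → M ≤ B → ((A : ℝ) * B) ^ (1 + ε) ≤ (Y : ℝ) ^ 2 →
      ∑ t ∈ Pa T A B, (pl (fun z => Pr z ∧ D3 T z = 0) (g3 T t.1 t.2) Y : ℝ) ≤
        ε * ((A : ℝ) * B * Y) ^ 2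

/-- Module Box: the asymptotic formula in boxes, away from the centre. -/
def StmtBox : Prop := ∀ T : T3, Sm ℂ T → ∀ c1 c2 c3 : (Fin 3 → ℤ) → Prop, IsCell c1 → IsCell c2 →
  IsCell c3 → ∃ κ : ℝ, ∀ ε : ℝ, 0 < ε → ∃ M : ℕ,
    ∀ A B Y : ℕ, M ≤ A → M ≤ B → ((A : ℝ) * B) ^ (1 + ε) ≤ (Y : ℝ) ^ 2 →
      |(Cnt T c1 c2 c3 A B Y : ℝ) - κ * ((A : ℝ) * B * Y) ^ 2| ≤ ε * ((A : ℝ) * B * Y) ^ 2

/-- Module Ub: the sharp upper bound in boxes. -/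
def StmtUb : Prop := ∀ T : T3, Sm ℂ T → ∃ C : ℝ, 0 ≤ C ∧ ∀ A B Y : ℕ, 1 ≤ A → 1 ≤ B → 1 ≤ Y →
  (Cnt T Pr Pr Pr A B Y : ℝ) ≤ C * ((A : ℝ) * B * Y) ^ 2

/-- Module Br: consequences of smoothness. -/
def StmtBr : Prop := ∀ T : T3, Sm ℂ T → W978.QN.Rk2 T ∧
  ∃ p : Fin 3 → ℂ, (Matrix.of (W978.QN.mp T p)).det ≠ 0

/-- Module Hy: from boxes to heights, with the asymptotic formula for boxes only away from the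
centre. -/
def StmtHy : Prop := ∀ (α : Type) (Q : Set α) (g : Fin 3 → α → ℕ), (∀ t ∈ Q, ∀ v, 1 ≤ g v t) →
  (∀ X : Fin 3 → ℕ, {t | t ∈ Q ∧ ∀ v, g v t ≤ X v}.Finite) → ∀ κ C : ℝ,
  (∀ X : Fin 3 → ℕ, (∀ v, 1 ≤ X v) →
    ({t | t ∈ Q ∧ ∀ v, g v t ≤ X v}.ncard : ℝ) ≤ C * ∏ v, (X v : ℝ) ^ 2) →
  (∀ ε : ℝ, 0 < ε → ∃ M : ℕ, ∀ X : Fin 3 → ℕ, (∀ v, M ≤ X v) →
    (∃ v, (∏ u ∈ univ.erase v, (X u : ℝ)) ^ (1 + ε) ≤ (X v : ℝ) ^ 2) →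
    |({t | t ∈ Q ∧ ∀ v, g v t ≤ X v}.ncard : ℝ) - κ * ∏ v, (X v : ℝ) ^ 2| ≤
      ε * ∏ v, (X v : ℝ) ^ 2) →
  Tendsto (fun B : ℝ => ({t | t ∈ Q ∧ ∏ v, (g v t : ℝ) ^ 2 ≤ B}.ncard : ℝ) /
    (B * Real.log B ^ 2)) atTop (𝓝 (κ / 2))

end Pool.Agent.T6.H97.TA
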