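import Mathlib
import Pool.Agent.T6.H97.TA.Defs
import Pool.Agent.W737.QO.Avg
import Pool.Agent.W899.QO.Rho

/-!
Module Avg: the average of the sum of powers of divisors.
-/

set_option autoImplicit false

namespace Pool.Agent.T6.H97.TA

namespace ModAvg

open Finset Pool.Agent.W978.QN Pool.Agent.W978.QO Pool.Agent.W737.QO.Avg

/-- The weight. -/
noncomputable def hw (d : ℕ) : ℝ := (d : ℝ) ^ (-(3 / 4) : ℝ)

theorem hw_nonneg (d : ℕ) : 0 ≤ hw d := Real.rpow_nonneg (Nat.cast_nonneg d) _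

theorem hsum32 : Summable (fun e : ℕ => (1 / (e : ℝ) ^ (3 / 2 : ℝ))) :=
  Real.summable_one_div_nat_rpow.mpr (by norm_num)

theorem sqf_bound' (n : ℕ) : ∑ g ∈ n.divisors, hw g ≤
    (∑' e : ℕ, (1 / (e : ℝ) ^ (3 / 2 : ℝ))) * ∑ d ∈ n.divisors.filter Squarefree, hw d := by
  classical
  choose A B hAB using fun g : ℕ => Nat.sq_mul_squarefree g
  have h1 : ∑ g ∈ n.divisors, hw g =
      ∑ g ∈ n.divisors, hw (A g) * (1 / (B g : ℝ) ^ (3 / 2 : ℝ)) := by
    refine Finset.sum_congr rfl fun g _ => ?_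
    have e : (g : ℝ) = (B g : ℝ) ^ 2 * (A g : ℝ) := by exact_mod_cast (hAB g).1.symm
    unfold hw
    rw [e, Real.mul_rpow (by positivity) (by positivity), ← Real.rpow_natCast (B g : ℝ) 2,
      ← Real.rpow_mul (by positivity), mul_comm, one_div, ← Real.rpow_neg (by positivity)]
    norm_num
  have hinj : Set.InjOn (fun g => (A g, B g)) (n.divisors : Set ℕ) := by
    intro g _ g' _ h
    simp only [Prod.mk.injEq] at h
    rw [← (hAB g).1, ← (hAB g').1, h.1, h.2]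
  calc ∑ g ∈ n.divisors, hw g
      = ∑ z ∈ n.divisors.image (fun g => (A g, B g)), hw z.1 * (1 / (z.2 : ℝ) ^ (3 / 2 : ℝ)) := by
        rw [h1, Finset.sum_image hinj]
    _ ≤ ∑ z ∈ (n.divisors.filter Squarefree) ×ˢ (Icc 1 n),
          hw z.1 * (1 / (z.2 : ℝ) ^ (3 / 2 : ℝ)) := by
        apply Finset.sum_le_sum_of_subset_of_nonneg
        · intro z hz
          rw [Finset.mem_image] at hz
          obtain ⟨g, hg, rfl⟩ := hz
          rw [Nat.mem_divisors] at hg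
          have hg0 : g ≠ 0 := fun h => hg.2 (by rw [h] at hg; exact Nat.eq_zero_of_zero_dvd hg.1)
          have e := (hAB g).1
          have hB0 : B g ≠ 0 := by
            intro h
            rw [h] at e
            simp at e
            exact hg0 e.symm
          rw [Finset.mem_product, Finset.mem_filter, Nat.mem_divisors, Finset.mem_Icc]
          refine ⟨⟨⟨(Dvd.intro_left _ e).trans hg.1, hg.2⟩, (hAB g).2⟩,
            Nat.one_le_iff_ne_zero.2 hB0, ?_⟩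
          have h3 : B g ∣ g := ⟨B g * A g, by rw [← mul_assoc, ← sq]; exact e.symm⟩
          exact Nat.le_of_dvd (Nat.pos_of_ne_zero hg.2) (h3.trans hg.1)
        · intro z _ _
          have := hw_nonneg z.1
          positivity
    _ = (∑ d ∈ n.divisors.filter Squarefree, hw d) *
          ∑ m ∈ Icc 1 n, (1 / (m : ℝ) ^ (3 / 2 : ℝ)) := by
        rw [Finset.sum_mul_sum, Finset.sum_product]
    _ ≤ (∑ d ∈ n.divisors.filter Squarefree, hw d) * ∑' e : ℕ, (1 / (e : ℝ) ^ (3 / 2 : ℝ)) := by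
        apply mul_le_mul_of_nonneg_left _ (Finset.sum_nonneg fun i _ => hw_nonneg i)
        exact hsum32.sum_le_tsum _ fun i _ => by positivity
    _ = _ := mul_comm _ _

theorem term_bound' (C1 C2 : ℝ) (hC1 : 0 < C1)
    (hC : ∀ n : ℕ, 1 ≤ n → (n.divisors.card : ℝ) ≤ C2 * (n : ℝ) ^ (1 / 4 : ℝ))
    (X d : ℕ) (hd : 1 ≤ d) (N : ℝ) (hN : N ≤ C1 * (3 : ℝ) ^ d.primeFactors.card * (d : ℝ) ^ 2) :
    hw d * (N * (4 * X / d) ^ 3) ≤
      64 * C1 * C2 ^ 2 * (X : ℝ) ^ 3 * (1 / (d : ℝ) ^ (5 / 4 : ℝ)) := by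
  have hd0 : (0 : ℝ) < d := by exact_mod_cast hd
  have h1 := omega_bound C2 hC d hd
  have hw0 := hw_nonneg d
  have h3 : hw d * ((d : ℝ) ^ (1 / 2 : ℝ) * (d : ℝ) ^ 2 / (d : ℝ) ^ 3) =
      1 / (d : ℝ) ^ (5 / 4 : ℝ) := by
    unfold hw
    have e1 : (d : ℝ) ^ (1 / 2 : ℝ) * (d : ℝ) ^ 2 / (d : ℝ) ^ 3 = (d : ℝ) ^ (-(1 / 2) : ℝ) := by
      rw [← Real.rpow_natCast (d : ℝ) 2, ← Real.rpow_natCast (d : ℝ) 3, ← Real.rpow_add hd0,
        ← Real.rpow_sub hd0]
      norm_num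
    rw [e1, ← Real.rpow_add hd0, one_div ((d : ℝ) ^ (5 / 4 : ℝ)), ← Real.rpow_neg hd0.le]
    norm_num
  calc hw d * (N * (4 * X / d) ^ 3)
      ≤ hw d * ((C1 * (C2 ^ 2 * (d : ℝ) ^ (1 / 2 : ℝ)) * (d : ℝ) ^ 2) *
        (4 * X / d) ^ 3) := by
        gcongr
        refine hN.trans ?_
        gcongr
    _ = 64 * C1 * C2 ^ 2 * (X : ℝ) ^ 3 *
          (hw d * ((d : ℝ) ^ (1 / 2 : ℝ) * (d : ℝ) ^ 2 / (d : ℝ) ^ 3)) := by
        field_simp
        ring
    _ = 64 * C1 * C2 ^ 2 * (X : ℝ) ^ 3 * (1 / (d : ℝ) ^ (5 / 4 : ℝ)) := by rw [h3]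

theorem main' (hrho : S_RHO) : StmtAvg := by
  intro b hdet
  classical
  obtain ⟨C1, hC1, hrho'⟩ := hrho b hdet
  obtain ⟨C2, hC2, hdiv2⟩ := Pool.Agent.Helper112.divisor_bound (1/4) (by norm_num)
  have hsum : Summable (fun e : ℕ => (1 / (e:ℝ) ^ (5/4 : ℝ))) :=
    Real.summable_one_div_nat_rpow.mpr (by norm_num)
  obtain ⟨D, hD⟩ : ∃ D : ℝ, D = ∑' e : ℕ, (1 / (e:ℝ) ^ (5/4 : ℝ)) := ⟨_, rfl⟩
  have hD0 : 0 ≤ D := by rw [hD]; exact tsum_nonneg (fun e => by positivity)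
  obtain ⟨S0, hS0⟩ : ∃ S0 : ℝ, S0 = ∑' e : ℕ, (1 / (e:ℝ) ^ (3/2 : ℝ)) := ⟨_, rfl⟩
  have hS00 : 0 ≤ S0 := by rw [hS0]; exact tsum_nonneg (fun e => by positivity)
  obtain ⟨M, hM⟩ : ∃ M : ℝ, M = 3 * (mxb b : ℝ) := ⟨_, rfl⟩
  have hM0 : 0 ≤ M := by rw [hM]; positivity
  obtain ⟨c, hc⟩ : ∃ c : ℝ, c = C2 * (6 * M ^ 3) ^ (1/4:ℝ) := ⟨_, rfl⟩
  have hc0 : 0 ≤ c := by rw [hc]; positivity
  refine ⟨S0 * (64 * C1 * C2 ^ 2 * D + 27 * c) + 1, by positivity, ?_⟩
  intro X hX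
  have hX0 : (0 : ℝ) < X := by exact_mod_cast hX
  have hp : ∀ p ∈ (bx X).filter (fun p => dm (mp b p) ≠ 0),
      ∑ g ∈ (dm (mp b p)).natAbs.divisors, hw g ≤
      S0 * (∑ d ∈ (Icc 1 X).filter Squarefree,
        (if (d : ℤ) ∣ dm (mp b p) then hw d else 0) + c) := by
    intro p hpP
    rw [Finset.mem_filter] at hpP
    obtain ⟨n, hn⟩ : ∃ n : ℕ, n = (dm (mp b p)).natAbs := ⟨_, rfl⟩
    rw [← hn]
    have hn0 : n ≠ 0 := by rw [hn, Int.natAbs_ne_zero]; exact hpP.2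
    refine le_trans (sqf_bound' n) ?_
    rw [← hS0]
    apply mul_le_mul_of_nonneg_left _ hS00
    rw [← Finset.sum_filter_add_sum_filter_not (n.divisors.filter Squarefree) (fun d => d ≤ X)]
    refine add_le_add ?_ ?_
    · rw [← Finset.sum_filter]
      apply Finset.sum_le_sum_of_subset_of_nonneg
      · intro d hd
        rw [mem_filter, mem_filter, Nat.mem_divisors] at hd
        rw [mem_filter, mem_filter, mem_Icc]
        refine ⟨⟨⟨Nat.pos_of_dvd_of_pos hd.1.1.1 (Nat.pos_of_ne_zero hn0), hd.2⟩, hd.1.2⟩, ?_⟩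
        rw [← Int.dvd_natAbs, ← hn]
        exact_mod_cast hd.1.1.1
      · intro i _ _
        exact hw_nonneg i
    · have hnle : (n : ℝ) ≤ 6 * (M * X) ^ 3 := by
        have h1 := dm_le (M := mp b p) (Z := 3 * mxb b * X) (by positivity)
          (fun k j => mp_le b hpP.1 k j)
        have h2 : ((n : ℤ) : ℝ) = |((dm (mp b p) : ℤ) : ℝ)| := by
          rw [hn, Int.natCast_natAbs]
          push_cast
          rfl
        have h3 : |((dm (mp b p) : ℤ) : ℝ)| ≤ 6 * (3 * (mxb b : ℝ) * X) ^ 3 := by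
          exact_mod_cast h1
        rw [hM]
        calc (n : ℝ) = ((n : ℤ) : ℝ) := by push_cast; rfl
          _ ≤ _ := by rw [h2]; exact h3
      have hpow : (n : ℝ) ^ (1/4 : ℝ) ≤ (6 * M ^ 3) ^ (1/4 : ℝ) * (X : ℝ) ^ (3/4 : ℝ) := by
        calc (n : ℝ) ^ (1/4 : ℝ) ≤ (6 * (M * X) ^ 3) ^ (1/4 : ℝ) :=
              Real.rpow_le_rpow (by positivity) hnle (by norm_num)
          _ = ((6 * M ^ 3) * (X : ℝ) ^ 3) ^ (1/4 : ℝ) := by congr 1; ring
          _ = (6 * M ^ 3) ^ (1/4 : ℝ) * ((X : ℝ) ^ 3) ^ (1/4 : ℝ) :=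
              Real.mul_rpow (by positivity) (by positivity)
          _ = (6 * M ^ 3) ^ (1/4 : ℝ) * (X : ℝ) ^ (3/4 : ℝ) := by
              congr 1
              rw [← Real.rpow_natCast (X : ℝ) 3, ← Real.rpow_mul hX0.le]
              norm_num
      have hwX : ∀ d : ℕ, X < d → hw d ≤ (X : ℝ) ^ (-(3 / 4) : ℝ) := by
        intro d hd
        unfold hw
        exact Real.rpow_le_rpow_of_nonpos hX0 (by exact_mod_cast hd.le) (by norm_num)
      calc ∑ d ∈ (n.divisors.filter Squarefree).filter (fun d => ¬ d ≤ X), hw d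
          ≤ ∑ d ∈ (n.divisors.filter Squarefree).filter (fun d => ¬ d ≤ X),
            (X : ℝ) ^ (-(3 / 4) : ℝ) := by
            refine Finset.sum_le_sum fun d hd => hwX d (not_le.1 (mem_filter.1 hd).2)
        _ = (((n.divisors.filter Squarefree).filter (fun d => ¬ d ≤ X)).card : ℝ) *
              (X : ℝ) ^ (-(3 / 4) : ℝ) := by rw [Finset.sum_const, nsmul_eq_mul]
        _ ≤ (n.divisors.card : ℝ) * (X : ℝ) ^ (-(3 / 4) : ℝ) := by
            apply mul_le_mul_of_nonneg_right _ (by positivity)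
            exact_mod_cast Finset.card_le_card ((filter_subset _ _).trans (filter_subset _ _))
        _ ≤ (C2 * ((6 * M ^ 3) ^ (1/4 : ℝ) * (X : ℝ) ^ (3/4 : ℝ))) *
            (X : ℝ) ^ (-(3 / 4) : ℝ) := by
            apply mul_le_mul_of_nonneg_right _ (by positivity)
            exact le_trans (hdiv2 n (Nat.one_le_iff_ne_zero.2 hn0))
              (mul_le_mul_of_nonneg_left hpow hC2.le)
        _ = c := by
            rw [hc]
            have e1 : (X : ℝ) ^ (3/4 : ℝ) * (X : ℝ) ^ (-(3 / 4) : ℝ) = 1 := by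
              rw [← Real.rpow_add hX0]
              norm_num
            calc (C2 * ((6 * M ^ 3) ^ (1/4 : ℝ) * (X : ℝ) ^ (3/4 : ℝ))) * (X : ℝ) ^ (-(3 / 4) : ℝ)
                = C2 * (6 * M ^ 3) ^ (1/4 : ℝ) *
                  ((X : ℝ) ^ (3/4 : ℝ) * (X : ℝ) ^ (-(3 / 4) : ℝ)) := by ring
              _ = _ := by rw [e1, mul_one]
  have hd : ∀ d ∈ (Icc 1 X).filter Squarefree,
      ∑ p ∈ (bx X).filter (fun p => dm (mp b p) ≠ 0),
        (if (d : ℤ) ∣ dm (mp b p) then hw d else 0) ≤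
      64 * C1 * C2 ^ 2 * (X : ℝ) ^ 3 * (1 / (d : ℝ) ^ (5 / 4 : ℝ)) := by
    intro d hd
    rw [mem_filter, mem_Icc] at hd
    calc ∑ p ∈ (bx X).filter (fun p => dm (mp b p) ≠ 0),
        (if (d : ℤ) ∣ dm (mp b p) then hw d else 0)
        ≤ ∑ p ∈ bx X, (if (d : ℤ) ∣ dm (mp b p) then hw d else 0) := by
          apply Finset.sum_le_sum_of_subset_of_nonneg (filter_subset _ _)
          intro p _ _
          split
          · exact hw_nonneg d
          · exact le_refl _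
      _ = hw d * (((bx X).filter (fun p => (d : ℤ) ∣ dm (mp b p))).card : ℝ) := by
          rw [← Finset.sum_filter, Finset.sum_const, nsmul_eq_mul, mul_comm]
      _ ≤ hw d * ((Nat.card {x : Fin 3 → ZMod d // (Matrix.of (mp b x)).det = 0} : ℝ) *
            (4 * X / d) ^ 3) := by
          apply mul_le_mul_of_nonneg_left (box_count b X d hd.1.1 hd.1.2) (hw_nonneg d)
      _ ≤ _ := term_bound' C1 C2 hC1 hdiv2 X d hd.1.1 _ (hrho' d hd.1.1 hd.2)
  have hDle : ∑ d ∈ (Icc 1 X).filter Squarefree, (1 / (d : ℝ) ^ (5 / 4 : ℝ)) ≤ D := by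
    rw [hD]
    exact hsum.sum_le_tsum _ (fun i _ => by positivity)
  calc ∑ p ∈ (bx X).filter (fun p => dm (mp b p) ≠ 0),
      ∑ g ∈ (dm (mp b p)).natAbs.divisors, (g : ℝ) ^ (-(3 / 4) : ℝ)
      ≤ ∑ p ∈ (bx X).filter (fun p => dm (mp b p) ≠ 0),
        S0 * (∑ d ∈ (Icc 1 X).filter Squarefree,
        (if (d : ℤ) ∣ dm (mp b p) then hw d else 0) + c) := Finset.sum_le_sum hp
    _ = S0 * (∑ d ∈ (Icc 1 X).filter Squarefree,
        ∑ p ∈ (bx X).filter (fun p => dm (mp b p) ≠ 0),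
        (if (d : ℤ) ∣ dm (mp b p) then hw d else 0) +
        (((bx X).filter (fun p => dm (mp b p) ≠ 0)).card : ℝ) * c) := by
        rw [← Finset.mul_sum, Finset.sum_add_distrib, Finset.sum_comm, Finset.sum_const,
          nsmul_eq_mul]
    _ ≤ S0 * (∑ d ∈ (Icc 1 X).filter Squarefree,
          64 * C1 * C2 ^ 2 * (X : ℝ) ^ 3 * (1 / (d : ℝ) ^ (5 / 4 : ℝ)) +
          27 * (X : ℝ) ^ 3 * c) := by
        apply mul_le_mul_of_nonneg_left _ hS00
        apply add_le_add (Finset.sum_le_sum hd)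
        apply mul_le_mul_of_nonneg_right _ hc0
        refine le_trans ?_ (card_bx_le hX)
        exact_mod_cast Finset.card_le_card (filter_subset _ _)
    _ ≤ S0 * (64 * C1 * C2 ^ 2 * (X : ℝ) ^ 3 * D + 27 * (X : ℝ) ^ 3 * c) := by
        rw [← Finset.mul_sum]
        gcongr
    _ ≤ (S0 * (64 * C1 * C2 ^ 2 * D + 27 * c) + 1) * (X : ℝ) ^ 3 := by
        have : (0 : ℝ) ≤ (X : ℝ) ^ 3 := by positivity
        nlinarith

end ModAvg

theorem avg : StmtAvg := ModAvg.main' Pool.Agent.W899.QO.rhoThm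

end Pool.Agent.T6.H97.TA
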