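import Mathlib
import Pool.Agent.T6.H97.TA.Defs

/-!
Symmetries: exchange of arguments.
-/

set_option autoImplicit false

namespace Pool.Agent.T6.H97.TA

open Finset Matrix Filter Topology MeasureTheory
open Pool.Agent.H548.WM (ht bx mem_bx)
open Pool.Agent.H548.TL (g1 g2 g3 tf Sm s12 s23 Tx tf_s12 tf_s23)

variable {R : Type*} [CommRing R]

theorem D1_s12 (T : T3) (y : Fin 3 → R) : D1 (s12 T) y = D2 T y := rfl

theorem D2_s12 (T : T3) (x : Fin 3 → R) : D2 (s12 T) x = D1 T x := rfl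

theorem Tx_tr (T : T3) (z : Fin 3 → R) : Tx (s23 T) z = (Tx T z)ᵀ := by
  ext i j
  unfold Tx s23
  rfl

theorem D3_s12 (T : T3) (z : Fin 3 → R) : D3 (s12 T) z = D3 T z := by
  unfold D3
  rw [← det_transpose (Tx (s12 (s23 T)) z)]
  congr 1

theorem D1_s23 (T : T3) (x : Fin 3 → R) : D1 (s23 T) x = D1 T x := by
  unfold D1
  rw [Tx_tr, det_transpose]

theorem D2_s23 (T : T3) (z : Fin 3 → R) : D2 (s23 T) z = D3 T z := rfl

theorem D3_s23 (T : T3) (y : Fin 3 → R) : D3 (s23 T) y = D2 T y := rfl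

theorem U3_s12 (T : T3) (x y z : Fin 3 → ℤ) : U3 (s12 T) y x z ↔ U3 T x y z := by
  unfold U3
  rw [tf_s12, D1_s12, D2_s12, D3_s12]
  tauto

theorem U3_s23 (T : T3) (x y z : Fin 3 → ℤ) : U3 (s23 T) x z y ↔ U3 T x y z := by
  unfold U3
  rw [tf_s23, D1_s23, D2_s23, D3_s23]
  tauto

theorem Cnt_s12 (T : T3) (c1 c2 c3 : (Fin 3 → ℤ) → Prop) (A B Y : ℕ) :
    Cnt (s12 T) c2 c1 c3 B A Y = Cnt T c1 c2 c3 A B Y := by
  classical
  unfold Cnt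
  refine Finset.card_bij (fun t _ => (t.2.1, t.1, t.2.2)) ?_ ?_ ?_
  · intro t ht
    rw [mem_filter, mem_product, mem_product] at ht
    rw [mem_filter, mem_product, mem_product]
    obtain ⟨⟨h1, h2, h3⟩, h4, h5, h6, h7⟩ := ht
    exact ⟨⟨h2, h1, h3⟩, (U3_s12 T _ _ _).1 h4, h6, h5, h7⟩
  · intro t _ t' _ h
    simp only [Prod.mk.injEq] at h
    exact Prod.ext h.2.1 (Prod.ext h.1 h.2.2)
  · intro t ht
    rw [mem_filter, mem_product, mem_product] at ht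
    obtain ⟨⟨h1, h2, h3⟩, h4, h5, h6, h7⟩ := ht
    refine ⟨(t.2.1, t.1, t.2.2), ?_, rfl⟩
    rw [mem_filter, mem_product, mem_product]
    exact ⟨⟨h2, h1, h3⟩, (U3_s12 T _ _ _).2 h4, h6, h5, h7⟩

theorem Cnt_s23 (T : T3) (c1 c2 c3 : (Fin 3 → ℤ) → Prop) (A B Y : ℕ) :
    Cnt (s23 T) c1 c3 c2 A Y B = Cnt T c1 c2 c3 A B Y := by
  classical
  unfold Cnt
  refine Finset.card_bij (fun t _ => (t.1, t.2.2, t.2.1)) ?_ ?_ ?_
  · intro t ht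
    rw [mem_filter, mem_product, mem_product] at ht
    rw [mem_filter, mem_product, mem_product]
    obtain ⟨⟨h1, h2, h3⟩, h4, h5, h6, h7⟩ := ht
    exact ⟨⟨h1, h3, h2⟩, (U3_s23 T _ _ _).1 h4, h5, h7, h6⟩
  · intro t _ t' _ h
    simp only [Prod.mk.injEq] at h
    exact Prod.ext h.1 (Prod.ext h.2.2 h.2.1)
  · intro t ht
    rw [mem_filter, mem_product, mem_product] at ht
    obtain ⟨⟨h1, h2, h3⟩, h4, h5, h6, h7⟩ := ht
    refine ⟨(t.1, t.2.2, t.2.1), ?_, rfl⟩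
    rw [mem_filter, mem_product, mem_product]
    exact ⟨⟨h1, h3, h2⟩, (U3_s23 T _ _ _).2 h4, h5, h7, h6⟩

theorem Cnt_mono (T : T3) {c1 c2 c3 d1 d2 d3 : (Fin 3 → ℤ) → Prop} (h1 : ∀ v, c1 v → d1 v)
    (h2 : ∀ v, c2 v → d2 v) (h3 : ∀ v, c3 v → d3 v) (A B Y : ℕ) :
    Cnt T c1 c2 c3 A B Y ≤ Cnt T d1 d2 d3 A B Y := by
  classical
  unfold Cnt
  apply Finset.card_le_card
  intro t ht
  rw [mem_filter] at ht ⊢
  obtain ⟨h4, h5, h6, h7, h8⟩ := ht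
  exact ⟨h4, h5, h1 _ h6, h2 _ h7, h3 _ h8⟩

theorem IsCell.pr {c : (Fin 3 → ℤ) → Prop} (hc : IsCell c) (v : Fin 3 → ℤ) (h : c v) : Pr v := by
  obtain ⟨n, f, σ, q, r, _, hh⟩ := hc
  exact ((hh v).1 h).1

end Pool.Agent.T6.H97.TA
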