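import Mathlib
import Pool.Agent.T6.H97.TA.Sym

/-!
Module Box: the asymptotic formula in boxes, away from the centre.
-/

set_option autoImplicit false

namespace Pool.Agent.T6.H97.TA

open Finset Matrix Filter Topology MeasureTheory
open Pool.Agent.H548.WM (ht bx mem_bx)
open Pool.Agent.H548.TL (g1 g2 g3 tf Sm s12 s23 Tx tf_g3)

namespace ModBox

open Classical in
/-- The number of the vectors of `c` in the plane with nonzero determinant. -/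
noncomputable def pn (T : T3) (c : (Fin 3 → ℤ) → Prop) (w : Fin 3 → ℤ) (Y : ℕ) : ℕ :=
  ((bx 3 Y).filter fun v => w ⬝ᵥ v = 0 ∧ c v ∧ D3 T v ≠ 0).card

theorem cnt_eq (T : T3) {c1 c2 c3 : (Fin 3 → ℤ) → Prop} (h1 : ∀ v, c1 v → Pr v)
    (h2 : ∀ v, c2 v → Pr v) (A B Y : ℕ) [DecidablePred fun t : (Fin 3 → ℤ) × (Fin 3 → ℤ) =>
      c1 t.1 ∧ c2 t.2] :
    Cnt T c1 c2 c3 A B Y = ∑ t ∈ (Pa T A B).filter (fun t => c1 t.1 ∧ c2 t.2),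
      pn T c3 (g3 T t.1 t.2) Y := by
  classical
  unfold Cnt pn
  rw [← Finset.card_sigma]
  refine Finset.card_bij (fun t _ => ⟨(t.1, t.2.1), t.2.2⟩) ?_ ?_ ?_
  · intro t ht
    rw [mem_filter, mem_product, mem_product] at ht
    obtain ⟨⟨a1, a2, a3⟩, ⟨b1, b2, b3, b4⟩, b5, b6, b7⟩ := ht
    rw [Finset.mem_sigma, mem_filter, mem_filter]
    refine ⟨⟨?_, b5, b6⟩, a3, ?_, b7, b4⟩
    · unfold Pa
      rw [mem_filter, mem_product]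
      exact ⟨⟨a1, a2⟩, h1 _ b5, h2 _ b6, b2, b3⟩
    · rw [dotProduct_comm, ← tf_g3]
      exact b1
  · intro t _ t' _ h
    simp only [Sigma.mk.injEq, Prod.mk.injEq, heq_eq_eq] at h
    exact Prod.ext h.1.1 (Prod.ext h.1.2 h.2)
  · rintro ⟨⟨x, y⟩, z⟩ ht
    rw [Finset.mem_sigma, mem_filter, mem_filter] at ht
    obtain ⟨⟨a1, b5, b6⟩, a3, b1, b7, b4⟩ := ht
    unfold Pa at a1
    rw [mem_filter, mem_product] at a1
    refine ⟨(x, y, z), ?_, rfl⟩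
    rw [mem_filter, mem_product, mem_product]
    refine ⟨⟨a1.1.1, a1.1.2, a3⟩, ⟨?_, a1.2.2.2.1, a1.2.2.2.2, b4⟩, b5, b6, b7⟩
    show tf T x y z = 0
    rw [tf_g3, dotProduct_comm]
    exact b1

theorem pl_split (T : T3) {c : (Fin 3 → ℤ) → Prop} (h : ∀ v, c v → Pr v) (w : Fin 3 → ℤ) (Y : ℕ) :
    |(pn T c w Y : ℝ) - pl c w Y| ≤ (pl (fun z => Pr z ∧ D3 T z = 0) w Y : ℝ) := by
  classical
  have h1 : pn T c w Y ≤ pl c w Y := by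
    unfold pn pl
    apply Finset.card_le_card
    intro v hv
    rw [mem_filter] at hv ⊢
    exact ⟨hv.1, hv.2.1, hv.2.2.1⟩
  have h2 : pl c w Y ≤ pn T c w Y + pl (fun z => Pr z ∧ D3 T z = 0) w Y := by
    obtain ⟨c', hc'⟩ : ∃ c' : (Fin 3 → ℤ) → Prop, c' = fun z => Pr z ∧ D3 T z = 0 := ⟨_, rfl⟩
    rw [← hc']
    have hc1 : ∀ z, c' z ↔ Pr z ∧ D3 T z = 0 := fun z => by rw [hc']
    unfold pn pl
    rw [← Finset.card_union_of_disjoint]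
    · apply Finset.card_le_card
      intro v hv
      rw [mem_filter] at hv
      rw [mem_union, mem_filter, mem_filter]
      by_cases hd : D3 T v = 0
      · exact Or.inr ⟨hv.1, hv.2.1, (hc1 v).2 ⟨h v hv.2.2, hd⟩⟩
      · exact Or.inl ⟨hv.1, hv.2.1, hv.2.2, hd⟩
    · rw [Finset.disjoint_left]
      intro v hv hv'
      rw [mem_filter] at hv hv'
      exact hv.2.2.2 ((hc1 v).1 hv'.2.2).2
  rw [abs_sub_comm, abs_of_nonneg (by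
    have : (pn T c w Y : ℝ) ≤ pl c w Y := by exact_mod_cast h1
    linarith)]
  have : (pl c w Y : ℝ) ≤ pn T c w Y + pl (fun z => Pr z ∧ D3 T z = 0) w Y := by exact_mod_cast h2
  linarith

end ModBox

open ModBox in
theorem box (hReg : StmtReg) (hErr : StmtErr) (hFew : StmtFew) : StmtBox := by
  classical
  intro T hs c1 c2 c3 hc1 hc2 hc3
  obtain ⟨F, hF, hE⟩ := hErr T hs c3 hc3
  obtain ⟨κ, hκ⟩ := hReg T hs c1 c2 c3 hc1 hc2 hc3 F hF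
  refine ⟨κ, fun ε hε => ?_⟩
  have hε3 : 0 < ε / 3 := by positivity
  obtain ⟨M1, hM1⟩ := hE (ε / 3) hε3
  obtain ⟨M2, hM2⟩ := hκ (ε / 3) hε3
  obtain ⟨M3, hM3⟩ := hFew T hs (ε / 3) hε3
  refine ⟨M1 + M2 + M3 + 1, fun A B Y hA hB hr => ?_⟩
  have hA1 : (1 : ℝ) ≤ A := by exact_mod_cast (by omega : 1 ≤ A)
  have hB1 : (1 : ℝ) ≤ B := by exact_mod_cast (by omega : 1 ≤ B)
  have hr' : ((A : ℝ) * B) ^ (1 + ε / 3) ≤ (Y : ℝ) ^ 2 := by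
    refine le_trans (Real.rpow_le_rpow_of_exponent_le ?_ (by linarith)) hr
    exact one_le_mul_of_one_le_of_one_le hA1 hB1
  have e1 := hM1 A B Y (by omega) (by omega) hr'
  have e2 := hM2 A B (by omega) (by omega)
  have e3 := hM3 A B Y (by omega) (by omega) hr'
  set Q := (Pa T A B).filter (fun t => c1 t.1 ∧ c2 t.2) with hQ
  have hsub : Q ⊆ Pa T A B := Finset.filter_subset _ _
  have hcnt : (Cnt T c1 c2 c3 A B Y : ℝ) = ∑ t ∈ Q, (pn T c3 (g3 T t.1 t.2) Y : ℝ) := by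
    rw [cnt_eq T hc1.pr hc2.pr]
    push_cast
    rfl
  have i1 : |(Cnt T c1 c2 c3 A B Y : ℝ) - ∑ t ∈ Q, (pl c3 (g3 T t.1 t.2) Y : ℝ)| ≤
      ε / 3 * ((A : ℝ) * B * Y) ^ 2 := by
    rw [hcnt, ← Finset.sum_sub_distrib]
    refine (Finset.abs_sum_le_sum_abs _ _).trans ?_
    refine (Finset.sum_le_sum fun t _ => pl_split T hc3.pr (g3 T t.1 t.2) Y).trans ?_
    refine le_trans ?_ e3
    exact Finset.sum_le_sum_of_subset_of_nonneg hsub fun _ _ _ => Nat.cast_nonneg _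
  have i2 : |(∑ t ∈ Q, (pl c3 (g3 T t.1 t.2) Y : ℝ)) -
      (∑ t ∈ Q, F (g3 T t.1 t.2)) * (Y : ℝ) ^ 2| ≤ ε / 3 * ((A : ℝ) * B * Y) ^ 2 := by
    rw [Finset.sum_mul, ← Finset.sum_sub_distrib]
    refine (Finset.abs_sum_le_sum_abs _ _).trans ?_
    refine le_trans ?_ e1
    exact Finset.sum_le_sum_of_subset_of_nonneg hsub fun _ _ _ => abs_nonneg _
  have i3 : |(∑ t ∈ Q, F (g3 T t.1 t.2)) * (Y : ℝ) ^ 2 - κ * ((A : ℝ) * B * Y) ^ 2| ≤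
      ε / 3 * ((A : ℝ) * B * Y) ^ 2 := by
    have e4 : (∑ t ∈ Q, F (g3 T t.1 t.2)) * (Y : ℝ) ^ 2 - κ * ((A : ℝ) * B * Y) ^ 2 =
        ((∑ t ∈ Q, F (g3 T t.1 t.2)) - κ * ((A : ℝ) * B) ^ 2) * (Y : ℝ) ^ 2 := by ring
    rw [e4, abs_mul, abs_of_nonneg (by positivity : (0 : ℝ) ≤ (Y : ℝ) ^ 2)]
    calc |(∑ t ∈ Q, F (g3 T t.1 t.2)) - κ * ((A : ℝ) * B) ^ 2| * (Y : ℝ) ^ 2
        ≤ (ε / 3 * ((A : ℝ) * B) ^ 2) * (Y : ℝ) ^ 2 := by gcongr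
      _ = _ := by ring
  have i4 : (Cnt T c1 c2 c3 A B Y : ℝ) - κ * ((A : ℝ) * B * Y) ^ 2 =
      ((Cnt T c1 c2 c3 A B Y : ℝ) - ∑ t ∈ Q, (pl c3 (g3 T t.1 t.2) Y : ℝ)) +
      ((∑ t ∈ Q, (pl c3 (g3 T t.1 t.2) Y : ℝ)) - (∑ t ∈ Q, F (g3 T t.1 t.2)) * (Y : ℝ) ^ 2) +
      ((∑ t ∈ Q, F (g3 T t.1 t.2)) * (Y : ℝ) ^ 2 - κ * ((A : ℝ) * B * Y) ^ 2) := by ring
  rw [i4]
  refine (abs_add_le _ _).trans ?_
  refine (add_le_add (abs_add_le _ _) le_rfl).trans ?_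
  linarith

end Pool.Agent.T6.H97.TA
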