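import Mathlib
import Pool.Agent.T6.H97.TA.Sym
import Pool.Agent.W978.QN.Asm
import Pool.Agent.W279.QO.DC

/-!
Comparison of the two notations in the library.
-/

set_option autoImplicit false

namespace Pool.Agent.T6.H97.TA

open Finset Matrix Filter Topology MeasureTheory
open Pool.Agent.H548.TL (g1 g2 g3 tf Sm s12 s23 Tx)

theorem bx_eq (X : ℕ) : W978.QN.bx X = H548.WM.bx 3 X := rfl

theorem nm_eq (v : Fin 3 → ℤ) : W978.QN.nm v = (H548.WM.ht v : ℤ) := by
  have h0 : 0 ≤ W978.QN.nm v := (abs_nonneg _).trans (W978.QN.le_nm v 0)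
  obtain ⟨k, hk⟩ := Int.eq_ofNat_of_zero_le h0
  apply le_antisymm
  · rw [← W978.QN.mem_bx, bx_eq, H548.WM.mem_bx]
  · rw [hk]
    have h1 : v ∈ H548.WM.bx 3 k := by
      rw [← bx_eq, W978.QN.mem_bx, hk]
    rw [H548.WM.mem_bx] at h1
    exact_mod_cast h1

theorem prim_iff (v : Fin 3 → ℤ) : W978.QN.Prim v ↔ Pr v := by
  unfold W978.QN.Prim Pr
  constructor
  · rintro ⟨u, hu⟩
    have h1 : univ.gcd v ∣ 1 := by
      rw [← hu]
      exact Finset.dvd_sum fun i _ => Dvd.dvd.mul_left (Finset.gcd_dvd (mem_univ i)) _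
    have h2 : normalize (univ.gcd v) = univ.gcd v := Finset.normalize_gcd
    rw [← h2]
    exact normalize_eq_one.2 (isUnit_of_dvd_one h1)
  · intro h
    have h1 : Ideal.span (Set.range v) = Ideal.span {univ.gcd v} := by
      apply le_antisymm
      · rw [Ideal.span_le]
        rintro _ ⟨i, rfl⟩
        exact Ideal.mem_span_singleton.2 (Finset.gcd_dvd (mem_univ i))
      · rw [Ideal.span_singleton_le_iff_mem]
        obtain ⟨d, hd⟩ := (IsPrincipalIdealRing.principal (Ideal.span (Set.range v))).principal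
        rw [hd]
        refine Ideal.mem_span_singleton.2 ?_
        apply Finset.dvd_gcd
        intro i _
        have : v i ∈ Ideal.span (Set.range v) := Ideal.subset_span ⟨i, rfl⟩
        rw [hd] at this
        exact Ideal.mem_span_singleton.1 this
    have h2 : univ.gcd v ∈ Ideal.span (Set.range v) := by
      rw [h1]
      exact Ideal.mem_span_singleton_self _
    obtain ⟨u, hu⟩ := (Ideal.mem_span_range_iff_exists_fun).1 h2
    exact ⟨u, by rw [hu]; exact h⟩

theorem rep_iff3 (v : Fin 3 → ℤ) : W978.QN.Rep v ↔ H548.WM.Rep v := by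
  unfold W978.QN.Rep H548.WM.Rep
  rw [prim_iff]
  unfold Pr
  constructor
  · rintro ⟨h1, h2 | ⟨h2, h3⟩ | ⟨h2, h3, h4⟩⟩
    · exact ⟨h1, 0, h2, fun j hj => absurd hj (by simp)⟩
    · refine ⟨h1, 1, h3, fun j hj => ?_⟩
      have : j = 0 := by
        fin_cases j
        · rfl
        · exact absurd hj (by decide)
        · exact absurd hj (by decide)
      rw [this]
      exact h2
    · refine ⟨h1, 2, by omega, fun j hj => ?_⟩
      fin_cases j
      · exact h2
      · exact h3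
      · exact absurd hj (by decide)
  · rintro ⟨h1, i, hi, hj⟩
    refine ⟨h1, ?_⟩
    fin_cases i
    · exact Or.inl hi
    · exact Or.inr (Or.inl ⟨hj 0 (by decide), hi⟩)
    · refine Or.inr (Or.inr ⟨hj 0 (by decide), hj 1 (by decide), ?_⟩)
      have h0 : v 0 = 0 := hj 0 (by decide)
      have h01 : v 1 = 0 := hj 1 (by decide)
      have h2 : v 2 ∣ univ.gcd v := by
        apply Finset.dvd_gcd
        intro j _
        fin_cases j
        · show v 2 ∣ v 0
          rw [h0]
          exact dvd_zero _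
        · show v 2 ∣ v 1
          rw [h01]
          exact dvd_zero _
        · exact dvd_refl _
      rw [h1] at h2
      have hi' : 0 < v 2 := hi
      have := Int.le_of_dvd one_pos h2
      omega

theorem wv_eq (T : T3) (x y : Fin 3 → ℤ) : W978.QN.wv (W978.QN.mp T x) y = g3 T x y := by
  funext k
  unfold W978.QN.wv W978.QN.mp g3
  simp only [Fin.sum_univ_three, Int.cast_id]
  ring

theorem dm_mp (T : T3) (x : Fin 3 → ℤ) : W978.QN.dm (W978.QN.mp T x) = D1 T x := by
  rw [W978.QN.dm_eq]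
  unfold D1 Tx W978.QN.mp
  rw [Matrix.det_fin_three]
  simp only [of_apply]
  ring

theorem det_mp {R : Type*} [CommRing R] (T : T3) (x : Fin 3 → R) :
    (Matrix.of (W978.QN.mp T x)).det = D1 T x := by
  unfold D1 Tx W978.QN.mp
  rw [Matrix.det_fin_three, Matrix.det_fin_three]
  simp only [of_apply]
  ring

theorem ct_eq (v : Fin 3 → ℤ) : ((W978.QN.ct v : ℕ) : ℤ) = univ.gcd v := by
  have h1 : ((W978.QN.ct v : ℕ) : ℤ) ∣ univ.gcd v := by
    apply Finset.dvd_gcd
    intro i _
    exact W978.QN.ct_dvd v i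
  have h2 : univ.gcd v ∣ ((W978.QN.ct v : ℕ) : ℤ) := by
    unfold W978.QN.ct
    have e0 : univ.gcd v ∣ v 0 := Finset.gcd_dvd (mem_univ _)
    have e1 : univ.gcd v ∣ v 1 := Finset.gcd_dvd (mem_univ _)
    have e2 : univ.gcd v ∣ v 2 := Finset.gcd_dvd (mem_univ _)
    have e3 : univ.gcd v ∣ (Int.gcd (v 0) (v 1) : ℤ) := Int.dvd_coe_gcd e0 e1
    have e4 : (univ.gcd v).natAbs ∣ Nat.gcd (Int.gcd (v 0) (v 1)) (v 2).natAbs :=
      Nat.dvd_gcd (Int.natAbs_dvd_natAbs.2 e3) (Int.natAbs_dvd_natAbs.2 e2)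
    exact Int.natAbs_dvd.1 (by exact_mod_cast e4)
  have h3 : normalize (univ.gcd v) = univ.gcd v := Finset.normalize_gcd
  have h4 : 0 ≤ univ.gcd v := by
    rw [← h3]
    exact Int.nonneg_of_normalize_eq_self (normalize_idem _)
  exact Int.dvd_antisymm (Int.natCast_nonneg _) h4 h1 h2

theorem gcd_nonneg {N : ℕ} (v : Fin N → ℤ) : 0 ≤ univ.gcd v := by
  have h3 : normalize (univ.gcd v) = univ.gcd v := Finset.normalize_gcd
  exact Int.nonneg_of_normalize_eq_self h3

/-! ### The form with uncurried coefficients -/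

theorem tf_eq {R : Type} [CommRing R] (a : (Fin 3 → Fin 3) → ℤ) (P : Fin 3 → Fin 3 → R) :
    W978.QN.tf a P = tf (W978.QN.cu a 1) (P 0) (P 1) (P 2) := by
  rw [Pool.Agent.W509.QN.br R a 1 P]
  rfl

theorem sm_of_smooth {a : (Fin 3 → Fin 3) → ℤ} (ha : W978.QN.Smooth a) :
    Sm ℂ (W978.QN.cu a 1) := by
  rintro x y z hx hy hz ⟨h1, h2, h3⟩
  obtain ⟨i, v, hv⟩ := ha ![x, y, z] (by
    intro i
    fin_cases i
    · exact hx
    · exact hy
    · exact hz) (by
    rw [tf_eq]
    show tf (W978.QN.cu a 1) x y z = 0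
    rw [H548.TL.tf_g1, h1, dotProduct_zero])
  apply hv
  rw [tf_eq]
  fin_cases i
  · show tf (W978.QN.cu a 1) v y z = 0
    rw [H548.TL.tf_g1, h1, dotProduct_zero]
  · show tf (W978.QN.cu a 1) x v z = 0
    rw [H548.TL.tf_g2, h2, dotProduct_zero]
  · show tf (W978.QN.cu a 1) x y v = 0
    rw [H548.TL.tf_g3, h3, dotProduct_zero]

end Pool.Agent.T6.H97.TA
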