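import Mathlib
import Pool.Agent.T6.H97.TA.Brg
import Pool.Agent.W597.QN.RK

/-!
Module Br: consequences of smoothness.
-/

set_option autoImplicit false

namespace Pool.Agent.T6.H97.TA

open Finset Matrix
open Pool.Agent.H548.TL (g1 g2 g3 tf Sm s12 s23 Tx)

theorem cu_one (T : T3) : W978.QN.cu (fun e => T (e 0) (e 1) (e 2)) 1 = T := by
  funext i j k
  unfold W978.QN.cu
  rfl

theorem smooth_of_sm {T : T3} (hs : Sm ℂ T) :
    W978.QN.Smooth (fun e => T (e 0) (e 1) (e 2)) := by
  intro P hP h0
  by_contra hcon
  push Not at hcon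
  refine hs (P 0) (P 1) (P 2) (hP 0) (hP 1) (hP 2) ⟨?_, ?_, ?_⟩
  · funext i
    have h := hcon 0 (Pi.single i 1)
    rw [tf_eq, cu_one, H548.TL.tf_g1, Function.update_self, Function.update_of_ne (by decide),
      Function.update_of_ne (by decide), single_dotProduct, one_mul] at h
    exact h
  · funext i
    have h := hcon 1 (Pi.single i 1)
    rw [tf_eq, cu_one, H548.TL.tf_g2, Function.update_self, Function.update_of_ne (by decide),
      Function.update_of_ne (by decide), single_dotProduct, one_mul] at h
    exact h
  · funext i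
    have h := hcon 2 (Pi.single i 1)
    rw [tf_eq, cu_one, H548.TL.tf_g3, Function.update_self, Function.update_of_ne (by decide),
      Function.update_of_ne (by decide), single_dotProduct, one_mul] at h
    exact h

theorem br : StmtBr := by
  intro T hs
  have ha := smooth_of_sm hs
  have h1 := Pool.Agent.W597.QN.rk Pool.Agent.W509.QN.br _ ha 1
  have h2 := Pool.Agent.W279.QO.dc _ ha 1
  rw [cu_one] at h1 h2
  exact ⟨h1, h2⟩

end Pool.Agent.T6.H97.TA
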