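import Pool.Agent.T6.H97.TA.DensE

set_option autoImplicit false

/-!
Module Dens: the density of a cell in a plane.
-/

namespace Pool.Agent.T6.H97.TA

open Finset Matrix Filter Topology MeasureTheory
open Pool.Agent.H548.WM (ht bx)
open Pool.Agent.T6.H81.BA (Cell)

/-- Module Dens. -/
theorem dens (hR : StmtRiem) : StmtDens := by
  intro n f σ q r hq
  by_cases hr : ∃ p : ℕ, p.Prime ∧ p ∣ q ∧ ∀ j, (p : ℤ) ∣ r j
  · refine ⟨0, le_rfl, fun w hw => ?_⟩
    rw [zero_mul, zero_mul]
    refine tendsto_const_nhds.congr fun Y => ?_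
    have h0 : pl (Cell f σ q r) w Y = 0 := by
      classical
      unfold pl
      rw [card_eq_zero, filter_eq_empty_iff]
      rintro v - ⟨-, hg, hv, -⟩
      obtain ⟨p, hp, hpq, hpr⟩ := hr
      have h1 : (p : ℤ) ∣ univ.gcd v := by
        refine Finset.dvd_gcd fun j _ => ?_
        have e2 : (p : ℤ) ∣ v j - r j := (Int.natCast_dvd_natCast.2 hpq).trans (hv j)
        have := dvd_add e2 (hpr j)
        simpa using this
      rw [hg] at h1
      have h2 : (p : ℤ) ∣ ((1 : ℕ) : ℤ) := by simpa using h1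
      exact hp.one_lt.ne' (Nat.dvd_one.1 (Int.natCast_dvd_natCast.1 h2))
    rw [h0]
    simp
  · refine ⟨(∑' d, ModDens.mq q d) / (q : ℝ) ^ 2,
      div_nonneg (ModDens.mq_nonneg q) (by positivity), fun w hw => ?_⟩
    exact ModDens.dens_lim hR f σ q hq r hr w hw

end Pool.Agent.T6.H97.TA
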