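import Mathlib
import Pool.Agent.T6.H97.TA.Defs

/-!
# Averages over pairs of primitive vectors
-/

set_option autoImplicit false

namespace Pool.Agent.T6.H97.TA

open Finset Matrix Filter Topology MeasureTheory
open Pool.Agent.H548.WM (ht bx mem_bx le_ht ht_le card_bx_le ht_pos)

namespace ModEqui

/-- No prime at most `z` divides all the coordinates. -/
def Pz (z : ℕ) (x : Fin 3 → ℤ) : Prop := ∀ p : ℕ, p.Prime → p ≤ z → ¬ ∀ j, (p : ℤ) ∣ x j

theorem Pr_Pz (z : ℕ) {x : Fin 3 → ℤ} (h : Pr x) : Pz z x := by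
  intro p hp _ hd
  have h1 : (p : ℤ) ∣ univ.gcd x := Finset.dvd_gcd (fun j _ => hd j)
  rw [Pr] at h
  rw [h] at h1
  have h2 := Int.natAbs_dvd_natAbs.2 h1
  simp at h2
  exact hp.one_lt.ne' h2

theorem Pz_mod {z : ℕ} {x x' : Fin 3 → ℤ} {n : ℕ} (hn : z.factorial ∣ n)
    (h : ∀ j, (n : ℤ) ∣ x' j - x j) (hx : Pz z x) : Pz z x' := by
  intro p hp hpz hd
  apply hx p hp hpz
  intro j
  have h1 : (p : ℤ) ∣ (n : ℤ) := by
    exact_mod_cast (Nat.dvd_factorial hp.pos hpz).trans hn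
  have h2 : (p : ℤ) ∣ x' j - x j := h1.trans (h j)
  have h3 := dvd_sub (hd j) h2
  simpa using h3

theorem gcd_nn (x : Fin 3 → ℤ) : 0 ≤ univ.gcd x := by
  have h := Finset.normalize_gcd (s := (univ : Finset (Fin 3))) (f := x)
  rw [← h]
  exact Int.nonneg_of_normalize_eq_self (normalize_idem _)

open Classical in
theorem count_bad {z : ℕ} (hz : 2 ≤ z) (A : ℕ) :
    ((((bx 3 A).filter fun x => Pz z x ∧ ¬ Pr x).card : ℕ) : ℝ) ≤ 27 * (A : ℝ) ^ 3 / z := by
  have hsub : ((bx 3 A).filter fun x => Pz z x ∧ ¬ Pr x) ⊆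
      (Ioc z A).biUnion fun d => (bx 3 (A / d)).image fun x j => (d : ℤ) * x j := by
    intro x hx
    rw [mem_filter] at hx
    obtain ⟨hx1, hx2, hx3⟩ := hx
    rw [mem_bx] at hx1
    have hx0 : ∃ j, x j ≠ 0 := by
      by_contra hcon
      push Not at hcon
      exact hx2 2 Nat.prime_two hz (fun j => by rw [hcon j]; exact dvd_zero _)
    obtain ⟨j0, hj0⟩ := hx0
    set d := (univ.gcd x).natAbs with hd
    have hgn := gcd_nn x
    have hdj : ∀ j, (d : ℤ) ∣ x j := fun j => by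
      rw [hd, Int.natCast_natAbs, abs_of_nonneg hgn]
      exact Finset.gcd_dvd (mem_univ j)
    have hd1 : d ≠ 1 := by
      intro h1
      apply hx3
      rw [Pr]
      have : ((univ.gcd x).natAbs : ℤ) = 1 := by exact_mod_cast h1
      rwa [Int.natCast_natAbs, abs_of_nonneg hgn] at this
    have hdA : ∀ j, (x j).natAbs ≤ A := fun j => (le_ht x j).trans hx1
    have hd0 : 0 < d := by
      rcases Nat.eq_zero_or_pos d with h | h
      · exfalso
        apply hj0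
        have := hdj j0
        rw [h] at this
        simpa using this
      · exact h
    have hzd : z < d := by
      by_contra hcon
      push Not at hcon
      have hp := Nat.minFac_prime hd1
      apply hx2 d.minFac hp ((Nat.minFac_le hd0).trans hcon)
      intro j
      exact (Int.natCast_dvd_natCast.2 (Nat.minFac_dvd d)).trans (hdj j)
    have hdA' : d ≤ A := by
      have h1 : d ∣ (x j0).natAbs := by
        have := Int.natAbs_dvd_natAbs.2 (hdj j0)
        simpa using this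
      exact (Nat.le_of_dvd (Int.natAbs_pos.2 hj0) h1).trans (hdA j0)
    rw [mem_biUnion]
    refine ⟨d, mem_Ioc.2 ⟨hzd, hdA'⟩, ?_⟩
    choose y hy using hdj
    rw [mem_image]
    refine ⟨y, ?_, funext fun j => (hy j).symm⟩
    rw [mem_bx]
    apply ht_le
    intro i
    have h1 := hdA i
    rw [hy i, Int.natAbs_mul, Int.natAbs_natCast] at h1
    have h2 : (y i).natAbs ≤ A / d := by
      rw [Nat.le_div_iff_mul_le hd0, mul_comm]
      exact h1
    rw [Int.abs_eq_natAbs]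
    exact_mod_cast h2
  have h1 := card_le_card hsub
  have h2 := h1.trans card_biUnion_le
  have h3 : ((((bx 3 A).filter fun x => Pz z x ∧ ¬ Pr x).card : ℕ) : ℝ) ≤
      ∑ d ∈ Ioc z A, (((bx 3 (A / d)).image fun x j => (d : ℤ) * x j).card : ℝ) := by
    exact_mod_cast h2
  refine h3.trans ?_
  have h4 : ∀ d ∈ Ioc z A, (((bx 3 (A / d)).image fun x j => (d : ℤ) * x j).card : ℝ) ≤
      27 * (A : ℝ) ^ 3 * ((d : ℝ) ^ 2)⁻¹ := by
    intro d hd
    rw [mem_Ioc] at hd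
    have hd0 : 1 ≤ d := by omega
    have hd0' : (1 : ℝ) ≤ d := by exact_mod_cast hd0
    have h5 : (((bx 3 (A / d)).image fun x j => (d : ℤ) * x j).card : ℝ) ≤
        ((bx 3 (A / d)).card : ℝ) := by exact_mod_cast card_image_le
    have h6 : 1 ≤ A / d := (Nat.one_le_div_iff (by omega)).2 hd.2
    refine h5.trans ((card_bx_le 3 h6).trans ?_)
    have h7 : ((A / d : ℕ) : ℝ) ≤ (A : ℝ) / d := Nat.cast_div_le
    have h8 : (0 : ℝ) ≤ ((A / d : ℕ) : ℝ) := Nat.cast_nonneg _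
    calc (3 * ((A / d : ℕ) : ℝ)) ^ 3 ≤ (3 * ((A : ℝ) / d)) ^ 3 := by gcongr
      _ = 27 * (A : ℝ) ^ 3 * (((d : ℝ) ^ 3)⁻¹) := by ring
      _ ≤ 27 * (A : ℝ) ^ 3 * ((d : ℝ) ^ 2)⁻¹ := by
          have : (d : ℝ) ^ 2 ≤ (d : ℝ) ^ 3 := pow_le_pow_right₀ hd0' (by norm_num)
          have h2 : (0 : ℝ) < (d : ℝ) ^ 2 := by positivity
          gcongr
  refine (sum_le_sum h4).trans ?_
  rw [← mul_sum]
  have hz0 : (0 : ℝ) < z := by exact_mod_cast (by omega : 0 < z)
  have h9 : ∑ i ∈ Ioc z A, ((i : ℝ) ^ 2)⁻¹ ≤ (z : ℝ)⁻¹ := by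
    rcases le_or_gt z A with h | h
    · refine (sum_Ioc_inv_sq_le_sub (by omega) h).trans ?_
      have : (0 : ℝ) ≤ (A : ℝ)⁻¹ := by positivity
      linarith
    · rw [Finset.Ioc_eq_empty (by omega)]
      simp only [sum_empty]
      positivity
  calc 27 * (A : ℝ) ^ 3 * ∑ i ∈ Ioc z A, ((i : ℝ) ^ 2)⁻¹ ≤ 27 * (A : ℝ) ^ 3 * (z : ℝ)⁻¹ := by
        gcongr
    _ = 27 * (A : ℝ) ^ 3 / z := by ring

theorem sfi {ι : Type} [Fintype ι] (e1 e2 : DecidableEq ι) (t : ι → Finset ℤ)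
    (p : (ι → ℤ) → Prop) (d1 d2 : DecidablePred p) (f : (ι → ℤ) → ℝ) :
    (∑ z ∈ @Finset.filter _ p d1 (@Fintype.piFinset ι e1 _ _ t), f z) =
      ∑ z ∈ @Finset.filter _ p d2 (@Fintype.piFinset ι e2 _ _ t), f z := by
  have h : d1 = d2 := funext fun _ => Subsingleton.elim _ _
  have h' : e1 = e2 := funext fun _ => funext fun _ => Subsingleton.elim _ _
  subst h
  subst h'
  rfl

open Classical in
theorem periodic (hR : StmtRiem) (h : (Fin 3 → ℝ) → (Fin 3 → ℝ) → ℝ) (K : ℝ)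
    (hK : ∀ x y, |h x y| ≤ K)
    (hc : ∀ᵐ u : Fin 3 ⊕ Fin 3 → ℝ,
      ContinuousAt (fun u : Fin 3 ⊕ Fin 3 → ℝ => h (u ∘ Sum.inl) (u ∘ Sum.inr)) u)
    (N : ℕ) (hN : 1 ≤ N) (g : (Fin 3 → ℤ) → (Fin 3 → ℤ) → ℝ)
    (hg : ∀ x x' y y' : Fin 3 → ℤ, (∀ j, (N : ℤ) ∣ x' j - x j) → (∀ j, (N : ℤ) ∣ y' j - y j) →
      g x' y' = g x y) :
    ∃ κ : ℝ, ∀ ε : ℝ, 0 < ε → ∃ M : ℕ, ∀ A B : ℕ, M ≤ A → M ≤ B →
      |(∑ t ∈ bx 3 A ×ˢ bx 3 B, g t.1 t.2 *
        h (fun i => (t.1 i : ℝ) / A) (fun i => (t.2 i : ℝ) / B)) -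
      κ * ((A : ℝ) * B) ^ 3| ≤ ε * ((A : ℝ) * B) ^ 3 := by
  have hK0 : 0 ≤ K := (abs_nonneg _).trans (hK 0 0)
  have : NeZero N := ⟨by omega⟩
  set H : (Fin 3 ⊕ Fin 3 → ℝ) → ℝ :=
    fun u => if ∀ i, |u i| ≤ 1 then h (u ∘ Sum.inl) (u ∘ Sum.inr) else 0 with hH
  have hH1 : ∀ u, |H u| ≤ K := by
    intro u
    simp only [hH]
    split_ifs
    · exact hK _ _
    · simpa using hK0
  have hH2 : ∀ u, (∃ i, (1 : ℝ) < |u i|) → H u = 0 := by
    rintro u ⟨i, hi⟩
    simp only [hH]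
    rw [if_neg]
    intro hcon
    exact absurd (hcon i) (not_le.2 hi)
  have hface : ∀ᵐ u : Fin 3 ⊕ Fin 3 → ℝ, ∀ i, |u i| ≠ 1 := by
    rw [ae_all_iff]
    intro i
    have h1 : ∀ᵐ u : Fin 3 ⊕ Fin 3 → ℝ, u i ≠ 1 := 
      Measure.ae_eval_ne (fun _ : Fin 3 ⊕ Fin 3 => (volume : Measure ℝ)) i (1 : ℝ)
    have h2 : ∀ᵐ u : Fin 3 ⊕ Fin 3 → ℝ, u i ≠ -1 := 
      Measure.ae_eval_ne (fun _ : Fin 3 ⊕ Fin 3 => (volume : Measure ℝ)) i (-1 : ℝ)
    filter_upwards [h1, h2] with u hu1 hu2 hu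
    rcases (abs_eq (by norm_num : (0 : ℝ) ≤ 1)).1 hu with h | h
    · exact hu1 h
    · exact hu2 h
  have hH3 : ∀ᵐ u : Fin 3 ⊕ Fin 3 → ℝ, ContinuousAt H u := by
    filter_upwards [hc, hface] with u hu hf
    by_cases hall : ∀ i, |u i| ≤ 1
    · have hlt : ∀ i, |u i| < 1 := fun i => lt_of_le_of_ne (hall i) (hf i)
      have hev : ∀ᶠ v in 𝓝 u, ∀ i, |v i| < 1 := by
        rw [eventually_all]
        intro i
        exact (((continuous_apply i).abs).continuousAt (x := u)).eventually_lt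
          continuousAt_const (hlt i)
      refine hu.congr ?_
      filter_upwards [hev] with v hv
      simp only [hH]
      rw [if_pos (fun i => (hv i).le)]
    · push Not at hall
      obtain ⟨i, hi⟩ := hall
      have hev : ∀ᶠ v in 𝓝 u, 1 < |v i| :=
        (continuousAt_const (y := (1 : ℝ)) (x := u)).eventually_lt
          (((continuous_apply i).abs).continuousAt (x := u)) hi
      refine (continuousAt_const (y := (0 : ℝ))).congr ?_
      filter_upwards [hev] with v hv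
      exact (hH2 v ⟨i, hv⟩).symm
  set r : (Fin 3 ⊕ Fin 3 → ZMod N) → (Fin 3 ⊕ Fin 3 → ℤ) := fun ρ i => ((ρ i).val : ℤ) with hr
  set G : (Fin 3 ⊕ Fin 3 → ZMod N) → ℝ := fun ρ => g (r ρ ∘ Sum.inl) (r ρ ∘ Sum.inr) with hG
  refine ⟨∑ ρ, G ρ * ((∫ x, H x) / (N : ℝ) ^ Fintype.card (Fin 3 ⊕ Fin 3)), ?_⟩
  intro ε hε
  have hS0 : 0 ≤ ∑ ρ, |G ρ| := sum_nonneg fun _ _ => abs_nonneg _
  have hε' : 0 < ε / (∑ ρ, |G ρ| + 1) := by positivity
  obtain ⟨M, hM0, hM⟩ := hR (Fin 3 ⊕ Fin 3) H K 1 hH1 hH2 hH3 N hN _ hε'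
  refine ⟨max ⌈M⌉₊ 1, ?_⟩
  intro A B hA hB
  have hA1 : 1 ≤ A := (le_max_right _ _).trans hA
  have hB1 : 1 ≤ B := (le_max_right _ _).trans hB
  have hAM : M ≤ A := (Nat.le_ceil M).trans (by exact_mod_cast (le_max_left _ _).trans hA)
  have hBM : M ≤ B := (Nat.le_ceil M).trans (by exact_mod_cast (le_max_left _ _).trans hB)
  have hA0 : (0 : ℝ) < A := by exact_mod_cast hA1
  have hB0 : (0 : ℝ) < B := by exact_mod_cast hB1
  set X : Fin 3 ⊕ Fin 3 → ℝ := Sum.elim (fun _ => (A : ℝ)) (fun _ => (B : ℝ)) with hX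
  have hXM : ∀ i, M ≤ X i := by
    rintro (i | i)
    · exact hAM
    · exact hBM
  have hX0 : ∀ i, 0 < X i := by
    rintro (i | i)
    · exact hA0
    · exact hB0
  have hXQ : ∀ i, 1 * X i ≤ ((max A B : ℕ) : ℝ) := by
    rintro (i | i)
    · simp [hX]
    · simp [hX]
  have hprod : ∏ i, X i = ((A : ℝ) * B) ^ 3 := by
    rw [Fintype.prod_sum_type]
    simp [hX, mul_pow]
  have hP0 : 0 ≤ ((A : ℝ) * B) ^ 3 := by positivity
  -- the sum as a sum over the cube
  have hsum : (∑ t ∈ bx 3 A ×ˢ bx 3 B, g t.1 t.2 *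
        h (fun i => (t.1 i : ℝ) / A) (fun i => (t.2 i : ℝ) / B)) =
      ∑ z ∈ Fintype.piFinset fun _ : Fin 3 ⊕ Fin 3 => Icc (-((max A B : ℕ) : ℤ)) (max A B : ℕ),
        g (z ∘ Sum.inl) (z ∘ Sum.inr) * H (fun i => (z i : ℝ) / X i) := by
    refine Finset.sum_of_injOn (fun t => Sum.elim t.1 t.2) ?_ ?_ ?_ ?_
    · rintro ⟨a, b⟩ _ ⟨a', b'⟩ _ heq
      have h1 := congrArg (fun f : Fin 3 ⊕ Fin 3 → ℤ => f ∘ Sum.inl) heq
      have h2 := congrArg (fun f : Fin 3 ⊕ Fin 3 → ℤ => f ∘ Sum.inr) heq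
      simp at h1 h2
      rw [h1, h2]
    · rintro ⟨a, b⟩ hab
      simp only [coe_product, Set.mem_prod, mem_coe, bx, Fintype.mem_piFinset, mem_Icc] at hab
      simp only [mem_coe, Fintype.mem_piFinset, mem_Icc]
      have hQA : (A : ℤ) ≤ ((max A B : ℕ) : ℤ) := by exact_mod_cast le_max_left _ _
      have hQB : (B : ℤ) ≤ ((max A B : ℕ) : ℤ) := by exact_mod_cast le_max_right _ _
      rintro (i | i)
      · have := hab.1 i
        simp only [Sum.elim_inl]
        constructor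
        · linarith [this.1]
        · linarith [this.2]
      · have := hab.2 i
        simp only [Sum.elim_inr]
        constructor
        · linarith [this.1]
        · linarith [this.2]
    · intro z hz hzn
      have hz0 : H (fun i => (z i : ℝ) / X i) = 0 := by
        apply hH2
        by_contra hcon
        push Not at hcon
        apply hzn
        refine ⟨(z ∘ Sum.inl, z ∘ Sum.inr), ?_, ?_⟩
        · simp only [coe_product, Set.mem_prod, mem_coe, bx, Fintype.mem_piFinset, mem_Icc]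
          constructor
          · intro i
            have h1 := hcon (Sum.inl i)
            rw [abs_div, abs_of_pos (hX0 _), div_le_one (hX0 _)] at h1
            simp only [hX, Sum.elim_inl] at h1
            rw [abs_le] at h1
            constructor
            · have : (-(A : ℝ)) ≤ (z (Sum.inl i) : ℝ) := h1.1
              exact_mod_cast this
            · have : ((z (Sum.inl i) : ℤ) : ℝ) ≤ (A : ℝ) := h1.2
              exact_mod_cast this
          · intro i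
            have h1 := hcon (Sum.inr i)
            rw [abs_div, abs_of_pos (hX0 _), div_le_one (hX0 _)] at h1
            simp only [hX, Sum.elim_inr] at h1
            rw [abs_le] at h1
            constructor
            · have : (-(B : ℝ)) ≤ (z (Sum.inr i) : ℝ) := h1.1
              exact_mod_cast this
            · have : ((z (Sum.inr i) : ℤ) : ℝ) ≤ (B : ℝ) := h1.2
              exact_mod_cast this
        · funext i
          rcases i with i | i
          · rfl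
          · rfl
      rw [hz0, mul_zero]
    · rintro ⟨a, b⟩ hab
      simp only [mem_product, bx, Fintype.mem_piFinset, mem_Icc] at hab
      have hle : ∀ i, |((Sum.elim a b i : ℤ) : ℝ) / X i| ≤ 1 := by
        rintro (i | i)
        · rw [abs_div, abs_of_pos (hX0 _), div_le_one (hX0 _)]
          simp only [hX, Sum.elim_inl]
          rw [abs_le]
          have := hab.1 i
          constructor
          · exact_mod_cast this.1
          · exact_mod_cast this.2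
        · rw [abs_div, abs_of_pos (hX0 _), div_le_one (hX0 _)]
          simp only [hX, Sum.elim_inr]
          rw [abs_le]
          have := hab.2 i
          constructor
          · exact_mod_cast this.1
          · exact_mod_cast this.2
      have h1 : H (fun i => ((Sum.elim a b i : ℤ) : ℝ) / X i) =
          h (fun i => (a i : ℝ) / A) (fun i => (b i : ℝ) / B) := by
        simp only [hH]
        rw [if_pos hle]
        rfl
      simp only [Sum.elim_comp_inl, Sum.elim_comp_inr]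
      rw [h1]
  rw [hsum, ← Finset.sum_fiberwise (Fintype.piFinset fun _ : Fin 3 ⊕ Fin 3 =>
    Icc (-((max A B : ℕ) : ℤ)) (max A B : ℕ))
    (fun (z : Fin 3 ⊕ Fin 3 → ℤ) (i : Fin 3 ⊕ Fin 3) => ((z i : ℤ) : ZMod N))]
  have hin : ∀ ρ : Fin 3 ⊕ Fin 3 → ZMod N,
      (∑ z ∈ (Fintype.piFinset fun _ : Fin 3 ⊕ Fin 3 =>
        Icc (-((max A B : ℕ) : ℤ)) (max A B : ℕ)).filter
          (fun z => (fun i => ((z i : ℤ) : ZMod N)) = ρ),
        g (z ∘ Sum.inl) (z ∘ Sum.inr) * H (fun i => (z i : ℝ) / X i)) =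
      G ρ * ∑ z ∈ (Fintype.piFinset fun _ : Fin 3 ⊕ Fin 3 =>
        Icc (-((max A B : ℕ) : ℤ)) (max A B : ℕ)).filter (fun z => ∀ i, (N : ℤ) ∣ z i - r ρ i),
        H (fun i => (z i : ℝ) / X i) := by
    intro ρ
    have hiff : ∀ z : Fin 3 ⊕ Fin 3 → ℤ, (fun i => ((z i : ℤ) : ZMod N)) = ρ ↔
        ∀ i, (N : ℤ) ∣ z i - r ρ i := by
      intro z
      constructor
      · intro hz i
        have h1 := congrFun hz i
        have h2 : ((r ρ i : ℤ) : ZMod N) = ((z i : ℤ) : ZMod N) := by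
          rw [h1]
          simp [hr]
        exact (ZMod.intCast_eq_intCast_iff_dvd_sub _ _ _).1 h2
      · intro hz
        funext i
        have h2 := (ZMod.intCast_eq_intCast_iff_dvd_sub _ _ _).2 (hz i)
        rw [← h2]
        simp [hr]
    rw [mul_sum]
    refine sum_congr ?_ ?_
    · ext z
      simp only [mem_filter, hiff]
    · intro z hz
      rw [mem_filter] at hz
      congr 1
      apply hg
      · intro j
        exact hz.2 (Sum.inl j)
      · intro j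
        exact hz.2 (Sum.inr j)
  rw [sum_congr rfl (fun ρ _ => hin ρ), sum_mul, ← sum_sub_distrib]
  refine (abs_sum_le_sum_abs _ _).trans ?_
  have hterm : ∀ ρ : Fin 3 ⊕ Fin 3 → ZMod N,
      |G ρ * (∑ z ∈ (Fintype.piFinset fun _ : Fin 3 ⊕ Fin 3 =>
        Icc (-((max A B : ℕ) : ℤ)) (max A B : ℕ)).filter (fun z => ∀ i, (N : ℤ) ∣ z i - r ρ i),
        H (fun i => (z i : ℝ) / X i)) -
        G ρ * ((∫ x, H x) / (N : ℝ) ^ Fintype.card (Fin 3 ⊕ Fin 3)) * ((A : ℝ) * B) ^ 3| ≤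
      |G ρ| * (ε / (∑ ρ, |G ρ| + 1) * ((A : ℝ) * B) ^ 3) := by
    intro ρ
    have h1 := hM X hXM (r ρ) (max A B) hXQ
    rw [hprod] at h1
    rw [mul_assoc, ← mul_sub, abs_mul]
    refine mul_le_mul_of_nonneg_left ?_ (abs_nonneg _)
    refine le_trans (le_of_eq ?_) h1
    rw [div_mul_eq_mul_div]
    exact congrArg (fun t : ℝ => |t - _|) (sfi _ _ _ _ _ _ _)
  refine (sum_le_sum fun ρ _ => hterm ρ).trans ?_
  rw [← sum_mul]
  have h1 : (∑ ρ, |G ρ|) * (ε / (∑ ρ, |G ρ| + 1)) ≤ ε := by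
    rw [mul_div_assoc', div_le_iff₀ (by positivity)]
    nlinarith
  calc (∑ ρ, |G ρ|) * (ε / (∑ ρ, |G ρ| + 1) * ((A : ℝ) * B) ^ 3) =
        ((∑ ρ, |G ρ|) * (ε / (∑ ρ, |G ρ| + 1))) * ((A : ℝ) * B) ^ 3 := by ring
    _ ≤ ε * ((A : ℝ) * B) ^ 3 := by gcongr

end ModEqui

open ModEqui

open Classical in
/-- Averages over pairs of primitive vectors. -/
theorem equi (hR : StmtRiem) : StmtEqui := by
  intro h K hK hc N hN θ hθ
  have hK0 : 0 ≤ K := (abs_nonneg _).trans (hK 0 0)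
  have : NeZero N := ⟨by omega⟩
  -- the bound of the periodic function
  obtain ⟨Θ, hΘ0, hΘ⟩ : ∃ Θ : ℝ, 0 ≤ Θ ∧ ∀ x y, |θ x y| ≤ Θ := by
    refine ⟨∑ ρ : (Fin 3 → ZMod N) × (Fin 3 → ZMod N),
      |θ (fun j => ((ρ.1 j).val : ℤ)) (fun j => ((ρ.2 j).val : ℤ))|,
      sum_nonneg fun _ _ => abs_nonneg _, ?_⟩
    intro x y
    have h1 : θ x y = θ (fun j => ((((x j : ℤ) : ZMod N)).val : ℤ))
        (fun j => ((((y j : ℤ) : ZMod N)).val : ℤ)) := by
      apply hθ
      · intro j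
        apply (ZMod.intCast_eq_intCast_iff_dvd_sub _ _ _).1
        simp
      · intro j
        apply (ZMod.intCast_eq_intCast_iff_dvd_sub _ _ _).1
        simp
    rw [h1]
    exact single_le_sum (f := fun ρ : (Fin 3 → ZMod N) × (Fin 3 → ZMod N) =>
      |θ (fun j => ((ρ.1 j).val : ℤ)) (fun j => ((ρ.2 j).val : ℤ))|)
      (fun _ _ => abs_nonneg _) (mem_univ ((fun j => ((x j : ℤ) : ZMod N)),
        (fun j => ((y j : ℤ) : ZMod N))))
  set S : ℕ → ℕ → ℝ := fun A B =>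
    ∑ t ∈ (bx 3 A ×ˢ bx 3 B).filter (fun t => Pr t.1 ∧ Pr t.2), θ t.1 t.2 *
        h (fun i => (t.1 i : ℝ) / A) (fun i => (t.2 i : ℝ) / B) with hS
  -- approximation by periodic functions
  have happ : ∀ z : ℕ, 2 ≤ z → ∀ A B : ℕ, 1 ≤ A → 1 ≤ B →
      |S A B - ∑ t ∈ bx 3 A ×ˢ bx 3 B,
        (θ t.1 t.2 * (if Pz z t.1 ∧ Pz z t.2 then 1 else 0)) *
        h (fun i => (t.1 i : ℝ) / A) (fun i => (t.2 i : ℝ) / B)| ≤
      (1458 * Θ * K) / z * ((A : ℝ) * B) ^ 3 := by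
    intro z hz A B hA hB
    have hz0 : (0 : ℝ) < z := by exact_mod_cast (by omega : 0 < z)
    have h1 : S A B - ∑ t ∈ bx 3 A ×ˢ bx 3 B,
        (θ t.1 t.2 * (if Pz z t.1 ∧ Pz z t.2 then 1 else 0)) *
        h (fun i => (t.1 i : ℝ) / A) (fun i => (t.2 i : ℝ) / B) =
      ∑ t ∈ bx 3 A ×ˢ bx 3 B,
        (((if Pr t.1 ∧ Pr t.2 then 1 else 0) - (if Pz z t.1 ∧ Pz z t.2 then 1 else 0)) *
          θ t.1 t.2) *
        h (fun i => (t.1 i : ℝ) / A) (fun i => (t.2 i : ℝ) / B) := by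
      rw [hS]
      simp only
      rw [sum_filter, ← sum_sub_distrib]
      refine sum_congr rfl fun t _ => ?_
      split_ifs <;> ring
    rw [h1]
    refine (abs_sum_le_sum_abs _ _).trans ?_
    have h2 : ∀ t ∈ bx 3 A ×ˢ bx 3 B,
        |(((if Pr t.1 ∧ Pr t.2 then (1 : ℝ) else 0) -
          (if Pz z t.1 ∧ Pz z t.2 then 1 else 0)) * θ t.1 t.2) *
        h (fun i => (t.1 i : ℝ) / A) (fun i => (t.2 i : ℝ) / B)| ≤
        Θ * K * ((if Pz z t.1 ∧ ¬ Pr t.1 then 1 else 0) +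
          (if Pz z t.2 ∧ ¬ Pr t.2 then 1 else 0)) := by
      intro t _
      have h3 : |(((if Pr t.1 ∧ Pr t.2 then (1 : ℝ) else 0) -
          (if Pz z t.1 ∧ Pz z t.2 then 1 else 0)))| ≤
          ((if Pz z t.1 ∧ ¬ Pr t.1 then 1 else 0) + (if Pz z t.2 ∧ ¬ Pr t.2 then 1 else 0)) := by
        by_cases a1 : Pr t.1
        · by_cases a2 : Pr t.2
          · have b1 := Pr_Pz z a1
            have b2 := Pr_Pz z a2
            simp [a1, a2, b1, b2]
          · have b1 := Pr_Pz z a1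
            by_cases b2 : Pz z t.2
            · simp [a1, a2, b1, b2]
            · simp [a1, a2, b1, b2]
        · by_cases b1 : Pz z t.1
          · by_cases b2 : Pz z t.2
            · simp only [a1, b1, b2, false_and, if_false, and_self, if_true, not_false_eq_true,
                true_and]
              have : (0 : ℝ) ≤ (if ¬ Pr t.2 then (1 : ℝ) else 0) := by
                split_ifs <;> norm_num
              rw [zero_sub, abs_neg, abs_one]
              linarith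
            · simp only [a1, b1, b2, false_and, if_false, and_false, not_false_eq_true,
                and_self, if_true]
              norm_num
          · simp only [a1, b1, false_and, if_false]
            have : (0 : ℝ) ≤ (if Pz z t.2 ∧ ¬ Pr t.2 then (1 : ℝ) else 0) := by
              split_ifs <;> norm_num
            simpa using this
      rw [abs_mul, abs_mul]
      calc |(((if Pr t.1 ∧ Pr t.2 then (1 : ℝ) else 0) -
          (if Pz z t.1 ∧ Pz z t.2 then 1 else 0)))| * |θ t.1 t.2| *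
          |h (fun i => (t.1 i : ℝ) / A) (fun i => (t.2 i : ℝ) / B)| ≤
          ((if Pz z t.1 ∧ ¬ Pr t.1 then 1 else 0) + (if Pz z t.2 ∧ ¬ Pr t.2 then 1 else 0)) *
            Θ * K := by
            have h4 : (0 : ℝ) ≤ ((if Pz z t.1 ∧ ¬ Pr t.1 then 1 else 0) +
              (if Pz z t.2 ∧ ¬ Pr t.2 then 1 else 0)) := (abs_nonneg _).trans h3
            gcongr
            · exact hΘ _ _
            · exact hK _ _
        _ = _ := by ring
    refine (sum_le_sum h2).trans ?_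
    rw [← mul_sum, sum_add_distrib]
    have h5 : ∑ t ∈ bx 3 A ×ˢ bx 3 B, (if Pz z t.1 ∧ ¬ Pr t.1 then (1 : ℝ) else 0) ≤
        729 * ((A : ℝ) * B) ^ 3 / z := by
      rw [sum_product]
      change (∑ x ∈ bx 3 A, ∑ _y ∈ bx 3 B, (if Pz z x ∧ ¬ Pr x then (1 : ℝ) else 0)) ≤ _
      simp only [sum_const, nsmul_eq_mul]
      rw [← mul_sum, sum_boole]
      have h6 := count_bad hz A
      have h7 := card_bx_le 3 hB
      calc ((bx 3 B).card : ℝ) * (((bx 3 A).filter fun x => Pz z x ∧ ¬ Pr x).card : ℝ) ≤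
          (3 * (B : ℝ)) ^ 3 * (27 * (A : ℝ) ^ 3 / z) := by gcongr
        _ = 729 * ((A : ℝ) * B) ^ 3 / z := by ring
    have h8 : ∑ t ∈ bx 3 A ×ˢ bx 3 B, (if Pz z t.2 ∧ ¬ Pr t.2 then (1 : ℝ) else 0) ≤
        729 * ((A : ℝ) * B) ^ 3 / z := by
      rw [sum_product]
      change (∑ _x ∈ bx 3 A, ∑ y ∈ bx 3 B, (if Pz z y ∧ ¬ Pr y then (1 : ℝ) else 0)) ≤ _
      rw [sum_const, nsmul_eq_mul, sum_boole]
      have h6 := count_bad hz B
      have h7 := card_bx_le 3 hA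
      calc ((bx 3 A).card : ℝ) * (((bx 3 B).filter fun x => Pz z x ∧ ¬ Pr x).card : ℝ) ≤
          (3 * (A : ℝ)) ^ 3 * (27 * (B : ℝ) ^ 3 / z) := by gcongr
        _ = 729 * ((A : ℝ) * B) ^ 3 / z := by ring
    calc Θ * K * (∑ t ∈ bx 3 A ×ˢ bx 3 B, (if Pz z t.1 ∧ ¬ Pr t.1 then (1 : ℝ) else 0) +
          ∑ t ∈ bx 3 A ×ˢ bx 3 B, (if Pz z t.2 ∧ ¬ Pr t.2 then (1 : ℝ) else 0)) ≤
        Θ * K * (729 * ((A : ℝ) * B) ^ 3 / z + 729 * ((A : ℝ) * B) ^ 3 / z) := by gcongr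
      _ = (1458 * Θ * K) / z * ((A : ℝ) * B) ^ 3 := by ring
  -- the Cauchy property
  have hcau : ∀ ε : ℝ, 0 < ε → ∃ (k : ℝ) (M : ℕ), ∀ A B : ℕ, M ≤ A → M ≤ B →
      |S A B - k * ((A : ℝ) * B) ^ 3| ≤ ε * ((A : ℝ) * B) ^ 3 := by
    intro ε hε
    obtain ⟨z0, hz0⟩ := exists_nat_gt ((1458 * Θ * K) / (ε / 2))
    set z := max z0 2 with hz
    have hz2 : 2 ≤ z := le_max_right _ _
    have hzpos : (0 : ℝ) < z := by exact_mod_cast (by omega : 0 < z)
    have hzε : (1458 * Θ * K) / z ≤ ε / 2 := by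
      rw [div_le_iff₀ hzpos]
      have h1 : (1458 * Θ * K) / (ε / 2) ≤ z :=
        hz0.le.trans (by exact_mod_cast le_max_left _ _)
      rw [div_le_iff₀ (by positivity)] at h1
      linarith
    obtain ⟨k, hk⟩ := periodic hR h K hK hc (N * z.factorial)
      (Nat.mul_pos hN (Nat.factorial_pos z))
      (fun x y => θ x y * (if Pz z x ∧ Pz z y then 1 else 0)) (by
        intro x x' y y' hx hy
        have hdN : ((N : ℕ) : ℤ) ∣ ((N * z.factorial : ℕ) : ℤ) :=
          Int.natCast_dvd_natCast.2 (dvd_mul_right _ _)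
        have h1 : θ x' y' = θ x y :=
          hθ _ _ _ _ (fun j => hdN.trans (hx j)) (fun j => hdN.trans (hy j))
        have hsymm : ∀ {a b : Fin 3 → ℤ}, (∀ j, ((N * z.factorial : ℕ) : ℤ) ∣ b j - a j) →
            ∀ j, ((N * z.factorial : ℕ) : ℤ) ∣ a j - b j := fun {a b} hab j => by
          rw [← neg_sub, dvd_neg]
          exact hab j
        have h2 : Pz z x' ↔ Pz z x :=
          ⟨Pz_mod (dvd_mul_left _ _) (hsymm hx), Pz_mod (dvd_mul_left _ _) hx⟩
        have h3 : Pz z y' ↔ Pz z y :=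
          ⟨Pz_mod (dvd_mul_left _ _) (hsymm hy), Pz_mod (dvd_mul_left _ _) hy⟩
        simp only [h1, h2, h3])
    obtain ⟨M, hM⟩ := hk (ε / 2) (by positivity)
    refine ⟨k, max M 1, ?_⟩
    intro A B hA hB
    have h1 := hM A B ((le_max_left _ _).trans hA) ((le_max_left _ _).trans hB)
    have h2 := happ z hz2 A B ((le_max_right _ _).trans hA) ((le_max_right _ _).trans hB)
    have hP0 : 0 ≤ ((A : ℝ) * B) ^ 3 := by positivity
    have h3 : (1458 * Θ * K) / z * ((A : ℝ) * B) ^ 3 ≤ ε / 2 * ((A : ℝ) * B) ^ 3 := by gcongr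
    calc |S A B - k * ((A : ℝ) * B) ^ 3| ≤ |S A B - ∑ t ∈ bx 3 A ×ˢ bx 3 B,
        (θ t.1 t.2 * (if Pz z t.1 ∧ Pz z t.2 then 1 else 0)) *
        h (fun i => (t.1 i : ℝ) / A) (fun i => (t.2 i : ℝ) / B)| +
        |(∑ t ∈ bx 3 A ×ˢ bx 3 B,
        (θ t.1 t.2 * (if Pz z t.1 ∧ Pz z t.2 then 1 else 0)) *
        h (fun i => (t.1 i : ℝ) / A) (fun i => (t.2 i : ℝ) / B)) - k * ((A : ℝ) * B) ^ 3| :=
        abs_sub_le _ _ _
      _ ≤ ε / 2 * ((A : ℝ) * B) ^ 3 + ε / 2 * ((A : ℝ) * B) ^ 3 := add_le_add (h2.trans h3) h1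
      _ = ε * ((A : ℝ) * B) ^ 3 := by ring
  have hseq : CauchySeq (fun p : ℕ × ℕ => S p.1 p.2 / ((p.1 : ℝ) * p.2) ^ 3) := by
    rw [Metric.cauchySeq_iff']
    intro ε hε
    obtain ⟨k, M, hM⟩ := hcau (ε / 3) (by positivity)
    have hdist : ∀ p : ℕ × ℕ, p ≥ (max M 1, max M 1) →
        |S p.1 p.2 / ((p.1 : ℝ) * p.2) ^ 3 - k| ≤ ε / 3 := by
      rintro ⟨A, B⟩ hp
      have hA : max M 1 ≤ A := hp.1
      have hB : max M 1 ≤ B := hp.2
      have hA0 : (0 : ℝ) < A := by exact_mod_cast (le_max_right _ _).trans hA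
      have hB0 : (0 : ℝ) < B := by exact_mod_cast (le_max_right _ _).trans hB
      have h1 := hM A B ((le_max_left _ _).trans hA) ((le_max_left _ _).trans hB)
      have hpos : (0 : ℝ) < ((A : ℝ) * B) ^ 3 := by positivity
      have h2 : S A B / ((A : ℝ) * B) ^ 3 - k = (S A B - k * ((A : ℝ) * B) ^ 3) /
          ((A : ℝ) * B) ^ 3 := by
        field_simp
      simp only
      rw [h2, abs_div, abs_of_pos hpos, div_le_iff₀ hpos]
      exact h1
    refine ⟨(max M 1, max M 1), fun p hp => ?_⟩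
    rw [Real.dist_eq]
    have h1 := hdist p hp
    have h2 := hdist (max M 1, max M 1) le_rfl
    calc |S p.1 p.2 / ((p.1 : ℝ) * p.2) ^ 3 -
          S (max M 1) (max M 1) / ((((max M 1 : ℕ)) : ℝ) * ((max M 1 : ℕ) : ℝ)) ^ 3| ≤
        |S p.1 p.2 / ((p.1 : ℝ) * p.2) ^ 3 - k| +
        |k - S (max M 1) (max M 1) / ((((max M 1 : ℕ)) : ℝ) * ((max M 1 : ℕ) : ℝ)) ^ 3| :=
        abs_sub_le _ _ _
      _ ≤ ε / 3 + ε / 3 := by
          refine add_le_add h1 ?_
          rw [abs_sub_comm]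
          exact h2
      _ < ε := by linarith
  obtain ⟨κ, hκ⟩ := cauchySeq_tendsto_of_complete hseq
  refine ⟨κ, ?_⟩
  intro ε hε
  rw [Metric.tendsto_atTop] at hκ
  obtain ⟨⟨M1, M2⟩, hM⟩ := hκ ε hε
  refine ⟨max (max M1 M2) 1, ?_⟩
  intro A B hA hB
  have hA0 : (0 : ℝ) < A := by exact_mod_cast (le_max_right _ _).trans hA
  have hB0 : (0 : ℝ) < B := by exact_mod_cast (le_max_right _ _).trans hB
  have hpos : (0 : ℝ) < ((A : ℝ) * B) ^ 3 := by positivity
  have h1 := hM (A, B) ⟨(le_max_left _ _).trans ((le_max_left _ _).trans hA),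
    (le_max_right _ _).trans ((le_max_left _ _).trans hB)⟩
  rw [Real.dist_eq] at h1
  have h2 : S A B / ((A : ℝ) * B) ^ 3 - κ = (S A B - κ * ((A : ℝ) * B) ^ 3) /
      ((A : ℝ) * B) ^ 3 := by
    field_simp
  simp only at h1
  rw [h2, abs_div, abs_of_pos hpos, div_lt_iff₀ hpos] at h1
  exact h1.le

end Pool.Agent.T6.H97.TA
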