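import Mathlib
import Pool.Agent.T6.H97.TA.Defs

/-!
Module Err: densities exist, and the sum of the error terms is small.
-/

set_option autoImplicit false

namespace Pool.Agent.T6.H97.TA

namespace ModErr

open Finset Matrix Filter Topology MeasureTheory
open Pool.Agent.H548.WM (ht bx mem_bx card_bx_le)
open Pool.Agent.H548.TL (g1 g2 g3 tf Sm s12 s23 Tx box PP InU tf_g3 vecMul_Tx Tx_mulVec g1_s12)
open Pool.Agent.H548.BL (lat mem_lat)
open Pool.Agent.T6.H81.BA (Cell)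
open Pool.Agent.T6.H81.BG (StmtR3)

theorem mem_lat1 (w v : Fin 3 → ℤ) : v ∈ lat (fun _ : Fin 1 => w) ↔ w ⬝ᵥ v = 0 := by
  rw [mem_lat]
  exact ⟨fun h => h 0, fun h _ => h⟩

open Classical in
/-- The number of the points of the plane orthogonal to `w` in a ball. -/
noncomputable def En (w : Fin 3 → ℤ) (ρ : ℕ) : ℕ := ((bx 3 ρ).filter fun v => w ⬝ᵥ v = 0).card

theorem cell_bd (hR3 : StmtR3) {n : ℕ} (f : Fin n → Fin 3 → ℤ) (σ : Fin n → Bool) {q : ℕ}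
    (r : Fin 3 → ℤ) (hq : 1 ≤ q) :
    ∃ C : ℝ, 0 ≤ C ∧ ∃ F : (Fin 3 → ℤ) → ℝ, ∀ w : Fin 3 → ℤ, w ≠ 0 → ∀ ρ Y : ℕ, 1 ≤ ρ → ρ ≤ Y →
      |(pl (Cell f σ q r) w Y : ℝ) - F w * (Y : ℝ) ^ 2| ≤
        C * (1 + Real.log Y) * ((Y : ℝ) / ρ) * (En w ρ : ℝ) := by
  classical
  obtain ⟨C, hC, h⟩ := hR3 1 3 n q (by norm_num) hq
  refine ⟨C, hC, ?_⟩
  have key : ∀ w : Fin 3 → ℤ, ∃ c : ℝ, w ≠ 0 → ∀ ρ Y : ℕ, 1 ≤ ρ → ρ ≤ Y →
      |(pl (Cell f σ q r) w Y : ℝ) - c * (Y : ℝ) ^ 2| ≤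
        C * (1 + Real.log Y) * ((Y : ℝ) / ρ) * (En w ρ : ℝ) := by
    intro w
    by_cases hw : w = 0
    · exact ⟨0, fun h => absurd hw h⟩
    · have hli : LinearIndependent ℤ (fun _ : Fin 1 => w) := by
        rw [linearIndependent_unique_iff]
        exact hw
      obtain ⟨c, hc, h1⟩ := h (fun _ => w) hli f σ r
      refine ⟨c, fun _ ρ Y hρ hρY => ?_⟩
      have h2 := h1 ρ Y hρ hρY
      have e1 : ((bx 3 Y).filter fun v => v ∈ lat (fun _ : Fin 1 => w) ∧ Cell f σ q r v) =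
          ((bx 3 Y).filter fun v => w ⬝ᵥ v = 0 ∧ Cell f σ q r v) := by
        apply Finset.filter_congr
        intro v _
        rw [mem_lat1]
      have e2 : ((bx 3 ρ).filter fun v => v ∈ lat (fun _ : Fin 1 => w)) =
          ((bx 3 ρ).filter fun v => w ⬝ᵥ v = 0) := by
        apply Finset.filter_congr
        intro v _
        rw [mem_lat1]
      rw [e1, e2] at h2
      simp only [Nat.reduceSub, pow_one] at h2
      unfold pl En
      exact h2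
  choose F hF using key
  exact ⟨F, fun w hw => hF w hw⟩

theorem isDen_of {c : (Fin 3 → ℤ) → Prop} {F : (Fin 3 → ℤ) → ℝ} {C : ℝ}
    (h : ∀ w : Fin 3 → ℤ, w ≠ 0 → ∀ ρ Y : ℕ, 1 ≤ ρ → ρ ≤ Y →
      |(pl c w Y : ℝ) - F w * (Y : ℝ) ^ 2| ≤
        C * (1 + Real.log Y) * ((Y : ℝ) / ρ) * (En w ρ : ℝ)) : IsDen c F := by
  intro w hw
  have h1 := h w hw 1
  have h2 : Tendsto (fun Y : ℕ => (C * (En w 1 : ℝ)) * ((1 + Real.log Y) / (Y : ℝ))) atTop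
      (𝓝 0) := by
    have h3 : Tendsto (fun x : ℝ => (1 + Real.log x) / x) atTop (𝓝 0) := by
      have h4 : Tendsto (fun x : ℝ => 1 / x) atTop (𝓝 0) := by
        simpa using tendsto_inv_atTop_zero (𝕜 := ℝ)
      have h5 : Tendsto (fun x : ℝ => Real.log x / x) atTop (𝓝 0) := by
        have h6 := Real.tendsto_pow_log_div_mul_add_atTop 1 0 1 one_ne_zero
        simpa using h6
      have h7 := h4.add h5
      rw [add_zero] at h7
      refine h7.congr fun x => ?_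
      rw [add_div]
    have h8 := (h3.comp tendsto_natCast_atTop_atTop).const_mul (C * (En w 1 : ℝ))
    rw [mul_zero] at h8
    exact h8
  rw [tendsto_iff_norm_sub_tendsto_zero]
  refine squeeze_zero' (Eventually.of_forall fun Y => norm_nonneg _) ?_ h2
  filter_upwards [eventually_ge_atTop 1] with Y hY
  have h3 := h1 Y le_rfl hY
  have hY0 : (0 : ℝ) < Y := by exact_mod_cast hY
  have e : (pl c w Y : ℝ) / (Y : ℝ) ^ 2 - F w =
      ((pl c w Y : ℝ) - F w * (Y : ℝ) ^ 2) / (Y : ℝ) ^ 2 := by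
    field_simp
  rw [e, Real.norm_eq_abs, abs_div, abs_of_pos (by positivity : (0 : ℝ) < (Y : ℝ) ^ 2),
    div_le_iff₀ (by positivity)]
  refine h3.trans (le_of_eq ?_)
  push_cast
  field_simp

/-- A nonsingular matrix has no nonzero vector in its kernel. -/
theorem mulVec_ne {n : ℕ} {M : Matrix (Fin n) (Fin n) ℤ} (h : M.det ≠ 0) {v : Fin n → ℤ}
    (hv : v ≠ 0) : M *ᵥ v ≠ 0 := fun h0 => hv (eq_zero_of_mulVec_eq_zero h h0)

theorem vecMul_ne {n : ℕ} {M : Matrix (Fin n) (Fin n) ℤ} (h : M.det ≠ 0) {v : Fin n → ℤ}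
    (hv : v ≠ 0) : v ᵥ* M ≠ 0 := fun h0 => hv (eq_zero_of_vecMul_eq_zero h h0)

theorem Pr.ne_zero {v : Fin 3 → ℤ} (h : Pr v) : v ≠ 0 := by
  rintro rfl
  have h0 : (univ : Finset (Fin 3)).gcd (0 : Fin 3 → ℤ) = 0 :=
    Finset.gcd_eq_zero_iff.2 fun _ _ => rfl
  have h1 : (univ : Finset (Fin 3)).gcd (0 : Fin 3 → ℤ) = 1 := h
  rw [h0] at h1
  exact absurd h1 (by norm_num)

theorem g3_ne {T : T3} {x y : Fin 3 → ℤ} (h : D1 T x ≠ 0) (hy : y ≠ 0) : g3 T x y ≠ 0 := by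
  rw [← vecMul_Tx]
  exact vecMul_ne h hy

theorem inU_of {T : T3} {x y v : Fin 3 → ℤ} (h1 : D1 T x ≠ 0) (h2 : D2 T y ≠ 0) (hy : y ≠ 0)
    (hv : v ≠ 0) (h : g3 T x y ⬝ᵥ v = 0) : InU T x y v := by
  refine ⟨?_, ?_, ?_, g3_ne h1 hy⟩
  · rw [tf_g3, dotProduct_comm]
    exact h
  · have h3 : g2 (s12 T) y v ≠ 0 := by
      rw [← Tx_mulVec]
      exact mulVec_ne h2 hv
    exact h3
  · rw [← Tx_mulVec]
    exact mulVec_ne h1 hv

theorem sum_En_le (T : T3) (A B ρ : ℕ) :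
    ∑ t ∈ Pa T A B, En (g3 T t.1 t.2) ρ ≤ (Pa T A B).card + (PP T A B ρ).card := by
  classical
  have h1 : ∀ t ∈ Pa T A B, En (g3 T t.1 t.2) ρ ≤
      1 + ((bx 3 ρ).filter fun v => v ≠ 0 ∧ g3 T t.1 t.2 ⬝ᵥ v = 0).card := by
    intro t _
    have h2 : ((bx 3 ρ).filter fun v => g3 T t.1 t.2 ⬝ᵥ v = 0) ⊆
        {0} ∪ ((bx 3 ρ).filter fun v => v ≠ 0 ∧ g3 T t.1 t.2 ⬝ᵥ v = 0) := by
      intro v hv
      rw [mem_filter] at hv
      rw [mem_union, mem_singleton, mem_filter]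
      by_cases h0 : v = 0
      · exact Or.inl h0
      · exact Or.inr ⟨hv.1, h0, hv.2⟩
    unfold En
    refine (card_le_card h2).trans ((card_union_le _ _).trans ?_)
    rw [card_singleton]
  refine (sum_le_sum h1).trans ?_
  rw [sum_add_distrib]
  simp only [sum_const, smul_eq_mul, mul_one]
  refine Nat.add_le_add_left ?_ _
  rw [← Finset.card_sigma]
  refine Finset.card_le_card_of_injOn
    (fun s : (Σ _ : (Fin 3 → ℤ) × (Fin 3 → ℤ), (Fin 3 → ℤ)) => (s.1.1, s.1.2, s.2)) ?_ ?_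
  · intro s hs
    rw [mem_coe, mem_sigma] at hs
    obtain ⟨hs1, hs2⟩ := hs
    rw [mem_filter] at hs2
    unfold Pa at hs1
    rw [mem_filter, mem_product] at hs1
    rw [mem_coe]
    unfold PP
    rw [mem_filter, mem_product, mem_product]
    exact ⟨⟨hs1.1.1, hs1.1.2, hs2.1⟩, inU_of hs1.2.2.2.1 hs1.2.2.2.2 (Pr.ne_zero hs1.2.2.1)
      hs2.2.1 hs2.2.2⟩
  · rintro ⟨⟨a, b⟩, c⟩ _ ⟨⟨a', b'⟩, c'⟩ _ h
    simp only [Prod.mk.injEq] at h
    obtain ⟨rfl, rfl, rfl⟩ := h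
    rfl

theorem card_Pa_le (T : T3) {A B : ℕ} (hA : 1 ≤ A) (hB : 1 ≤ B) :
    ((Pa T A B).card : ℝ) ≤ 729 * ((A : ℝ) * B) ^ 3 := by
  classical
  have h1 : (Pa T A B).card ≤ (bx 3 A).card * (bx 3 B).card := by
    unfold Pa
    refine (card_filter_le _ _).trans ?_
    rw [card_product]
  calc ((Pa T A B).card : ℝ) ≤ (bx 3 A).card * (bx 3 B).card := by exact_mod_cast h1
    _ ≤ (3 * (A : ℝ)) ^ 3 * (3 * (B : ℝ)) ^ 3 := by
      gcongr
      · exact card_bx_le 3 hA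
      · exact card_bx_le 3 hB
    _ = _ := by ring

/-- The sum of the numbers of the small lattice points. -/
theorem sum_En (T : T3) (hT : Sm ℂ T) (e : ℝ) (he : 0 < e) : ∃ K : ℝ, 0 ≤ K ∧
    ∀ A B ρ : ℕ, 1 ≤ A → 1 ≤ B → 1 ≤ ρ → ρ * ρ ≤ A * B →
      ∑ t ∈ Pa T A B, (En (g3 T t.1 t.2) ρ : ℝ) ≤ K * ((A : ℝ) * B) ^ (3 + 2 * e) := by
  obtain ⟨K, hK, h⟩ := box (le_refl 3) (le_refl 3) (le_refl 3) hT.real e he
  refine ⟨729 + K, by positivity, ?_⟩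
  intro A B ρ hA hB hρ hρ2
  have hA' : (1 : ℝ) ≤ A := by exact_mod_cast hA
  have hB' : (1 : ℝ) ≤ B := by exact_mod_cast hB
  have hρ' : (1 : ℝ) ≤ ρ := by exact_mod_cast hρ
  set P : ℝ := (A : ℝ) * B with hP
  have hP1 : 1 ≤ P := one_le_mul_of_one_le_of_one_le hA' hB'
  have hP0 : 0 < P := by linarith
  have hρP : (ρ : ℝ) * ρ ≤ P := by
    rw [hP]
    exact_mod_cast hρ2
  have hρP' : (ρ : ℝ) ≤ P := by nlinarith
  have h1 : ∑ t ∈ Pa T A B, (En (g3 T t.1 t.2) ρ : ℝ) ≤ (Pa T A B).card + (PP T A B ρ).card := by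
    exact_mod_cast sum_En_le T A B ρ
  have h2 := card_Pa_le T hA hB
  have h3 := h A B ρ hA hB hρ
  simp only [Nat.reduceSub] at h3
  rw [← hP] at h2
  have h4 : P ^ 3 ≤ P ^ (3 + 2 * e) := by
    rw [← Real.rpow_natCast P 3]
    apply Real.rpow_le_rpow_of_exponent_le hP1
    push_cast
    linarith
  have h5 : K * ((A : ℝ) ^ 2 * (B : ℝ) ^ 2 * (ρ : ℝ) ^ 2) * ((A : ℝ) * B * ρ) ^ e ≤
      K * P ^ (3 + 2 * e) := by
    have e1 : (A : ℝ) ^ 2 * (B : ℝ) ^ 2 * (ρ : ℝ) ^ 2 ≤ P ^ 3 := by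
      calc (A : ℝ) ^ 2 * (B : ℝ) ^ 2 * (ρ : ℝ) ^ 2 = P ^ 2 * (ρ * ρ) := by rw [hP]; ring
        _ ≤ P ^ 2 * P := by gcongr
        _ = P ^ 3 := by ring
    have e2 : ((A : ℝ) * B * ρ) ^ e ≤ P ^ (2 * e) := by
      calc ((A : ℝ) * B * ρ) ^ e ≤ (P ^ (2 : ℝ)) ^ e := by
            apply Real.rpow_le_rpow (by positivity) _ he.le
            rw [Real.rpow_two, ← hP, sq]
            gcongr
        _ = P ^ (2 * e) := by rw [← Real.rpow_mul hP0.le]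
    calc K * ((A : ℝ) ^ 2 * (B : ℝ) ^ 2 * (ρ : ℝ) ^ 2) * ((A : ℝ) * B * ρ) ^ e ≤
        K * P ^ 3 * P ^ (2 * e) := by gcongr
      _ = K * P ^ (3 + 2 * e) := by
        rw [Real.rpow_add hP0, mul_assoc]
        congr 2
        rw [← Real.rpow_natCast P 3]
        norm_num
  calc ∑ t ∈ Pa T A B, (En (g3 T t.1 t.2) ρ : ℝ) ≤ 729 * P ^ 3 + K * P ^ (3 + 2 * e) := by
        linarith
    _ ≤ 729 * P ^ (3 + 2 * e) + K * P ^ (3 + 2 * e) := by gcongr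
    _ = _ := by ring

/-- Growth of the logarithm. -/
theorem exists_large (C η ε : ℝ) (hη : 0 < η) (hε : 0 < ε) : ∃ M : ℕ, 1 ≤ M ∧
    ∀ Y : ℝ, (M : ℝ) ≤ Y → C * (1 + Real.log Y) ≤ ε * Y ^ η := by
  have h1 : Tendsto (fun x : ℝ => C * ((1 + Real.log x) / x ^ η)) atTop (𝓝 0) := by
    have h2 : Tendsto (fun x : ℝ => Real.log x / x ^ η) atTop (𝓝 0) :=
      (isLittleO_log_rpow_atTop hη).tendsto_div_nhds_zero
    have h3 : Tendsto (fun x : ℝ => 1 / x ^ η) atTop (𝓝 0) := by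
      have h4 := tendsto_rpow_neg_atTop hη
      refine h4.congr' ?_
      filter_upwards [eventually_gt_atTop 0] with x hx
      rw [Real.rpow_neg hx.le, one_div]
    have h5 := (h3.add h2).const_mul C
    rw [add_zero, mul_zero] at h5
    refine h5.congr fun x => ?_
    rw [add_div]
  have h6 : ∀ᶠ x : ℝ in atTop, C * ((1 + Real.log x) / x ^ η) < ε :=
    h1.eventually (gt_mem_nhds hε)
  obtain ⟨M, hM⟩ := (h6.and (eventually_gt_atTop 0)).exists_forall_of_atTop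
  obtain ⟨M', hM'⟩ := exists_nat_ge M
  refine ⟨max M' 1, le_max_right _ _, ?_⟩
  intro Y hY
  have hY1 : M ≤ Y := hM'.trans (le_trans (by exact_mod_cast le_max_left _ _) hY)
  obtain ⟨h7, h8⟩ := hM Y hY1
  have h9 : 0 < Y ^ η := Real.rpow_pos_of_pos h8 η
  rw [mul_div_assoc', div_lt_iff₀ h9] at h7
  exact h7.le

end ModErr

open Finset Matrix Filter Topology MeasureTheory
open Pool.Agent.H548.WM (ht bx mem_bx card_bx_le)
open Pool.Agent.H548.TL (g1 g2 g3 tf Sm s12 s23 Tx box PP InU)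
open Pool.Agent.T6.H81.BA (Cell)
open Pool.Agent.T6.H81.BG (StmtR3)
open ModErr

/-- Module Err. -/
theorem err (hR3 : StmtR3) : StmtErr := by
  classical
  intro T hT c hc
  obtain ⟨n, f, σ, q, r, hq, hcc⟩ := hc
  obtain rfl : c = Cell f σ q r := by
    funext v
    exact propext (hcc v)
  obtain ⟨C, hC, F, hF⟩ := cell_bd hR3 f σ r hq
  refine ⟨F, isDen_of hF, ?_⟩
  intro ε hε
  obtain ⟨K, hK, hsum⟩ := sum_En T hT (ε / 8) (by positivity)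
  obtain ⟨M, hM1, hM⟩ := exists_large (2 * C * K) (ε / 2 / (1 + ε)) ε (by positivity) hε
  refine ⟨M, ?_⟩
  intro A B Y hA hB hY
  have hA1 : 1 ≤ A := hM1.trans hA
  have hB1 : 1 ≤ B := hM1.trans hB
  have hA' : (1 : ℝ) ≤ A := by exact_mod_cast hA1
  have hB' : (1 : ℝ) ≤ B := by exact_mod_cast hB1
  set P : ℝ := (A : ℝ) * B with hP
  have hP1 : 1 ≤ P := one_le_mul_of_one_le_of_one_le hA' hB'
  have hP0 : 0 < P := by linarith
  have hPY : P ≤ (Y : ℝ) ^ 2 := by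
    refine le_trans ?_ hY
    conv_lhs => rw [← Real.rpow_one P]
    exact Real.rpow_le_rpow_of_exponent_le hP1 (by linarith)
  -- size of `Y`
  have hYM : (M : ℝ) ≤ Y := by
    have h1 : (M : ℝ) * M ≤ P := by
      rw [hP]
      have := Nat.mul_le_mul hA hB
      exact_mod_cast this
    have h2 : (M : ℝ) ^ 2 ≤ (Y : ℝ) ^ 2 := by
      rw [sq]
      exact h1.trans hPY
    exact (pow_le_pow_iff_left₀ (by positivity) (by positivity) two_ne_zero).1 h2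
  have hY1 : (1 : ℝ) ≤ Y := le_trans (by exact_mod_cast hM1) hYM
  have hY0 : (0 : ℝ) < Y := by linarith
  have hlog : 0 ≤ Real.log Y := Real.log_nonneg hY1
  -- the radius
  set ρ : ℕ := Nat.sqrt (A * B) with hρ
  have hρ2 : ρ * ρ ≤ A * B := Nat.sqrt_le _
  have hρ3 : A * B < (ρ + 1) * (ρ + 1) := Nat.lt_succ_sqrt _
  have hρ1 : 1 ≤ ρ := by
    by_contra h0
    have : ρ = 0 := by omega
    rw [this] at hρ3
    have := Nat.mul_le_mul hA1 hB1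
    omega
  have hρ' : (1 : ℝ) ≤ ρ := by exact_mod_cast hρ1
  have hρP : (ρ : ℝ) * ρ ≤ P := by
    rw [hP]
    exact_mod_cast hρ2
  have hρY : ρ ≤ Y := by
    have h1 : (ρ : ℝ) ^ 2 ≤ (Y : ℝ) ^ 2 := by
      rw [sq]
      exact hρP.trans hPY
    have h2 : (ρ : ℝ) ≤ Y :=
      (pow_le_pow_iff_left₀ (by positivity) (by positivity) two_ne_zero).1 h1
    exact_mod_cast h2
  have hPρ : P ≤ (2 * (ρ : ℝ)) ^ 2 := by
    have h1 : P ≤ ((ρ : ℝ) + 1) * (ρ + 1) := by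
      rw [hP]
      exact_mod_cast hρ3.le
    nlinarith
  have hsP : P ^ ((1 : ℝ) / 2) ≤ 2 * ρ := by
    calc P ^ ((1 : ℝ) / 2) ≤ ((2 * (ρ : ℝ)) ^ 2) ^ ((1 : ℝ) / 2) :=
          Real.rpow_le_rpow hP0.le hPρ (by norm_num)
      _ = 2 * ρ := by
          rw [← Real.rpow_natCast, ← Real.rpow_mul (by positivity)]
          norm_num
  -- the sum
  have h1 : ∑ t ∈ Pa T A B,
      |(pl (Cell f σ q r) (g3 T t.1 t.2) Y : ℝ) - F (g3 T t.1 t.2) * (Y : ℝ) ^ 2| ≤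
      C * (1 + Real.log Y) * ((Y : ℝ) / ρ) * ∑ t ∈ Pa T A B, (En (g3 T t.1 t.2) ρ : ℝ) := by
    rw [mul_sum]
    refine sum_le_sum fun t ht => ?_
    unfold Pa at ht
    rw [mem_filter, mem_product] at ht
    exact hF _ (g3_ne ht.2.2.2.1 (ModErr.Pr.ne_zero ht.2.2.1)) ρ Y hρ1 hρY
  have h2 := hsum A B ρ hA1 hB1 hρ1 hρ2
  rw [← hP] at h2
  have h3 : (Y : ℝ) / ρ ≤ 2 * Y * P ^ (-((1 : ℝ) / 2)) := by
    rw [Real.rpow_neg hP0.le, div_le_iff₀ (by positivity)]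
    have h4 : 0 < P ^ ((1 : ℝ) / 2) := by positivity
    calc (Y : ℝ) = Y * (P ^ ((1 : ℝ) / 2))⁻¹ * P ^ ((1 : ℝ) / 2) := by field_simp
      _ ≤ Y * (P ^ ((1 : ℝ) / 2))⁻¹ * (2 * ρ) := by gcongr
      _ = 2 * Y * (P ^ ((1 : ℝ) / 2))⁻¹ * ρ := by ring
  have h4 : C * (1 + Real.log Y) * ((Y : ℝ) / ρ) * ∑ t ∈ Pa T A B, (En (g3 T t.1 t.2) ρ : ℝ) ≤
      C * (1 + Real.log Y) * (2 * Y * P ^ (-((1 : ℝ) / 2))) * (K * P ^ (3 + 2 * (ε / 8))) := by
    gcongr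
  refine h1.trans (h4.trans ?_)
  have h5 : P ^ (-((1 : ℝ) / 2)) * P ^ (3 + 2 * (ε / 8)) = P ^ 2 * P ^ (1 / 2 + ε / 4) := by
    rw [← Real.rpow_natCast P 2, ← Real.rpow_add hP0, ← Real.rpow_add hP0]
    congr 1
    push_cast
    ring
  have h6 : P ^ (1 / 2 + ε / 4) ≤ (Y : ℝ) ^ (1 - ε / 2 / (1 + ε)) := by
    have e1 : P ≤ (Y : ℝ) ^ (2 / (1 + ε)) := by
      calc P = (P ^ (1 + ε)) ^ (1 / (1 + ε)) := by
            rw [← Real.rpow_mul hP0.le, mul_one_div_cancel (by positivity), Real.rpow_one]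
        _ ≤ ((Y : ℝ) ^ 2) ^ (1 / (1 + ε)) :=
            Real.rpow_le_rpow (by positivity) hY (by positivity)
        _ = (Y : ℝ) ^ (2 / (1 + ε)) := by
            rw [← Real.rpow_natCast, ← Real.rpow_mul hY0.le]
            congr 1
            push_cast
            ring
    calc P ^ (1 / 2 + ε / 4) ≤ ((Y : ℝ) ^ (2 / (1 + ε))) ^ (1 / 2 + ε / 4) :=
          Real.rpow_le_rpow hP0.le e1 (by positivity)
      _ = (Y : ℝ) ^ (1 - ε / 2 / (1 + ε)) := by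
          rw [← Real.rpow_mul hY0.le]
          congr 1
          field_simp
          ring
  have h7 := hM Y hYM
  calc C * (1 + Real.log Y) * (2 * Y * P ^ (-((1 : ℝ) / 2))) * (K * P ^ (3 + 2 * (ε / 8))) =
      (2 * C * K * (1 + Real.log Y)) * Y * (P ^ (-((1 : ℝ) / 2)) * P ^ (3 + 2 * (ε / 8))) := by
        ring
    _ = (2 * C * K * (1 + Real.log Y)) * Y * (P ^ 2 * P ^ (1 / 2 + ε / 4)) := by rw [h5]
    _ ≤ (ε * (Y : ℝ) ^ (ε / 2 / (1 + ε))) * Y * (P ^ 2 * (Y : ℝ) ^ (1 - ε / 2 / (1 + ε))) := by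
        gcongr
    _ = ε * (P ^ 2) * Y * ((Y : ℝ) ^ (ε / 2 / (1 + ε)) * (Y : ℝ) ^ (1 - ε / 2 / (1 + ε))) := by
        ring
    _ = ε * (P ^ 2) * Y * Y := by
        rw [← Real.rpow_add hY0]
        congr 1
        conv_rhs => rw [← Real.rpow_one (Y : ℝ)]
        congr 1
        ring
    _ = ε * (P * Y) ^ 2 := by ring

end Pool.Agent.T6.H97.TA
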