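import Pool.Agent.T6.H97.TA.Sym
import Pool.Agent.W765.QO.L3
import Pool.Agent.W150.QN.R
import Pool.Agent.W978.QN.Core

/-!
Module Few: points for which the third determinant is zero.
-/

set_option autoImplicit false

namespace Pool.Agent.T6.H97.TA

open Finset Matrix Filter Topology MeasureTheory
open Pool.Agent.H548.WM (ht bx mem_bx card_bx)
open Pool.Agent.H548.TL (g1 g2 g3 tf Sm s12 s23 Tx g3_s12)
open Pool.Agent.W978.QN (Prim cp ct nm dm mp)

namespace ModFew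

theorem prim_of {v : Fin 3 → ℤ} (h : Pr v) : Prim v := by
  obtain ⟨u, hu⟩ := Finset.gcd_eq_sum_mul univ v
  refine ⟨u, ?_⟩
  rw [← h, hu]
  exact Finset.sum_congr rfl fun i _ => mul_comm _ _

theorem dm_eq (T : T3) (z : Fin 3 → ℤ) : dm (mp (s12 (s23 T)) z) = D3 T z := by
  unfold dm D3
  rw [← det_transpose]
  congr 1

theorem g3_vecMul (T : T3) (x y : Fin 3 → ℤ) : y ᵥ* Tx T x = g3 T x y := by
  funext k
  unfold Tx g3 vecMul dotProduct
  simp only [of_apply]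
  rw [Finset.sum_comm]
  refine Finset.sum_congr rfl fun j _ => ?_
  rw [Finset.mul_sum]
  refine Finset.sum_congr rfl fun i _ => ?_
  push_cast
  ring

theorem g3_inj {T : T3} {x y : Fin 3 → ℤ} (h : D1 T x ≠ 0) (h0 : g3 T x y = 0) : y = 0 := by
  rw [← g3_vecMul] at h0
  exact Matrix.eq_zero_of_vecMul_eq_zero h h0

theorem pr_ne {v : Fin 3 → ℤ} (h : Pr v) : v ≠ 0 :=
  Pool.Agent.W978.QN.prim_ne_zero (prim_of h)

theorem g3_ne {T : T3} {x y : Fin 3 → ℤ} (h : D1 T x ≠ 0) (hy : Pr y) : g3 T x y ≠ 0 :=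
  fun h0 => pr_ne hy (g3_inj h h0)

theorem g3_comb (T : T3) (x y y' : Fin 3 → ℤ) (a b : ℤ) (k : Fin 3) :
    g3 T x (fun j => a * y j - b * y' j) k = a * g3 T x y k - b * g3 T x y' k := by
  unfold g3
  rw [Finset.mul_sum, Finset.mul_sum, ← Finset.sum_sub_distrib]
  refine Finset.sum_congr rfl fun i _ => ?_
  rw [Finset.mul_sum, Finset.mul_sum, ← Finset.sum_sub_distrib]
  refine Finset.sum_congr rfl fun j _ => ?_
  ring

/-- two primitive vectors with parallel images are equal up to sign -/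
theorem par {T : T3} {x y y' v : Fin 3 → ℤ} (h : D1 T x ≠ 0) (hy : Pr y) (hy' : Pr y')
    (hv : v ≠ 0) (h1 : cp (g3 T x y) v = 0) (h2 : cp (g3 T x y') v = 0) : y' = y ∨ y' = -y := by
  set w := g3 T x y with hw
  set w' := g3 T x y' with hw'
  have hw0 : w ≠ 0 := g3_ne h hy
  obtain ⟨k, hk⟩ := Function.ne_iff.1 hv
  have hk : v k ≠ 0 := hk
  obtain ⟨i, hi⟩ := Function.ne_iff.1 hw0
  have hi : w i ≠ 0 := hi
  have e : ∀ j, w i * w' j = w' i * w j := by
    intro j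
    have a1 := Pool.Agent.W765.QO.cp_zero h1 i k
    have a2 := Pool.Agent.W765.QO.cp_zero h2 j k
    have a3 := Pool.Agent.W765.QO.cp_zero h1 j k
    have a4 := Pool.Agent.W765.QO.cp_zero h2 i k
    apply mul_right_cancel₀ hk
    apply mul_right_cancel₀ hk
    linear_combination (w' j * v k) * a1 + (w k * v i) * a2 - (w' i * v k) * a3 - (w k * v j) * a4
  have e2 : (fun j => w i * y' j - w' i * y j) = 0 := by
    apply g3_inj h
    funext j
    rw [g3_comb]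
    change w i * w' j - w' i * w j = 0
    rw [e j]; ring
  have e3 : ∀ j, w i * y' j = w' i * y j := fun j => by
    have := congrFun e2 j
    simp only [Pi.zero_apply] at this
    linarith
  apply Pool.Agent.W765.QO.prim_par (prim_of hy) (prim_of hy')
  funext c
  have key : ∀ a b, y a * y' b - y b * y' a = 0 := by
    intro a b
    apply mul_left_cancel₀ hi
    linear_combination (y a) * e3 b - (y b) * e3 a
  fin_cases c
  · exact key 1 2
  · exact key 2 0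
  · exact key 0 1

open Classical in
/-- the pairs with `g3 T x y` parallel to `v` -/
noncomputable def Pv (T : T3) (v : Fin 3 → ℤ) (A B : ℕ) : Finset ((Fin 3 → ℤ) × (Fin 3 → ℤ)) :=
  (Pa T A B).filter fun t => cp (g3 T t.1 t.2) v = 0

theorem mem_Pa {T : T3} {A B : ℕ} {t : (Fin 3 → ℤ) × (Fin 3 → ℤ)} : t ∈ Pa T A B ↔
    (t.1 ∈ bx 3 A ∧ t.2 ∈ bx 3 B) ∧ Pr t.1 ∧ Pr t.2 ∧ D1 T t.1 ≠ 0 ∧ D2 T t.2 ≠ 0 := by
  classical
  unfold Pa
  rw [mem_filter, mem_product]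

theorem card_pair {s : Finset (Fin 3 → ℤ)} (h : ∀ y ∈ s, ∀ y' ∈ s, y' = y ∨ y' = -y) :
    s.card ≤ 2 := by
  classical
  by_cases hs : s = ∅
  · simp [hs]
  obtain ⟨y, hy⟩ := Finset.nonempty_iff_ne_empty.2 hs
  have : s ⊆ {y, -y} := by
    intro y' hy'
    rw [mem_insert, mem_singleton]
    exact h y hy y' hy'
  exact (card_le_card this).trans card_le_two

theorem card_bx_le {X : ℕ} (hX : 1 ≤ X) : (bx 3 X).card ≤ 27 * X ^ 3 := by
  rw [card_bx]
  calc (2 * X + 1) ^ 3 ≤ (3 * X) ^ 3 := Nat.pow_le_pow_left (by omega) 3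
    _ = 27 * X ^ 3 := by ring

theorem Pv_le1 (T : T3) {v : Fin 3 → ℤ} (hv : v ≠ 0) (A B : ℕ) (hA : 1 ≤ A) :
    (Pv T v A B).card ≤ 54 * A ^ 3 := by
  classical
  have h := Finset.card_le_mul_card_image_of_maps_to (s := Pv T v A B) (t := bx 3 A)
    (f := fun t => t.1) (fun t ht => by
      unfold Pv at ht
      rw [mem_filter, mem_Pa] at ht
      exact ht.1.1.1) 2 (fun x _ => by
      have hinj : Set.InjOn (fun t : (Fin 3 → ℤ) × (Fin 3 → ℤ) => t.2)
          ((Pv T v A B).filter fun t => t.1 = x : Finset ((Fin 3 → ℤ) × (Fin 3 → ℤ))) := by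
        intro t ht t' ht' hh
        rw [mem_coe, mem_filter] at ht ht'
        exact Prod.ext (ht.2.trans ht'.2.symm) hh
      rw [← card_image_of_injOn hinj]
      apply card_pair
      intro y hy y' hy'
      obtain ⟨t, ht, rfl⟩ := mem_image.1 hy
      obtain ⟨t', ht', rfl⟩ := mem_image.1 hy'
      unfold Pv at ht ht'
      rw [mem_filter, mem_filter, mem_Pa] at ht ht'
      obtain ⟨⟨⟨-, -, h2, h3, -⟩, h5⟩, rfl⟩ := ht
      obtain ⟨⟨⟨-, -, h2', -, -⟩, h5'⟩, h6'⟩ := ht'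
      rw [h6'] at h5'
      exact par h3 h2 h2' hv h5 h5')
  calc (Pv T v A B).card ≤ 2 * (bx 3 A).card := h
    _ ≤ 2 * (27 * A ^ 3) := Nat.mul_le_mul_left _ (card_bx_le hA)
    _ = 54 * A ^ 3 := by ring

theorem Pv_le2 (T : T3) {v : Fin 3 → ℤ} (hv : v ≠ 0) (A B : ℕ) (hB : 1 ≤ B) :
    (Pv T v A B).card ≤ 54 * B ^ 3 := by
  classical
  have hinj : Set.InjOn (fun t : (Fin 3 → ℤ) × (Fin 3 → ℤ) => (t.2, t.1)) (Pv T v A B) := by
    intro t _ t' _ hh
    simp only [Prod.mk.injEq] at hh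
    exact Prod.ext hh.2 hh.1
  have hsub : (Pv T v A B).image (fun t => (t.2, t.1)) ⊆ Pv (s12 T) v B A := by
    intro s hs
    obtain ⟨t, ht, rfl⟩ := mem_image.1 hs
    unfold Pv at ht ⊢
    rw [mem_filter, mem_Pa] at ht ⊢
    obtain ⟨⟨⟨h1, h2⟩, h3, h4, h5, h6⟩, h7⟩ := ht
    exact ⟨⟨⟨h2, h1⟩, h4, h3, h6, h5⟩, by rw [g3_s12]; exact h7⟩
  calc (Pv T v A B).card = ((Pv T v A B).image (fun t => (t.2, t.1))).card :=
        (card_image_of_injOn hinj).symm
    _ ≤ (Pv (s12 T) v B A).card := card_le_card hsub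
    _ ≤ 54 * B ^ 3 := Pv_le1 (s12 T) hv B A hB

theorem Pv_le (T : T3) {v : Fin 3 → ℤ} (hv : v ≠ 0) (A B M : ℕ) (hM : 1 ≤ M) (hA : M ≤ A)
    (hB : M ≤ B) : (Pv T v A B).card * M ≤ 54 * (A * B) ^ 2 := by
  rcases le_total A B with h | h
  · calc (Pv T v A B).card * M ≤ (54 * A ^ 3) * B :=
          Nat.mul_le_mul (Pv_le1 T hv A B (hM.trans hA)) hB
      _ = 54 * (A * A * (A * B)) := by ring
      _ ≤ 54 * (A * B * (A * B)) := by gcongr
      _ = 54 * (A * B) ^ 2 := by ring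
  · calc (Pv T v A B).card * M ≤ (54 * B ^ 3) * A :=
          Nat.mul_le_mul (Pv_le2 T hv A B (hM.trans hB)) hA
      _ = 54 * (B * B * (A * B)) := by ring
      _ ≤ 54 * (A * B * (A * B)) := by gcongr
      _ = 54 * (A * B) ^ 2 := by ring

theorem pl_le (T : T3) {w : Fin 3 → ℤ} (hw : w ≠ 0) {Y : ℕ} (hY : 1 ≤ Y) :
    (pl (fun z => Pr z ∧ D3 T z = 0) w Y : ℝ) ≤ 12 * (Y : ℝ) ^ 2 := by
  classical
  have h := Pool.Agent.W150.QN.primPlane w hw Y hY
  have h1 : pl (fun z => Pr z ∧ D3 T z = 0) w Y ≤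
      ((Pool.Agent.W978.QN.bx Y).filter fun r => Prim r ∧ ∑ k, w k * r k = 0).card := by
    unfold pl
    apply card_le_card
    intro z hz
    simp only [Finset.mem_filter] at hz ⊢
    exact ⟨hz.1, prim_of hz.2.2.1, hz.2.1⟩
  have h2 := Pool.Agent.W978.QN.ct_le_nm hw
  have h3 : (0 : ℝ) < nm w := by
    have : (1 : ℤ) ≤ nm w := Pool.Agent.W978.QN.nm_pos_of_ne hw
    exact_mod_cast (by linarith : (0 : ℤ) < nm w)
  have h4 : ((ct w : ℕ) : ℝ) ≤ nm w := by exact_mod_cast h2.2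
  have hY' : (1 : ℝ) ≤ (Y : ℝ) ^ 2 := one_le_pow₀ (by exact_mod_cast hY)
  calc (pl (fun z => Pr z ∧ D3 T z = 0) w Y : ℝ) ≤ 4 + 8 * (Y : ℝ) ^ 2 * ct w / nm w := by
        refine le_trans ?_ h
        exact_mod_cast h1
    _ ≤ 4 + 8 * (Y : ℝ) ^ 2 := by
        rw [mul_div_assoc]
        have : (ct w : ℝ) / nm w ≤ 1 := (div_le_one h3).2 h4
        nlinarith [sq_nonneg (Y : ℝ)]
    _ ≤ 12 * (Y : ℝ) ^ 2 := by linarith

end ModFew

open ModFew

theorem few (hBr : StmtBr) : StmtFew := by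
  classical
  intro T hT ε hε
  obtain ⟨F, hF0, hF⟩ := Pool.Agent.W765.QO.l3 (s12 (s23 T)) (hBr _ hT.s23.s12).2
  set K : ℝ := 8748 / ε with hK
  have hKpos : 0 < K := by positivity
  set M : ℕ := ⌈K ^ (1 / ε)⌉₊ + ⌈1296 * (F.card : ℝ) / ε⌉₊ + 1 with hM
  refine ⟨M, fun A B Y hA hB hY => ?_⟩
  have hM1 : 1 ≤ M := by omega
  have hA1 : 1 ≤ A := hM1.trans hA
  have hB1 : 1 ≤ B := hM1.trans hB
  have hA1' : (1 : ℝ) ≤ A := by exact_mod_cast hA1
  have hB1' : (1 : ℝ) ≤ B := by exact_mod_cast hB1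
  have hAB1 : (1 : ℝ) ≤ (A : ℝ) * B := by nlinarith
  have hY2 : (1 : ℝ) ≤ (Y : ℝ) ^ 2 :=
    le_trans (Real.one_le_rpow hAB1 (by linarith)) hY
  have hY1 : 1 ≤ Y := by
    by_contra hc
    have : Y = 0 := by omega
    rw [this] at hY2
    norm_num at hY2
  -- `A B` is small compared with `Y ^ 2`
  have hMA : (M : ℝ) ≤ (A : ℝ) * B := by
    have : (M : ℝ) ≤ A := by exact_mod_cast hA
    nlinarith
  have hKM : K ≤ ((A : ℝ) * B) ^ ε := by
    have h1 : K ^ (1 / ε) ≤ (A : ℝ) * B := by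
      refine le_trans ?_ hMA
      rw [hM]; push_cast
      have := Nat.le_ceil (K ^ (1 / ε))
      have h0 : (0 : ℝ) ≤ (⌈1296 * (F.card : ℝ) / ε⌉₊ : ℝ) := Nat.cast_nonneg _
      linarith
    calc K = (K ^ (1 / ε)) ^ ε := by
          rw [← Real.rpow_mul hKpos.le, one_div_mul_cancel hε.ne', Real.rpow_one]
      _ ≤ ((A : ℝ) * B) ^ ε := Real.rpow_le_rpow (by positivity) h1 hε.le
  have hABY : K * ((A : ℝ) * B) ≤ (Y : ℝ) ^ 2 := by
    refine le_trans ?_ hY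
    rw [Real.rpow_add (by linarith), Real.rpow_one]
    nlinarith
  have hMF : 1296 * (F.card : ℝ) ≤ ε * M := by
    have h1 : 1296 * (F.card : ℝ) / ε ≤ M := by
      rw [hM]; push_cast
      have := Nat.le_ceil (1296 * (F.card : ℝ) / ε)
      have h0 : (0 : ℝ) ≤ (⌈K ^ (1 / ε)⌉₊ : ℝ) := Nat.cast_nonneg _
      linarith
    rw [div_le_iff₀ hε] at h1
    linarith
  -- the bad pairs
  set Bd := (Pa T A B).filter fun t => ∃ v ∈ F, cp (g3 T t.1 t.2) v = 0 with hBd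
  have hBdc : (Bd.card : ℝ) * M ≤ 54 * F.card * ((A : ℝ) * B) ^ 2 := by
    have h1 : Bd ⊆ F.biUnion fun v => Pv T v A B := by
      intro t ht
      rw [hBd, mem_filter] at ht
      obtain ⟨h1, v, hv, h2⟩ := ht
      rw [mem_biUnion]
      refine ⟨v, hv, ?_⟩
      unfold Pv
      rw [mem_filter]
      exact ⟨h1, h2⟩
    have h2 : Bd.card * M ≤ F.card * (54 * (A * B) ^ 2) := by
      calc Bd.card * M ≤ (∑ v ∈ F, (Pv T v A B).card) * M :=
            Nat.mul_le_mul_right _ ((card_le_card h1).trans card_biUnion_le)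
        _ = ∑ v ∈ F, (Pv T v A B).card * M := Finset.sum_mul _ _ _
        _ ≤ ∑ _v ∈ F, 54 * (A * B) ^ 2 :=
            Finset.sum_le_sum fun v hv => Pv_le T (hF0 v hv) A B M hM1 hA hB
        _ = F.card * (54 * (A * B) ^ 2) := by rw [Finset.sum_const, smul_eq_mul]
    have h3 : ((Bd.card * M : ℕ) : ℝ) ≤ ((F.card * (54 * (A * B) ^ 2) : ℕ) : ℝ) := by
      exact_mod_cast h2
    push_cast at h3
    linarith
  -- the number of all pairs
  have hPac : ((Pa T A B).card : ℝ) ≤ 729 * ((A : ℝ) * B) ^ 3 := by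
    have h1 : (Pa T A B).card ≤ (bx 3 A ×ˢ bx 3 B).card := by
      apply card_le_card
      intro t ht
      rw [mem_Pa] at ht
      exact mem_product.2 ht.1
    have h2 : (Pa T A B).card ≤ (27 * A ^ 3) * (27 * B ^ 3) := by
      refine h1.trans ?_
      rw [card_product]
      exact Nat.mul_le_mul (card_bx_le hA1) (card_bx_le hB1)
    calc ((Pa T A B).card : ℝ) ≤ (((27 * A ^ 3) * (27 * B ^ 3) : ℕ) : ℝ) := by exact_mod_cast h2
      _ = 729 * ((A : ℝ) * B) ^ 3 := by push_cast; ring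
  -- pointwise
  have hpt : ∀ t ∈ Pa T A B, (pl (fun z => Pr z ∧ D3 T z = 0) (g3 T t.1 t.2) Y : ℝ) ≤
      6 + (if ∃ v ∈ F, cp (g3 T t.1 t.2) v = 0 then 12 * (Y : ℝ) ^ 2 else 0) := by
    intro t ht
    rw [mem_Pa] at ht
    have hw : g3 T t.1 t.2 ≠ 0 := g3_ne ht.2.2.2.1 ht.2.2.1
    by_cases hc : ∃ v ∈ F, cp (g3 T t.1 t.2) v = 0
    · rw [if_pos hc]
      have := pl_le T hw hY1
      linarith
    · rw [if_neg hc]
      push Not at hc
      have h6 := hF (g3 T t.1 t.2) hw hc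
        ((bx 3 Y).filter fun v => g3 T t.1 t.2 ⬝ᵥ v = 0 ∧ (Pr v ∧ D3 T v = 0)) (by
          intro r hr
          rw [mem_filter] at hr
          refine ⟨prim_of hr.2.2.1, hr.2.1, ?_⟩
          rw [dm_eq]
          exact hr.2.2.2)
      have h7 : pl (fun z => Pr z ∧ D3 T z = 0) (g3 T t.1 t.2) Y ≤ 6 := by
        unfold pl
        refine le_trans (le_of_eq ?_) h6
        congr
      have h8 : (pl (fun z => Pr z ∧ D3 T z = 0) (g3 T t.1 t.2) Y : ℝ) ≤ 6 := by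
        exact_mod_cast h7
      linarith
  calc ∑ t ∈ Pa T A B, (pl (fun z => Pr z ∧ D3 T z = 0) (g3 T t.1 t.2) Y : ℝ)
      ≤ ∑ t ∈ Pa T A B, (6 + (if ∃ v ∈ F, cp (g3 T t.1 t.2) v = 0 then 12 * (Y : ℝ) ^ 2 else 0)) :=
        Finset.sum_le_sum hpt
    _ = 6 * (Pa T A B).card + Bd.card * (12 * (Y : ℝ) ^ 2) := by
        rw [Finset.sum_add_distrib, Finset.sum_const, ← Finset.sum_filter, Finset.sum_const,
          nsmul_eq_mul, nsmul_eq_mul]
        ring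
    _ ≤ ε * ((A : ℝ) * B * Y) ^ 2 := by
        have hABpos : 0 ≤ ((A : ℝ) * B) ^ 2 := by positivity
        have p1 : 6 * ((Pa T A B).card : ℝ) ≤ ε / 2 * ((A : ℝ) * B * Y) ^ 2 := by
          have e1 : 8748 * ((A : ℝ) * B) ≤ ε * (Y : ℝ) ^ 2 := by
            have : 8748 / ε * ((A : ℝ) * B) ≤ (Y : ℝ) ^ 2 := hABY
            rw [div_mul_eq_mul_div, div_le_iff₀ hε] at this
            linarith
          calc 6 * ((Pa T A B).card : ℝ) ≤ 6 * (729 * ((A : ℝ) * B) ^ 3) := by linarith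
            _ = ((A : ℝ) * B) ^ 2 * (8748 * ((A : ℝ) * B)) / 2 := by ring
            _ ≤ ((A : ℝ) * B) ^ 2 * (ε * (Y : ℝ) ^ 2) / 2 := by gcongr
            _ = ε / 2 * ((A : ℝ) * B * Y) ^ 2 := by ring
        have p2 : (Bd.card : ℝ) * (12 * (Y : ℝ) ^ 2) ≤ ε / 2 * ((A : ℝ) * B * Y) ^ 2 := by
          have hMpos : (0 : ℝ) < M := by exact_mod_cast hM1
          have e1 : (Bd.card : ℝ) * M ≤ ε * M / 24 * ((A : ℝ) * B) ^ 2 := by
            refine hBdc.trans ?_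
            have : 54 * (F.card : ℝ) ≤ ε * M / 24 := by linarith
            gcongr
          have e2 : (Bd.card : ℝ) ≤ ε / 24 * ((A : ℝ) * B) ^ 2 := by
            have : (Bd.card : ℝ) * M ≤ (ε / 24 * ((A : ℝ) * B) ^ 2) * M := by linarith
            exact le_of_mul_le_mul_right this hMpos
          calc (Bd.card : ℝ) * (12 * (Y : ℝ) ^ 2) ≤
                (ε / 24 * ((A : ℝ) * B) ^ 2) * (12 * (Y : ℝ) ^ 2) := by gcongr
            _ = ε / 2 * ((A : ℝ) * B * Y) ^ 2 := by ring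
        linarith

end Pool.Agent.T6.H97.TA
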