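import Mathlib
import Pool.Agent.T6.H81.BG.H3
import Pool.Agent.T6.H97.TA.Defs

/-!
Module Hy (helper8): from boxes to heights, knowing the number of the points in a box only away
from the centre.
-/

set_option autoImplicit false

namespace Pool.Agent.T6.H97.TA

open Finset Filter Topology

namespace ModHy

open Finset.Nat (antidiagonalTuple mem_antidiagonalTuple)
open Pool.Agent.T6.H81.BG.ModH3

/-- All exponents are `2`. -/
abbrev r2 : Fin 3 → ℕ := fun _ => 2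

lemma hr2 : ∀ v, 1 ≤ r2 v := fun _ => by norm_num

variable {α : Type} {Q : Set α} {g : Fin 3 → α → ℕ} {l : ℝ}

/-- The number of the points in a box. -/
noncomputable def bb (Q : Set α) (g : Fin 3 → α → ℕ) (l : ℝ) (j : Fin 3 → ℕ) : ℝ :=
  ({t | t ∈ Q ∧ ∀ v, kk l r2 g v t ≤ j v}.ncard : ℝ)

/-- The side length. -/
noncomputable def mm (l : ℝ) : ℝ := l ^ ((1 : ℝ) / (2 : ℕ))

lemma mm_gt (hl : 1 < l) : 1 < mm l := mu_gt (r := r2) (m := 2) hl hr2 0

lemma mm_sq (hl : 1 < l) : mm l ^ 2 = l := mu_pow (r := r2) (m := 2) hl hr2 0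

/-- The side lengths. -/
noncomputable def XX (l : ℝ) (j : Fin 3 → ℕ) (v : Fin 3) : ℕ := ⌊mm l ^ j v⌋₊

lemma XX_one (hl : 1 < l) (j : Fin 3 → ℕ) (v : Fin 3) : 1 ≤ XX l j v :=
  Nat.le_floor (by simpa using one_le_pow₀ (mm_gt hl).le)

lemma XX_le (hl : 1 < l) (j : Fin 3 → ℕ) (v : Fin 3) : (XX l j v : ℝ) ≤ mm l ^ j v :=
  Nat.floor_le (by have := mm_gt hl; positivity)

lemma le_XX (j : Fin 3 → ℕ) (v : Fin 3) : mm l ^ j v - 1 ≤ (XX l j v : ℝ) :=
  (Nat.sub_one_lt_floor (mm l ^ j v)).le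

lemma bb_eq (hl : 1 < l) (j : Fin 3 → ℕ) :
    bb Q g l j = ({t | t ∈ Q ∧ ∀ v, g v t ≤ XX l j v}.ncard : ℝ) := by
  unfold bb
  congr 2
  ext t
  simp only [Set.mem_setOf_eq]
  refine and_congr_right fun _ => forall_congr' fun v => ?_
  have h1 : (1 : ℝ) ≤ mm l ^ j v := one_le_pow₀ (mm_gt hl).le
  rw [kk_le hl hr2, XX, Nat.le_floor_iff (by linarith)]
  rfl

lemma prod_mm (hl : 1 < l) (j : Fin 3 → ℕ) : ∏ v, (mm l ^ j v) ^ 2 = l ^ ∑ v, j v := by
  rw [← prod_pow_eq_pow_sum]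
  refine prod_congr rfl fun v _ => ?_
  rw [← pow_mul, mul_comm, pow_mul, mm_sq hl]

lemma prod_XX_le (hl : 1 < l) (j : Fin 3 → ℕ) :
    ∏ v, (XX l j v : ℝ) ^ 2 ≤ l ^ ∑ v, j v := by
  rw [← prod_mm hl]
  exact prod_le_prod (fun v _ => by positivity) fun v _ =>
    pow_le_pow_left₀ (by positivity) (XX_le hl j v) _

lemma le_prod_XX (hl : 1 < l) (j : Fin 3 → ℕ) (k0 : ℕ) (hk : ∀ v, k0 ≤ j v) :
    l ^ (∑ v, j v) * (1 - 6 * (mm l)⁻¹ ^ k0) ≤ ∏ v, (XX l j v : ℝ) ^ 2 := by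
  have hm := mm_gt hl
  have hm0 : 0 < mm l := by linarith
  set θ : ℝ := (mm l)⁻¹ ^ k0 with hθ
  have hθ0 : 0 < θ := by positivity
  have hθ1 : θ ≤ 1 := pow_le_one₀ (by positivity) (inv_le_one_of_one_le₀ hm.le)
  have h1 : ∀ v, (mm l ^ j v) * (1 - θ) ≤ XX l j v := by
    intro v
    refine le_trans ?_ (le_XX j v)
    have h2 : 1 ≤ mm l ^ j v * θ := by
      have h3 : mm l ^ k0 * θ = 1 := by
        rw [hθ, ← mul_pow, mul_inv_cancel₀ hm0.ne', one_pow]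
      rw [← h3]
      exact mul_le_mul_of_nonneg_right (pow_le_pow_right₀ hm.le (hk v)) hθ0.le
    linarith
  have h2 : (1 - 6 * θ) ≤ (1 - θ) ^ 6 := by
    have := one_add_mul_le_pow (a := -θ) (by linarith) 6
    push_cast at this
    have e : 1 + -θ = 1 - θ := by ring
    rw [e] at this
    linarith
  calc l ^ (∑ v, j v) * (1 - 6 * θ) ≤ l ^ (∑ v, j v) * (1 - θ) ^ 6 :=
        mul_le_mul_of_nonneg_left h2 (by positivity)
    _ = ∏ v, ((mm l ^ j v) * (1 - θ)) ^ 2 := by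
        rw [← prod_mm hl]
        simp only [mul_pow, prod_mul_distrib, prod_const, card_univ, Fintype.card_fin]
        ring
    _ ≤ _ := prod_le_prod (fun v _ => by positivity) fun v _ =>
        pow_le_pow_left₀ (mul_nonneg (by positivity) (by linarith)) (h1 v) _

lemma bb_nonneg (j : Fin 3 → ℕ) : 0 ≤ bb Q g l j := by unfold bb; positivity

lemma bb_le (hl : 1 < l) (C : ℝ)
    (hC : ∀ X : Fin 3 → ℕ, (∀ v, 1 ≤ X v) →
      ({t | t ∈ Q ∧ ∀ v, g v t ≤ X v}.ncard : ℝ) ≤ C * ∏ v, (X v : ℝ) ^ 2) (j : Fin 3 → ℕ) :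
    bb Q g l j ≤ |C| * l ^ ∑ v, j v := by
  rw [bb_eq hl]
  refine (hC _ (XX_one hl j)).trans ?_
  have h1 := prod_XX_le hl j
  have h2 : 0 ≤ ∏ v, (XX l j v : ℝ) ^ 2 := by positivity
  calc C * ∏ v, (XX l j v : ℝ) ^ 2 ≤ |C| * ∏ v, (XX l j v : ℝ) ^ 2 :=
        mul_le_mul_of_nonneg_right (le_abs_self C) h2
    _ ≤ _ := mul_le_mul_of_nonneg_left h1 (abs_nonneg C)

lemma good (hl : 1 < l) (κ : ℝ) (hA : ∀ ε : ℝ, 0 < ε → ∃ M : ℕ, ∀ X : Fin 3 → ℕ, (∀ v, M ≤ X v) →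
    (∃ v, (∏ u ∈ univ.erase v, (X u : ℝ)) ^ (1 + ε) ≤ (X v : ℝ) ^ 2) →
    |({t | t ∈ Q ∧ ∀ v, g v t ≤ X v}.ncard : ℝ) - κ * ∏ v, (X v : ℝ) ^ 2| ≤
      ε * ∏ v, (X v : ℝ) ^ 2) (ε : ℝ) (hε : 0 < ε) :
    ∃ k0 k1 : ℕ, ∀ (n : ℕ) (j : Fin 3 → ℕ), ∑ v, j v = n → (∀ v, k0 ≤ j v) →
      (∃ v, (1 + ε) * ((n : ℝ) - j v) + k1 ≤ 2 * j v) →
      |bb Q g l j - κ * l ^ n| ≤ ε * (1 + |κ|) * l ^ n := by
  have hm := mm_gt hl
  have hm0 : 0 < mm l := by linarith
  obtain ⟨M, hM⟩ := hA ε hε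
  obtain ⟨a, ha⟩ := pow_unbounded_of_one_lt ((M : ℝ) + 1) hm
  obtain ⟨b, hb⟩ := pow_unbounded_of_one_lt (6 / ε) hm
  obtain ⟨k1, hk1⟩ := pow_unbounded_of_one_lt (4 : ℝ) hm
  refine ⟨max a b, k1, fun n j hj hk hv => ?_⟩
  have hX1 : ∀ v, M ≤ XX l j v := by
    intro v
    apply Nat.le_floor
    have h1 := pow_le_pow_right₀ hm.le ((le_max_left a b).trans (hk v))
    linarith
  have hX2 : ∃ v, (∏ u ∈ univ.erase v, (XX l j u : ℝ)) ^ (1 + ε) ≤ (XX l j v : ℝ) ^ 2 := by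
    obtain ⟨v, hv⟩ := hv
    refine ⟨v, ?_⟩
    have h1 : ∏ u ∈ univ.erase v, (XX l j u : ℝ) ≤ mm l ^ ((n : ℝ) - j v) := by
      have h2 : ∏ u ∈ univ.erase v, (XX l j u : ℝ) ≤ ∏ u ∈ univ.erase v, mm l ^ j u :=
        prod_le_prod (fun u _ => by positivity) fun u _ => XX_le hl j u
      refine h2.trans (le_of_eq ?_)
      rw [prod_pow_eq_pow_sum, ← Real.rpow_natCast]
      congr 1
      rw [← hj, ← add_sum_erase univ j (mem_univ v)]
      push_cast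
      ring
    have h0 : 0 ≤ ∏ u ∈ univ.erase v, (XX l j u : ℝ) := by positivity
    have h2 : mm l ^ j v / 2 ≤ XX l j v := by
      rcases le_or_gt 2 (mm l ^ j v) with h | h
      · have := le_XX (l := l) j v
        linarith
      · have : (1 : ℝ) ≤ XX l j v := by exact_mod_cast XX_one hl j v
        linarith
    have h3 : (mm l ^ j v / 2) ^ 2 ≤ (XX l j v : ℝ) ^ 2 :=
      pow_le_pow_left₀ (by positivity) h2 2
    refine le_trans ?_ h3
    calc (∏ u ∈ univ.erase v, (XX l j u : ℝ)) ^ (1 + ε)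
        ≤ (mm l ^ ((n : ℝ) - j v)) ^ (1 + ε) := Real.rpow_le_rpow h0 h1 (by linarith)
      _ = mm l ^ ((1 + ε) * ((n : ℝ) - j v)) := by
          rw [← Real.rpow_mul hm0.le, mul_comm]
      _ ≤ mm l ^ (2 * (j v : ℝ) - k1) :=
          Real.rpow_le_rpow_of_exponent_le hm.le (by linarith)
      _ = mm l ^ (2 * (j v : ℝ)) / mm l ^ k1 := by
          rw [Real.rpow_sub hm0, Real.rpow_natCast]
      _ ≤ mm l ^ (2 * (j v : ℝ)) / 4 := by
          apply div_le_div_of_nonneg_left (by positivity) (by norm_num) hk1.le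
      _ = (mm l ^ j v / 2) ^ 2 := by
          rw [div_pow, ← pow_mul, ← Real.rpow_natCast (mm l) (j v * 2)]
          push_cast
          rw [mul_comm (2 : ℝ)]
          norm_num
  have h1 := hM (XX l j) hX1 hX2
  rw [← bb_eq hl] at h1
  set P : ℝ := ∏ v, (XX l j v : ℝ) ^ 2 with hP
  have hP0 : 0 ≤ P := by positivity
  have hP1 : P ≤ l ^ n := by rw [← hj]; exact prod_XX_le hl j
  have hP2 := le_prod_XX hl j (max a b) hk
  rw [← hP, hj] at hP2
  have hln : 0 < l ^ n := by positivity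
  have h6 : 6 * (mm l)⁻¹ ^ (max a b) ≤ ε := by
    have h7 := pow_le_pow_right₀ hm.le (le_max_right a b)
    have h8 : 6 / ε ≤ mm l ^ (max a b) := by linarith
    rw [inv_pow]
    rw [div_le_iff₀ hε] at h8
    rw [← div_eq_mul_inv, div_le_iff₀ (by positivity)]
    linarith
  have hP3 : l ^ n * (1 - ε) ≤ P := by
    refine le_trans (mul_le_mul_of_nonneg_left (by linarith) hln.le) hP2
  have e : bb Q g l j - κ * l ^ n = (bb Q g l j - κ * P) + κ * (P - l ^ n) := by ring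
  rw [e]
  refine (abs_add_le _ _).trans ?_
  rw [abs_mul, abs_of_nonpos (by linarith : P - l ^ n ≤ 0)]
  have h9 : |κ| * -(P - l ^ n) ≤ |κ| * (ε * l ^ n) :=
    mul_le_mul_of_nonneg_left (by linarith) (abs_nonneg κ)
  have h10 : ε * P ≤ ε * l ^ n := mul_le_mul_of_nonneg_left hP1 hε.le
  linarith

/-- The number of the tuples near the centre. -/
lemma centre (ε : ℝ) (hε : 0 < ε) (k1 n : ℕ) :
    (((antidiagonalTuple 3 n).filter fun j =>
      ∀ v, 2 * (j v : ℝ) < (1 + ε) * ((n : ℝ) - j v) + k1).card : ℝ) ≤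
      (ε * n + k1 + 1) ^ 2 := by
  set t : ℝ := ((1 + ε) * n + k1) / (3 + ε) with ht
  have h3ε : 0 < 3 + ε := by linarith
  have ht0 : 0 ≤ t := by positivity
  set S := (Icc ⌈(n : ℝ) - 2 * t⌉₊ ⌊t⌋₊) with hS
  have h1 : ((S.card : ℕ) : ℝ) ≤ ε * n + k1 + 1 := by
    rw [hS, Nat.card_Icc]
    have hR : 3 * t - n ≤ ε * n + k1 := by
      have e : 3 * t - n = (2 * ε * n + 3 * k1) / (3 + ε) := by
        rw [ht]; field_simp; ring
      rw [e, div_le_iff₀ h3ε]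
      have h4 : 0 ≤ ε * ε * n := by positivity
      have h5 : 0 ≤ ε * n := by positivity
      have h6 : 0 ≤ ε * k1 := by positivity
      nlinarith
    rcases Nat.lt_or_ge (⌊t⌋₊ + 1) ⌈(n : ℝ) - 2 * t⌉₊ with h | h
    · have : ⌊t⌋₊ + 1 - ⌈(n : ℝ) - 2 * t⌉₊ = 0 := by omega
      rw [this, Nat.cast_zero]
      positivity
    · rw [Nat.cast_sub h]
      push_cast
      have h2 : (⌊t⌋₊ : ℝ) ≤ t := Nat.floor_le ht0
      have h3 : (n : ℝ) - 2 * t ≤ ⌈(n : ℝ) - 2 * t⌉₊ := Nat.le_ceil _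
      linarith
  have h2 : ((antidiagonalTuple 3 n).filter fun j =>
      ∀ v, 2 * (j v : ℝ) < (1 + ε) * ((n : ℝ) - j v) + k1).card ≤ (S ×ˢ S).card := by
    refine card_le_card_of_injOn (fun j => (j 0, j 1)) ?_ ?_
    · intro j hj
      rw [mem_coe, mem_filter, mem_antidiagonalTuple] at hj
      obtain ⟨hj1, hj2⟩ := hj
      have hlt : ∀ v, (j v : ℝ) ≤ t := by
        intro v
        rw [ht, le_div_iff₀ h3ε]
        linarith [hj2 v]
      have hsum : (j 0 : ℝ) + j 1 + j 2 = n := by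
        rw [← hj1, Fin.sum_univ_three]; push_cast; ring
      rw [mem_coe, mem_product, hS, mem_Icc, mem_Icc]
      refine ⟨⟨Nat.ceil_le.2 ?_, Nat.le_floor (hlt 0)⟩, ⟨Nat.ceil_le.2 ?_, Nat.le_floor (hlt 1)⟩⟩
      · linarith [hlt 1, hlt 2]
      · linarith [hlt 0, hlt 2]
    · intro j hj j' hj' h
      rw [mem_coe, mem_filter, mem_antidiagonalTuple, Fin.sum_univ_three] at hj hj'
      simp only [Prod.mk.injEq] at h
      funext v
      fin_cases v
      · exact h.1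
      · exact h.2
      · have h3 := hj.1
        have h4 := hj'.1
        have h5 := h.1
        have h6 := h.2
        show j 2 = j' 2
        omega
  rw [card_product] at h2
  have h3 : ((S.card : ℕ) : ℝ) ^ 2 ≤ (ε * n + k1 + 1) ^ 2 :=
    pow_le_pow_left₀ (by positivity) h1 2
  refine le_trans ?_ h3
  rw [sq]
  exact_mod_cast h2

lemma D_top' (hl : 1 < l)
    (hfin : ∀ X : Fin 3 → ℕ, {t | t ∈ Q ∧ ∀ v, g v t ≤ X v}.Finite) (κ C : ℝ)
    (hC : ∀ X : Fin 3 → ℕ, (∀ v, 1 ≤ X v) →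
      ({t | t ∈ Q ∧ ∀ v, g v t ≤ X v}.ncard : ℝ) ≤ C * ∏ v, (X v : ℝ) ^ 2)
    (hA : ∀ ε : ℝ, 0 < ε → ∃ M : ℕ, ∀ X : Fin 3 → ℕ, (∀ v, M ≤ X v) →
      (∃ v, (∏ u ∈ univ.erase v, (X u : ℝ)) ^ (1 + ε) ≤ (X v : ℝ) ^ 2) →
      |({t | t ∈ Q ∧ ∀ v, g v t ≤ X v}.ncard : ℝ) - κ * ∏ v, (X v : ℝ) ^ 2| ≤
        ε * ∏ v, (X v : ℝ) ^ 2) :
    Tendsto (fun n : ℕ => D (hT (m := 2) hl hr2 hfin) 2 n / (l ^ n * (n : ℝ) ^ 2)) atTop
      (𝓝 (κ / (2 : ℕ).factorial)) := by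
  have hl0 : 0 < l := by linarith
  have hM := (tup_tendsto 2).const_mul κ
  rw [mul_one_div] at hM
  suffices h2 : Tendsto (fun n : ℕ => D (hT (m := 2) hl hr2 hfin) 2 n / (l ^ n * (n : ℝ) ^ 2) -
      κ * (((antidiagonalTuple (2 + 1) n).card : ℝ) / (n : ℝ) ^ 2)) atTop (𝓝 0) by
    have h3 := h2.add hM
    simpa using h3
  rw [Metric.tendsto_atTop']
  intro η hη
  -- the choice of `ε`
  set K : ℝ := (1 + |κ|) + |C| + |κ| + 1 with hK
  have hK0 : 0 < K := by positivity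
  obtain ⟨ε, hε, hε1, hεK⟩ : ∃ ε : ℝ, 0 < ε ∧ ε ≤ 1 ∧ ε * K < η := by
    refine ⟨min 1 (η / (2 * K)), by positivity, min_le_left _ _, ?_⟩
    calc min 1 (η / (2 * K)) * K ≤ η / (2 * K) * K :=
          mul_le_mul_of_nonneg_right (min_le_right _ _) hK0.le
      _ = η / 2 := by field_simp
      _ < η := by linarith
  obtain ⟨k0, k1, hgood⟩ := good (Q := Q) (g := g) hl κ hA ε hε
  -- the bound
  set N : ℕ → ℝ := fun n => ((antidiagonalTuple (2 + 1) n).card : ℝ) / (n : ℝ) ^ 2 with hN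
  set E : ℕ → ℝ := fun n => ε * (1 + |κ|) * N n +
    (|C| + |κ|) * ((∑ v : Fin (2 + 1), 2 ^ k0 *
      ((∑ j ∈ antidiagonalTuple (2 + 1) n, ((2 : ℝ)⁻¹) ^ j v) / (n : ℝ) ^ 2)) +
      (ε + (k1 + 1) / n) ^ 2) with hE
  have hElim : Tendsto E atTop (𝓝 (ε * (1 + |κ|) * (1 / (2 : ℕ).factorial) +
      (|C| + |κ|) * ((∑ v : Fin (2 + 1), 2 ^ k0 * 0) + (ε + 0) ^ 2))) := by
    refine ((tup_tendsto 2).const_mul _).add ((Tendsto.add ?_ ?_).const_mul _)
    · exact tendsto_finsetSum _ fun v _ =>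
        (geo_lim 2 v _ (by norm_num) (by norm_num)).const_mul _
    · exact ((tendsto_const_div_atTop_nhds_zero_nat _).const_add ε).pow 2
  have hE1 : ε * (1 + |κ|) * (1 / (2 : ℕ).factorial) +
      (|C| + |κ|) * ((∑ v : Fin (2 + 1), 2 ^ k0 * 0) + (ε + 0) ^ 2) < η := by
    have h1 : (0 : ℝ) ≤ ε * (1 + |κ|) := by positivity
    have h2 : (|C| + |κ|) * ε ^ 2 ≤ (|C| + |κ|) * ε := by
      apply mul_le_mul_of_nonneg_left _ (by positivity)
      nlinarith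
    have h3 : ε * K = ε * (1 + |κ|) + (|C| + |κ|) * ε + ε := by rw [hK]; ring
    simp only [mul_zero, sum_const_zero, zero_add, add_zero, Nat.factorial]
    push_cast
    linarith
  have hEv := hElim.eventually (gt_mem_nhds hE1)
  obtain ⟨n0, hn0⟩ := eventually_atTop.1 hEv
  refine ⟨n0 + 1, fun n hn => ?_⟩
  have hn1 : 0 < n := by omega
  have hnr : (0 : ℝ) < n := by exact_mod_cast hn1
  refine lt_of_le_of_lt ?_ (hn0 n (by omega))
  rw [Real.dist_eq, sub_zero]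
  have e1 : D (hT (m := 2) hl hr2 hfin) 2 n / (l ^ n * (n : ℝ) ^ 2) -
      κ * (((antidiagonalTuple (2 + 1) n).card : ℝ) / (n : ℝ) ^ 2) =
      (∑ j ∈ antidiagonalTuple (2 + 1) n, (bb Q g l j - κ * l ^ n)) /
        (l ^ n * (n : ℝ) ^ 2) := by
    unfold bb
    rw [sum_sub_distrib, sum_boxes (m := 2) hl hr2 hfin, sum_const, nsmul_eq_mul]
    field_simp
  rw [e1, abs_div, abs_of_pos (by positivity : 0 < l ^ n * (n : ℝ) ^ 2),
    div_le_iff₀ (by positivity)]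
  refine (abs_sum_le_sum_abs _ _).trans ?_
  have hb : ∀ j ∈ antidiagonalTuple (2 + 1) n, |bb Q g l j - κ * l ^ n| ≤
      l ^ n * (ε * (1 + |κ|) + (|C| + |κ|) * ((∑ v : Fin (2 + 1), 2 ^ k0 * ((2 : ℝ)⁻¹) ^ j v) +
        if ∀ v, 2 * (j v : ℝ) < (1 + ε) * ((n : ℝ) - j v) + k1 then 1 else 0)) := by
    intro j hj
    rw [mem_antidiagonalTuple] at hj
    have hln : 0 < l ^ n := by positivity
    have hs0 : 0 ≤ ∑ v : Fin (2 + 1), (2 : ℝ) ^ k0 * ((2 : ℝ)⁻¹) ^ j v :=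
      sum_nonneg fun v _ => by positivity
    by_cases hbad : (∀ v, k0 ≤ j v) ∧ ∃ v, (1 + ε) * ((n : ℝ) - j v) + k1 ≤ 2 * j v
    · refine (hgood n j hj hbad.1 hbad.2).trans ?_
      have h1 : (0 : ℝ) ≤ (|C| + |κ|) * ((∑ v : Fin (2 + 1), 2 ^ k0 * ((2 : ℝ)⁻¹) ^ j v) +
          if ∀ v, 2 * (j v : ℝ) < (1 + ε) * ((n : ℝ) - j v) + k1 then 1 else 0) := by
        apply mul_nonneg (by positivity)
        split_ifs <;> linarith
      rw [mul_comm (l ^ n)]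
      exact mul_le_mul_of_nonneg_right (by linarith) hln.le
    · have h1 : 1 ≤ (∑ v : Fin (2 + 1), (2 : ℝ) ^ k0 * ((2 : ℝ)⁻¹) ^ j v) +
          if ∀ v, 2 * (j v : ℝ) < (1 + ε) * ((n : ℝ) - j v) + k1 then 1 else 0 := by
        by_cases h2 : ∀ v, k0 ≤ j v
        · have h3 : ∀ v, 2 * (j v : ℝ) < (1 + ε) * ((n : ℝ) - j v) + k1 := by
            intro v
            by_contra h
            exact hbad ⟨h2, v, not_lt.1 h⟩
          rw [if_pos h3]
          linarith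
        · push Not at h2
          obtain ⟨v, hv⟩ := h2
          have h3 : (1 : ℝ) ≤ (2 : ℝ) ^ k0 * ((2 : ℝ)⁻¹) ^ j v := by
            rw [inv_pow, ← div_eq_mul_inv, one_le_div (by positivity)]
            exact pow_le_pow_right₀ (by norm_num) hv.le
          have h4 : (2 : ℝ) ^ k0 * ((2 : ℝ)⁻¹) ^ j v ≤
              ∑ v : Fin (2 + 1), (2 : ℝ) ^ k0 * ((2 : ℝ)⁻¹) ^ j v :=
            single_le_sum (f := fun v => (2 : ℝ) ^ k0 * ((2 : ℝ)⁻¹) ^ j v)
              (fun v _ => by positivity) (mem_univ v)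
          split_ifs <;> linarith
      have h2 := bb_le (Q := Q) (g := g) hl C hC j
      rw [hj] at h2
      have h3 : |bb Q g l j - κ * l ^ n| ≤ (|C| + |κ|) * l ^ n := by
        refine (abs_sub _ _).trans ?_
        rw [abs_of_nonneg (bb_nonneg j), abs_mul, abs_of_pos hln]
        linarith
      refine h3.trans ?_
      rw [mul_comm (l ^ n)]
      apply mul_le_mul_of_nonneg_right _ hln.le
      have h4 : (|C| + |κ|) * 1 ≤ (|C| + |κ|) *
          ((∑ v : Fin (2 + 1), (2 : ℝ) ^ k0 * ((2 : ℝ)⁻¹) ^ j v) +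
          if ∀ v, 2 * (j v : ℝ) < (1 + ε) * ((n : ℝ) - j v) + k1 then 1 else 0) :=
        mul_le_mul_of_nonneg_left h1 (by positivity)
      have h5 : 0 ≤ ε * (1 + |κ|) := by positivity
      linarith
  refine (sum_le_sum hb).trans ?_
  rw [← mul_sum, sum_add_distrib, sum_const, nsmul_eq_mul, ← mul_sum, sum_add_distrib,
    sum_comm]
  simp only [← mul_sum]
  rw [sum_boole]
  have hc := centre ε hε k1 n
  have e2 : E n * (l ^ n * (n : ℝ) ^ 2) = l ^ n *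
      (((antidiagonalTuple (2 + 1) n).card : ℝ) * (ε * (1 + |κ|)) +
      (|C| + |κ|) * ((2 ^ k0 * ∑ v : Fin (2 + 1),
        ∑ j ∈ antidiagonalTuple (2 + 1) n, ((2 : ℝ)⁻¹) ^ j v) +
      (ε * n + k1 + 1) ^ 2)) := by
    simp only [hE, hN]
    rw [← mul_sum, ← sum_div]
    field_simp
    ring
  rw [e2]
  apply mul_le_mul_of_nonneg_left _ (by positivity)
  have h7 : (0 : ℝ) ≤ |C| + |κ| := by positivity
  have h8 := mul_le_mul_of_nonneg_left hc h7
  have h9 : (2 + 1 : ℕ) = 3 := rfl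
  rw [mul_add (|C| + |κ|), mul_add (|C| + |κ|)]
  linarith

/-- From the limits for the levels to the heights (the second part of the proof of `h3`). -/
lemma final {m : ℕ} {r : Fin (m + 1) → ℕ} (hr : ∀ v, 1 ≤ r v) {α : Type} {Q : Set α}
    {g : Fin (m + 1) → α → ℕ} (hg : ∀ t ∈ Q, ∀ v, 1 ≤ g v t)
    (hfin : ∀ X : Fin (m + 1) → ℕ, {t | t ∈ Q ∧ ∀ v, g v t ≤ X v}.Finite) (c : ℝ)
    (hD : ∀ (l : ℝ) (hl : 1 < l), Tendsto (fun n : ℕ => D (hT hl hr hfin) 0 n /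
      (l ^ n * (n : ℝ) ^ m)) atTop (𝓝 (c * (1 - 1 / l) ^ m))) :
    Tendsto (fun B : ℝ => ({t | t ∈ Q ∧ ∏ v, (g v t : ℝ) ^ r v ≤ B}.ncard : ℝ) /
      (B * Real.log B ^ m)) atTop (𝓝 c) := by
  -- the scale
  have hfl : ∀ (l : ℝ), 1 < l → Tendsto (fun B : ℝ => ⌊Real.logb l B⌋₊) atTop atTop :=
    fun l hl => tendsto_nat_floor_atTop.comp (Real.tendsto_logb_atTop hl)
  have hsc : ∀ (l : ℝ), 1 < l → ∀ B : ℝ, l ≤ B → l ^ ⌊Real.logb l B⌋₊ ≤ B ∧
      B ≤ l ^ (⌊Real.logb l B⌋₊ + 1) ∧ 1 ≤ ⌊Real.logb l B⌋₊ ∧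
      (⌊Real.logb l B⌋₊ : ℝ) * Real.log l ≤ Real.log B ∧
      Real.log B ≤ ((⌊Real.logb l B⌋₊ : ℝ) + 1) * Real.log l := by
    intro l hl B hB
    have hB0 : 0 < B := by linarith
    have hl0 : 0 < l := by linarith
    have hlog : 0 < Real.log l := Real.log_pos hl
    have h1 : 1 ≤ Real.logb l B := by
      rw [Real.le_logb_iff_rpow_le hl hB0, Real.rpow_one]; exact hB
    have h2 : (⌊Real.logb l B⌋₊ : ℝ) ≤ Real.logb l B := Nat.floor_le (by linarith)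
    have h3 : Real.logb l B ≤ (⌊Real.logb l B⌋₊ : ℝ) + 1 := (Nat.lt_floor_add_one _).le
    have e : Real.logb l B * Real.log l = Real.log B := by
      rw [Real.logb]; field_simp
    refine ⟨?_, ?_, Nat.le_floor (by simpa using h1), ?_, ?_⟩
    · rw [← Real.rpow_natCast, ← Real.le_logb_iff_rpow_le hl hB0]; exact h2
    · rw [← Real.rpow_natCast, ← Real.logb_le_iff_le_rpow hl hB0]; push_cast; exact h3
    · rw [← e]; exact mul_le_mul_of_nonneg_right h2 hlog.le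
    · rw [← e]; exact mul_le_mul_of_nonneg_right h3 hlog.le
  obtain ⟨hlo, hup⟩ := lim_one m (c)
  rw [tendsto_order]
  constructor
  · intro a ha
    obtain ⟨l, hl, hla⟩ := (eventually_mem_nhdsWithin.and (hlo.eventually (lt_mem_nhds ha))).exists
    have hl1 : (1 : ℝ) < l := hl
    have hlog : 0 < Real.log l := Real.log_pos hl1
    have h1 : Tendsto (fun n : ℕ => D (hT hl1 hr hfin) 0 n / (l ^ n * (n : ℝ) ^ m) *
        ((n : ℝ) / ((n : ℝ) + 1)) ^ m * (1 / (l * Real.log l ^ m))) atTop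
        (𝓝 (c * (1 - 1 / l) ^ m * 1 * (1 / (l * Real.log l ^ m)))) :=
      ((hD l hl1).mul (ratio_lim m)).mul_const _
    rw [mul_one, mul_one_div] at h1
    have h2 := ((h1.comp (hfl l hl1)).eventually (lt_mem_nhds hla))
    filter_upwards [h2, eventually_ge_atTop l] with B hB2 hB
    refine hB2.trans_le ?_
    obtain ⟨s1, s2, s3, s4, s5⟩ := hsc l hl1 B hB
    simp only [Function.comp]
    set n := ⌊Real.logb l B⌋₊ with hn
    have hn0 : (0 : ℝ) < n := by exact_mod_cast s3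
    have hB0 : 0 < B := by linarith
    have hlB : 0 < Real.log B := Real.log_pos (by linarith)
    have hl0 : 0 < l := by linarith
    have k1 := lower hl1 hr hg hfin n B s1
    have k2 : 0 ≤ D (hT hl1 hr hfin) 0 n := by rw [D_zero]; positivity
    calc D (hT hl1 hr hfin) 0 n / (l ^ n * (n : ℝ) ^ m) * ((n : ℝ) / ((n : ℝ) + 1)) ^ m *
          (1 / (l * Real.log l ^ m))
        = D (hT hl1 hr hfin) 0 n / (l ^ (n + 1) * (((n : ℝ) + 1) * Real.log l) ^ m) := by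
          rw [div_pow, mul_pow, pow_succ]
          field_simp
      _ ≤ D (hT hl1 hr hfin) 0 n / (B * Real.log B ^ m) := by
          apply div_le_div_of_nonneg_left k2 (by positivity)
          gcongr
      _ ≤ _ := by gcongr
  · intro a ha
    obtain ⟨l, hl, hla⟩ := (eventually_mem_nhdsWithin.and (hup.eventually (gt_mem_nhds ha))).exists
    have hl1 : (1 : ℝ) < l := hl
    have hlog : 0 < Real.log l := Real.log_pos hl1
    have h1 : Tendsto (fun n : ℕ => D (hT hl1 hr hfin) 0 (n + (m + 2)) /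
        (l ^ (n + (m + 2)) * ((n + (m + 2) : ℕ) : ℝ) ^ m) *
        (1 + ((m + 2 : ℕ) : ℝ) / (n : ℝ)) ^ m * (l ^ (m + 2) / (Real.log l ^ m))) atTop
        (𝓝 (c * (1 - 1 / l) ^ m * 1 * (l ^ (m + 2) / (Real.log l ^ m)))) := by
      refine (((hD l hl1).comp (tendsto_add_atTop_nat (m + 2))).mul ?_).mul_const _
      have h4 : Tendsto (fun n : ℕ => 1 + ((m + 2 : ℕ) : ℝ) / n) atTop (𝓝 (1 + 0)) :=
        (tendsto_const_div_atTop_nhds_zero_nat _).const_add 1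
      have := h4.pow m
      simpa using this
    rw [mul_one, ← mul_div_assoc] at h1
    have h2 := ((h1.comp (hfl l hl1)).eventually (gt_mem_nhds hla))
    filter_upwards [h2, eventually_ge_atTop l] with B hB2 hB
    refine lt_of_le_of_lt ?_ hB2
    obtain ⟨s1, s2, s3, s4, s5⟩ := hsc l hl1 B hB
    simp only [Function.comp]
    set n := ⌊Real.logb l B⌋₊ with hn
    have hn0 : (0 : ℝ) < n := by exact_mod_cast s3
    have hB0 : 0 < B := by linarith
    have hlB : 0 < Real.log B := Real.log_pos (by linarith)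
    have hl0 : 0 < l := by linarith
    have k1 := upper hl1 hr hg hfin n B s2
    have k2 : 0 ≤ D (hT hl1 hr hfin) 0 (n + (m + 2)) := by rw [D_zero]; positivity
    calc ({t | t ∈ Q ∧ ∏ v, (g v t : ℝ) ^ r v ≤ B}.ncard : ℝ) / (B * Real.log B ^ m)
        ≤ D (hT hl1 hr hfin) 0 (n + (m + 2)) / (B * Real.log B ^ m) := by gcongr
      _ ≤ D (hT hl1 hr hfin) 0 (n + (m + 2)) / (l ^ n * ((n : ℝ) * Real.log l) ^ m) := by
          apply div_le_div_of_nonneg_left k2 (by positivity)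
          gcongr
      _ = _ := by
          have e1 : (1 + ((m + 2 : ℕ) : ℝ) / (n : ℝ)) = ((n + (m + 2) : ℕ) : ℝ) / n := by
            push_cast; field_simp
          have e2 : ((n + (m + 2) : ℕ) : ℝ) ≠ 0 := by positivity
          rw [e1, div_pow, mul_pow, pow_add l n (m + 2)]
          field_simp

end ModHy

open ModHy Pool.Agent.T6.H81.BG.ModH3

theorem hy : StmtHy := by
  intro α Q g hg hfin κ C hC hA
  have hfac : κ / 2 = κ / (2 : ℕ).factorial := by norm_num [Nat.factorial]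
  rw [hfac]
  exact final (m := 2) (r := r2) hr2 hg hfin _ fun l hl =>
    D_lim _ l hl 2 2 _ (D_top' hl hfin κ C hC hA)

end Pool.Agent.T6.H97.TA
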