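import Pool.Agent.T6.H97.TA.Defs
import Pool.Agent.W150.QN.R

/-! Module Reg of the project TA: the sum of the densities. -/

set_option autoImplicit false

namespace Pool.Agent.T6.H97.TA

open Finset Matrix Filter Topology MeasureTheory
open Pool.Agent.H548.WM (ht bx mem_bx)
open Pool.Agent.H548.TL (g1 g2 g3 tf Sm s12 s23 Tx)
open Pool.Agent.T6.H81.BA (Cell)

namespace ModReg

theorem gcd_nonneg (w : Fin 3 → ℤ) : 0 ≤ univ.gcd w :=
  Int.nonneg_of_normalize_eq_self Finset.normalize_gcd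

theorem gcd_pos {w : Fin 3 → ℤ} (hw : w ≠ 0) : 0 < univ.gcd w := by
  refine lt_of_le_of_ne (gcd_nonneg w) (fun h => hw ?_)
  funext i
  exact (Finset.gcd_eq_zero_iff.1 h.symm) i (mem_univ i)

theorem ct_eq (w : Fin 3 → ℤ) : (W978.QN.ct w : ℤ) = univ.gcd w := by
  apply Int.dvd_antisymm (by positivity) (gcd_nonneg w)
  · apply Finset.dvd_gcd
    have h00 : (W978.QN.ct w : ℤ) ∣ (Int.gcd (w 0) (w 1) : ℤ) :=
      Int.natCast_dvd_natCast.2 (Nat.gcd_dvd_left _ _)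
    have h0 : (W978.QN.ct w : ℤ) ∣ w 0 := h00.trans (Int.gcd_dvd_left ..)
    have h1 : (W978.QN.ct w : ℤ) ∣ w 1 := h00.trans (Int.gcd_dvd_right ..)
    have h2 : (W978.QN.ct w : ℤ) ∣ w 2 := Int.natCast_dvd.2 (Nat.gcd_dvd_right _ _)
    intro i _
    fin_cases i
    · exact h0
    · exact h1
    · exact h2
  · have h : ∀ i, univ.gcd w ∣ w i := fun i => Finset.gcd_dvd (mem_univ i)
    rw [Int.dvd_natCast]
    unfold W978.QN.ct
    apply Nat.dvd_gcd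
    · rw [← Int.dvd_natCast]
      exact Int.dvd_coe_gcd (h 0) (h 1)
    · exact Int.natAbs_dvd_natAbs.2 (h 2)

theorem nm_eq (w : Fin 3 → ℤ) : W978.QN.nm w = (ht w : ℤ) := by
  apply le_antisymm
  · unfold W978.QN.nm
    exact max_le (max_le (Pool.Agent.H548.WM.le_ht' w 0) (Pool.Agent.H548.WM.le_ht' w 1))
      (Pool.Agent.H548.WM.le_ht' w 2)
  · obtain ⟨i, hi⟩ := Pool.Agent.H548.WM.exists_ht (by norm_num) w
    rw [← hi]
    unfold W978.QN.nm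
    fin_cases i
    · exact le_max_of_le_left (le_max_left _ _)
    · exact le_max_of_le_left (le_max_right _ _)
    · exact le_max_right _ _

theorem prim_of_gcd {v : Fin 3 → ℤ} (h : univ.gcd v = 1) : W978.QN.Prim v := by
  have hv : v ≠ 0 := by
    rintro rfl
    have : univ.gcd (0 : Fin 3 → ℤ) = 0 := Finset.gcd_eq_zero_iff.2 (fun _ _ => rfl)
    rw [this] at h
    exact zero_ne_one h
  obtain ⟨w', u, -, h1, h2⟩ := W150.QN.ct_bez v hv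
  rw [ct_eq, h] at h1
  refine ⟨u, ?_⟩
  rw [← h2]
  apply Finset.sum_congr rfl
  intro a _
  rw [h1 a, one_mul]

/-- (F1) -/
theorem F_le (c : (Fin 3 → ℤ) → Prop) (hc : ∀ v, c v → univ.gcd v = 1) (F : (Fin 3 → ℤ) → ℝ)
    (hF : IsDen c F) (w : Fin 3 → ℤ) (hw : w ≠ 0) :
    0 ≤ F w ∧ F w ≤ 8 * ((univ.gcd w : ℤ) : ℝ) / (ht w : ℝ) := by
  classical
  have h := hF w hw
  constructor
  · exact ge_of_tendsto' h (fun Y => by positivity)
  have h2 : Tendsto (fun Y : ℕ => 4 / (Y : ℝ) ^ 2 + 8 * ((univ.gcd w : ℤ) : ℝ) / (ht w : ℝ)) atTop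
      (𝓝 (0 + 8 * ((univ.gcd w : ℤ) : ℝ) / (ht w : ℝ))) := by
    apply Tendsto.add _ tendsto_const_nhds
    have h3 : Tendsto (fun Y : ℕ => (Y : ℝ) ^ 2) atTop atTop :=
      (tendsto_pow_atTop (by norm_num)).comp tendsto_natCast_atTop_atTop
    exact h3.const_div_atTop 4
  rw [zero_add] at h2
  refine le_of_tendsto_of_tendsto h h2 ?_
  filter_upwards [eventually_ge_atTop 1] with Y hY
  have hY0 : (0 : ℝ) < (Y : ℝ) ^ 2 := by
    have : (0 : ℝ) < Y := by exact_mod_cast hY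
    positivity
  have hS := W150.QN.primPlane w hw Y hY
  have hle : (pl c w Y : ℝ) ≤
      (((W978.QN.bx Y).filter fun r => W978.QN.Prim r ∧ ∑ k, w k * r k = 0).card : ℝ) := by
    unfold pl
    norm_cast
    apply Finset.card_le_card
    intro v hv
    rw [Finset.mem_filter] at hv ⊢
    exact ⟨hv.1, prim_of_gcd (hc v hv.2.2), hv.2.1⟩
  have e1 : (W978.QN.ct w : ℝ) = ((univ.gcd w : ℤ) : ℝ) := by exact_mod_cast ct_eq w
  have e2 : ((W978.QN.nm w : ℤ) : ℝ) = (ht w : ℝ) := by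
    rw [nm_eq]
    norm_cast
  rw [e1, e2] at hS
  rw [div_le_iff₀ hY0]
  have e3 : (4 / (Y : ℝ) ^ 2 + 8 * ((univ.gcd w : ℤ) : ℝ) / (ht w : ℝ)) * (Y : ℝ) ^ 2 =
      4 + 8 * (Y : ℝ) ^ 2 * ((univ.gcd w : ℤ) : ℝ) / (ht w : ℝ) := by
    field_simp
  rw [e3]
  exact hle.trans hS

theorem g3_scale (T : T3) (x y : Fin 3 → ℤ) (A B : ℕ) :
    g3 T (fun i => (x i : ℝ) / A) (fun j => (y j : ℝ) / B) =
      ((A : ℝ) * B)⁻¹ • (fun k => ((g3 T x y k : ℤ) : ℝ)) := by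
  funext k
  simp only [g3, Pi.smul_apply, smul_eq_mul]
  push_cast
  rw [Finset.mul_sum]
  apply Finset.sum_congr rfl
  intro i _
  rw [Finset.mul_sum]
  apply Finset.sum_congr rfl
  intro j _
  rw [mul_inv]
  simp only [div_eq_mul_inv]
  ring

open Classical in
theorem pat_scale {n : ℕ} (f : Fin n → Fin 3 → ℤ) (σ : Fin n → Bool) (x : Fin 3 → ℤ) (A : ℕ)
    (hA : 1 ≤ A) : Pat f σ (fun i => (x i : ℝ) / A) =
      if ∀ i, (0 ≤ f i ⬝ᵥ x ↔ σ i = true) then 1 else 0 := by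
  unfold Pat
  have hA0 : (0 : ℝ) < A := by exact_mod_cast hA
  have h : ∀ i, (0 ≤ ∑ j, (f i j : ℝ) * ((x j : ℝ) / A) ↔ 0 ≤ f i ⬝ᵥ x) := by
    intro i
    have e : ∑ j, (f i j : ℝ) * ((x j : ℝ) / A) = ((f i ⬝ᵥ x : ℤ) : ℝ) / A := by
      unfold dotProduct
      push_cast
      rw [Finset.sum_div]
      apply Finset.sum_congr rfl
      intro j _
      ring
    rw [e]
    constructor
    · intro h
      have := mul_nonneg h hA0.le
      rw [div_mul_cancel₀ _ hA0.ne'] at this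
      exact_mod_cast this
    · intro h
      have : (0 : ℝ) ≤ ((f i ⬝ᵥ x : ℤ) : ℝ) := by exact_mod_cast h
      positivity
  simp only [h]

theorem vv_nonneg {n : ℕ} (f : Fin n → Fin 3 → ℤ) (σ : Fin n → Bool) (w : Fin 3 → ℝ) :
    0 ≤ Vv f σ w := by
  unfold Vv
  positivity

theorem vv_zero {n : ℕ} (f : Fin n → Fin 3 → ℤ) (σ : Fin n → Bool) (w : Fin 3 → ℝ)
    (hw : w 2 = 0) : Vv f σ w = 0 := by
  unfold Vv
  rw [hw]
  simp

theorem vv_le (hVb : StmtVb) {n : ℕ} (f : Fin n → Fin 3 → ℤ) (σ : Fin n → Bool) (w : Fin 3 → ℤ)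
    (hw : w ≠ 0) : Vv f σ (fun j => (w j : ℝ)) ≤ 4 / (ht w : ℝ) := by
  obtain ⟨i, hi⟩ := Pool.Agent.H548.WM.exists_ht (by norm_num) w
  have h1 := (hVb n f σ (fun j => (w j : ℝ))).1 i
  have h2 : (0 : ℝ) < ht w := by
    have := Pool.Agent.H548.WM.ht_pos hw
    exact_mod_cast this
  rw [le_div_iff₀ h2]
  have h3 : |(w i : ℝ)| = (ht w : ℝ) := by exact_mod_cast hi
  rw [← h3]
  exact h1

theorem g3_ne (T : T3) (x y : Fin 3 → ℤ) (hx : D1 T x ≠ 0) (hy : y ≠ 0) : g3 T x y ≠ 0 := by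
  intro h
  rw [← Pool.Agent.H548.TL.vecMul_Tx] at h
  exact hy (Matrix.eq_zero_of_vecMul_eq_zero hx h)

theorem ne_of_pr {v : Fin 3 → ℤ} (h : Pr v) : v ≠ 0 := by
  rintro rfl
  unfold Pr at h
  have : univ.gcd (0 : Fin 3 → ℤ) = 0 := Finset.gcd_eq_zero_iff.2 (fun _ _ => rfl)
  rw [this] at h
  exact zero_ne_one h

open Classical in
/-- the periodic weight -/
noncomputable def th (T : T3) (q1 q2 q L : ℕ) (r1 r2 r : Fin 3 → ℤ) (c0 : ℝ)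
    (x y : Fin 3 → ℤ) : ℝ :=
  if (∀ j, (q1 : ℤ) ∣ x j - r1 j) ∧ (∀ j, (q2 : ℤ) ∣ y j - r2 j) then
    c0 * (if (q : ℤ) * (Int.gcd (univ.gcd (g3 T x y)) L : ℤ) ∣ g3 T x y ⬝ᵥ r then
      (Int.gcd (univ.gcd (g3 T x y)) L : ℝ) else 0) else 0

theorem th_nonneg (T : T3) (q1 q2 q L : ℕ) (r1 r2 r : Fin 3 → ℤ) (c0 : ℝ) (hc0 : 0 ≤ c0)
    (x y : Fin 3 → ℤ) : 0 ≤ th T q1 q2 q L r1 r2 r c0 x y := by
  unfold th
  split_ifs
  · positivity
  · simp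
  · exact le_rfl

theorem th_le (T : T3) (q1 q2 q L : ℕ) (r1 r2 r : Fin 3 → ℤ) (c0 : ℝ) (hc0 : 0 ≤ c0)
    (x y : Fin 3 → ℤ) : th T q1 q2 q L r1 r2 r c0 x y ≤
      c0 * (Int.gcd (univ.gcd (g3 T x y)) L : ℝ) := by
  unfold th
  split_ifs
  · exact le_rfl
  · rw [mul_zero]
    positivity
  · positivity

theorem th_le_L (T : T3) (q1 q2 q L : ℕ) (hL : 1 ≤ L) (r1 r2 r : Fin 3 → ℤ) (c0 : ℝ)
    (hc0 : 0 ≤ c0) (x y : Fin 3 → ℤ) : th T q1 q2 q L r1 r2 r c0 x y ≤ c0 * L := by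
  refine (th_le T q1 q2 q L r1 r2 r c0 hc0 x y).trans ?_
  apply mul_le_mul_of_nonneg_left _ hc0
  have : Int.gcd (univ.gcd (g3 T x y)) L ≤ L := by
    apply Nat.le_of_dvd (by omega)
    have := Int.gcd_dvd_right (univ.gcd (g3 T x y)) (L : ℤ)
    exact_mod_cast this
  exact_mod_cast this

theorem th_le_gcd (T : T3) (q1 q2 q L : ℕ) (r1 r2 r : Fin 3 → ℤ) (c0 : ℝ)
    (hc0 : 0 ≤ c0) (x y : Fin 3 → ℤ) (hw : g3 T x y ≠ 0) :
    th T q1 q2 q L r1 r2 r c0 x y ≤ c0 * ((univ.gcd (g3 T x y) : ℤ) : ℝ) := by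
  refine (th_le T q1 q2 q L r1 r2 r c0 hc0 x y).trans ?_
  apply mul_le_mul_of_nonneg_left _ hc0
  have : (Int.gcd (univ.gcd (g3 T x y)) L : ℤ) ≤ univ.gcd (g3 T x y) :=
    Int.le_of_dvd (gcd_pos hw) (Int.gcd_dvd_left _ _)
  exact_mod_cast this

theorem g3_congr (T : T3) (N : ℤ) (x x' y y' : Fin 3 → ℤ) (hx : ∀ j, N ∣ x' j - x j)
    (hy : ∀ j, N ∣ y' j - y j) (k : Fin 3) : N ∣ g3 T x' y' k - g3 T x y k := by
  unfold g3
  rw [← Finset.sum_sub_distrib]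
  apply Finset.dvd_sum
  intro i _
  rw [← Finset.sum_sub_distrib]
  apply Finset.dvd_sum
  intro j _
  obtain ⟨u, hu⟩ := hx i
  obtain ⟨v, hv⟩ := hy j
  refine ⟨(T i j k) * (u * y' j + x i * v), ?_⟩
  have e1 : x' i = x i + N * u := by linarith
  have e2 : y' j = y j + N * v := by linarith
  simp only [Int.cast_id]
  rw [e1, e2]
  ring

theorem gcd_congr (L : ℕ) (w w' : Fin 3 → ℤ) (h : ∀ k, (L : ℤ) ∣ w' k - w k) :
    Int.gcd (univ.gcd w) L = Int.gcd (univ.gcd w') L := by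
  have key : ∀ w w' : Fin 3 → ℤ, (∀ k, (L : ℤ) ∣ w' k - w k) →
      Int.gcd (univ.gcd w) L ∣ Int.gcd (univ.gcd w') L := by
    intro w w' h
    have h1 : (Int.gcd (univ.gcd w) L : ℤ) ∣ L := Int.gcd_dvd_right _ _
    have h2 : (Int.gcd (univ.gcd w) L : ℤ) ∣ univ.gcd w := Int.gcd_dvd_left _ _
    have h3 : (Int.gcd (univ.gcd w) L : ℤ) ∣ univ.gcd w' := by
      apply Finset.dvd_gcd
      intro k _
      have h4 : (Int.gcd (univ.gcd w) L : ℤ) ∣ w k := h2.trans (Finset.gcd_dvd (mem_univ k))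
      have h5 : (Int.gcd (univ.gcd w) L : ℤ) ∣ w' k - w k := h1.trans (h k)
      have := dvd_add h5 h4
      rwa [sub_add_cancel] at this
    have := Int.dvd_coe_gcd h3 h1
    exact_mod_cast this
  apply Nat.dvd_antisymm (key w w' h)
  apply key w' w
  intro k
  have := h k
  rw [← neg_sub]
  exact this.neg_right

theorem th_per (T : T3) (q1 q2 q L : ℕ) (r1 r2 r : Fin 3 → ℤ) (c0 : ℝ)
    (x x' y y' : Fin 3 → ℤ) (hx : ∀ j, ((q1 * q2 * (q * L) : ℕ) : ℤ) ∣ x' j - x j)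
    (hy : ∀ j, ((q1 * q2 * (q * L) : ℕ) : ℤ) ∣ y' j - y j) :
    th T q1 q2 q L r1 r2 r c0 x' y' = th T q1 q2 q L r1 r2 r c0 x y := by
  have d1 : (q1 : ℤ) ∣ ((q1 * q2 * (q * L) : ℕ) : ℤ) :=
    Int.natCast_dvd_natCast.2 ⟨q2 * (q * L), by ring⟩
  have d2 : (q2 : ℤ) ∣ ((q1 * q2 * (q * L) : ℕ) : ℤ) :=
    Int.natCast_dvd_natCast.2 ⟨q1 * (q * L), by ring⟩
  have d3 : ((q * L : ℕ) : ℤ) ∣ ((q1 * q2 * (q * L) : ℕ) : ℤ) :=
    Int.natCast_dvd_natCast.2 ⟨q1 * q2, by ring⟩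
  have d4 : (L : ℤ) ∣ ((q * L : ℕ) : ℤ) := Int.natCast_dvd_natCast.2 ⟨q, by ring⟩
  have hw : ∀ k, ((q * L : ℕ) : ℤ) ∣ g3 T x' y' k - g3 T x y k :=
    g3_congr T _ x x' y y' (fun j => d3.trans (hx j)) (fun j => d3.trans (hy j))
  have hg : Int.gcd (univ.gcd (g3 T x y)) L = Int.gcd (univ.gcd (g3 T x' y')) L :=
    gcd_congr L _ _ (fun k => d4.trans (hw k))
  have c1 : (∀ j, (q1 : ℤ) ∣ x' j - r1 j) ↔ (∀ j, (q1 : ℤ) ∣ x j - r1 j) := by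
    apply forall_congr'
    intro j
    rw [show x' j - r1 j = (x' j - x j) + (x j - r1 j) by ring]
    exact dvd_add_right (d1.trans (hx j))
  have c2 : (∀ j, (q2 : ℤ) ∣ y' j - r2 j) ↔ (∀ j, (q2 : ℤ) ∣ y j - r2 j) := by
    apply forall_congr'
    intro j
    rw [show y' j - r2 j = (y' j - y j) + (y j - r2 j) by ring]
    exact dvd_add_right (d2.trans (hy j))
  have c3 : ((q : ℤ) * (Int.gcd (univ.gcd (g3 T x' y')) L : ℤ) ∣ g3 T x' y' ⬝ᵥ r) ↔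
      ((q : ℤ) * (Int.gcd (univ.gcd (g3 T x y)) L : ℤ) ∣ g3 T x y ⬝ᵥ r) := by
    rw [hg]
    have e : g3 T x' y' ⬝ᵥ r = (∑ k, (g3 T x' y' k - g3 T x y k) * r k) + g3 T x y ⬝ᵥ r := by
      unfold dotProduct
      rw [← Finset.sum_add_distrib]
      apply Finset.sum_congr rfl
      intro k _
      ring
    rw [e]
    apply dvd_add_right
    apply Finset.dvd_sum
    intro k _
    apply Dvd.dvd.mul_right
    refine dvd_trans ?_ (hw k)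
    push_cast
    exact mul_dvd_mul_left _ (Int.gcd_dvd_right _ _)
  unfold th
  simp only [c1, c2, c3, hg]

theorem ite_mul_bd (a b : Prop) [Decidable a] [Decidable b] (z : ℝ) (hz : 0 ≤ z) :
    0 ≤ (if a then (1 : ℝ) else 0) * (if b then (1 : ℝ) else 0) * z ∧
    (if a then (1 : ℝ) else 0) * (if b then (1 : ℝ) else 0) * z ≤ z := by
  split_ifs <;> simp [hz]

open Classical in
theorem ptw (hVb : StmtVb) (T : T3) {n n1 n2 : ℕ} (f : Fin n → Fin 3 → ℤ) (σ : Fin n → Bool)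
    (q : ℕ) (r : Fin 3 → ℤ)
    (f1 : Fin n1 → Fin 3 → ℤ) (σ1 : Fin n1 → Bool) (q1 : ℕ) (r1 : Fin 3 → ℤ)
    (f2 : Fin n2 → Fin 3 → ℤ) (σ2 : Fin n2 → Bool) (q2 : ℕ) (r2 : Fin 3 → ℤ)
    (F : (Fin 3 → ℤ) → ℝ)
    (hF1 : ∀ w : Fin 3 → ℤ, w ≠ 0 → 0 ≤ F w ∧ F w ≤ 8 * ((univ.gcd w : ℤ) : ℝ) / (ht w : ℝ))
    (c0 : ℝ) (hc0 : 0 ≤ c0)
    (hF2 : ∀ w : Fin 3 → ℤ, w 2 ≠ 0 → F w =
      c0 * (if (q : ℤ) * univ.gcd w ∣ w ⬝ᵥ r then ((univ.gcd w : ℤ) : ℝ) else 0) *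
        Vv f σ (fun j => (w j : ℝ)))
    (G L : ℕ) (hL : ∀ m : ℕ, 1 ≤ m → m ≤ G → m ∣ L) (hL0 : 1 ≤ L) (δ : ℝ) (hδ : 0 < δ)
    (A B : ℕ) (hA : 1 ≤ A) (hB : 1 ≤ B) (x y : Fin 3 → ℤ) (hx : Pr x) (hy : Pr y) :
    |(if (D1 T x ≠ 0 ∧ D2 T y ≠ 0) ∧ (Cell f1 σ1 q1 r1 x ∧ Cell f2 σ2 q2 r2 y) then
        F (g3 T x y) else 0) -
      th T q1 q2 q L r1 r2 r c0 x y * (Pat f1 σ1 (fun i => (x i : ℝ) / A) *
        Pat f2 σ2 (fun i => (y i : ℝ) / B) *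
        min (Vv f σ (g3 T (fun i => (x i : ℝ) / A) (fun i => (y i : ℝ) / B))) (4 / δ)) /
        ((A : ℝ) * B)| ≤
      (if D1 T x = 0 ∨ D2 T y = 0 then c0 * L * (4 / δ) / ((A : ℝ) * B) else 0) +
      (if g3 T x y 2 = 0 then 8 * G / (δ * ((A : ℝ) * B)) else 0) +
      (if (D1 T x ≠ 0 ∧ D2 T y ≠ 0) ∧ ((G : ℤ) < univ.gcd (g3 T x y) ∨
        (ht (g3 T x y) : ℝ) < δ * ((A : ℝ) * B)) then
        (8 + 4 * c0) * (((univ.gcd (g3 T x y) : ℤ) : ℝ) / (ht (g3 T x y) : ℝ)) else 0) := by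
  have hA0 : (0 : ℝ) < A := by exact_mod_cast hA
  have hB0 : (0 : ℝ) < B := by exact_mod_cast hB
  have hAB : (0 : ℝ) < (A : ℝ) * B := by positivity
  have hs : Vv f σ (g3 T (fun i => (x i : ℝ) / A) (fun j => (y j : ℝ) / B)) =
      ((A : ℝ) * B) * Vv f σ (fun j => ((g3 T x y j : ℤ) : ℝ)) := by
    rw [g3_scale, (hVb n f σ _).2 _ (inv_pos.2 hAB), inv_inv]
  rw [hs, pat_scale f1 σ1 x A hA, pat_scale f2 σ2 y B hB]
  have hV0 := vv_nonneg f σ (fun j => ((g3 T x y j : ℤ) : ℝ))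
  have hth0 := th_nonneg T q1 q2 q L r1 r2 r c0 hc0 x y
  have hthL := th_le_L T q1 q2 q L hL0 r1 r2 r c0 hc0 x y
  have hthg := th_le_gcd T q1 q2 q L r1 r2 r c0 hc0 x y
  have hmin0 : 0 ≤ min ((A : ℝ) * B * Vv f σ (fun j => ((g3 T x y j : ℤ) : ℝ))) (4 / δ) := by
    positivity
  have hP := ite_mul_bd (∀ i, (0 ≤ f1 i ⬝ᵥ x ↔ σ1 i = true)) (∀ i, (0 ≤ f2 i ⬝ᵥ y ↔ σ2 i = true))
    _ hmin0
  have hgn := gcd_nonneg (g3 T x y)
  have hgn' : (0 : ℝ) ≤ ((univ.gcd (g3 T x y) : ℤ) : ℝ) := by exact_mod_cast hgn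
  have e2 : 0 ≤ (if g3 T x y 2 = 0 then 8 * G / (δ * ((A : ℝ) * B)) else 0) := by
    split_ifs <;> positivity
  have e3 : 0 ≤ (if (D1 T x ≠ 0 ∧ D2 T y ≠ 0) ∧ ((G : ℤ) < univ.gcd (g3 T x y) ∨
        (ht (g3 T x y) : ℝ) < δ * ((A : ℝ) * B)) then
        (8 + 4 * c0) * (((univ.gcd (g3 T x y) : ℤ) : ℝ) / (ht (g3 T x y) : ℝ)) else 0) := by
    split_ifs <;> positivity
  by_cases hD : D1 T x = 0 ∨ D2 T y = 0
  · rw [if_neg (by tauto), if_pos hD, zero_sub, abs_neg, abs_of_nonneg (by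
      apply div_nonneg (mul_nonneg hth0 hP.1) hAB.le)]
    have : th T q1 q2 q L r1 r2 r c0 x y *
        ((if ∀ i, (0 ≤ f1 i ⬝ᵥ x ↔ σ1 i = true) then (1 : ℝ) else 0) *
          (if ∀ i, (0 ≤ f2 i ⬝ᵥ y ↔ σ2 i = true) then (1 : ℝ) else 0) *
          min ((A : ℝ) * B * Vv f σ (fun j => ((g3 T x y j : ℤ) : ℝ))) (4 / δ)) /
        ((A : ℝ) * B) ≤ c0 * L * (4 / δ) / ((A : ℝ) * B) := by
      apply div_le_div_of_nonneg_right _ hAB.le
      apply mul_le_mul hthL (hP.2.trans (min_le_right _ _)) hP.1 (by positivity)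
    linarith
  have hD' : D1 T x ≠ 0 ∧ D2 T y ≠ 0 := by tauto
  rw [if_neg hD, zero_add]
  have hw : g3 T x y ≠ 0 := g3_ne T x y hD'.1 (ne_of_pr hy)
  by_cases hc : Cell f1 σ1 q1 r1 x ∧ Cell f2 σ2 q2 r2 y
  · rw [if_pos ⟨hD', hc⟩]
    obtain ⟨hc1, hc2⟩ := hc
    rw [if_pos hc1.2.2, if_pos hc2.2.2, one_mul, one_mul]
    have hht : (0 : ℝ) < ht (g3 T x y) := by
      have := Pool.Agent.H548.WM.ht_pos hw
      exact_mod_cast this
    have hV := vv_le hVb f σ (g3 T x y) hw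
    have hFw := hF1 _ hw
    by_cases hta : (G : ℤ) < univ.gcd (g3 T x y) ∨ (ht (g3 T x y) : ℝ) < δ * ((A : ℝ) * B)
    · have hcond : (D1 T x ≠ 0 ∧ D2 T y ≠ 0) ∧ ((G : ℤ) < univ.gcd (g3 T x y) ∨
        (ht (g3 T x y) : ℝ) < δ * ((A : ℝ) * B)) := ⟨hD', hta⟩
      rw [if_pos hcond]
      have h1 : th T q1 q2 q L r1 r2 r c0 x y *
          min ((A : ℝ) * B * Vv f σ (fun j => ((g3 T x y j : ℤ) : ℝ))) (4 / δ) / ((A : ℝ) * B) ≤
          4 * c0 * (((univ.gcd (g3 T x y) : ℤ) : ℝ) / (ht (g3 T x y) : ℝ)) := by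
        rw [div_le_iff₀ hAB]
        calc th T q1 q2 q L r1 r2 r c0 x y *
            min ((A : ℝ) * B * Vv f σ (fun j => ((g3 T x y j : ℤ) : ℝ))) (4 / δ)
            ≤ (c0 * ((univ.gcd (g3 T x y) : ℤ) : ℝ)) *
              ((A : ℝ) * B * (4 / (ht (g3 T x y) : ℝ))) := by
              apply mul_le_mul (hthg hw) _ hmin0 (by positivity)
              refine (min_le_left _ _).trans ?_
              exact mul_le_mul_of_nonneg_left hV hAB.le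
          _ = 4 * c0 * (((univ.gcd (g3 T x y) : ℤ) : ℝ) / (ht (g3 T x y) : ℝ)) *
              ((A : ℝ) * B) := by ring
      have h2 : 0 ≤ th T q1 q2 q L r1 r2 r c0 x y *
          min ((A : ℝ) * B * Vv f σ (fun j => ((g3 T x y j : ℤ) : ℝ))) (4 / δ) /
          ((A : ℝ) * B) := by positivity
      have h3 : 8 * ((univ.gcd (g3 T x y) : ℤ) : ℝ) / (ht (g3 T x y) : ℝ) =
          8 * (((univ.gcd (g3 T x y) : ℤ) : ℝ) / (ht (g3 T x y) : ℝ)) := by ring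
      rw [h3] at hFw
      have h4 : 0 ≤ ((univ.gcd (g3 T x y) : ℤ) : ℝ) / (ht (g3 T x y) : ℝ) := by positivity
      have h5 : 0 ≤ 4 * c0 * (((univ.gcd (g3 T x y) : ℤ) : ℝ) / (ht (g3 T x y) : ℝ)) := by
        positivity
      rw [abs_le]
      constructor <;> nlinarith [hFw.1, hFw.2]
    · have hcond : ¬ ((D1 T x ≠ 0 ∧ D2 T y ≠ 0) ∧ ((G : ℤ) < univ.gcd (g3 T x y) ∨
        (ht (g3 T x y) : ℝ) < δ * ((A : ℝ) * B))) := fun h => hta h.2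
      rw [if_neg hcond, add_zero]
      push Not at hta
      obtain ⟨hta1, hta2⟩ := hta
      have hmG : (((univ.gcd (g3 T x y) : ℤ) : ℝ)) ≤ G := by exact_mod_cast hta1
      by_cases hw2 : g3 T x y 2 = 0
      · rw [if_pos hw2, vv_zero f σ _ (by simp [hw2]), mul_zero, min_eq_left (by positivity),
          mul_zero, zero_div, sub_zero, abs_of_nonneg hFw.1]
        refine hFw.2.trans ?_
        apply div_le_div₀ (by positivity) _ (by positivity) hta2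
        linarith
      · rw [if_neg hw2, hF2 _ hw2]
        have hgcd : Int.gcd (univ.gcd (g3 T x y)) L = (univ.gcd (g3 T x y)).natAbs := by
          have hp := gcd_pos hw
          have : (univ.gcd (g3 T x y)).natAbs ∣ L := by
            apply hL
            · omega
            · omega
          unfold Int.gcd
          rw [Int.natAbs_natCast]
          exact Nat.gcd_eq_left this
        have hcast : (((univ.gcd (g3 T x y)).natAbs : ℕ) : ℤ) = univ.gcd (g3 T x y) :=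
          Int.natAbs_of_nonneg hgn
        have hth : th T q1 q2 q L r1 r2 r c0 x y =
            c0 * (if (q : ℤ) * univ.gcd (g3 T x y) ∣ g3 T x y ⬝ᵥ r then
              ((univ.gcd (g3 T x y) : ℤ) : ℝ) else 0) := by
          unfold th
          rw [if_pos ⟨hc1.2.1, hc2.2.1⟩, hgcd, hcast]
          congr 2
        have hVle : (A : ℝ) * B * Vv f σ (fun j => ((g3 T x y j : ℤ) : ℝ)) ≤ 4 / δ := by
          refine (mul_le_mul_of_nonneg_left hV hAB.le).trans ?_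
          rw [← mul_div_assoc, div_le_div_iff₀ hht hδ]
          nlinarith
        rw [hth, min_eq_left hVle]
        apply le_of_eq
        rw [abs_eq_zero]
        field_simp
        ring
  · rw [if_neg (by tauto), zero_sub, abs_neg]
    have hz : th T q1 q2 q L r1 r2 r c0 x y *
        ((if ∀ i, (0 ≤ f1 i ⬝ᵥ x ↔ σ1 i = true) then (1 : ℝ) else 0) *
          (if ∀ i, (0 ≤ f2 i ⬝ᵥ y ↔ σ2 i = true) then (1 : ℝ) else 0) *
          min ((A : ℝ) * B * Vv f σ (fun j => ((g3 T x y j : ℤ) : ℝ))) (4 / δ)) = 0 := by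
      by_cases hcong : (∀ j, (q1 : ℤ) ∣ x j - r1 j) ∧ (∀ j, (q2 : ℤ) ∣ y j - r2 j)
      · have : ¬ ((∀ i, (0 ≤ f1 i ⬝ᵥ x ↔ σ1 i = true)) ∧ (∀ i, (0 ≤ f2 i ⬝ᵥ y ↔ σ2 i = true))) := by
          intro hh
          exact hc ⟨⟨hx, hcong.1, hh.1⟩, ⟨hy, hcong.2, hh.2⟩⟩
        by_cases h1 : ∀ i, (0 ≤ f1 i ⬝ᵥ x ↔ σ1 i = true)
        · rw [if_neg (fun h2 => this ⟨h1, h2⟩)]
          ring
        · rw [if_neg h1]
          ring
      · have : th T q1 q2 q L r1 r2 r c0 x y = 0 := by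
          unfold th
          rw [if_neg hcong]
        rw [this, zero_mul]
    rw [hz, zero_div, abs_zero]
    linarith

theorem cau (S : ℕ → ℕ → ℝ) (h : ∀ ε : ℝ, 0 < ε → ∃ (k : ℝ) (M : ℕ), ∀ A B : ℕ, M ≤ A → M ≤ B →
      |S A B - k * ((A : ℝ) * B) ^ 2| ≤ ε * ((A : ℝ) * B) ^ 2) :
    ∃ κ : ℝ, ∀ ε : ℝ, 0 < ε → ∃ M : ℕ, ∀ A B : ℕ, M ≤ A → M ≤ B →
      |S A B - κ * ((A : ℝ) * B) ^ 2| ≤ ε * ((A : ℝ) * B) ^ 2 := by
  choose k M hk using h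
  have hcmp : ∀ (ε : ℝ) (hε : 0 < ε) (ε' : ℝ) (hε' : 0 < ε'), |k ε hε - k ε' hε'| ≤ ε + ε' := by
    intro ε hε ε' hε'
    obtain ⟨A, hA⟩ : ∃ A : ℕ, A = max (max (M ε hε) (M ε' hε')) 1 := ⟨_, rfl⟩
    have h1 := hk ε hε A A (by omega) (by omega)
    have h2 := hk ε' hε' A A (by omega) (by omega)
    have hA0 : (0 : ℝ) < ((A : ℝ) * A) ^ 2 := by
      have : (0 : ℝ) < A := by exact_mod_cast (by omega : 0 < A)
      positivity
    have h3 : |k ε hε - k ε' hε'| * ((A : ℝ) * A) ^ 2 ≤ (ε + ε') * ((A : ℝ) * A) ^ 2 := by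
      rw [← abs_of_pos hA0, ← abs_mul, abs_of_pos hA0]
      have e : (k ε hε - k ε' hε') * ((A : ℝ) * A) ^ 2 =
          (S A A - k ε' hε' * ((A : ℝ) * A) ^ 2) - (S A A - k ε hε * ((A : ℝ) * A) ^ 2) := by
        ring
      rw [e]
      refine (abs_sub _ _).trans ?_
      linarith
    exact le_of_mul_le_mul_right h3 hA0
  have hpos : ∀ n : ℕ, (0 : ℝ) < 1 / ((n : ℝ) + 1) := fun n => Nat.one_div_pos_of_nat
  obtain ⟨κ, hκ⟩ : ∃ κ, Tendsto (fun n : ℕ => k (1 / ((n : ℝ) + 1)) (hpos n)) atTop (𝓝 κ) := by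
    apply cauchySeq_tendsto_of_complete
    apply cauchySeq_of_le_tendsto_0 (fun N : ℕ => 1 / ((N : ℝ) + 1) + 1 / ((N : ℝ) + 1))
    · intro n m N hn hm
      rw [Real.dist_eq]
      refine (hcmp _ _ _ _).trans ?_
      have e1 : 1 / ((n : ℝ) + 1) ≤ 1 / ((N : ℝ) + 1) := by
        apply one_div_le_one_div_of_le (by positivity)
        have : (N : ℝ) ≤ n := by exact_mod_cast hn
        linarith
      have e2 : 1 / ((m : ℝ) + 1) ≤ 1 / ((N : ℝ) + 1) := by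
        apply one_div_le_one_div_of_le (by positivity)
        have : (N : ℝ) ≤ m := by exact_mod_cast hm
        linarith
      linarith
    · have := (tendsto_one_div_add_atTop_nhds_zero_nat (𝕜 := ℝ)).add
        (tendsto_one_div_add_atTop_nhds_zero_nat (𝕜 := ℝ))
      rwa [add_zero] at this
  refine ⟨κ, fun ε hε => ?_⟩
  have hε2 : 0 < ε / 2 := by positivity
  have hlim : |k (ε / 2) hε2 - κ| ≤ ε / 2 := by
    have h1 : Tendsto (fun n : ℕ => |k (ε / 2) hε2 - k (1 / ((n : ℝ) + 1)) (hpos n)|) atTop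
        (𝓝 |k (ε / 2) hε2 - κ|) := (tendsto_const_nhds.sub hκ).abs
    have h2 : Tendsto (fun n : ℕ => ε / 2 + 1 / ((n : ℝ) + 1)) atTop (𝓝 (ε / 2 + 0)) :=
      tendsto_const_nhds.add (tendsto_one_div_add_atTop_nhds_zero_nat (𝕜 := ℝ))
    rw [add_zero] at h2
    exact le_of_tendsto_of_tendsto' h1 h2 (fun n => hcmp _ _ _ _)
  refine ⟨M (ε / 2) hε2, fun A B hA hB => ?_⟩
  have h1 := hk (ε / 2) hε2 A B hA hB
  have e : S A B - κ * ((A : ℝ) * B) ^ 2 = (S A B - k (ε / 2) hε2 * ((A : ℝ) * B) ^ 2) +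
      (k (ε / 2) hε2 - κ) * ((A : ℝ) * B) ^ 2 := by ring
  rw [e]
  refine (abs_add_le _ _).trans ?_
  have h2 : |(k (ε / 2) hε2 - κ) * ((A : ℝ) * B) ^ 2| ≤ ε / 2 * ((A : ℝ) * B) ^ 2 := by
    rw [abs_mul, abs_of_nonneg (by positivity : (0 : ℝ) ≤ ((A : ℝ) * B) ^ 2)]
    exact mul_le_mul_of_nonneg_right hlim (by positivity)
  linarith

theorem card_bx3 (A : ℕ) (hA : 1 ≤ A) : ((bx 3 A).card : ℝ) ≤ 27 * (A : ℝ) ^ 3 := by
  rw [Pool.Agent.H548.WM.card_bx]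
  have : (2 * A + 1) ^ 3 ≤ (3 * A) ^ 3 := Nat.pow_le_pow_left (by omega) 3
  have h2 : ((2 * A + 1 : ℕ) : ℝ) ^ 3 ≤ ((3 * A : ℕ) : ℝ) ^ 3 := by exact_mod_cast this
  push_cast at h2 ⊢
  linarith [h2, (by ring : (3 * (A : ℝ)) ^ 3 = 27 * (A : ℝ) ^ 3)]

open Classical in
theorem count_bad (hZ : StmtZer) (T : T3) (hT : Sm ℂ T) : ∃ C : ℝ, 0 ≤ C ∧ ∀ A B : ℕ, 1 ≤ A →
    1 ≤ B →
    ((((bx 3 A ×ˢ bx 3 B).filter fun t => D1 T t.1 = 0 ∨ D2 T t.2 = 0).card : ℕ) : ℝ) ≤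
      C * ((A : ℝ) ^ 2 * (B : ℝ) ^ 3 + (A : ℝ) ^ 3 * (B : ℝ) ^ 2) ∧
    ((((bx 3 A ×ˢ bx 3 B).filter fun t => g3 T t.1 t.2 2 = 0).card : ℕ) : ℝ) ≤
      C * ((A : ℝ) ^ 2 * (B : ℝ) ^ 3 + (A : ℝ) ^ 3 * (B : ℝ) ^ 2) := by
  obtain ⟨C1, hC1, h1⟩ := hZ T hT
  obtain ⟨C2, hC2, h2⟩ := hZ (s12 T) hT.s12
  refine ⟨27 * (C1 + C2) + C1, by positivity, fun A B hA hB => ⟨?_, ?_⟩⟩
  · have hsub : ((bx 3 A ×ˢ bx 3 B).filter fun t => D1 T t.1 = 0 ∨ D2 T t.2 = 0) ⊆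
        (((bx 3 A).filter fun x => D1 T x = 0) ×ˢ bx 3 B) ∪
        (bx 3 A ×ˢ ((bx 3 B).filter fun y => D1 (s12 T) y = 0)) := by
      intro t ht
      rw [Finset.mem_filter, Finset.mem_product] at ht
      rw [Finset.mem_union, Finset.mem_product, Finset.mem_product, Finset.mem_filter,
        Finset.mem_filter]
      rcases ht.2 with h | h
      · exact Or.inl ⟨⟨ht.1.1, h⟩, ht.1.2⟩
      · exact Or.inr ⟨ht.1.1, ht.1.2, h⟩
    have hc := (Finset.card_le_card hsub).trans (Finset.card_union_le _ _)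
    rw [Finset.card_product, Finset.card_product] at hc
    have hc' : ((((bx 3 A ×ˢ bx 3 B).filter fun t => D1 T t.1 = 0 ∨ D2 T t.2 = 0).card : ℕ) : ℝ) ≤
        ((((bx 3 A).filter fun x => D1 T x = 0).card : ℕ) : ℝ) * ((bx 3 B).card : ℝ) +
        ((bx 3 A).card : ℝ) * ((((bx 3 B).filter fun y => D1 (s12 T) y = 0).card : ℕ) : ℝ) := by
      exact_mod_cast hc
    have a1 := (h1 A B hA hB).1
    have a2 := (h2 B A hB hA).1
    have a3 := card_bx3 A hA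
    have a4 := card_bx3 B hB
    have b1 : ((((bx 3 A).filter fun x => D1 T x = 0).card : ℕ) : ℝ) * ((bx 3 B).card : ℝ) ≤
        (C1 * (A : ℝ) ^ 2) * (27 * (B : ℝ) ^ 3) :=
      mul_le_mul a1 a4 (by positivity) (by positivity)
    have b2 : ((bx 3 A).card : ℝ) * ((((bx 3 B).filter fun y => D1 (s12 T) y = 0).card : ℕ) : ℝ) ≤
        (27 * (A : ℝ) ^ 3) * (C2 * (B : ℝ) ^ 2) :=
      mul_le_mul a3 a2 (by positivity) (by positivity)
    have p1 : 0 ≤ (A : ℝ) ^ 2 * (B : ℝ) ^ 3 := by positivity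
    have p2 : 0 ≤ (A : ℝ) ^ 3 * (B : ℝ) ^ 2 := by positivity
    nlinarith [mul_nonneg hC1 p1, mul_nonneg hC1 p2, mul_nonneg hC2 p1, mul_nonneg hC2 p2]
  · refine ((h1 A B hA hB).2).trans ?_
    apply mul_le_mul_of_nonneg_right _ (by positivity)
    linarith

end ModReg

open Classical ModReg in
theorem reg (hEq : StmtEqui) (hVb : StmtVb) (hAe : StmtAe) (hDens : StmtDens) (hTail : StmtTail)
    (hZer : StmtZer) : StmtReg := by
  intro T hT c1 c2 c3 hc1 hc2 hc3 F hF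
  obtain ⟨n1, f1, σ1, q1, r1, hq1, h1⟩ := hc1
  obtain ⟨n2, f2, σ2, q2, r2, hq2, h2⟩ := hc2
  obtain ⟨n, f, σ, q, r, hq, h3⟩ := hc3
  obtain rfl : c1 = Cell f1 σ1 q1 r1 := funext fun v => propext (h1 v)
  obtain rfl : c2 = Cell f2 σ2 q2 r2 := funext fun v => propext (h2 v)
  obtain rfl : c3 = Cell f σ q r := funext fun v => propext (h3 v)
  have hF1 := F_le (Cell f σ q r) (fun v hv => hv.1) F hF
  obtain ⟨c0, hc0, hD⟩ := hDens n f σ q r hq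
  have hF2 : ∀ w : Fin 3 → ℤ, w 2 ≠ 0 → F w =
      c0 * (if (q : ℤ) * univ.gcd w ∣ w ⬝ᵥ r then ((univ.gcd w : ℤ) : ℝ) else 0) *
        Vv f σ (fun j => (w j : ℝ)) := by
    intro w hw
    have hw0 : w ≠ 0 := by
      rintro rfl
      exact hw rfl
    exact tendsto_nhds_unique (hF w hw0) (hD w hw)
  obtain ⟨C, hC, hcount⟩ := count_bad hZer T hT
  apply cau
  intro ε hε
  obtain ⟨ε', hε'⟩ : ∃ ε' : ℝ, ε' = ε / (2 * (9 + 4 * c0)) := ⟨_, rfl⟩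
  have hε'0 : 0 < ε' := by
    rw [hε']
    positivity
  have hε'1 : (9 + 4 * c0) * ε' = ε / 2 := by
    rw [hε']
    field_simp
  obtain ⟨G, M0, δ, hδ, hTl⟩ := hTail T hT ε' hε'0
  have hL : ∀ m : ℕ, 1 ≤ m → m ≤ G → m ∣ G.factorial := fun m h1 h2 =>
    Nat.dvd_factorial (by omega) h2
  have hL0 : 1 ≤ G.factorial := Nat.factorial_pos G
  obtain ⟨k, hk⟩ := hEq (fun x y => Pat f1 σ1 x * Pat f2 σ2 y * min (Vv f σ (g3 T x y)) (4 / δ))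
    (4 / δ) (by
      intro x y
      have hz : 0 ≤ min (Vv f σ (g3 T x y)) (4 / δ) :=
        le_min (vv_nonneg f σ _) (by positivity)
      have := ite_mul_bd (∀ i, (0 ≤ ∑ j, (f1 i j : ℝ) * x j ↔ σ1 i = true))
        (∀ i, (0 ≤ ∑ j, (f2 i j : ℝ) * y j ↔ σ2 i = true)) _ hz
      unfold Pat
      rw [abs_of_nonneg this.1]
      exact this.2.trans (min_le_right _ _))
    (hAe T hT n n1 n2 f σ f1 σ1 f2 σ2 (4 / δ)) (q1 * q2 * (q * G.factorial))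
    (by
      have : 0 < q1 * q2 * (q * G.factorial) := by positivity
      omega)
    (th T q1 q2 q G.factorial r1 r2 r c0)
    (fun x x' y y' hx hy => th_per T q1 q2 q G.factorial r1 r2 r c0 x x' y y' hx hy)
  obtain ⟨M1, hM1⟩ := hk ε' hε'0
  obtain ⟨C2, hC2⟩ : ∃ C2 : ℝ, C2 = (c0 * G.factorial * (4 / δ) + 8 * G / δ) * C := ⟨_, rfl⟩
  have hC20 : 0 ≤ C2 := by
    rw [hC2]
    positivity
  obtain ⟨M2, hM2⟩ := exists_nat_ge (4 * C2 / ε)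
  refine ⟨k, max (max M0 M1) (max M2 1), fun A B hA hB => ?_⟩
  have hA1 : 1 ≤ A := by omega
  have hB1 : 1 ≤ B := by omega
  have hA0 : (0 : ℝ) < A := by exact_mod_cast hA1
  have hB0 : (0 : ℝ) < B := by exact_mod_cast hB1
  have hAB : (0 : ℝ) < (A : ℝ) * B := by positivity
  have hSig := hM1 A B (by omega) (by omega)
  have hTl' := hTl A B (by omega) (by omega)
  obtain ⟨cn1, cn2⟩ := hcount A B hA1 hB1
  obtain ⟨Pp, hPp⟩ : ∃ Pp : Finset ((Fin 3 → ℤ) × (Fin 3 → ℤ)),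
      Pp = (bx 3 A ×ˢ bx 3 B).filter (fun t => Pr t.1 ∧ Pr t.2) := ⟨_, rfl⟩
  rw [← hPp] at hSig
  -- the sum as a sum over all pairs
  have hS : ∑ t ∈ (Pa T A B).filter (fun t => Cell f1 σ1 q1 r1 t.1 ∧ Cell f2 σ2 q2 r2 t.2),
      F (g3 T t.1 t.2) = ∑ t ∈ Pp, (if (D1 T t.1 ≠ 0 ∧ D2 T t.2 ≠ 0) ∧
        (Cell f1 σ1 q1 r1 t.1 ∧ Cell f2 σ2 q2 r2 t.2) then F (g3 T t.1 t.2) else 0) := by
    rw [← Finset.sum_filter, hPp]
    apply Finset.sum_congr _ (fun _ _ => rfl)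
    unfold Pa
    rw [Finset.filter_filter, Finset.filter_filter]
    apply Finset.filter_congr
    intro t _
    tauto
  have hec : ∑ t ∈ Pp, (if (D1 T t.1 ≠ 0 ∧ D2 T t.2 ≠ 0) ∧ ((G : ℤ) < univ.gcd (g3 T t.1 t.2) ∨
        (ht (g3 T t.1 t.2) : ℝ) < δ * ((A : ℝ) * B)) then
        (8 + 4 * c0) * (((univ.gcd (g3 T t.1 t.2) : ℤ) : ℝ) / (ht (g3 T t.1 t.2) : ℝ)) else 0) ≤
        (8 + 4 * c0) * (ε' * ((A : ℝ) * B) ^ 2) := by
    refine le_trans (le_of_eq ?_) (mul_le_mul_of_nonneg_left hTl' (by positivity))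
    rw [Finset.mul_sum, ← Finset.sum_filter, hPp]
    apply Finset.sum_congr _ (fun _ _ => rfl)
    unfold Pa
    rw [Finset.filter_filter, Finset.filter_filter]
    apply Finset.filter_congr
    intro t _
    tauto
  have hea : ∑ t ∈ Pp, (if D1 T t.1 = 0 ∨ D2 T t.2 = 0 then
      c0 * G.factorial * (4 / δ) / ((A : ℝ) * B) else 0) ≤
      (C * ((A : ℝ) ^ 2 * (B : ℝ) ^ 3 + (A : ℝ) ^ 3 * (B : ℝ) ^ 2)) *
        (c0 * G.factorial * (4 / δ) / ((A : ℝ) * B)) := by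
    rw [← Finset.sum_filter, Finset.sum_const, nsmul_eq_mul]
    apply mul_le_mul_of_nonneg_right _ (by positivity)
    refine le_trans ?_ cn1
    norm_cast
    apply Finset.card_le_card
    intro t ht
    rw [hPp, Finset.mem_filter, Finset.mem_filter] at ht
    rw [Finset.mem_filter]
    exact ⟨ht.1.1, ht.2⟩
  have heb : ∑ t ∈ Pp, (if g3 T t.1 t.2 2 = 0 then 8 * G / (δ * ((A : ℝ) * B)) else 0) ≤
      (C * ((A : ℝ) ^ 2 * (B : ℝ) ^ 3 + (A : ℝ) ^ 3 * (B : ℝ) ^ 2)) *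
        (8 * G / (δ * ((A : ℝ) * B))) := by
    rw [← Finset.sum_filter, Finset.sum_const, nsmul_eq_mul]
    apply mul_le_mul_of_nonneg_right _ (by positivity)
    refine le_trans ?_ cn2
    norm_cast
    apply Finset.card_le_card
    intro t ht
    rw [hPp, Finset.mem_filter, Finset.mem_filter] at ht
    rw [Finset.mem_filter]
    exact ⟨ht.1.1, ht.2⟩
  have hcmp : |(∑ t ∈ (Pa T A B).filter (fun t => Cell f1 σ1 q1 r1 t.1 ∧ Cell f2 σ2 q2 r2 t.2),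
      F (g3 T t.1 t.2)) - (∑ t ∈ Pp, th T q1 q2 q G.factorial r1 r2 r c0 t.1 t.2 *
        (Pat f1 σ1 (fun i => (t.1 i : ℝ) / A) * Pat f2 σ2 (fun i => (t.2 i : ℝ) / B) *
        min (Vv f σ (g3 T (fun i => (t.1 i : ℝ) / A) (fun i => (t.2 i : ℝ) / B))) (4 / δ))) /
        ((A : ℝ) * B)| ≤
      C2 * ((A : ℝ) ^ 2 * (B : ℝ) ^ 3 + (A : ℝ) ^ 3 * (B : ℝ) ^ 2) / ((A : ℝ) * B) +
      (8 + 4 * c0) * (ε' * ((A : ℝ) * B) ^ 2) := by
    rw [hS, Finset.sum_div, ← Finset.sum_sub_distrib]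
    refine (Finset.abs_sum_le_sum_abs _ _).trans ?_
    refine (Finset.sum_le_sum (fun t ht => ptw hVb T f σ q r f1 σ1 q1 r1 f2 σ2 q2 r2 F hF1 c0 hc0
      hF2 G G.factorial hL hL0 δ hδ A B hA1 hB1 t.1 t.2 (by
        rw [hPp, Finset.mem_filter] at ht
        exact ht.2.1) (by
        rw [hPp, Finset.mem_filter] at ht
        exact ht.2.2))).trans ?_
    rw [Finset.sum_add_distrib, Finset.sum_add_distrib]
    have e : C2 * ((A : ℝ) ^ 2 * (B : ℝ) ^ 3 + (A : ℝ) ^ 3 * (B : ℝ) ^ 2) / ((A : ℝ) * B) =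
        (C * ((A : ℝ) ^ 2 * (B : ℝ) ^ 3 + (A : ℝ) ^ 3 * (B : ℝ) ^ 2)) *
        (c0 * G.factorial * (4 / δ) / ((A : ℝ) * B)) +
        (C * ((A : ℝ) ^ 2 * (B : ℝ) ^ 3 + (A : ℝ) ^ 3 * (B : ℝ) ^ 2)) *
        (8 * G / (δ * ((A : ℝ) * B))) := by
      rw [hC2]
      field_simp
    rw [e]
    exact add_le_add (add_le_add hea heb) hec
  have hSig' : |(∑ t ∈ Pp, th T q1 q2 q G.factorial r1 r2 r c0 t.1 t.2 *
        (Pat f1 σ1 (fun i => (t.1 i : ℝ) / A) * Pat f2 σ2 (fun i => (t.2 i : ℝ) / B) *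
        min (Vv f σ (g3 T (fun i => (t.1 i : ℝ) / A) (fun i => (t.2 i : ℝ) / B))) (4 / δ))) /
        ((A : ℝ) * B) - k * ((A : ℝ) * B) ^ 2| ≤ ε' * ((A : ℝ) * B) ^ 2 := by
    have e : (∑ t ∈ Pp, th T q1 q2 q G.factorial r1 r2 r c0 t.1 t.2 *
        (Pat f1 σ1 (fun i => (t.1 i : ℝ) / A) * Pat f2 σ2 (fun i => (t.2 i : ℝ) / B) *
        min (Vv f σ (g3 T (fun i => (t.1 i : ℝ) / A) (fun i => (t.2 i : ℝ) / B))) (4 / δ))) /
        ((A : ℝ) * B) - k * ((A : ℝ) * B) ^ 2 =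
        ((∑ t ∈ Pp, th T q1 q2 q G.factorial r1 r2 r c0 t.1 t.2 *
        (Pat f1 σ1 (fun i => (t.1 i : ℝ) / A) * Pat f2 σ2 (fun i => (t.2 i : ℝ) / B) *
        min (Vv f σ (g3 T (fun i => (t.1 i : ℝ) / A) (fun i => (t.2 i : ℝ) / B))) (4 / δ))) -
        k * ((A : ℝ) * B) ^ 3) / ((A : ℝ) * B) := by
      field_simp
    rw [e, abs_div, abs_of_pos hAB, div_le_iff₀ hAB]
    refine hSig.trans (le_of_eq (by ring))
  have hlast : C2 * ((A : ℝ) ^ 2 * (B : ℝ) ^ 3 + (A : ℝ) ^ 3 * (B : ℝ) ^ 2) / ((A : ℝ) * B) ≤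
      ε / 2 * ((A : ℝ) * B) ^ 2 := by
    rw [div_le_iff₀ hAB]
    have hA4 : 4 * C2 ≤ ε * A := by
      have : (M2 : ℝ) ≤ A := by exact_mod_cast (by omega : M2 ≤ A)
      rw [div_le_iff₀ hε] at hM2
      nlinarith
    have hB4 : 4 * C2 ≤ ε * B := by
      have : (M2 : ℝ) ≤ B := by exact_mod_cast (by omega : M2 ≤ B)
      rw [div_le_iff₀ hε] at hM2
      nlinarith
    have p1 : 0 ≤ (A : ℝ) ^ 2 * (B : ℝ) ^ 3 := by positivity
    have p2 : 0 ≤ (A : ℝ) ^ 3 * (B : ℝ) ^ 2 := by positivity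
    have s1 := mul_le_mul_of_nonneg_right hA4 p1
    have s2 := mul_le_mul_of_nonneg_right hB4 p2
    nlinarith
  have hfin := (abs_sub_le _ _ _).trans (add_le_add hcmp hSig')
  refine hfin.trans ?_
  have e : ε = ε / 2 + (9 + 4 * c0) * ε' := by linarith
  have e2 : ε * ((A : ℝ) * B) ^ 2 = ε / 2 * ((A : ℝ) * B) ^ 2 +
      ((8 + 4 * c0) * (ε' * ((A : ℝ) * B) ^ 2) + ε' * ((A : ℝ) * B) ^ 2) := by
    calc ε * ((A : ℝ) * B) ^ 2 = (ε / 2 + (9 + 4 * c0) * ε') * ((A : ℝ) * B) ^ 2 := by rw [← e]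
      _ = _ := by ring
  linarith

end Pool.Agent.T6.H97.TA

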