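import Pool.Agent.T6.H97.TA.Defs

/-!
# Module Riem: Riemann sums over residue classes
-/

set_option autoImplicit false

namespace Pool.Agent.T6.H97.TA

open Finset Filter Topology MeasureTheory

namespace ModRiem

variable {ι : Type} [Fintype ι]

/-- the integer point below `u` in the residue class -/
noncomputable def zz (N : ℕ) (X : ι → ℝ) (r : ι → ℤ) (u : ι → ℝ) : ι → ℤ :=
  fun i => r i + N * ⌊(u i * X i - r i) / N⌋

/-- the rounding -/
noncomputable def pk (N : ℕ) (X : ι → ℝ) (r : ι → ℤ) (u : ι → ℝ) : ι → ℝ :=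
  fun i => (zz N X r u i : ℝ) / X i

/-- the box of an integer point -/
def bxx (N : ℕ) (X : ι → ℝ) (z : ι → ℤ) : Set (ι → ℝ) :=
  Set.pi Set.univ (fun i => Set.Ico ((z i : ℝ) / X i) ((z i + N : ℝ) / X i))

omit [Fintype ι] in
lemma zz_bd {N : ℕ} (hN : 1 ≤ N) (X : ι → ℝ) (r : ι → ℤ) (u : ι → ℝ) (i : ι) :
    (zz N X r u i : ℝ) ≤ u i * X i ∧ u i * X i < zz N X r u i + N := by
  have hN' : (0 : ℝ) < N := by exact_mod_cast hN
  have h1 := Int.floor_le ((u i * X i - r i) / N)
  have h2 := Int.lt_floor_add_one ((u i * X i - r i) / N)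
  rw [le_div_iff₀ hN'] at h1
  rw [div_lt_iff₀ hN'] at h2
  unfold zz
  push_cast
  constructor <;> nlinarith

omit [Fintype ι] in
lemma zz_dvd (N : ℕ) (X : ι → ℝ) (r : ι → ℤ) (u : ι → ℝ) (i : ι) :
    (N : ℤ) ∣ zz N X r u i - r i := by
  unfold zz
  exact ⟨⌊(u i * X i - r i) / N⌋, by ring⟩

omit [Fintype ι] in
lemma mem_bxx {N : ℕ} (hN : 1 ≤ N) {X : ι → ℝ} (hX : ∀ i, 0 < X i) {r : ι → ℤ} {z : ι → ℤ}
    (hz : ∀ i, (N : ℤ) ∣ z i - r i) (u : ι → ℝ) : u ∈ bxx N X z ↔ zz N X r u = z := by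
  constructor
  · intro h
    funext i
    have h1 := h i (Set.mem_univ i)
    rw [Set.mem_Ico, div_le_iff₀ (hX i), lt_div_iff₀ (hX i)] at h1
    have h2 := zz_bd hN X r u i
    obtain ⟨a, ha⟩ := hz i
    obtain ⟨b, hb⟩ := zz_dvd N X r u i
    have h3 : (zz N X r u i : ℝ) < z i + N := lt_of_le_of_lt h2.1 h1.2
    have h4 : (z i : ℝ) < zz N X r u i + N := lt_of_le_of_lt h1.1 h2.2
    have h3' : zz N X r u i < z i + N := by exact_mod_cast h3
    have h4' : z i < zz N X r u i + N := by exact_mod_cast h4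
    have hN' : (0 : ℤ) < N := by exact_mod_cast hN
    have h5 : b < a + 1 := by
      by_contra hc
      push Not at hc
      nlinarith
    have h6 : a < b + 1 := by
      by_contra hc
      push Not at hc
      nlinarith
    have h7 : a = b := by omega
    subst h7
    linarith
  · rintro rfl i _
    have h2 := zz_bd hN X r u i
    rw [Set.mem_Ico, div_le_iff₀ (hX i), lt_div_iff₀ (hX i)]
    exact h2

lemma bxx_vol (N : ℕ) {X : ι → ℝ} (hX : ∀ i, 0 < X i) (z : ι → ℤ) :
    (volume (bxx N X z)).toReal = ∏ i, (N / X i) := by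
  unfold bxx
  rw [Real.volume_pi_Ico_toReal]
  · apply Finset.prod_congr rfl
    intro i _
    have := (hX i).ne'
    field_simp
    ring
  · intro i
    apply div_le_div_of_nonneg_right _ (hX i).le
    have : (0 : ℝ) ≤ N := Nat.cast_nonneg N
    linarith

lemma bxx_meas (N : ℕ) (X : ι → ℝ) (z : ι → ℤ) : MeasurableSet (bxx N X z) :=
  MeasurableSet.univ_pi (fun _ => measurableSet_Ico)

lemma bxx_lt_top (N : ℕ) (X : ι → ℝ) (z : ι → ℤ) : volume (bxx N X z) < ⊤ := by
  unfold bxx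
  rw [Real.volume_pi_Ico]
  exact ENNReal.prod_lt_top (fun _ _ => ENNReal.ofReal_lt_top)

lemma step_eq [DecidableEq ι] {h : (ι → ℝ) → ℝ} {R : ℝ}
    (hR : ∀ x, (∃ i, R < |x i|) → h x = 0) {N : ℕ} (hN : 1 ≤ N) {X : ι → ℝ} (hX : ∀ i, 0 < X i)
    (r : ι → ℤ) (Q : ℕ) (hQ : ∀ i, R * X i ≤ Q) (S : Finset (ι → ℤ))
    (hS : ∀ z, z ∈ S ↔ z ∈ (Fintype.piFinset fun _ : ι => Icc (-(Q : ℤ)) Q) ∧
      ∀ i, (N : ℤ) ∣ z i - r i) (u : ι → ℝ) :
    h (pk N X r u) = ∑ z ∈ S, (bxx N X z).indicator (fun _ => h (fun i => (z i : ℝ) / X i)) u := by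
  by_cases hu : zz N X r u ∈ S
  · rw [Finset.sum_eq_single_of_mem _ hu]
    · rw [Set.indicator_of_mem]
      · rfl
      · rw [mem_bxx hN hX (zz_dvd N X r u)]
    · intro z hz hzu
      rw [Set.indicator_of_notMem]
      rw [mem_bxx hN hX ((hS z).1 hz).2]
      exact fun h => hzu h.symm
  · rw [Finset.sum_eq_zero]
    · apply hR
      by_contra hcon
      push Not at hcon
      apply hu
      rw [hS]
      refine ⟨?_, zz_dvd N X r u⟩
      rw [Fintype.mem_piFinset]
      intro i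
      have h1 := hcon i
      unfold pk at h1
      rw [abs_div, abs_of_pos (hX i), div_le_iff₀ (hX i)] at h1
      have h2 : |(zz N X r u i : ℝ)| ≤ Q := h1.trans (hQ i)
      rw [abs_le] at h2
      rw [Finset.mem_Icc]
      constructor
      · exact_mod_cast h2.1
      · exact_mod_cast h2.2
    · intro z hz
      rw [Set.indicator_of_notMem]
      rw [mem_bxx hN hX ((hS z).1 hz).2]
      rintro rfl
      exact hu hz

lemma step_int [DecidableEq ι] {h : (ι → ℝ) → ℝ} {R : ℝ}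
    (hR : ∀ x, (∃ i, R < |x i|) → h x = 0) {N : ℕ} (hN : 1 ≤ N) {X : ι → ℝ} (hX : ∀ i, 0 < X i)
    (r : ι → ℤ) (Q : ℕ) (hQ : ∀ i, R * X i ≤ Q) (S : Finset (ι → ℤ))
    (hS : ∀ z, z ∈ S ↔ z ∈ (Fintype.piFinset fun _ : ι => Icc (-(Q : ℤ)) Q) ∧
      ∀ i, (N : ℤ) ∣ z i - r i) :
    ∫ u, h (pk N X r u) = (∑ z ∈ S, h (fun i => (z i : ℝ) / X i)) *
      ((N : ℝ) ^ Fintype.card ι / ∏ i, X i) := by
  simp_rw [step_eq hR hN hX r Q hQ S hS]
  rw [integral_finsetSum]
  · rw [Finset.sum_mul]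
    apply Finset.sum_congr rfl
    intro z _
    rw [integral_indicator_const _ (bxx_meas N X z), smul_eq_mul, measureReal_def,
      bxx_vol N hX z, Finset.prod_div_distrib, Finset.prod_const, Finset.card_univ]
    ring
  · intro z _
    exact (integrable_indicator_iff (bxx_meas N X z)).2
      (integrableOn_const (hs := (bxx_lt_top N X z).ne))

lemma step_meas [DecidableEq ι] {h : (ι → ℝ) → ℝ} {R : ℝ}
    (hR : ∀ x, (∃ i, R < |x i|) → h x = 0) {N : ℕ} (hN : 1 ≤ N) {X : ι → ℝ} (hX : ∀ i, 0 < X i)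
    (r : ι → ℤ) (Q : ℕ) (hQ : ∀ i, R * X i ≤ Q) (S : Finset (ι → ℤ))
    (hS : ∀ z, z ∈ S ↔ z ∈ (Fintype.piFinset fun _ : ι => Icc (-(Q : ℤ)) Q) ∧
      ∀ i, (N : ℤ) ∣ z i - r i) :
    Measurable (fun u => h (pk N X r u)) := by
  simp_rw [step_eq hR hN hX r Q hQ S hS]
  exact Finset.measurable_sum _ (fun z _ => measurable_const.indicator (bxx_meas N X z))

omit [Fintype ι] in
lemma pk_dist {N : ℕ} (hN : 1 ≤ N) {X : ι → ℝ} {t : ℝ} (ht : 0 < t) (hX : ∀ i, t ≤ X i)
    (r : ι → ℤ) (u : ι → ℝ) (i : ι) : |pk N X r u i - u i| ≤ N / t := by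
  have h1 := zz_bd hN X r u i
  have hXi : 0 < X i := ht.trans_le (hX i)
  have h2 : pk N X r u i - u i = (zz N X r u i - u i * X i) / X i := by
    unfold pk
    field_simp
  rw [h2, abs_div, abs_of_pos hXi]
  have h3 : |(zz N X r u i : ℝ) - u i * X i| ≤ N := by
    rw [abs_le]
    constructor <;> linarith
  exact div_le_div₀ (Nat.cast_nonneg N) h3 ht (hX i)

end ModRiem

open ModRiem in
theorem riem : StmtRiem := by
  classical
  intro ι _ h K R hK hR hc N hN ε hε
  by_contra hcon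
  push Not at hcon
  choose X hX r Q hQ hviol using fun k : ℕ => hcon ((k : ℝ) + 1) (by positivity)
  have hN' : (1 : ℝ) ≤ N := by exact_mod_cast hN
  have hXpos : ∀ k i, 0 < X k i := fun k i => lt_of_lt_of_le (by positivity) (hX k i)
  set S : ℕ → Finset (ι → ℤ) := fun k => (Fintype.piFinset fun _ : ι => Icc (-(Q k : ℤ)) (Q k)).filter
    (fun z => ∀ i, (N : ℤ) ∣ z i - r k i) with hSdef
  have hS : ∀ k z, z ∈ S k ↔ z ∈ (Fintype.piFinset fun _ : ι => Icc (-(Q k : ℤ)) (Q k)) ∧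
      ∀ i, (N : ℤ) ∣ z i - r k i := by
    intro k z
    rw [hSdef]
    exact Finset.mem_filter
  -- dominated convergence
  set bnd : (ι → ℝ) → ℝ := (Set.pi Set.univ (fun _ : ι => Set.Icc (-(|R| + N)) (|R| + N))).indicator
    (fun _ => |K|) with hbnd
  have hlim : Tendsto (fun k => ∫ u, h (pk N (X k) (r k) u)) atTop (𝓝 (∫ u, h u)) := by
    apply tendsto_integral_of_dominated_convergence bnd
    · intro k
      exact (step_meas hR hN (hXpos k) (r k) (Q k) (hQ k) (S k) (hS k)).aestronglyMeasurable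
    · rw [hbnd, integrable_indicator_iff (MeasurableSet.univ_pi (fun _ => measurableSet_Icc))]
      exact integrableOn_const
        (hs := (isCompact_univ_pi (fun _ => isCompact_Icc)).measure_lt_top.ne)
    · intro k
      refine Filter.Eventually.of_forall (fun u => ?_)
      by_cases hu : u ∈ Set.pi Set.univ (fun _ : ι => Set.Icc (-(|R| + (N : ℝ))) (|R| + N))
      · rw [hbnd, Set.indicator_of_mem hu, Real.norm_eq_abs]
        exact (hK _).trans (le_abs_self K)
      · rw [hbnd, Set.indicator_of_notMem hu]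
        have : h (pk N (X k) (r k) u) = 0 := by
          apply hR
          by_contra hc'
          push Not at hc'
          apply hu
          intro i _
          have h1 := hc' i
          have h2 := pk_dist hN (t := (k : ℝ) + 1) (by positivity) (hX k) (r k) u i
          have h3 : (N : ℝ) / ((k : ℝ) + 1) ≤ N := by
            apply div_le_self (by linarith)
            have : (0 : ℝ) ≤ k := Nat.cast_nonneg k
            linarith
          have h4 := le_abs_self R
          rw [abs_le] at h1 h2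
          constructor <;> linarith
        rw [this]
        simp
    · filter_upwards [hc] with u hu
      refine hu.tendsto.comp ?_
      rw [tendsto_pi_nhds]
      intro i
      rw [tendsto_iff_dist_tendsto_zero]
      have h8 : Tendsto (fun k : ℕ => (k : ℝ) + 1) atTop atTop :=
        tendsto_atTop_add_const_right _ _ tendsto_natCast_atTop_atTop
      have h9 : Tendsto (fun k : ℕ => (N : ℝ) / ((k : ℝ) + 1)) atTop (𝓝 0) :=
        Tendsto.const_div_atTop h8 _
      refine squeeze_zero (fun _ => dist_nonneg) (fun k => ?_) h9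
      rw [Real.dist_eq]
      exact pk_dist hN (t := (k : ℝ) + 1) (by positivity) (hX k) (r k) u i
  rw [Metric.tendsto_atTop] at hlim
  obtain ⟨k, hk⟩ := hlim ε hε
  have h1 := hk k le_rfl
  rw [Real.dist_eq, step_int hR hN (hXpos k) (r k) (Q k) (hQ k) (S k) (hS k)] at h1
  have h2 := hviol k
  have hP : 0 < ∏ i, X k i := Finset.prod_pos (fun i _ => hXpos k i)
  have hNn : (1 : ℝ) ≤ (N : ℝ) ^ Fintype.card ι := one_le_pow₀ hN'
  set SS := ∑ z ∈ S k, h (fun i => (z i : ℝ) / X k i) with hSS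
  have h3 : |SS - (∫ x, h x) * (∏ i, X k i) / (N : ℝ) ^ Fintype.card ι| =
      |SS * ((N : ℝ) ^ Fintype.card ι / ∏ i, X k i) - ∫ u, h u| *
        ((∏ i, X k i) / (N : ℝ) ^ Fintype.card ι) := by
    rw [← abs_of_pos (by positivity : 0 < (∏ i, X k i) / (N : ℝ) ^ Fintype.card ι), ← abs_mul]
    congr 1
    field_simp
  have h4 : ε * ∏ i, X k i < |SS - (∫ x, h x) * (∏ i, X k i) / (N : ℝ) ^ Fintype.card ι| := by
    convert h2 using 3
  rw [h3] at h4
  have h5 : |SS * ((N : ℝ) ^ Fintype.card ι / ∏ i, X k i) - ∫ u, h u| *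
        ((∏ i, X k i) / (N : ℝ) ^ Fintype.card ι) ≤ ε * ∏ i, X k i := by
    apply mul_le_mul h1.le _ (by positivity) hε.le
    exact div_le_self hP.le hNn
  linarith

end Pool.Agent.T6.H97.TA
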