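import Mathlib
import Pool.Agent.T6.H97.TA.Sym
import Pool.Agent.H548.TC.Low
import Pool.Agent.W735.QN.CD
import Pool.Agent.W236.QN.QA
import Pool.Agent.W490.QO.SL
import Pool.Agent.W60.QN.Cmp
import Pool.Agent.W571.QN.Nst

/-!
Module Tail: pairs for which the content is large or the norm is small.
-/

set_option autoImplicit false

namespace Pool.Agent.T6.H97.TA
namespace ModTail

open Finset Matrix Filter Topology
open Pool.Agent.H548.WM (ht)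
open Pool.Agent.H548.TL (g1 g2 g3 tf Sm s12 s23 Tx)
open Pool.Agent.H548.TC (ht_eq prim_gcd)
open Pool.Agent.W978.QN (mp wv ct nm dm cp Prim mxb mnr mem_bx ct_dvd dm_le mp_le wv_le card_bx_le
  S_CD S_QA S_CMP S_NUL)

/-! ### conversions -/

theorem ct_eq (v : Fin 3 → ℤ) : ((ct v : ℕ) : ℤ) = univ.gcd v := by
  apply dvd_antisymm_of_normalize_eq
  · exact Int.normalize_of_nonneg (Int.natCast_nonneg _)
  · exact Finset.normalize_gcd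
  · exact Finset.dvd_gcd fun i _ => ct_dvd v i
  · have h : ∀ i, univ.gcd v ∣ v i := fun i => Finset.gcd_dvd (Finset.mem_univ i)
    rw [← Int.natAbs_dvd]
    apply Int.natCast_dvd_natCast.2
    unfold ct
    apply Nat.dvd_gcd
    · apply Nat.dvd_gcd
      · exact Int.natAbs_dvd_natAbs.2 (h 0)
      · exact Int.natAbs_dvd_natAbs.2 (h 1)
    · exact Int.natAbs_dvd_natAbs.2 (h 2)

theorem pr_iff (v : Fin 3 → ℤ) : Pr v ↔ Prim v := by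
  constructor
  · intro h
    have h1 : ct v = 1 := by
      have := ct_eq v
      rw [show univ.gcd v = 1 from h] at this
      exact_mod_cast this
    have e1 := Int.gcd_eq_gcd_ab (v 0) (v 1)
    have e2 := Int.gcd_eq_gcd_ab ((Int.gcd (v 0) (v 1) : ℕ) : ℤ) (v 2)
    have e3 : Int.gcd ((Int.gcd (v 0) (v 1) : ℕ) : ℤ) (v 2) = 1 := by
      unfold ct at h1
      unfold Int.gcd at h1 ⊢
      simpa using h1
    rw [e3] at e2
    refine ⟨![Int.gcdA (v 0) (v 1) * Int.gcdA ((Int.gcd (v 0) (v 1) : ℕ) : ℤ) (v 2),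
      Int.gcdB (v 0) (v 1) * Int.gcdA ((Int.gcd (v 0) (v 1) : ℕ) : ℤ) (v 2),
      Int.gcdB ((Int.gcd (v 0) (v 1) : ℕ) : ℤ) (v 2)], ?_⟩
    rw [Fin.sum_univ_three]
    simp only [Matrix.cons_val_zero, Matrix.cons_val_one, Matrix.cons_val]
    push_cast at e2
    linear_combination (-Int.gcdA ((Int.gcd (v 0) (v 1) : ℕ) : ℤ) (v 2)) * e1 - e2
  · exact fun h => prim_gcd h

theorem wv_g3 (T : T3) (x y : Fin 3 → ℤ) : wv (mp T x) y = g3 T x y := by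
  funext k
  unfold wv mp g3
  simp only [Finset.sum_mul]
  rw [Finset.sum_comm]

theorem dm_D1 (T : T3) (x : Fin 3 → ℤ) : dm (mp T x) = D1 T x := by
  unfold dm D1
  rw [← det_transpose]
  rfl

theorem bx_eq (X : ℕ) : Pool.Agent.W978.QN.bx X = Pool.Agent.H548.WM.bx 3 X := rfl

/-! ### the sum over a dyadic shell -/

open Classical in
/-- The inner sum. -/
noncomputable def inn (b : T3) (X2 G : ℕ) (Z : ℝ) (x : Fin 3 → ℤ) : ℝ :=
  ∑ q ∈ (Pool.Agent.W978.QN.bx X2).filter (fun q => Prim q ∧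
      (G + 1 ≤ ct (wv (mp b x) q) ∨ (nm (wv (mp b x) q) : ℝ) ≤ Z)),
    ((ct (wv (mp b x) q) : ℝ) / (nm (wv (mp b x) q) : ℝ))

open Classical in
/-- The good first points. -/
noncomputable def gd (b : T3) (X : ℕ) : Finset (Fin 3 → ℤ) :=
  (Pool.Agent.W978.QN.bx X).filter (fun p => Prim p ∧ dm (mp b p) ≠ 0)

open Classical in
/-- The good first points of a shell. -/
noncomputable def sh (b : T3) (X : ℕ) : Finset (Fin 3 → ℤ) :=
  (Pool.Agent.W978.QN.bx X).filter (fun p => Prim p ∧ dm (mp b p) ≠ 0 ∧ (X : ℤ) ≤ 2 * nm p)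

theorem nm_nonneg (v : Fin 3 → ℤ) : 0 ≤ nm v := by
  rw [← ht_eq]
  exact Int.natCast_nonneg _

theorem term_nonneg (v : Fin 3 → ℤ) : (0 : ℝ) ≤ (ct v : ℝ) / (nm v : ℝ) := by
  have : (0 : ℝ) ≤ (nm v : ℝ) := by exact_mod_cast nm_nonneg v
  positivity

theorem inn_nonneg (b : T3) (X2 G : ℕ) (Z : ℝ) (x : Fin 3 → ℤ) : 0 ≤ inn b X2 G Z x :=
  Finset.sum_nonneg fun _ _ => term_nonneg _

/-- The sum of the powers of the divisors. -/
noncomputable def s34 (n : ℕ) : ℝ := ∑ g ∈ n.divisors, (g : ℝ) ^ (-(3 / 4) : ℝ)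

theorem s34_nonneg (n : ℕ) : 0 ≤ s34 n :=
  Finset.sum_nonneg fun g _ => Real.rpow_nonneg (Nat.cast_nonneg g) _

theorem inv_le (g : ℕ) (hg : 1 ≤ g) (G : ℕ) (h : G + 1 ≤ g) :
    1 / (g : ℝ) ≤ ((G : ℝ) + 1) ^ (-(1 / 4) : ℝ) * (g : ℝ) ^ (-(3 / 4) : ℝ) := by
  have g1 : (1 : ℝ) ≤ g := by exact_mod_cast hg
  have g0 : (0 : ℝ) < g := by linarith
  have h1 : ((G : ℝ) + 1) ≤ g := by exact_mod_cast h
  have h2 : (g : ℝ) ^ (-(1 / 4) : ℝ) ≤ ((G : ℝ) + 1) ^ (-(1 / 4) : ℝ) :=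
    Real.rpow_le_rpow_of_nonpos (by positivity) h1 (by norm_num)
  calc 1 / (g : ℝ) = (g : ℝ) ^ (-(1 / 4) : ℝ) * (g : ℝ) ^ (-(3 / 4) : ℝ) := by
        rw [← Real.rpow_add g0]
        norm_num
        rw [Real.rpow_neg_one]
    _ ≤ _ := mul_le_mul_of_nonneg_right h2 (Real.rpow_nonneg g0.le _)

theorem inv_le' (g : ℕ) (hg : 1 ≤ g) : 1 / (g : ℝ) ≤ (g : ℝ) ^ (-(3 / 4) : ℝ) := by
  have h := inv_le g hg 0 (by omega)
  simpa using h

open Classical in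
theorem shell (hAvg : StmtAvg) (hQ2 : StmtQ2) (b : T3) (hb : Pool.Agent.W978.QN.Rk2 b)
    (hdc : ∃ p : Fin 3 → ℂ, (Matrix.of (mp b p)).det ≠ 0) :
    ∃ C₁ C₂ C₃ : ℝ, 0 < C₁ ∧ 0 < C₂ ∧ 0 < C₃ ∧ ∀ (X₁ X₂ G : ℕ) (Z : ℝ), 0 ≤ Z → 1 ≤ X₁ →
      X₁ ≤ X₂ → ∑ x ∈ sh b X₁, inn b X₂ G Z x ≤
        C₁ * ((G : ℝ) + 1) ^ (-(1 / 4) : ℝ) * ((X₁ : ℝ) * X₂) ^ 2 + C₂ * ((X₁ : ℝ) * X₂) * Z +
          C₃ * ((X₁ : ℝ) * X₂) ^ 2 * (X₂ : ℝ) ^ (-(1 / 8) : ℝ) := by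
  obtain ⟨c, hc, hcmp⟩ := Pool.Agent.W60.QN.t_CMP b hb
  obtain ⟨K, hK, hnul⟩ := Pool.Agent.W571.QN.nul b hb
  obtain ⟨Cv, hCv, havg⟩ := hAvg b hdc
  set A : ℕ := 18 * mxb b with hAdef
  have hm1 := Pool.Agent.W978.QN.one_le_mxb b
  have hA : 1 ≤ A := by rw [hAdef]; omega
  obtain ⟨CA, hCA, hQA⟩ := Pool.Agent.W236.QN.qa A K (c / 4) hA hK (by positivity)
  obtain ⟨CS, hCS, hSL⟩ := Pool.Agent.W490.QO.t_SL A K (c / 4) hA hK (by positivity)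
  have hc1 : 1 ≤ 162 * mxb b ^ 3 := by
    have : 1 ≤ mxb b ^ 3 := Nat.one_le_pow _ _ hm1
    omega
  obtain ⟨C, hC, hsm⟩ := Pool.Agent.W978.QM.small_bound (162 * mxb b ^ 3) hc1 (1 / 48)
    (by norm_num)
  set D₂ : ℝ := 8 * A * CA + 16 * CS with hD₂
  have hD₂0 : 0 < D₂ := by positivity
  refine ⟨32 * CS * (1 + A) * A * Cv, 32 * CS * (1 + A) * Cv, 108 * (C + 1) ^ 3 * D₂,
    by positivity, by positivity, by positivity, ?_⟩
  intro X₁ X₂ G Z hZ h1 h12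
  have h2 : 1 ≤ X₂ := h1.trans h12
  set P2 : ℕ := X₁ * X₂ with hP2
  have hP21 : 1 ≤ P2 := by
    rw [hP2]
    exact Nat.one_le_iff_ne_zero.2 (by positivity)
  obtain ⟨hdiv, hlog⟩ := hsm P2 hP21
  set E : ℝ := (C + 1) * (P2 : ℝ) ^ (1 / 48 : ℝ) with hE
  have hP21' : (1 : ℝ) ≤ P2 := by exact_mod_cast hP21
  have hP2p : (1 : ℝ) ≤ (P2 : ℝ) ^ (1 / 48 : ℝ) := Real.one_le_rpow hP21' (by norm_num)
  have hE1 : 1 ≤ E := one_le_mul_of_one_le_of_one_le (by linarith) hP2p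
  have hCE : C * (P2 : ℝ) ^ (1 / 48 : ℝ) ≤ E := by rw [hE, add_mul, one_mul]; linarith
  have x1 : (1 : ℝ) ≤ X₁ := by exact_mod_cast h1
  have x2 : (1 : ℝ) ≤ X₂ := by exact_mod_cast h2
  have x12 : (X₁ : ℝ) ≤ X₂ := by exact_mod_cast h12
  -- the eighth root
  set u : ℝ := (X₂ : ℝ) ^ (1 / 8 : ℝ) with hudef
  have hu1 : 1 ≤ u := Real.one_le_rpow x2 (by norm_num)
  have hu0 : 0 < u := by linarith
  have hu8 : u ^ 8 = X₂ := by
    rw [hudef, ← Real.rpow_natCast, ← Real.rpow_mul (by linarith)]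
    norm_num
  have hui : (X₂ : ℝ) ^ (-(1 / 8) : ℝ) = 1 / u := by
    rw [Real.rpow_neg (by linarith), ← hudef, one_div]
  set s : ℝ := u ^ 2 with hsdef
  have hs1 : 1 ≤ s := one_le_pow₀ hu1
  have hs4 : s ^ 4 = X₂ := by
    rw [hsdef, ← pow_mul, ← hu8]
  have hE3s : E ^ 3 ≤ (C + 1) ^ 3 * u := by
    rw [hE, mul_pow]
    apply mul_le_mul_of_nonneg_left _ (by positivity)
    have e1 : (P2 : ℝ) ≤ (X₂ : ℝ) ^ (2 : ℝ) := by
      have : (P2 : ℝ) = X₁ * X₂ := by rw [hP2]; push_cast; ring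
      rw [this, Real.rpow_two, sq]
      gcongr
    calc ((P2 : ℝ) ^ (1 / 48 : ℝ)) ^ 3 = (P2 : ℝ) ^ (1 / 16 : ℝ) := by
          rw [← Real.rpow_natCast, ← Real.rpow_mul (by linarith)]
          norm_num
      _ ≤ ((X₂ : ℝ) ^ (2 : ℝ)) ^ (1 / 16 : ℝ) :=
          Real.rpow_le_rpow (by linarith) e1 (by norm_num)
      _ = u := by
          rw [hudef, ← Real.rpow_mul (by linarith)]
          norm_num
  -- comparison of sizes
  have hX2P : X₂ ≤ P2 := Nat.le_mul_of_pos_left _ (by positivity)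
  have hX111 : X₁ ^ 3 ≤ P2 ^ 2 := by
    calc X₁ ^ 3 = X₁ * X₁ ^ 2 := by ring
      _ ≤ X₂ ^ 2 * X₁ ^ 2 := by
          gcongr
          calc X₁ ≤ X₂ := h12
            _ ≤ X₂ ^ 2 := Nat.le_self_pow (by norm_num) _
      _ = P2 ^ 2 := by rw [hP2]; ring
  have hPP : P2 ≤ P2 ^ 2 := Nat.le_self_pow (by norm_num) _
  set V : ℝ := (X₂ : ℝ) ^ 2 / X₁ with hV
  have hV0 : 0 ≤ V := by positivity
  have hV1 : E ^ 3 * (D₂ * (1 + (X₂ : ℝ) ^ 2 / (X₁ * s))) ≤ (C + 1) ^ 3 * (D₂ * 2) * (V / u) := by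
    have e1 : u * (1 + (X₂ : ℝ) ^ 2 / (X₁ * s)) ≤ 2 * (V / u) := by
      have e2 : u * ((X₂ : ℝ) ^ 2 / (X₁ * s)) = V / u := by
        rw [hV, hsdef]; field_simp
      have e3 : u ≤ V / u := by
        rw [hV, le_div_iff₀ hu0, le_div_iff₀ (by linarith)]
        have e4 : u * u ≤ u ^ 8 := by
          calc u * u = u ^ 2 := by ring
            _ ≤ u ^ 8 := pow_le_pow_right₀ hu1 (by norm_num)
        calc u * u * X₁ ≤ u ^ 8 * X₂ := by gcongr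
          _ = (X₂ : ℝ) ^ 2 := by rw [hu8]; ring
      rw [mul_add, mul_one, e2]
      linarith
    calc E ^ 3 * (D₂ * (1 + (X₂ : ℝ) ^ 2 / (X₁ * s)))
        ≤ ((C + 1) ^ 3 * u) * (D₂ * (1 + (X₂ : ℝ) ^ 2 / (X₁ * s))) := by gcongr
      _ = (C + 1) ^ 3 * D₂ * (u * (1 + (X₂ : ℝ) ^ 2 / (X₁ * s))) := by ring
      _ ≤ (C + 1) ^ 3 * D₂ * (2 * (V / u)) := by gcongr
      _ = (C + 1) ^ 3 * (D₂ * 2) * (V / u) := by ring
  -- inner sums
  have hinner : ∀ p ∈ sh b X₁, inn b X₂ G Z p ≤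
      (32 * CS * (1 + A) * A * ((G : ℝ) + 1) ^ (-(1 / 4) : ℝ) * V +
        32 * CS * (1 + A) * ((X₂ : ℝ) / (X₁ : ℝ) ^ 2) * Z) * s34 (dm (mp b p)).natAbs +
      2 * ((C + 1) ^ 3 * (D₂ * 2) * (V / u)) := by
    intro p hp
    rw [sh, mem_filter] at hp
    obtain ⟨hp0, hp1, hp2, hp3⟩ := hp
    have hdmle : (dm (mp b p)).natAbs ≤ 162 * mxb b ^ 3 * P2 ^ 2 := by
      have h5 := dm_le (Z := 3 * mxb b * X₁) (by positivity) (fun k j => mp_le b hp0 k j)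
      have h6 : |dm (mp b p)| ≤ 162 * mxb b ^ 3 * X₁ ^ 3 := by
        refine h5.trans (le_of_eq ?_)
        ring
      rw [Int.abs_eq_natAbs] at h6
      have h7 : (dm (mp b p)).natAbs ≤ 162 * mxb b ^ 3 * X₁ ^ 3 := by exact_mod_cast h6
      exact h7.trans (Nat.mul_le_mul_left _ hX111)
    have hdm1 : 1 ≤ (dm (mp b p)).natAbs :=
      Nat.one_le_iff_ne_zero.2 (Int.natAbs_ne_zero.2 hp2)
    have hminor : ∃ k k' j j', (c / 4) * (X₁ : ℝ) ^ 2 ≤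
        |((mnr (mp b p) k k' j j' : ℤ) : ℝ)| := by
      obtain ⟨k, k', j, j', h5⟩ := hcmp p
      refine ⟨k, k', j, j', le_trans ?_ h5⟩
      have h6 : (X₁ : ℝ) ≤ 2 * (nm p : ℝ) := by exact_mod_cast hp3
      calc c / 4 * (X₁ : ℝ) ^ 2 ≤ c / 4 * (2 * (nm p : ℝ)) ^ 2 := by gcongr
        _ = c * (nm p : ℝ) ^ 2 := by ring
    have hmpA : ∀ k j, |mp b p k j| ≤ (A : ℤ) * X₁ := by
      intro k j
      refine (mp_le b hp0 k j).trans ?_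
      rw [hAdef]
      push_cast
      have : (0 : ℤ) ≤ mxb b * X₁ := by positivity
      linarith
    have hAP : A * X₁ * X₂ ≤ 162 * mxb b ^ 3 * P2 ^ 2 := by
      have e1 : mxb b ≤ mxb b ^ 3 := Nat.le_self_pow (by norm_num) _
      calc A * X₁ * X₂ = 18 * mxb b * (X₁ * X₂) := by rw [hAdef]; ring
        _ ≤ 162 * mxb b ^ 3 * P2 ^ 2 := by
            gcongr
            norm_num
    have hwA : ∀ q ∈ Pool.Agent.W978.QN.bx X₂, ∀ k, 2 * |wv (mp b p) q k| ≤ A * X₁ * X₂ := by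
      intro q hq k
      have := wv_le b hp0 hq k
      rw [hAdef]
      push_cast
      linarith
    have hgen := fun (G' : ℕ) (Z' : ℝ) (hZ' : 0 ≤ Z') =>
      hQ2 A K hA CA CS hCA hCS (mp b p) X₁ X₂ h1 h2 hp2
      (fun g q q' hq hq' i => hnul p hp1 g (cp q q' i)
        (fun k k' j j' => Pool.Agent.W735.QN.t_CD (mp b p) g q q' hq hq' k k' j j' i))
      hwA
      (fun Y g hg hgY hY Q hQ hQ' => hQA (mp b p) X₁ X₂ Y g h1 h2 hg hgY hY hmpA hminor Q hQ hQ')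
      (fun Y g hg Q hQ hQ' => hSL (mp b p) X₁ X₂ Y g h1 h2 hg hmpA hminor Q hQ hQ')
      E hE1
      ((hlog X₂ h2 (hX2P.trans (hPP.trans (Nat.le_mul_of_pos_left _ (by omega))))).trans hCE)
      ((hlog (A * X₁ * X₂) (Nat.one_le_iff_ne_zero.2 (by positivity)) hAP).trans hCE)
      ((hdiv _ hdm1 hdmle).trans hCE) s hs1 hs4 G' Z' hZ'
    have g1 := hgen (G + 1) ((A : ℝ) * X₁ * X₂) (by positivity)
    have g2 := hgen 0 Z hZ
    -- splitting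
    have hsplit : inn b X₂ G Z p ≤
        (∑ q ∈ (Pool.Agent.W978.QN.bx X₂).filter (fun q => Prim q ∧ G + 1 ≤ ct (wv (mp b p) q) ∧
          (nm (wv (mp b p) q) : ℝ) ≤ (A : ℝ) * X₁ * X₂),
          ((ct (wv (mp b p) q) : ℝ) / (nm (wv (mp b p) q) : ℝ))) +
        ∑ q ∈ (Pool.Agent.W978.QN.bx X₂).filter (fun q => Prim q ∧ 0 ≤ ct (wv (mp b p) q) ∧
          (nm (wv (mp b p) q) : ℝ) ≤ Z),
          ((ct (wv (mp b p) q) : ℝ) / (nm (wv (mp b p) q) : ℝ)) := by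
      unfold inn
      rw [← Finset.sum_union_inter]
      refine le_trans ?_ (le_add_of_nonneg_right (Finset.sum_nonneg fun q _ => term_nonneg _))
      apply Finset.sum_le_sum_of_subset_of_nonneg
      · intro q hq
        rw [mem_filter] at hq
        rw [mem_union, mem_filter, mem_filter]
        obtain ⟨q1, q2, q3⟩ := hq
        rcases q3 with q3 | q3
        · left
          refine ⟨q1, q2, q3, ?_⟩
          have e1 : ∀ k, |wv (mp b p) q k| ≤ (A * X₁ * X₂ : ℤ) / 2 := fun k => by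
            have := hwA q q1 k
            omega
          have e2 := Pool.Agent.W978.QN.nm_le e1
          have e3 : nm (wv (mp b p) q) ≤ (A * X₁ * X₂ : ℤ) := by
            have : (0 : ℤ) ≤ A * X₁ * X₂ := by positivity
            omega
          exact_mod_cast e3
        · right
          exact ⟨q1, q2, Nat.zero_le _, q3⟩
      · intro q _ _
        exact term_nonneg _
    have d1 : ∑ g ∈ (dm (mp b p)).natAbs.divisors.filter (fun g => G + 1 ≤ g), (1 / (g : ℝ)) ≤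
        ((G : ℝ) + 1) ^ (-(1 / 4) : ℝ) * s34 (dm (mp b p)).natAbs := by
      unfold s34
      rw [Finset.mul_sum]
      refine le_trans (Finset.sum_le_sum (fun g hg => ?_))
        (Finset.sum_le_sum_of_subset_of_nonneg (Finset.filter_subset (fun g => G + 1 ≤ g) _)
          (fun g _ _ => by positivity))
      rw [mem_filter] at hg
      exact inv_le g (by omega) G hg.2
    have d2 : ∑ g ∈ (dm (mp b p)).natAbs.divisors.filter (fun g => 0 ≤ g), (1 / (g : ℝ)) ≤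
        s34 (dm (mp b p)).natAbs := by
      unfold s34
      refine le_trans (Finset.sum_le_sum (fun g hg => ?_))
        (Finset.sum_le_sum_of_subset_of_nonneg (Finset.filter_subset (fun g => 0 ≤ g) _)
          (fun g _ _ => by positivity))
      rw [mem_filter] at hg
      exact inv_le' g (Nat.pos_of_mem_divisors hg.1)
    have k1 : 32 * CS * (1 + A) * ((X₂ : ℝ) / (X₁ : ℝ) ^ 2) * ((A : ℝ) * X₁ * X₂) =
        32 * CS * (1 + A) * A * V := by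
      rw [hV]
      field_simp
    rw [← hD₂, k1] at g1
    rw [← hD₂] at g2
    have g1' := g1.trans (add_le_add (mul_le_mul_of_nonneg_left d1 (by positivity)) hV1)
    have g2' := g2.trans (add_le_add (mul_le_mul_of_nonneg_left d2 (by positivity)) hV1)
    refine hsplit.trans ((add_le_add g1' g2').trans (le_of_eq ?_))
    ring
  have hcardP : ((sh b X₁).card : ℝ) ≤ 27 * (X₁ : ℝ) ^ 3 :=
    le_trans (by exact_mod_cast Finset.card_le_card (Finset.filter_subset _ _)) (card_bx_le h1)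
  have havg1 : ∑ p ∈ sh b X₁, s34 (dm (mp b p)).natAbs ≤ Cv * (X₁ : ℝ) ^ 3 := by
    refine le_trans ?_ (havg X₁ h1)
    apply Finset.sum_le_sum_of_subset_of_nonneg
    · intro p hp
      rw [sh, mem_filter] at hp
      rw [mem_filter]
      exact ⟨hp.1, hp.2.2.1⟩
    · intro p _ _
      exact s34_nonneg _
  refine (Finset.sum_le_sum hinner).trans ?_
  rw [Finset.sum_add_distrib, ← Finset.mul_sum, Finset.sum_const, nsmul_eq_mul]
  have r1 : (X₁ : ℝ) ^ 3 * V = ((X₁ : ℝ) * X₂) ^ 2 := by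
    rw [hV]
    have : (X₁ : ℝ) ≠ 0 := by linarith
    field_simp
  have r2 : ((X₂ : ℝ) / (X₁ : ℝ) ^ 2) * (X₁ : ℝ) ^ 3 = (X₁ : ℝ) * X₂ := by
    have : (X₁ : ℝ) ≠ 0 := by linarith
    field_simp
  calc (32 * CS * (1 + A) * A * ((G : ℝ) + 1) ^ (-(1 / 4) : ℝ) * V +
        32 * CS * (1 + A) * ((X₂ : ℝ) / (X₁ : ℝ) ^ 2) * Z) *
          ∑ p ∈ sh b X₁, s34 (dm (mp b p)).natAbs +
      ((sh b X₁).card : ℝ) * (2 * ((C + 1) ^ 3 * (D₂ * 2) * (V / u)))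
      ≤ (32 * CS * (1 + A) * A * ((G : ℝ) + 1) ^ (-(1 / 4) : ℝ) * V +
        32 * CS * (1 + A) * ((X₂ : ℝ) / (X₁ : ℝ) ^ 2) * Z) * (Cv * (X₁ : ℝ) ^ 3) +
      (27 * (X₁ : ℝ) ^ 3) * (2 * ((C + 1) ^ 3 * (D₂ * 2) * (V / u))) := by
        apply add_le_add
        · exact mul_le_mul_of_nonneg_left havg1 (by positivity)
        · exact mul_le_mul_of_nonneg_right hcardP (by positivity)
    _ = 32 * CS * (1 + A) * A * Cv * ((G : ℝ) + 1) ^ (-(1 / 4) : ℝ) * ((X₁ : ℝ) ^ 3 * V) +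
        32 * CS * (1 + A) * Cv * (((X₂ : ℝ) / (X₁ : ℝ) ^ 2) * (X₁ : ℝ) ^ 3) * Z +
        108 * (C + 1) ^ 3 * D₂ * ((X₁ : ℝ) ^ 3 * V) * (1 / u) := by
        ring
    _ = _ := by
        rw [r1, r2, hui]

/-- Summation over the shells. -/
theorem all (hAvg : StmtAvg) (hQ2 : StmtQ2) (b : T3) (hb : Pool.Agent.W978.QN.Rk2 b)
    (hdc : ∃ p : Fin 3 → ℂ, (Matrix.of (mp b p)).det ≠ 0) :
    ∃ C₁ C₂ C₃ : ℝ, 0 < C₁ ∧ 0 < C₂ ∧ 0 < C₃ ∧ ∀ (X₁ X₂ G : ℕ) (Z : ℝ), 0 ≤ Z →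
      X₁ ≤ X₂ → ∑ x ∈ gd b X₁, inn b X₂ G Z x ≤
        C₁ * ((G : ℝ) + 1) ^ (-(1 / 4) : ℝ) * ((X₁ : ℝ) * X₂) ^ 2 + C₂ * ((X₁ : ℝ) * X₂) * Z +
          C₃ * ((X₁ : ℝ) * X₂) ^ 2 * (X₂ : ℝ) ^ (-(1 / 8) : ℝ) := by
  classical
  obtain ⟨C₁, C₂, C₃, hC₁, hC₂, hC₃, h⟩ := shell hAvg hQ2 b hb hdc
  refine ⟨2 * C₁, 2 * C₂, 2 * C₃, by positivity, by positivity, by positivity, ?_⟩
  intro X₁
  induction X₁ using Nat.strong_induction_on with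
  | _ X₁ ih =>
    intro X₂ G Z hZ h12
    rcases Nat.eq_zero_or_pos X₁ with h0 | h0
    · -- no good points
      have he : gd b X₁ = ∅ := by
        rw [Finset.eq_empty_iff_forall_notMem]
        intro x hx
        rw [gd, mem_filter, mem_bx, h0] at hx
        have := Pool.Agent.W978.QN.nm_pos hx.2.1
        have h2 := hx.1
        push_cast at h2
        omega
      rw [he, Finset.sum_empty, h0]
      simp
    · have hsub : gd b X₁ ⊆ sh b X₁ ∪ gd b (X₁ / 2) := by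
        intro x hx
        rw [gd, mem_filter, mem_bx] at hx
        rw [mem_union, sh, mem_filter, gd, mem_filter, mem_bx, mem_bx]
        obtain ⟨a1, a2, a3⟩ := hx
        by_cases hh : (X₁ : ℤ) ≤ 2 * nm x
        · left; exact ⟨a1, a2, a3, hh⟩
        · right
          refine ⟨?_, a2, a3⟩
          push_cast
          omega
      have e1 : ∑ x ∈ gd b X₁, inn b X₂ G Z x ≤
          ∑ x ∈ sh b X₁, inn b X₂ G Z x + ∑ x ∈ gd b (X₁ / 2), inn b X₂ G Z x := by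
        rw [← Finset.sum_union_inter]
        refine le_trans ?_ (le_add_of_nonneg_right (Finset.sum_nonneg fun q _ => inn_nonneg _ _ _ _ _))
        exact Finset.sum_le_sum_of_subset_of_nonneg hsub (fun q _ _ => inn_nonneg _ _ _ _ _)
      have e2 := h X₁ X₂ G Z hZ h0 h12
      have e3 := ih (X₁ / 2) (by omega) X₂ G Z hZ (by omega)
      have e4 : ((X₁ / 2 : ℕ) : ℝ) ≤ (X₁ : ℝ) / 2 := Nat.cast_div_le
      have e5 : (0 : ℝ) ≤ ((X₁ / 2 : ℕ) : ℝ) := Nat.cast_nonneg _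
      have e6 : (0 : ℝ) ≤ X₂ := Nat.cast_nonneg _
      have f1 : (0 : ℝ) ≤ ((G : ℝ) + 1) ^ (-(1 / 4) : ℝ) := by positivity
      have f2 : (0 : ℝ) ≤ (X₂ : ℝ) ^ (-(1 / 8) : ℝ) := by positivity
      have e7 : (((X₁ / 2 : ℕ) : ℝ) * X₂) ^ 2 ≤ ((X₁ : ℝ) * X₂) ^ 2 / 4 := by
        calc (((X₁ / 2 : ℕ) : ℝ) * X₂) ^ 2 ≤ ((X₁ : ℝ) / 2 * X₂) ^ 2 := by gcongr
          _ = ((X₁ : ℝ) * X₂) ^ 2 / 4 := by ring
      have e8 : ((X₁ / 2 : ℕ) : ℝ) * X₂ ≤ (X₁ : ℝ) * X₂ / 2 := by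
        calc ((X₁ / 2 : ℕ) : ℝ) * X₂ ≤ (X₁ : ℝ) / 2 * X₂ := by gcongr
          _ = (X₁ : ℝ) * X₂ / 2 := by ring
      have q1 : 2 * C₁ * ((G : ℝ) + 1) ^ (-(1 / 4) : ℝ) * (((X₁ / 2 : ℕ) : ℝ) * X₂) ^ 2 ≤
          2 * C₁ * ((G : ℝ) + 1) ^ (-(1 / 4) : ℝ) * (((X₁ : ℝ) * X₂) ^ 2 / 4) := by gcongr
      have q2 : 2 * C₂ * (((X₁ / 2 : ℕ) : ℝ) * X₂) * Z ≤ 2 * C₂ * ((X₁ : ℝ) * X₂ / 2) * Z := by
        gcongr
      have q3 : 2 * C₃ * (((X₁ / 2 : ℕ) : ℝ) * X₂) ^ 2 * (X₂ : ℝ) ^ (-(1 / 8) : ℝ) ≤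
          2 * C₃ * (((X₁ : ℝ) * X₂) ^ 2 / 4) * (X₂ : ℝ) ^ (-(1 / 8) : ℝ) := by gcongr
      have p1 : 0 ≤ C₁ * ((G : ℝ) + 1) ^ (-(1 / 4) : ℝ) * ((X₁ : ℝ) * X₂) ^ 2 := by positivity
      have p3 : 0 ≤ C₃ * ((X₁ : ℝ) * X₂) ^ 2 * (X₂ : ℝ) ^ (-(1 / 8) : ℝ) := by positivity
      nlinarith

theorem small_pow (a : ℝ) (ha : 0 < a) (η : ℝ) (hη : 0 < η) :
    ∃ N : ℕ, ∀ x : ℝ, (N : ℝ) ≤ x → x ^ (-a) ≤ η := by
  have h1 := (tendsto_rpow_neg_atTop ha).eventually (eventually_le_nhds hη)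
  obtain ⟨X, hX⟩ := Filter.eventually_atTop.1 h1
  obtain ⟨N, hN⟩ := exists_nat_ge X
  exact ⟨N, fun x hx => hX x (hN.trans hx)⟩

open Classical in
/-- The first box is the smaller one. -/
theorem half (hAvg : StmtAvg) (hQ2 : StmtQ2) (hBr : StmtBr) (T : T3) (hT : Sm ℂ T) (ε : ℝ)
    (hε : 0 < ε) : ∃ (G M : ℕ) (δ : ℝ), 0 < δ ∧ ∀ (G' : ℕ) (δ' : ℝ), G ≤ G' → 0 < δ' → δ' ≤ δ →
    ∀ A B : ℕ, M ≤ A → M ≤ B → A ≤ B →
    ∑ t ∈ (Pa T A B).filter (fun t => (G' : ℤ) < univ.gcd (g3 T t.1 t.2) ∨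
        (ht (g3 T t.1 t.2) : ℝ) < δ' * ((A : ℝ) * B)),
      ((univ.gcd (g3 T t.1 t.2) : ℤ) : ℝ) / (ht (g3 T t.1 t.2) : ℝ) ≤ ε * ((A : ℝ) * B) ^ 2 := by
  obtain ⟨hb, hdc⟩ := hBr T hT
  obtain ⟨C₁, C₂, C₃, hC₁, hC₂, hC₃, h⟩ := all hAvg hQ2 T hb hdc
  obtain ⟨N1, hN1⟩ := small_pow (1 / 4) (by norm_num) (ε / (3 * C₁)) (by positivity)
  obtain ⟨N2, hN2⟩ := small_pow (1 / 8) (by norm_num) (ε / (3 * C₃)) (by positivity)
  refine ⟨N1, N2, ε / (3 * C₂), by positivity, ?_⟩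
  intro G' δ' hG hδ0 hδ A B hA hB hAB
  have hZ : (0 : ℝ) ≤ δ' * ((A : ℝ) * B) := by positivity
  have h1 := h A B G' (δ' * ((A : ℝ) * B)) hZ hAB
  have h2 : ((G' : ℝ) + 1) ^ (-(1 / 4) : ℝ) ≤ ε / (3 * C₁) := by
    apply hN1
    have : (N1 : ℝ) ≤ G' := by exact_mod_cast hG
    linarith
  have h3 : (B : ℝ) ^ (-(1 / 8) : ℝ) ≤ ε / (3 * C₃) := by
    apply hN2
    exact_mod_cast hB
  have h4 : C₁ * ((G' : ℝ) + 1) ^ (-(1 / 4) : ℝ) * ((A : ℝ) * B) ^ 2 ≤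
      ε / 3 * ((A : ℝ) * B) ^ 2 := by
    apply mul_le_mul_of_nonneg_right _ (by positivity)
    calc C₁ * ((G' : ℝ) + 1) ^ (-(1 / 4) : ℝ) ≤ C₁ * (ε / (3 * C₁)) := by gcongr
      _ = ε / 3 := by field_simp
  have h5 : C₂ * ((A : ℝ) * B) * (δ' * ((A : ℝ) * B)) ≤ ε / 3 * ((A : ℝ) * B) ^ 2 := by
    have : C₂ * δ' ≤ ε / 3 := by
      calc C₂ * δ' ≤ C₂ * (ε / (3 * C₂)) := by gcongr
        _ = ε / 3 := by field_simp
    calc C₂ * ((A : ℝ) * B) * (δ' * ((A : ℝ) * B)) = (C₂ * δ') * ((A : ℝ) * B) ^ 2 := by ring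
      _ ≤ _ := mul_le_mul_of_nonneg_right this (by positivity)
  have h6 : C₃ * ((A : ℝ) * B) ^ 2 * (B : ℝ) ^ (-(1 / 8) : ℝ) ≤ ε / 3 * ((A : ℝ) * B) ^ 2 := by
    have : C₃ * (B : ℝ) ^ (-(1 / 8) : ℝ) ≤ ε / 3 := by
      calc C₃ * (B : ℝ) ^ (-(1 / 8) : ℝ) ≤ C₃ * (ε / (3 * C₃)) := by gcongr
        _ = ε / 3 := by field_simp
    calc C₃ * ((A : ℝ) * B) ^ 2 * (B : ℝ) ^ (-(1 / 8) : ℝ) =
          (C₃ * (B : ℝ) ^ (-(1 / 8) : ℝ)) * ((A : ℝ) * B) ^ 2 := by ring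
      _ ≤ _ := mul_le_mul_of_nonneg_right this (by positivity)
  refine le_trans ?_ (h1.trans (by linarith))
  -- comparison of the sums
  have e1 : ∑ x ∈ gd T A, inn T B G' (δ' * ((A : ℝ) * B)) x =
      ∑ t ∈ (gd T A ×ˢ Pool.Agent.W978.QN.bx B).filter (fun t => Prim t.2 ∧
        (G' + 1 ≤ ct (wv (mp T t.1) t.2) ∨
          (nm (wv (mp T t.1) t.2) : ℝ) ≤ δ' * ((A : ℝ) * B))),
        ((ct (wv (mp T t.1) t.2) : ℝ) / (nm (wv (mp T t.1) t.2) : ℝ)) := by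
    rw [Finset.sum_filter, Finset.sum_product]
    refine Finset.sum_congr rfl fun x _ => ?_
    unfold inn
    rw [Finset.sum_filter]
  rw [e1]
  have e2 : ∀ t : (Fin 3 → ℤ) × (Fin 3 → ℤ),
      ((univ.gcd (g3 T t.1 t.2) : ℤ) : ℝ) / (ht (g3 T t.1 t.2) : ℝ) =
      ((ct (wv (mp T t.1) t.2) : ℝ) / (nm (wv (mp T t.1) t.2) : ℝ)) := by
    intro t
    rw [wv_g3, ← ct_eq, ← ht_eq]
    push_cast
    rfl
  rw [Finset.sum_congr rfl (fun t _ => e2 t)]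
  apply Finset.sum_le_sum_of_subset_of_nonneg
  · intro t ht'
    rw [mem_filter, Pa, mem_filter, mem_product] at ht'
    obtain ⟨⟨⟨a1, a2⟩, a3, a4, a5, a6⟩, a7⟩ := ht'
    rw [mem_filter, mem_product, gd, mem_filter]
    refine ⟨⟨⟨a1, (pr_iff _).1 a3, ?_⟩, a2⟩, (pr_iff _).1 a4, ?_⟩
    · rw [dm_D1]; exact a5
    · rw [wv_g3]
      rcases a7 with a7 | a7
      · left
        rw [← ct_eq] at a7
        have : G' < ct (g3 T t.1 t.2) := by exact_mod_cast a7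
        omega
      · right
        rw [← ht_eq]
        push_cast
        exact a7.le
  · intro t _ _
    exact term_nonneg _

end ModTail

open ModTail in
open Classical in
/-- Module Tail. -/
theorem tail (hAvg : StmtAvg) (hQ2 : StmtQ2) (hBr : StmtBr) : StmtTail := by
  intro T hT ε hε
  obtain ⟨G1, M1, δ1, hδ1, h1⟩ := half hAvg hQ2 hBr T hT ε hε
  obtain ⟨G2, M2, δ2, hδ2, h2⟩ := half hAvg hQ2 hBr (Pool.Agent.H548.TL.s12 T)
    (Pool.Agent.H548.TL.Sm.s12 hT) ε hε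
  refine ⟨max G1 G2, max M1 M2, min δ1 δ2, lt_min hδ1 hδ2, ?_⟩
  intro A B hA hB
  rcases le_total A B with hAB | hAB
  · exact h1 _ _ (le_max_left _ _) (lt_min hδ1 hδ2) (min_le_left _ _) A B
      ((le_max_left _ _).trans hA) ((le_max_left _ _).trans hB) hAB
  · have h3 := h2 (max G1 G2) (min δ1 δ2) (le_max_right _ _) (lt_min hδ1 hδ2) (min_le_right _ _) B A
      ((le_max_right _ _).trans hB) ((le_max_right _ _).trans hA) hAB
    rw [mul_comm (A : ℝ) (B : ℝ)]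
    refine le_trans (le_of_eq ?_) h3
    refine Finset.sum_bij' (fun t _ => (t.2, t.1)) (fun t _ => (t.2, t.1)) ?_ ?_ ?_ ?_ ?_
    · intro t ht'
      rw [Finset.mem_filter, Pa, Finset.mem_filter, Finset.mem_product] at ht'
      rw [Finset.mem_filter, Pa, Finset.mem_filter, Finset.mem_product, Pool.Agent.H548.TL.g3_s12,
        D1_s12, D2_s12]
      obtain ⟨⟨⟨a1, a2⟩, a3, a4, a5, a6⟩, a7⟩ := ht'
      exact ⟨⟨⟨a2, a1⟩, a4, a3, a6, a5⟩, a7⟩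
    · intro t ht'
      rw [Finset.mem_filter, Pa, Finset.mem_filter, Finset.mem_product, ← Pool.Agent.H548.TL.g3_s12,
        D1_s12, D2_s12] at ht'
      rw [Finset.mem_filter, Pa, Finset.mem_filter, Finset.mem_product]
      obtain ⟨⟨⟨a1, a2⟩, a3, a4, a5, a6⟩, a7⟩ := ht'
      exact ⟨⟨⟨a2, a1⟩, a4, a3, a6, a5⟩, a7⟩
    · intro t _; rfl
    · intro t _; rfl
    · intro t _
      rw [Pool.Agent.H548.TL.g3_s12]

end Pool.Agent.T6.H97.TA
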