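import Pool.Agent.T6.H97.TA.Defs

set_option autoImplicit false

namespace Pool.Agent.T6.H97.TA

open Finset Matrix Filter Topology MeasureTheory

namespace ModVb

/-- the set defining `Vv` -/
def KS {n : ℕ} (f : Fin n → Fin 3 → ℤ) (σ : Fin n → Bool) (w : Fin 3 → ℝ) : Set (Fin 2 → ℝ) :=
  {s : Fin 2 → ℝ | |s 0| ≤ 1 ∧ |s 1| ≤ 1 ∧ |w 0 * s 0 + w 1 * s 1| ≤ |w 2| ∧
    ∀ i, (0 ≤ (f i 0 : ℝ) * s 0 + f i 1 * s 1 - f i 2 * ((w 0 * s 0 + w 1 * s 1) / w 2) ↔
      σ i = true)}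

lemma Vv_eq {n : ℕ} (f : Fin n → Fin 3 → ℤ) (σ : Fin n → Bool) (w : Fin 3 → ℝ) :
    Vv f σ w = |w 2|⁻¹ * (volume (KS f σ w)).toReal := rfl

lemma sec (α β γ y : ℝ) (hα : α ≠ 0) :
    volume {x : ℝ | |α * x + β * y| ≤ γ} ≤ ENNReal.ofReal (2 * (γ / |α|)) := by
  have h : {x : ℝ | |α * x + β * y| ≤ γ} ⊆ Metric.closedBall (-(β * y) / α) (γ / |α|) := by
    intro x hx
    simp only [Set.mem_ofPred_eq] at hx
    rw [Metric.mem_closedBall, Real.dist_eq, le_div_iff₀ (abs_pos.2 hα), ← abs_mul]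
    have : (x - -(β * y) / α) * α = α * x + β * y := by field_simp; ring
    rw [this]
    exact hx
  refine (measure_mono h).trans ?_
  rw [Real.volume_closedBall]

lemma ms1 (α β γ : ℝ) : MeasurableSet {p : ℝ × ℝ | |p.2| ≤ 1 ∧ |α * p.1 + β * p.2| ≤ γ} := by
  have h1 : MeasurableSet {p : ℝ × ℝ | |p.2| ≤ 1} :=
    measurableSet_le (continuous_snd.abs).measurable measurable_const
  have h2 : MeasurableSet {p : ℝ × ℝ | |α * p.1 + β * p.2| ≤ γ} :=
    measurableSet_le (by fun_prop) measurable_const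
  exact h1.inter h2

lemma ms2 (α β γ : ℝ) : MeasurableSet {p : ℝ × ℝ | |p.1| ≤ 1 ∧ |α * p.1 + β * p.2| ≤ γ} := by
  have h1 : MeasurableSet {p : ℝ × ℝ | |p.1| ≤ 1} :=
    measurableSet_le (continuous_fst.abs).measurable measurable_const
  have h2 : MeasurableSet {p : ℝ × ℝ | |α * p.1 + β * p.2| ≤ γ} :=
    measurableSet_le (by fun_prop) measurable_const
  exact h1.inter h2

lemma ms3 : MeasurableSet {p : ℝ × ℝ | |p.1| ≤ 1 ∧ |p.2| ≤ 1} := by
  have h1 : MeasurableSet {p : ℝ × ℝ | |p.1| ≤ 1} :=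
    measurableSet_le (continuous_fst.abs).measurable measurable_const
  have h2 : MeasurableSet {p : ℝ × ℝ | |p.2| ≤ 1} :=
    measurableSet_le (continuous_snd.abs).measurable measurable_const
  exact h1.inter h2

lemma strip1 (α β γ : ℝ) (hα : α ≠ 0) (hγ : 0 ≤ γ) :
    volume {p : ℝ × ℝ | |p.2| ≤ 1 ∧ |α * p.1 + β * p.2| ≤ γ} ≤ ENNReal.ofReal (4 * (γ / |α|)) := by
  have hm : MeasurableSet {p : ℝ × ℝ | |p.2| ≤ 1 ∧ |α * p.1 + β * p.2| ≤ γ} := ms1 α β γ
  rw [Measure.volume_eq_prod, Measure.prod_apply_symm hm]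
  calc ∫⁻ y, volume ((fun x => (x, y)) ⁻¹' {p : ℝ × ℝ | |p.2| ≤ 1 ∧ |α * p.1 + β * p.2| ≤ γ})
      ≤ ∫⁻ y, (Set.Icc (-1 : ℝ) 1).indicator (fun _ => ENNReal.ofReal (2 * (γ / |α|))) y := by
        apply lintegral_mono
        intro y
        by_cases hy : y ∈ Set.Icc (-1 : ℝ) 1
        · rw [Set.indicator_of_mem hy]
          refine le_trans (measure_mono ?_) (sec α β γ y hα)
          intro x hx
          exact hx.2
        · rw [Set.indicator_of_notMem hy]
          have : ((fun x => (x, y)) ⁻¹' {p : ℝ × ℝ | |p.2| ≤ 1 ∧ |α * p.1 + β * p.2| ≤ γ}) = ∅ := by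
            ext x
            simp only [Set.mem_preimage, Set.mem_ofPred_eq, Set.mem_empty_iff_false, iff_false]
            intro h
            exact hy (abs_le.1 h.1)
          simp only [this, measure_empty, le_refl]
    _ = ENNReal.ofReal (2 * (γ / |α|)) * volume (Set.Icc (-1 : ℝ) 1) := by
        rw [lintegral_indicator_const measurableSet_Icc]
    _ = ENNReal.ofReal (4 * (γ / |α|)) := by
        rw [Real.volume_Icc, ← ENNReal.ofReal_mul (by positivity)]
        congr 1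
        ring

lemma strip2 (α β γ : ℝ) (hβ : β ≠ 0) (hγ : 0 ≤ γ) :
    volume {p : ℝ × ℝ | |p.1| ≤ 1 ∧ |α * p.1 + β * p.2| ≤ γ} ≤ ENNReal.ofReal (4 * (γ / |β|)) := by
  have h := strip1 β α γ hβ hγ
  have h2 : MeasurePreserving (Prod.swap : ℝ × ℝ → ℝ × ℝ) volume volume := by
    rw [Measure.volume_eq_prod]; exact Measure.measurePreserving_swap
  have hm : MeasurableSet {p : ℝ × ℝ | |p.2| ≤ 1 ∧ |β * p.1 + α * p.2| ≤ γ} := ms1 β α γ
  rw [← h2.measure_preimage hm.nullMeasurableSet] at h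
  convert h using 2
  ext p
  simp only [Set.mem_ofPred_eq, Set.mem_preimage, Prod.fst_swap, Prod.snd_swap]
  rw [add_comm]

lemma box2 : volume {p : ℝ × ℝ | |p.1| ≤ 1 ∧ |p.2| ≤ 1} ≤ ENNReal.ofReal 4 := by
  have : {p : ℝ × ℝ | |p.1| ≤ 1 ∧ |p.2| ≤ 1} = Set.Icc (-1 : ℝ) 1 ×ˢ Set.Icc (-1 : ℝ) 1 := by
    ext p
    simp only [Set.mem_ofPred_eq, abs_le, Set.mem_prod, Set.mem_Icc]
  rw [this, Measure.volume_eq_prod, Measure.prod_prod, Real.volume_Icc,
    ← ENNReal.ofReal_mul (by norm_num)]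
  norm_num

lemma vol_two (S : Set (Fin 2 → ℝ)) (P : Set (ℝ × ℝ)) (hP : MeasurableSet P)
    (h : ∀ s ∈ S, (s 0, s 1) ∈ P) : volume S ≤ volume P := by
  rw [← (volume_preserving_finTwoArrow ℝ).measure_preimage hP.nullMeasurableSet]
  apply measure_mono
  intro s hs
  exact h s hs

end ModVb

theorem vb : StmtVb := by
  intro n f σ w
  refine ⟨?_, ?_⟩
  · by_cases hw : w 2 = 0
    · intro j
      rw [ModVb.Vv_eq, hw]
      simp
    · have key : ∀ (α : ℝ), volume (ModVb.KS f σ w) ≤ ENNReal.ofReal (4 * (|w 2| / |α|)) →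
          Vv f σ w * |α| ≤ 4 := by
        intro α h
        have h1 : (volume (ModVb.KS f σ w)).toReal ≤ 4 * (|w 2| / |α|) :=
          ENNReal.toReal_le_of_le_ofReal (by positivity) h
        rw [ModVb.Vv_eq]
        by_cases hα : α = 0
        · simp [hα]
        · have hα' := abs_pos.2 hα
          have hw' := abs_pos.2 hw
          calc |w 2|⁻¹ * (volume (ModVb.KS f σ w)).toReal * |α|
              ≤ |w 2|⁻¹ * (4 * (|w 2| / |α|)) * |α| := by gcongr
            _ = 4 := by field_simp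
      have h2 : Vv f σ w * |w 2| ≤ 4 := by
        apply key
        rw [div_self (abs_pos.2 hw).ne', mul_one]
        refine (ModVb.vol_two _ _ ?_ ?_).trans ModVb.box2
        · exact ModVb.ms3
        · intro s hs
          exact ⟨hs.1, hs.2.1⟩
      have h0 : Vv f σ w * |w 0| ≤ 4 := by
        by_cases h : w 0 = 0
        · simp [h]
        · apply key
          refine (ModVb.vol_two _ _ ?_ ?_).trans (ModVb.strip1 (w 0) (w 1) |w 2| h (abs_nonneg _))
          · exact ModVb.ms1 _ _ _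
          · intro s hs
            exact ⟨hs.2.1, hs.2.2.1⟩
      have h1 : Vv f σ w * |w 1| ≤ 4 := by
        by_cases h : w 1 = 0
        · simp [h]
        · apply key
          refine (ModVb.vol_two _ _ ?_ ?_).trans (ModVb.strip2 (w 0) (w 1) |w 2| h (abs_nonneg _))
          · exact ModVb.ms2 _ _ _
          · intro s hs
            exact ⟨hs.1, hs.2.2.1⟩
      intro j
      fin_cases j
      · exact h0
      · exact h1
      · exact h2
  · intro t ht
    have h : ModVb.KS f σ (t • w) = ModVb.KS f σ w := by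
      ext s
      simp only [ModVb.KS, Set.mem_ofPred_eq, Pi.smul_apply, smul_eq_mul]
      have e1 : t * w 0 * s 0 + t * w 1 * s 1 = t * (w 0 * s 0 + w 1 * s 1) := by ring
      have e2 : t * (w 0 * s 0 + w 1 * s 1) / (t * w 2) = (w 0 * s 0 + w 1 * s 1) / w 2 :=
        mul_div_mul_left _ _ ht.ne'
      rw [e1, e2, abs_mul, abs_mul, abs_of_pos ht, mul_le_mul_iff_right₀ ht]
    rw [ModVb.Vv_eq, ModVb.Vv_eq, h]
    simp only [Pi.smul_apply, smul_eq_mul, abs_mul, abs_of_pos ht, mul_inv]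
    ring

end Pool.Agent.T6.H97.TA
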