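import Pool.Agent.T6.H97.TA.Defs

/-!
Module Vc: continuity of the area of the part of a plane in the cube.
-/

set_option autoImplicit false
namespace Pool.Agent.T6.H97.TA
open Finset Matrix Filter Topology MeasureTheory

namespace ModVc

lemma null_line (a b c : ℝ) (h : a ≠ 0 ∨ b ≠ 0 ∨ c ≠ 0) :
    volume {s : Fin 2 → ℝ | a * s 0 + b * s 1 = c} = 0 := by
  by_cases hab : a = 0 ∧ b = 0
  · have hc : c ≠ 0 := by
      rcases h with h | h | h
      · exact absurd hab.1 h
      · exact absurd hab.2 h
      · exact h
    have : {s : Fin 2 → ℝ | a * s 0 + b * s 1 = c} = ∅ := by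
      ext s
      simp [hab.1, hab.2, hc.symm]
    rw [this, measure_empty]
  · have hpos : a ^ 2 + b ^ 2 ≠ 0 := by
      intro h0
      apply hab
      constructor <;> nlinarith [sq_nonneg a, sq_nonneg b]
    let L : (Fin 2 → ℝ) →ₗ[ℝ] ℝ := a • LinearMap.proj 0 + b • LinearMap.proj 1
    have hL : ∀ s, L s = a * s 0 + b * s 1 := by
      intro s; simp [L]
    let v : Fin 2 → ℝ := ![-(c * a / (a ^ 2 + b ^ 2)), -(c * b / (a ^ 2 + b ^ 2))]
    have hv : L v = -c := by
      rw [hL]; simp only [v, Matrix.cons_val_zero, Matrix.cons_val_one]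
      field_simp
      ring
    have hset : {s : Fin 2 → ℝ | a * s 0 + b * s 1 = c} = (fun s => s + v) ⁻¹' (LinearMap.ker L) := by
      ext s
      have h1 : L (s + v) = a * s 0 + b * s 1 - c := by
        rw [map_add, hv, hL]; ring
      simp only [Set.mem_ofPred_eq, Set.mem_preimage, SetLike.mem_coe, LinearMap.mem_ker, h1]
      constructor
      · intro h; rw [h]; ring
      · intro h; linarith
    rw [hset, measure_preimage_add_right]
    apply Measure.addHaar_submodule
    intro htop
    have : L ![a, b] = 0 := by
      rw [← LinearMap.mem_ker, htop]; trivial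
    rw [hL] at this
    simp only [Matrix.cons_val_zero, Matrix.cons_val_one] at this
    apply hpos
    linarith [this]

/-- the linear form -/
noncomputable def lf (g : Fin 3 → ℤ) (w : Fin 3 → ℝ) (s : Fin 2 → ℝ) : ℝ :=
  (g 0 : ℝ) * s 0 + g 1 * s 1 - g 2 * ((w 0 * s 0 + w 1 * s 1) / w 2)

/-- the set -/
def KK {n : ℕ} (f : Fin n → Fin 3 → ℤ) (σ : Fin n → Bool) (w : Fin 3 → ℝ) : Set (Fin 2 → ℝ) :=
  {s : Fin 2 → ℝ | |s 0| ≤ 1 ∧ |s 1| ≤ 1 ∧ |w 0 * s 0 + w 1 * s 1| ≤ |w 2| ∧
    ∀ i, (0 ≤ lf (f i) w s ↔ σ i = true)}

lemma meas_iff (g : (Fin 2 → ℝ) → ℝ) (hg : Measurable g) (b : Bool) :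
    MeasurableSet {s : Fin 2 → ℝ | (0 ≤ g s ↔ b = true)} := by
  cases b with
  | true =>
    simp only [iff_true]
    exact measurableSet_le measurable_const hg
  | false =>
    simp only [Bool.false_eq_true, iff_false, not_le]
    exact measurableSet_lt hg measurable_const

lemma meas {n : ℕ} (f : Fin n → Fin 3 → ℤ) (σ : Fin n → Bool) (w : Fin 3 → ℝ) :
    MeasurableSet (KK f σ w) := by
  have h0 : Measurable (fun s : Fin 2 → ℝ => s 0) := measurable_pi_apply 0
  have h1 : Measurable (fun s : Fin 2 → ℝ => s 1) := measurable_pi_apply 1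
  have h2 : Measurable (fun s : Fin 2 → ℝ => w 0 * s 0 + w 1 * s 1) :=
    (h0.const_mul _).add (h1.const_mul _)
  have e : KK f σ w = {s | |s 0| ≤ 1} ∩ ({s | |s 1| ≤ 1} ∩
      ({s | |w 0 * s 0 + w 1 * s 1| ≤ |w 2|} ∩ ⋂ i, {s | (0 ≤ lf (f i) w s ↔ σ i = true)})) := by
    ext s; simp [KK]
  rw [e]
  refine (measurableSet_le (measurable_norm.comp h0) measurable_const).inter
    ((measurableSet_le (measurable_norm.comp h1) measurable_const).inter
    ((measurableSet_le (measurable_norm.comp h2) measurable_const).inter
    (MeasurableSet.iInter fun i => meas_iff _ ?_ _)))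
  unfold lf
  exact ((h0.const_mul _).add (h1.const_mul _)).sub ((h2.div_const _).const_mul _)

lemma ev_iff {α : Type*} [TopologicalSpace α] {g : α → ℝ} {x : α} (hg : ContinuousAt g x)
    (h : g x ≠ 0) : ∀ᶠ y in 𝓝 x, (0 ≤ g y ↔ 0 ≤ g x) := by
  rcases lt_or_gt_of_ne h with h | h
  · filter_upwards [hg.eventually (gt_mem_nhds h)] with y hy
    constructor
    · intro h'; linarith
    · intro h'; linarith
  · filter_upwards [hg.eventually (lt_mem_nhds h)] with y hy
    constructor
    · intro _; exact h.le
    · intro _; exact hy.le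

end ModVc

open ModVc

theorem vc : StmtVc := by
  intro n f σ w hw hf
  have hcont0 : ∀ j, ContinuousAt (fun w' : Fin 3 → ℝ => w' j) w := fun j =>
    (continuous_apply j).continuousAt
  -- the integral
  have hI : ∀ w', (volume (KK f σ w')).toReal =
      ∫ s, (KK f σ w').indicator (fun _ => (1 : ℝ)) s := by
    intro w'
    rw [integral_indicator (meas f σ w')]
    simp [Measure.real]
  have main : ContinuousAt (fun w' => ∫ s, (KK f σ w').indicator (fun _ => (1 : ℝ)) s) w := by
    apply continuousAt_of_dominated (bound := (Set.Icc (-1 : Fin 2 → ℝ) 1).indicator 1)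
    · filter_upwards with w'
      exact (measurable_const.indicator (meas f σ w')).aestronglyMeasurable
    · filter_upwards with w'
      filter_upwards with s
      by_cases hs : s ∈ KK f σ w'
      · have hs' : s ∈ Set.Icc (-1 : Fin 2 → ℝ) 1 := by
          refine ⟨fun i => ?_, fun i => ?_⟩
          · fin_cases i
            · exact (abs_le.1 hs.1).1
            · exact (abs_le.1 hs.2.1).1
          · fin_cases i
            · exact (abs_le.1 hs.1).2
            · exact (abs_le.1 hs.2.1).2
        rw [Set.indicator_of_mem hs, Set.indicator_of_mem hs']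
        simp
      · rw [Set.indicator_of_notMem hs]
        simp only [norm_zero]
        exact Set.indicator_nonneg (by simp) _
    · rw [integrable_indicator_iff measurableSet_Icc]
      exact (integrableOn_const (C := (1 : ℝ)) (by
        exact (isCompact_Icc.measure_lt_top).ne))
    · have n1 : ∀ᵐ s : Fin 2 → ℝ, w 0 * s 0 + w 1 * s 1 ≠ w 2 := by
        rw [ae_iff]; simpa using null_line (w 0) (w 1) (w 2) (Or.inr (Or.inr hw))
      have n2 : ∀ᵐ s : Fin 2 → ℝ, w 0 * s 0 + w 1 * s 1 ≠ -w 2 := by
        rw [ae_iff]; simpa using null_line (w 0) (w 1) (-w 2) (Or.inr (Or.inr (by simpa using hw)))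
      have n3 : ∀ᵐ s : Fin 2 → ℝ, ∀ i, f i ≠ 0 → lf (f i) w s ≠ 0 := by
        rw [ae_all_iff]
        intro i
        by_cases hi : f i = 0
        · filter_upwards with s h; exact absurd hi h
        · have hl : ∀ s, lf (f i) w s = ((f i 0 : ℝ) - f i 2 * w 0 / w 2) * s 0 +
              ((f i 1 : ℝ) - f i 2 * w 1 / w 2) * s 1 := by
            intro s; unfold lf; field_simp; ring
          have key := null_line ((f i 0 : ℝ) - f i 2 * w 0 / w 2)
            ((f i 1 : ℝ) - f i 2 * w 1 / w 2) 0 (by
              by_contra hc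
              push Not at hc
              obtain ⟨h0, h1, -⟩ := hc
              have h0' : (f i 0 : ℝ) = f i 2 * w 0 / w 2 := by linarith
              have h1' : (f i 1 : ℝ) = f i 2 * w 1 / w 2 := by linarith
              have h2 : (f i 2 : ℝ) ≠ 0 := by
                intro h2
                apply hi
                funext j
                fin_cases j
                · have : (f i 0 : ℝ) = 0 := by rw [h0', h2]; simp
                  exact_mod_cast this
                · have : (f i 1 : ℝ) = 0 := by rw [h1', h2]; simp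
                  exact_mod_cast this
                · exact_mod_cast h2
              apply hf i hi (w 2 / f i 2)
              funext j
              fin_cases j
              · change w 0 = w 2 / f i 2 * (f i 0 : ℝ)
                rw [h0']; field_simp
              · change w 1 = w 2 / f i 2 * (f i 1 : ℝ)
                rw [h1']; field_simp
              · change w 2 = w 2 / f i 2 * (f i 2 : ℝ)
                field_simp)
          have : ∀ᵐ s : Fin 2 → ℝ, lf (f i) w s ≠ 0 := by
            rw [ae_iff]
            simp only [hl, ne_eq, not_not]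
            exact key
          filter_upwards [this] with s hs _ using hs
      filter_upwards [n1, n2, n3] with s h1 h2 h3
      have e1 : ∀ᶠ w' in 𝓝 w, (|w' 0 * s 0 + w' 1 * s 1| ≤ |w' 2| ↔
          |w 0 * s 0 + w 1 * s 1| ≤ |w 2|) := by
        have hg : ContinuousAt (fun w' : Fin 3 → ℝ => |w' 2| - |w' 0 * s 0 + w' 1 * s 1|) w :=
          (hcont0 2).abs.sub (((hcont0 0).mul continuousAt_const).add
            ((hcont0 1).mul continuousAt_const)).abs
        have hne : (fun w' : Fin 3 → ℝ => |w' 2| - |w' 0 * s 0 + w' 1 * s 1|) w ≠ 0 := by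
          intro h0
          have h0' : |w 0 * s 0 + w 1 * s 1| = |w 2| := by
            have : |w 2| - |w 0 * s 0 + w 1 * s 1| = 0 := h0
            linarith
          rcases abs_eq_abs.1 h0' with h | h
          · exact h1 h
          · exact h2 h
        filter_upwards [ev_iff hg hne] with w' hw'
        simpa only [sub_nonneg] using hw'
      have e2 : ∀ᶠ w' in 𝓝 w, ∀ i, (0 ≤ lf (f i) w' s ↔ 0 ≤ lf (f i) w s) := by
        rw [eventually_all]
        intro i
        by_cases hi : f i = 0
        · filter_upwards with w'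
          simp [lf, hi]
        · refine ev_iff (g := fun w' : Fin 3 → ℝ => lf (f i) w' s) ?_ (h3 i hi)
          unfold lf
          exact continuousAt_const.sub (continuousAt_const.mul
            ((((hcont0 0).mul continuousAt_const).add ((hcont0 1).mul continuousAt_const)).div
              (hcont0 2) hw))
      have e3 : ∀ᶠ w' in 𝓝 w, (KK f σ w').indicator (fun _ => (1 : ℝ)) s =
          (KK f σ w).indicator (fun _ => (1 : ℝ)) s := by
        filter_upwards [e1, e2] with w' h1' h2'
        have : s ∈ KK f σ w' ↔ s ∈ KK f σ w := by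
          simp only [KK, Set.mem_ofPred_eq, h1', h2']
        by_cases hs : s ∈ KK f σ w
        · rw [Set.indicator_of_mem hs, Set.indicator_of_mem (this.2 hs)]
        · rw [Set.indicator_of_notMem hs, Set.indicator_of_notMem (fun h => hs (this.1 h))]
      exact continuousAt_const.congr (e3.mono fun _ h => h.symm)
  have hV : Vv f σ = fun w' => |w' 2|⁻¹ * ∫ s, (KK f σ w').indicator (fun _ => (1 : ℝ)) s := by
    funext w'
    rw [← hI]
    rfl
  rw [hV]
  exact ((hcont0 2).abs.inv₀ (abs_ne_zero.2 hw)).mul main

end Pool.Agent.T6.H97.TA
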