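import Mathlib
import Pool.Agent.T6.H97.TA.Brg

/-!
Module Zer: zeros of determinants and bilinear forms.
-/

set_option autoImplicit false

namespace Pool.Agent.T6.H97.TA

namespace ModZer

open Finset Matrix
open Pool.Agent.H548.WM (ht bx mem_bx)
open Pool.Agent.H548.TL (g1 g2 g3 tf Sm s12 s23 Tx)

theorem card_bx (X : ℕ) : (bx 3 X).card = (2 * X + 1) ^ 3 := by
  unfold bx
  rw [Fintype.card_piFinset]
  simp only [Int.card_Icc, Fin.prod_univ_three]
  have : ((X : ℤ) + 1 - -(X : ℤ)).toNat = 2 * X + 1 := by omega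
  rw [this]
  ring

theorem zero_count (P : MvPolynomial (Fin 3) ℤ) (hP : P ≠ 0) (A : ℕ) :
    ((bx 3 A).filter fun x => MvPolynomial.eval x P = 0).card ≤ P.totalDegree * (2 * A + 1) ^ 2 := by
  classical
  have h := MvPolynomial.schwartz_zippel_totalDegree hP (Icc (-(A : ℤ)) A)
  have hc : (Icc (-(A : ℤ)) A).card = 2 * A + 1 := by
    rw [Int.card_Icc]
    omega
  rw [hc] at h
  have h0 : (0 : ℚ≥0) < ((2 * A + 1 : ℕ) : ℚ≥0) := by
    exact_mod_cast (by omega : 0 < 2 * A + 1)
  rw [div_le_div_iff₀ (by positivity) h0] at h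
  have h1 : (((bx 3 A).filter fun x => MvPolynomial.eval x P = 0).card) * (2 * A + 1) ≤
      P.totalDegree * (2 * A + 1) ^ 3 := by
    unfold bx
    exact_mod_cast h
  have h2 : P.totalDegree * (2 * A + 1) ^ 3 = (P.totalDegree * (2 * A + 1) ^ 2) * (2 * A + 1) := by
    ring
  rw [h2] at h1
  exact Nat.le_of_mul_le_mul_right h1 (by omega)

theorem lin_count (c : Fin 3 → ℤ) (hc : c ≠ 0) (A : ℕ) :
    ((bx 3 A).filter fun x => ∑ i, c i * x i = 0).card ≤ (2 * A + 1) ^ 2 := by
  classical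
  set P : MvPolynomial (Fin 3) ℤ := ∑ i, MvPolynomial.C (c i) * MvPolynomial.X i with hP
  have hev : ∀ x : Fin 3 → ℤ, MvPolynomial.eval x P = ∑ i, c i * x i := by
    intro x
    rw [hP, map_sum]
    refine Finset.sum_congr rfl fun i _ => ?_
    rw [map_mul, MvPolynomial.eval_C, MvPolynomial.eval_X]
  have hP0 : P ≠ 0 := by
    intro h0
    apply hc
    funext i
    have h1 := hev (Pi.single i 1)
    rw [h0, map_zero] at h1
    simp only [Pi.single_apply, mul_ite, mul_one, mul_zero, Finset.sum_ite_eq', mem_univ,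
      if_true] at h1
    exact h1.symm
  have hdeg : P.totalDegree ≤ 1 := by
    refine (MvPolynomial.totalDegree_finsetSum_le (d := 1) fun i _ => ?_)
    refine (MvPolynomial.totalDegree_mul _ _).trans ?_
    rw [MvPolynomial.totalDegree_C, MvPolynomial.totalDegree_X]
  have h := zero_count P hP0 A
  simp only [hev] at h
  refine h.trans ?_
  calc P.totalDegree * (2 * A + 1) ^ 2 ≤ 1 * (2 * A + 1) ^ 2 := Nat.mul_le_mul_right _ hdeg
    _ = _ := one_mul _

/-- The determinant as a polynomial. -/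
noncomputable def DP (T : T3) : MvPolynomial (Fin 3) ℤ := D1 T (fun i => MvPolynomial.X i)

theorem D1_map {R S : Type} [CommRing R] [CommRing S] (f : R →+* S) (T : T3) (x : Fin 3 → R) :
    f (D1 T x) = D1 T (fun i => f (x i)) := by
  unfold D1
  rw [RingHom.map_det]
  congr 1
  ext j k
  unfold Tx
  simp [map_sum]

theorem eval_DP (T : T3) (x : Fin 3 → ℤ) : MvPolynomial.eval x (DP T) = D1 T x := by
  unfold DP
  rw [D1_map (MvPolynomial.eval x) T]
  simp

theorem DP_ne {T : T3} (h : ∃ p : Fin 3 → ℂ, (Matrix.of (W978.QN.mp T p)).det ≠ 0) : DP T ≠ 0 := by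
  obtain ⟨p, hp⟩ := h
  rw [det_mp] at hp
  intro h0
  apply hp
  have h1 := D1_map (MvPolynomial.eval₂Hom (Int.castRingHom ℂ) p) T (fun i => MvPolynomial.X i)
  have h2 : D1 T (fun i => (MvPolynomial.eval₂Hom (Int.castRingHom ℂ) p)
      (MvPolynomial.X i : MvPolynomial (Fin 3) ℤ)) = D1 T p := by
    congr 1
    funext i
    simp
  rw [h2] at h1
  rw [← h1]
  have : (D1 T fun i => (MvPolynomial.X i : MvPolynomial (Fin 3) ℤ)) = 0 := h0
  rw [this, map_zero]

end ModZer

open ModZer in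
open Finset in
open Pool.Agent.H548.WM (ht bx mem_bx) in
open Pool.Agent.H548.TL (g1 g2 g3 tf Sm s12 s23 Tx) in
theorem zer (hBr : StmtBr) : StmtZer := by
  classical
  intro T hs
  obtain ⟨-, hdet⟩ := hBr T hs
  obtain ⟨hrk, -⟩ := hBr (s12 (s23 T)) hs.s23.s12
  -- a nonzero coefficient
  have hne : ∃ i j, T i j 2 ≠ 0 := by
    obtain ⟨k, k', j, j', h⟩ := hrk (Pi.single 2 1) (by
      intro h0
      have := congrFun h0 2
      simp at this)
    by_contra hcon
    push Not at hcon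
    apply h
    have hz : ∀ k j, W978.QN.mp (s12 (s23 T)) (Pi.single 2 1 : Fin 3 → ℂ) k j = 0 := by
      intro k j
      unfold W978.QN.mp
      simp only [Pi.single_apply, mul_ite, mul_one, mul_zero, Finset.sum_ite_eq', mem_univ,
        if_true]
      have : s12 (s23 T) 2 j k = T j k 2 := rfl
      rw [this, hcon j k]
      simp
    unfold W978.QN.mnr
    simp only [hz]
    ring
  obtain ⟨i0, j0, hij⟩ := hne
  refine ⟨9 * (DP T).totalDegree + 243 + 243, by positivity, ?_⟩
  intro A B hA hB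
  have hA1 : (1 : ℝ) ≤ A := by exact_mod_cast hA
  have hB1 : (1 : ℝ) ≤ B := by exact_mod_cast hB
  have hA3 : (2 * (A : ℝ) + 1) ≤ 3 * A := by linarith
  have hB3 : (2 * (B : ℝ) + 1) ≤ 3 * B := by linarith
  constructor
  · have h := zero_count (DP T) (DP_ne hdet) A
    simp only [eval_DP] at h
    have h1 : ((((bx 3 A).filter fun x => D1 T x = 0).card : ℕ) : ℝ) ≤
        (DP T).totalDegree * (2 * (A : ℝ) + 1) ^ 2 := by exact_mod_cast h
    refine h1.trans ?_
    calc (DP T).totalDegree * (2 * (A : ℝ) + 1) ^ 2 ≤ (DP T).totalDegree * (3 * (A : ℝ)) ^ 2 := by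
          gcongr
      _ = 9 * (DP T).totalDegree * (A : ℝ) ^ 2 := by ring
      _ ≤ _ := by
          have : (0 : ℝ) ≤ (A : ℝ) ^ 2 := by positivity
          nlinarith
  · set c : (Fin 3 → ℤ) → Fin 3 → ℤ := fun x j => ∑ i, T i j 2 * x i with hc
    have hg : ∀ x y : Fin 3 → ℤ, g3 T x y 2 = ∑ j, c x j * y j := by
      intro x y
      unfold g3
      simp only [hc, Finset.sum_mul, Int.cast_id]
      exact Finset.sum_comm
    have hsub : ((bx 3 A ×ˢ bx 3 B).filter fun t => g3 T t.1 t.2 2 = 0) ⊆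
        (((bx 3 A).filter fun x => ∑ i, T i j0 2 * x i = 0) ×ˢ bx 3 B) ∪
        ((bx 3 A).filter fun x => c x ≠ 0).biUnion fun x =>
          ((bx 3 B).filter fun y => ∑ j, c x j * y j = 0).image fun y => (x, y) := by
      intro t ht
      rw [mem_filter, mem_product] at ht
      obtain ⟨⟨h1, h2⟩, h3⟩ := ht
      rw [hg] at h3
      rw [mem_union, mem_product, mem_biUnion]
      by_cases hcx : c t.1 = 0
      · left
        rw [mem_filter]
        exact ⟨⟨h1, congrFun hcx j0⟩, h2⟩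
      · right
        refine ⟨t.1, ?_, ?_⟩
        · rw [mem_filter]
          exact ⟨h1, hcx⟩
        · rw [mem_image]
          refine ⟨t.2, ?_, rfl⟩
          rw [mem_filter]
          exact ⟨h2, h3⟩
    have hcard : ((bx 3 A ×ˢ bx 3 B).filter fun t => g3 T t.1 t.2 2 = 0).card ≤
        (2 * A + 1) ^ 2 * (2 * B + 1) ^ 3 + (2 * A + 1) ^ 3 * (2 * B + 1) ^ 2 := by
      refine (Finset.card_le_card hsub).trans ((Finset.card_union_le _ _).trans ?_)
      apply add_le_add
      · rw [card_product, card_bx]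
        apply Nat.mul_le_mul_right
        exact lin_count (fun i => T i j0 2) (fun h0 => hij (congrFun h0 i0)) A
      · refine Finset.card_biUnion_le.trans ?_
        calc ∑ x ∈ (bx 3 A).filter (fun x => c x ≠ 0),
              (((bx 3 B).filter fun y => ∑ j, c x j * y j = 0).image fun y => (x, y)).card
            ≤ ∑ x ∈ (bx 3 A).filter (fun x => c x ≠ 0), (2 * B + 1) ^ 2 := by
              refine Finset.sum_le_sum fun x hx => ?_
              refine Finset.card_image_le.trans ?_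
              exact lin_count (c x) (mem_filter.1 hx).2 B
          _ = ((bx 3 A).filter (fun x => c x ≠ 0)).card * (2 * B + 1) ^ 2 := by
              rw [Finset.sum_const, smul_eq_mul]
          _ ≤ (2 * A + 1) ^ 3 * (2 * B + 1) ^ 2 := by
              apply Nat.mul_le_mul_right
              rw [← card_bx]
              exact Finset.card_le_card (filter_subset _ _)
    have h1 : ((((bx 3 A ×ˢ bx 3 B).filter fun t => g3 T t.1 t.2 2 = 0).card : ℕ) : ℝ) ≤
        (2 * (A : ℝ) + 1) ^ 2 * (2 * (B : ℝ) + 1) ^ 3 +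
          (2 * (A : ℝ) + 1) ^ 3 * (2 * (B : ℝ) + 1) ^ 2 := by exact_mod_cast hcard
    refine h1.trans ?_
    calc (2 * (A : ℝ) + 1) ^ 2 * (2 * (B : ℝ) + 1) ^ 3 +
          (2 * (A : ℝ) + 1) ^ 3 * (2 * (B : ℝ) + 1) ^ 2 ≤
          (3 * (A : ℝ)) ^ 2 * (3 * (B : ℝ)) ^ 3 + (3 * (A : ℝ)) ^ 3 * (3 * (B : ℝ)) ^ 2 := by gcongr
      _ = 243 * ((A : ℝ) ^ 2 * (B : ℝ) ^ 3 + (A : ℝ) ^ 3 * (B : ℝ) ^ 2) := by ring
      _ ≤ _ := by
          have h5 : (0 : ℝ) ≤ (A : ℝ) ^ 2 * (B : ℝ) ^ 3 + (A : ℝ) ^ 3 * (B : ℝ) ^ 2 := by positivity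
          have h6 : (0 : ℝ) ≤ (DP T).totalDegree := Nat.cast_nonneg _
          nlinarith

end Pool.Agent.T6.H97.TA
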