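import Mathlib
import Pool.Agent.T6.H97.TA.Riem
import Pool.Agent.T6.H97.TA.Equi
import Pool.Agent.T6.H97.TA.Vb
import Pool.Agent.T6.H97.TA.Vc
import Pool.Agent.T6.H97.TA.Ae
import Pool.Agent.T6.H97.TA.Dens
import Pool.Agent.T6.H97.TA.Avg
import Pool.Agent.T6.H97.TA.Q2
import Pool.Agent.T6.H97.TA.Tail
import Pool.Agent.T6.H97.TA.Zer
import Pool.Agent.T6.H97.TA.Br
import Pool.Agent.T6.H97.TA.Reg
import Pool.Agent.T6.H97.TA.Err
import Pool.Agent.T6.H97.TA.Few
import Pool.Agent.T6.H97.TA.Ub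
import Pool.Agent.T6.H97.TA.Box
import Pool.Agent.T6.H97.TA.Hy
import Pool.Agent.T6.H81.BG.L3
import Pool.Agent.T6.H81.BG.R3

/-!
The statements on boxes for the threefold product of the plane, without hypotheses.
-/

set_option autoImplicit false

namespace Pool.Agent.T6.H97.TA

/-- The number of the points in boxes. -/
theorem box_unc : StmtBox :=
  box (reg (equi riem) vb (ae vc br) (dens riem) (tail avg q2 br) (zer br))
    (err (Pool.Agent.T6.H81.BG.r3 Pool.Agent.T6.H81.BG.l3)) (few br)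

/-- The upper bound. -/
theorem ub_unc : StmtUb := ub br

end Pool.Agent.T6.H97.TA
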