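import Mathlib
import Pool.Agent.T6.H97.TA.Sym
import Pool.Agent.T6.H81.BG.A3

/-!
# From cells to all heights, and from the box asymptotics to cells
-/

set_option autoImplicit false

namespace Pool.Agent.T6.H97.TA

open Finset Module Matrix Filter Topology
open Pool.Agent.H548.WM (ht bx mem_bx Rep ht_pos)
open Pool.Agent.H548.BL (rep_ne)
open Pool.Agent.H548.TL (tf Sm s12 s23 Tx)
open Pool.Agent.T6.H81.BA (Cell cell_pos gcd_ne)
open Pool.Agent.T6.H81.BG (Pt StmtW3 StmtZ3 LFs Cone Phs ic CellT cellT_iff RepOK rep_iff fin_aux)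

/-- **The asymptotic formula** for all heights, from the asymptotic formula in cells. -/
theorem am_lim' (hW : StmtW3) (hZ : StmtZ3) {m : ℕ}
    {n r : Fin (m + 1) → ℕ} (hr1 : ∀ v, 1 ≤ r v) {P : Pt n → Prop}
    (hcs : ∀ (κ : Fin (m + 1) → Type) [∀ v, Fintype (κ v)] (f : ∀ v, κ v → Fin (n v) → ℤ)
      (σ : ∀ v, κ v → Bool) (q : ℕ), 1 ≤ q → ∀ r0 : Pt n,
      ∃ c : ℝ, Tendsto (fun B : ℝ => ({x : Pt n | (P x ∧ ∀ v, CellT (f v) (σ v) q (r0 v) (x v)) ∧
        ∏ v, (ht (x v) : ℝ) ^ r v ≤ B}.ncard : ℝ) / (B * Real.log B ^ m)) atTop (𝓝 c))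
    (X0 : Set (∀ v, Fin (n v) → ℝ))
    (X : ∀ p : Nat.Primes, Set (∀ v, Fin (n v) → ℚ_[p])) (hX0 : Cone X0) (hX : ∀ p, Cone (X p))
    (hP0 : ∀ x, P x → ic ℝ x ∈ X0) (hPp : ∀ x, P x → ∀ p : Nat.Primes, ic ℚ_[p] x ∈ X p)
    (ψ : (∀ v, Fin (n v) → ℝ) → ℝ) (S : Finset Nat.Primes)
    (φ : ∀ p : Nat.Primes, (∀ v, Fin (n v) → ℚ_[p]) → ℝ) (hψ : LFs X0 ψ)
    (hφ : ∀ p ∈ S, LFs (X p) (φ p)) :
    ∃ c : ℝ, Tendsto (fun B : ℝ => ({x : Pt n | (∀ v, Rep (x v)) ∧ P x ∧
      (∏ v, (ht (x v) : ℝ) ^ r v) * Phs ψ S φ x ≤ B}.ncard : ℝ) / (B * Real.log B ^ m))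
      atTop (𝓝 c) := by
  classical
  obtain ⟨⟨m0, m1, hm0, hmm⟩, hcells⟩ := hZ (m + 1) n X0 X ψ S φ hX0 hX hψ hφ
  set QQ : Set (Pt n) := {x | (∀ v, Rep (x v)) ∧ P x} with hQQ
  have hpos : ∀ x ∈ QQ, ∀ v, 1 ≤ ht (x v) := fun x hx v => ht_pos (rep_ne (hx.1 v))
  have key := hW m (Pt n) QQ (fun x => ∏ v, (ht (x v) : ℝ) ^ r v) (fun x => Phs ψ S φ x) m0 m1 hm0
    (fun x hx => hmm x (fun v => rep_ne (hx.1 v)) (hP0 x hx.2) (fun p _ => hPp x hx.2 p))
    (fun x hx => by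
      have h3 : ∀ u, (1 : ℝ) ≤ (ht (x u) : ℝ) ^ r u := fun u =>
        one_le_pow₀ (by exact_mod_cast hpos x hx u)
      have : ∏ u : Fin (m + 1), (1 : ℝ) ≤ ∏ u, (ht (x u) : ℝ) ^ r u :=
        Finset.prod_le_prod (fun _ _ => zero_le_one) fun u _ => h3 u
      simpa using this)
    (fun B => fin_aux hr1 QQ hpos B) (by
    intro ε hε
    obtain ⟨N, f, q, hq, hcell⟩ := hcells ε hε
    have : NeZero q := ⟨by omega⟩
    refine ⟨∀ v, (Fin N → Bool) × (Fin (n v) → Bool × Bool) × (Fin (n v) → ZMod q), inferInstance,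
      fun x v => (fun i => decide (0 ≤ f v i ⬝ᵥ x v),
        fun i => (decide (0 ≤ x v i), decide (0 ≤ -x v i)), fun j => ((x v j : ℤ) : ZMod q)),
      ?_, ?_⟩
    · rintro x ⟨h1, h2⟩ x' ⟨h1', h2'⟩ heq
      apply hcell x x' (fun v => (h1 v).1) (fun v => (h1' v).1) (hP0 x h2) (fun p _ => hPp x h2 p)
        (hP0 x' h2') (fun p _ => hPp x' h2' p)
      · intro v j
        have h3 := congrFun heq v
        simp only [Prod.mk.injEq] at h3
        exact (ZMod.intCast_eq_intCast_iff_dvd_sub _ _ _).1 (congrFun h3.2.2 j)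
      · intro v i
        have h3 := congrFun heq v
        simp only [Prod.mk.injEq] at h3
        have h4 := congrFun h3.1 i
        simp only [decide_eq_decide] at h4
        exact h4.symm
    · intro i
      by_cases hi : ∀ v, RepOK (i v).2.1
      · obtain ⟨c, hc⟩ := hcs (fun v => Fin N ⊕ (Fin (n v) ⊕ Fin (n v)))
          (fun v => Sum.elim (f v) (Sum.elim (fun j => Pi.single j 1) (fun j => Pi.single j (-1))))
          (fun v => Sum.elim (i v).1 (Sum.elim (fun j => ((i v).2.1 j).1)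
            (fun j => ((i v).2.1 j).2))) q hq (fun v j => (((i v).2.2 j).val : ℤ))
        refine ⟨c, hc.congr fun B => ?_⟩
        congr 3
        ext x
        rw [Set.mem_ofPred_eq, Set.mem_ofPred_eq]
        have hmod : ∀ (v : Fin (m + 1)) (ρ : Fin (n v) → ZMod q),
            (fun j => ((x v j : ℤ) : ZMod q)) = ρ ↔ ∀ j, (q : ℤ) ∣ x v j - ((ρ j).val : ℤ) := by
          intro v ρ
          rw [funext_iff]
          refine forall_congr' fun j => ?_
          rw [← ZMod.intCast_eq_intCast_iff_dvd_sub]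
          push_cast
          rw [ZMod.natCast_zmod_val]
          exact eq_comm
        have hcl : ∀ v, CellT (Sum.elim (f v) (Sum.elim (fun j => Pi.single j 1)
            (fun j => Pi.single j (-1)))) (Sum.elim (i v).1 (Sum.elim (fun j => ((i v).2.1 j).1)
            (fun j => ((i v).2.1 j).2))) q (fun j => (((i v).2.2 j).val : ℤ)) (x v) ↔
            univ.gcd (x v) = 1 ∧ ((fun i => decide (0 ≤ f v i ⬝ᵥ x v),
              fun i => (decide (0 ≤ x v i), decide (0 ≤ -x v i)),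
              fun j => ((x v j : ℤ) : ZMod q)) : (Fin N → Bool) × (Fin (n v) → Bool × Bool) ×
              (Fin (n v) → ZMod q)) = i v := by
          intro v
          unfold CellT
          refine and_congr_right fun _ => ?_
          rw [Prod.ext_iff, Prod.ext_iff]
          simp only [hmod]
          constructor
          · rintro ⟨h1, h2⟩
            refine ⟨?_, ?_, h1⟩
            · funext j
              have := h2 (Sum.inl j)
              simp only [Sum.elim_inl] at this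
              cases hb : (i v).1 j
              · rw [hb] at this
                simpa using this
              · rw [hb] at this
                simpa using this
            · funext j
              have h3 := h2 (Sum.inr (Sum.inl j))
              have h4 := h2 (Sum.inr (Sum.inr j))
              simp only [Sum.elim_inr, Sum.elim_inl, single_dotProduct, one_mul, neg_mul]
                at h3 h4
              apply Prod.ext
              · show decide (0 ≤ x v j) = ((i v).2.1 j).1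
                cases hb : ((i v).2.1 j).1
                · rw [hb] at h3
                  simpa using h3
                · rw [hb] at h3
                  simpa using h3
              · show decide (0 ≤ -x v j) = ((i v).2.1 j).2
                cases hb : ((i v).2.1 j).2
                · rw [hb] at h4
                  simpa using h4
                · rw [hb] at h4
                  simpa using h4
          · rintro ⟨h1, h2, h3⟩
            refine ⟨h3, ?_⟩
            rintro (j | j | j)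
            · have := congrFun h1 j
              simp only [Sum.elim_inl]
              rw [← this]
              simp
            · have := congrArg Prod.fst (congrFun h2 j)
              simp only [Sum.elim_inr, Sum.elim_inl, single_dotProduct, one_mul]
              rw [← this]
              simp
            · have := congrArg Prod.snd (congrFun h2 j)
              simp only [Sum.elim_inr, single_dotProduct, one_mul, neg_mul]
              rw [← this]
              simp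
        constructor
        · rintro ⟨⟨h1, h2⟩, h3⟩
          have h4 : ∀ v, _ := fun v => (hcl v).1 (h2 v)
          refine ⟨⟨fun v => ?_, h1⟩, ?_, h3⟩
          · rw [rep_iff]
            refine ⟨(h4 v).1, ?_⟩
            have h5 := hi v
            rw [← (h4 v).2] at h5
            exact h5
          · funext v
            exact (h4 v).2
        · rintro ⟨⟨h1, h2⟩, h3, h4⟩
          refine ⟨⟨h2, fun v => (hcl v).2 ⟨(h1 v).1, congrFun h3 v⟩⟩, h4⟩
      · refine ⟨0, ?_⟩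
        have h0 : ∀ B : ℝ, {x | x ∈ QQ ∧ (fun v => ((fun i => decide (0 ≤ f v i ⬝ᵥ x v),
            fun i => (decide (0 ≤ x v i), decide (0 ≤ -x v i)),
            fun j => ((x v j : ℤ) : ZMod q)) : (Fin N → Bool) × (Fin (n v) → Bool × Bool) ×
              (Fin (n v) → ZMod q))) = i ∧ ∏ v, (ht (x v) : ℝ) ^ r v ≤ B} = ∅ := by
          intro B
          rw [Set.eq_empty_iff_forall_notMem]
          rintro x ⟨⟨h1, -⟩, h2, -⟩
          apply hi
          intro v
          rw [← h2]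
          exact ((rep_iff (x v)).1 (h1 v)).2
        simp only [h0, Set.ncard_empty, Nat.cast_zero, zero_div]
        exact tendsto_const_nhds)
  obtain ⟨c, hc⟩ := key
  refine ⟨c, hc.congr fun B => ?_⟩
  congr 3
  ext x
  exact and_assoc

/-! ### The constants for the three blocks agree -/

/-- The asymptotic formula for boxes with a large block `v`. -/
def Asy (F : (Fin 3 → ℕ) → ℝ) (v : Fin 3) (κ : ℝ) : Prop :=
  ∀ ε : ℝ, 0 < ε → ∃ M : ℕ, ∀ X : Fin 3 → ℕ, (∀ v, M ≤ X v) →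
    (∏ u ∈ univ.erase v, (X u : ℝ)) ^ (1 + ε) ≤ (X v : ℝ) ^ 2 →
    |F X - κ * ∏ v, (X v : ℝ) ^ 2| ≤ ε * ∏ v, (X v : ℝ) ^ 2

theorem asy_eq {F : (Fin 3 → ℕ) → ℝ} {v v' : Fin 3} (hv : v ≠ v') {κ κ' : ℝ} (h : Asy F v κ)
    (h' : Asy F v' κ') : κ = κ' := by
  by_contra hne
  have hpos : 0 < |κ - κ'| := abs_pos.2 (sub_ne_zero.2 hne)
  set ε : ℝ := min (1 / 2) (|κ - κ'| / 4) with hε
  have hε0 : 0 < ε := lt_min (by norm_num) (by positivity)
  have hε1 : ε ≤ 1 / 2 := min_le_left _ _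
  have hε2 : ε ≤ |κ - κ'| / 4 := min_le_right _ _
  obtain ⟨M, hM⟩ := h ε hε0
  obtain ⟨M', hM'⟩ := h' ε hε0
  set m : ℕ := M + M' + 1 with hm
  set Y : ℕ := m ^ 3 with hY
  have hm1 : 1 ≤ m := by omega
  have hmY : m ≤ Y := Nat.le_self_pow (by norm_num) m
  have hmr : (1 : ℝ) ≤ m := by exact_mod_cast hm1
  have hYr : (Y : ℝ) = (m : ℝ) ^ 3 := by rw [hY]; push_cast; ring
  have hY1 : (1 : ℝ) ≤ Y := by rw [hYr]; exact one_le_pow₀ hmr
  set X : Fin 3 → ℕ := fun u => if u = v ∨ u = v' then Y else m with hX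
  have hX1 : ∀ u, m ≤ X u := by
    intro u
    simp only [hX]
    split_ifs
    · exact hmY
    · exact le_rfl
  have hXv : X v = Y := by simp [hX]
  have hXv' : X v' = Y := by simp [hX]
  have hkey : ((m : ℝ) * Y) ^ (1 + ε) ≤ (Y : ℝ) ^ 2 := by
    have h1 : (1 : ℝ) ≤ m * Y := one_le_mul_of_one_le_of_one_le hmr hY1
    calc ((m : ℝ) * Y) ^ (1 + ε) ≤ ((m : ℝ) * Y) ^ (3 / 2 : ℝ) :=
          Real.rpow_le_rpow_of_exponent_le h1 (by linarith)
      _ = ((m : ℝ) ^ 4) ^ (3 / 2 : ℝ) := by rw [hYr]; ring_nf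
      _ = (m : ℝ) ^ 6 := by
          rw [← Real.rpow_natCast, ← Real.rpow_natCast, ← Real.rpow_mul (by linarith)]
          norm_num
      _ = (Y : ℝ) ^ 2 := by rw [hYr]; ring
  have hprod : ∀ w w' : Fin 3, w ≠ w' → (w = v ∧ w' = v' ∨ w = v' ∧ w' = v) →
      ∏ u ∈ univ.erase w, (X u : ℝ) = (m : ℝ) * Y := by
    intro w w' hww h
    rw [← Finset.mul_prod_erase (univ.erase w) _ (mem_erase.2 ⟨hww.symm, mem_univ w'⟩)]
    have h1 : X w' = Y := by
      rcases h with ⟨h2, h3⟩ | ⟨h2, h3⟩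
      · rw [h3]; exact hXv'
      · rw [h3]; exact hXv
    rw [h1]
    have h2 : ∏ u ∈ (univ.erase w).erase w', (X u : ℝ) = ∏ _u ∈ (univ.erase w).erase w', (m : ℝ) := by
      refine Finset.prod_congr rfl fun u hu => ?_
      rw [mem_erase, mem_erase] at hu
      have : ¬ (u = v ∨ u = v') := by
        rcases h with ⟨h2, h3⟩ | ⟨h2, h3⟩
        · rw [← h2, ← h3]; tauto
        · rw [← h2, ← h3]; tauto
      simp only [hX, if_neg this]
    rw [h2, Finset.prod_const, card_erase_of_mem (mem_erase.2 ⟨hww.symm, mem_univ w'⟩),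
      card_erase_of_mem (mem_univ w)]
    simp
    ring
  have e1 := hM X (fun u => le_trans (by omega) (hX1 u)) (by
    rw [hprod v v' hv (Or.inl ⟨rfl, rfl⟩), hXv]
    exact hkey)
  have e2 := hM' X (fun u => le_trans (by omega) (hX1 u)) (by
    rw [hprod v' v hv.symm (Or.inr ⟨rfl, rfl⟩), hXv']
    exact hkey)
  set Wp : ℝ := ∏ v, (X v : ℝ) ^ 2 with hWp
  have hWp0 : 0 < Wp := by
    rw [hWp]
    refine Finset.prod_pos fun u _ => ?_
    have : 0 < X u := lt_of_lt_of_le hm1 (hX1 u)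
    positivity
  have e3 : |κ - κ'| * Wp ≤ 2 * ε * Wp := by
    calc |κ - κ'| * Wp = |(κ - κ') * Wp| := by rw [abs_mul, abs_of_pos hWp0]
      _ = |(F X - κ' * Wp) - (F X - κ * Wp)| := by congr 1; ring
      _ ≤ |F X - κ' * Wp| + |F X - κ * Wp| := abs_sub _ _
      _ ≤ ε * Wp + ε * Wp := add_le_add e2 e1
      _ = 2 * ε * Wp := by ring
  have e4 : |κ - κ'| ≤ 2 * ε := le_of_mul_le_mul_right e3 hWp0
  linarith

theorem asy_all {F : (Fin 3 → ℕ) → ℝ} {κ κ1 κ0 : ℝ} (h2 : Asy F 2 κ) (h1 : Asy F 1 κ1)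
    (h0 : Asy F 0 κ0) : ∀ ε : ℝ, 0 < ε → ∃ M : ℕ, ∀ X : Fin 3 → ℕ, (∀ v, M ≤ X v) →
    (∃ v, (∏ u ∈ univ.erase v, (X u : ℝ)) ^ (1 + ε) ≤ (X v : ℝ) ^ 2) →
    |F X - κ * ∏ v, (X v : ℝ) ^ 2| ≤ ε * ∏ v, (X v : ℝ) ^ 2 := by
  have e1 : κ = κ1 := asy_eq (by decide) h2 h1
  have e0 : κ = κ0 := asy_eq (by decide) h2 h0
  subst e1
  subst e0
  intro ε hε
  obtain ⟨M2, hM2⟩ := h2 ε hε
  obtain ⟨M1, hM1⟩ := h1 ε hε
  obtain ⟨M0, hM0⟩ := h0 ε hε
  refine ⟨M2 + M1 + M0, ?_⟩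
  rintro X hX ⟨v, hv⟩
  fin_cases v
  · exact hM0 X (fun v => by have := hX v; omega) hv
  · exact hM1 X (fun v => by have := hX v; omega) hv
  · exact hM2 X (fun v => by have := hX v; omega) hv

theorem er0 (X : Fin 3 → ℝ) : ∏ u ∈ univ.erase (0 : Fin 3), X u = X 1 * X 2 := by
  have : (univ.erase (0 : Fin 3)) = {1, 2} := by decide
  rw [this, Finset.prod_pair (by decide)]

theorem er1 (X : Fin 3 → ℝ) : ∏ u ∈ univ.erase (1 : Fin 3), X u = X 0 * X 2 := by
  have : (univ.erase (1 : Fin 3)) = {0, 2} := by decide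
  rw [this, Finset.prod_pair (by decide)]

theorem er2 (X : Fin 3 → ℝ) : ∏ u ∈ univ.erase (2 : Fin 3), X u = X 0 * X 1 := by
  have : (univ.erase (2 : Fin 3)) = {0, 1} := by decide
  rw [this, Finset.prod_pair (by decide)]

/-- The asymptotic formula for boxes, away from the centre. -/
theorem box_all (hBox : StmtBox) (T : T3) (hs : Sm ℂ T) (c : Fin 3 → (Fin 3 → ℤ) → Prop)
    (hc : ∀ v, IsCell (c v)) : ∃ κ : ℝ, ∀ ε : ℝ, 0 < ε → ∃ M : ℕ, ∀ X : Fin 3 → ℕ,
    (∀ v, M ≤ X v) → (∃ v, (∏ u ∈ univ.erase v, (X u : ℝ)) ^ (1 + ε) ≤ (X v : ℝ) ^ 2) →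
    |(Cnt T (c 0) (c 1) (c 2) (X 0) (X 1) (X 2) : ℝ) - κ * ∏ v, (X v : ℝ) ^ 2| ≤
      ε * ∏ v, (X v : ℝ) ^ 2 := by
  obtain ⟨κ2, h2⟩ := hBox T hs (c 0) (c 1) (c 2) (hc 0) (hc 1) (hc 2)
  obtain ⟨κ1, h1⟩ := hBox (s23 T) hs.s23 (c 0) (c 2) (c 1) (hc 0) (hc 2) (hc 1)
  obtain ⟨κ0, h0⟩ := hBox (s23 (s12 T)) hs.s12.s23 (c 1) (c 2) (c 0) (hc 1) (hc 2) (hc 0)
  refine ⟨κ2, asy_all (F := fun X => (Cnt T (c 0) (c 1) (c 2) (X 0) (X 1) (X 2) : ℝ))
    (κ1 := κ1) (κ0 := κ0) ?_ ?_ ?_⟩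
  · intro ε hε
    obtain ⟨M, hM⟩ := h2 ε hε
    refine ⟨M, fun X hX hr => ?_⟩
    rw [er2 (fun u => (X u : ℝ))] at hr
    have := hM (X 0) (X 1) (X 2) (hX 0) (hX 1) hr
    rw [Fin.prod_univ_three]
    have e : ((X 0 : ℝ) * X 1 * X 2) ^ 2 = (X 0 : ℝ) ^ 2 * (X 1 : ℝ) ^ 2 * (X 2 : ℝ) ^ 2 := by ring
    rw [e] at this
    exact this
  · intro ε hε
    obtain ⟨M, hM⟩ := h1 ε hε
    refine ⟨M, fun X hX hr => ?_⟩
    rw [er1 (fun u => (X u : ℝ))] at hr
    have := hM (X 0) (X 2) (X 1) (hX 0) (hX 2) hr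
    rw [Fin.prod_univ_three]
    have e : ((X 0 : ℝ) * X 2 * X 1) ^ 2 = (X 0 : ℝ) ^ 2 * (X 1 : ℝ) ^ 2 * (X 2 : ℝ) ^ 2 := by ring
    rw [e, Cnt_s23] at this
    exact this
  · intro ε hε
    obtain ⟨M, hM⟩ := h0 ε hε
    refine ⟨M, fun X hX hr => ?_⟩
    rw [er0 (fun u => (X u : ℝ))] at hr
    have := hM (X 1) (X 2) (X 0) (hX 1) (hX 2) hr
    rw [Fin.prod_univ_three]
    have e : ((X 1 : ℝ) * X 2 * X 0) ^ 2 = (X 0 : ℝ) ^ 2 * (X 1 : ℝ) ^ 2 * (X 2 : ℝ) ^ 2 := by ring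
    rw [e, Cnt_s23, Cnt_s12] at this
    exact this

end Pool.Agent.T6.H97.TA
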