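import Mathlib
import Pool.Agent.T6.H97.TA.Lim
import Pool.Agent.Results.MP_1acd66_nt.TrilinearOrder

/-!
# Smooth divisors of type (1,1,1) in the threefold product of the plane: all heights
-/

set_option autoImplicit false

namespace Pool.Agent.T6.H97.TA

open Finset Module Matrix Filter Topology
open Pool.Agent.H548.WM (ht bx mem_bx ht_pos)
open Pool.Agent.H548.BL (rep_ne)
open Pool.Agent.H548.TL (g1 g2 g3 tf Sm s12 s23 Tx)
open Pool.Agent.T6.H81.BA (Cell cell_pos gcd_ne)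
open Pool.Agent.T6.H81.BG (Pt StmtW3 StmtZ3 LFs Cone Phs ic CellT cellT_iff RepOK rep_iff fin_aux
  am_pos)

/-- Three blocks of three coordinates. -/
abbrev n3 : Fin 3 → ℕ := fun _ => 3

/-- The open set of the divisor. -/
def PU (T : T3) (x : Pt n3) : Prop := U3 T (x 0) (x 1) (x 2)

theorem ncard_box (T : T3) (c : Fin 3 → (Fin 3 → ℤ) → Prop) (X : Fin 3 → ℕ) :
    {x : Pt n3 | x ∈ {x : Pt n3 | PU T x ∧ ∀ v, c v (x v)} ∧ ∀ v, ht (x v) ≤ X v}.Finite ∧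
    {x : Pt n3 | x ∈ {x : Pt n3 | PU T x ∧ ∀ v, c v (x v)} ∧ ∀ v, ht (x v) ≤ X v}.ncard =
      Cnt T (c 0) (c 1) (c 2) (X 0) (X 1) (X 2) := by
  classical
  set e : ((Fin 3 → ℤ) × (Fin 3 → ℤ) × (Fin 3 → ℤ)) → Pt n3 := fun t => ![t.1, t.2.1, t.2.2] with he
  have hinj : Function.Injective e := by
    intro t t' h
    have h0 := congrFun h 0
    have h1 := congrFun h 1
    have h2 := congrFun h 2
    exact Prod.ext h0 (Prod.ext h1 h2)
  have himg : {x : Pt n3 | x ∈ {x : Pt n3 | PU T x ∧ ∀ v, c v (x v)} ∧ ∀ v, ht (x v) ≤ X v} =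
      e '' (((bx 3 (X 0) ×ˢ bx 3 (X 1) ×ˢ bx 3 (X 2)).filter fun t =>
        U3 T t.1 t.2.1 t.2.2 ∧ c 0 t.1 ∧ c 1 t.2.1 ∧ c 2 t.2.2 : Finset _) : Set _) := by
    ext x
    rw [Set.mem_image, Set.mem_ofPred_eq, Set.mem_ofPred_eq]
    constructor
    · rintro ⟨⟨h1, h2⟩, h3⟩
      refine ⟨(x 0, x 1, x 2), ?_, ?_⟩
      · rw [Finset.mem_coe, mem_filter, mem_product, mem_product, mem_bx, mem_bx, mem_bx]
        exact ⟨⟨h3 0, h3 1, h3 2⟩, h1, h2 0, h2 1, h2 2⟩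
      · funext v
        fin_cases v <;> rfl
    · rintro ⟨t, ht, rfl⟩
      rw [Finset.mem_coe, mem_filter, mem_product, mem_product, mem_bx, mem_bx, mem_bx] at ht
      obtain ⟨⟨h3, h4, h5⟩, h6, h7, h8, h9⟩ := ht
      refine ⟨⟨h6, ?_⟩, ?_⟩
      · intro v
        fin_cases v
        · exact h7
        · exact h8
        · exact h9
      · intro v
        fin_cases v
        · exact h3
        · exact h4
        · exact h5
  constructor
  · rw [himg]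
    exact (Finset.finite_toSet _).image _
  · rw [himg, Set.ncard_image_of_injective _ hinj, Set.ncard_coe_finset]
    rfl

/-- The asymptotic formula in a cell. -/
theorem cell_lim (hBox : StmtBox) (hUb : StmtUb) (hHy : StmtHy) (T : T3) (hs : Sm ℂ T)
    (c : Fin 3 → (Fin 3 → ℤ) → Prop) (hc : ∀ v, IsCell (c v)) :
    ∃ k : ℝ, Tendsto (fun B : ℝ => ({x : Pt n3 | (PU T x ∧ ∀ v, c v (x v)) ∧
      ∏ v, (ht (x v) : ℝ) ^ 2 ≤ B}.ncard : ℝ) / (B * Real.log B ^ 2)) atTop (𝓝 k) := by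
  obtain ⟨κ, hκ⟩ := box_all hBox T hs c hc
  obtain ⟨C, hC, hub⟩ := hUb T hs
  refine ⟨κ / 2, ?_⟩
  have h := hHy (Pt n3) {x : Pt n3 | PU T x ∧ ∀ v, c v (x v)} (fun v x => ht (x v)) (by
    rintro x ⟨-, hx⟩ v
    have h1 : Pr (x v) := (hc v).pr _ (hx v)
    exact ht_pos (gcd_ne h1)) (fun X => (ncard_box T c X).1) κ C (by
    intro X hX
    rw [(ncard_box T c X).2]
    have h1 := hub (X 0) (X 1) (X 2) (hX 0) (hX 1) (hX 2)
    have h2 : ((Cnt T (c 0) (c 1) (c 2) (X 0) (X 1) (X 2) : ℕ) : ℝ) ≤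
        (Cnt T Pr Pr Pr (X 0) (X 1) (X 2) : ℕ) := by
      exact_mod_cast Cnt_mono T (hc 0).pr (hc 1).pr (hc 2).pr _ _ _
    refine (h2.trans h1).trans (le_of_eq ?_)
    rw [Fin.prod_univ_three]
    ring) (by
    intro ε hε
    obtain ⟨M, hM⟩ := hκ ε hε
    refine ⟨M, fun X hX hr => ?_⟩
    rw [(ncard_box T c X).2]
    exact hM X hX hr)
  exact h

/-! ### Cones -/

theorem tf_smul {K : Type} [Field K] (T : T3) (s0 s1 s2 : K) (x y z : Fin 3 → K) :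
    tf T (s0 • x) (s1 • y) (s2 • z) = s0 * s1 * s2 * tf T x y z := by
  unfold tf
  simp only [Finset.mul_sum, Pi.smul_apply, smul_eq_mul]
  refine Finset.sum_congr rfl fun i _ => Finset.sum_congr rfl fun j _ =>
    Finset.sum_congr rfl fun k _ => ?_
  ring

theorem cone_tf {K : Type} [NormedField K] (T : T3) :
    Cone (n := n3) {x : ∀ v, Fin (n3 v) → K | tf T (x 0) (x 1) (x 2) = 0} := by
  constructor
  · apply isClosed_eq _ continuous_const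
    unfold tf
    fun_prop
  · intro x hx s _
    rw [Set.mem_ofPred_eq] at hx ⊢
    show tf T (s 0 • x 0) (s 1 • x 1) (s 2 • x 2) = 0
    rw [tf_smul, hx, mul_zero]

theorem tf_cast {R : Type} [CommRing R] (T : T3) (x y z : Fin 3 → ℤ) :
    tf T (fun i => ((x i : ℤ) : R)) (fun i => ((y i : ℤ) : R)) (fun i => ((z i : ℤ) : R)) =
      ((tf T x y z : ℤ) : R) := by
  unfold tf
  push_cast
  rfl

/-! ### All heights -/

theorem all_lim (hBox : StmtBox) (hUb : StmtUb) (hHy : StmtHy) (hW : StmtW3) (hZ : StmtZ3)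
    (T : T3) (hs : Sm ℂ T) (ψ : (∀ v, Fin (n3 v) → ℝ) → ℝ) (S : Finset Nat.Primes)
    (φ : ∀ p : Nat.Primes, (∀ v, Fin (n3 v) → ℚ_[p]) → ℝ)
    (hψ : LFs {x : ∀ v, Fin (n3 v) → ℝ | tf T (x 0) (x 1) (x 2) = 0} ψ)
    (hφ : ∀ p ∈ S, LFs {x : ∀ v, Fin (n3 v) → ℚ_[p] | tf T (x 0) (x 1) (x 2) = 0} (φ p)) :
    ∃ c : ℝ, Tendsto (fun B : ℝ => ({x : Pt n3 | (∀ v, Pool.Agent.H548.WM.Rep (x v)) ∧ PU T x ∧
      (∏ v, (ht (x v) : ℝ) ^ 2) * Phs ψ S φ x ≤ B}.ncard : ℝ) / (B * Real.log B ^ 2))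
      atTop (𝓝 c) := by
  refine am_lim' (m := 2) (n := n3) (r := fun _ => 2) hW hZ (fun _ => by norm_num) (P := PU T) ?_
    {x : ∀ v, Fin (n3 v) → ℝ | tf T (x 0) (x 1) (x 2) = 0}
    (fun p => {x : ∀ v, Fin (n3 v) → ℚ_[p] | tf T (x 0) (x 1) (x 2) = 0}) (cone_tf T)
    (fun p => cone_tf T) ?_ ?_ ψ S φ hψ hφ
  · intro κ _ f σ q hq r0
    refine cell_lim hBox hUb hHy T hs (fun v => CellT (f v) (σ v) q (r0 v)) ?_
    intro v
    have e := (Fintype.equivFin (κ v)).symm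
    exact ⟨_, f v ∘ e, σ v ∘ e, q, r0 v, hq, fun z => cellT_iff e _ _ _ _ _⟩
  · intro x hx
    show tf T (fun i => ((x 0 i : ℤ) : ℝ)) (fun i => ((x 1 i : ℤ) : ℝ))
      (fun i => ((x 2 i : ℤ) : ℝ)) = 0
    rw [tf_cast, hx.1, Int.cast_zero]
  · intro x hx p
    show tf T (fun i => ((x 0 i : ℤ) : ℚ_[p])) (fun i => ((x 1 i : ℤ) : ℚ_[p]))
      (fun i => ((x 2 i : ℤ) : ℚ_[p])) = 0
    rw [tf_cast, hx.1, Int.cast_zero]

end Pool.Agent.T6.H97.TA
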