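import Mathlib

set_option autoImplicit false

/-!
Module Dens, part A: the number of solutions of a linear congruence in two variables.
-/

namespace Pool.Agent.T6.H97.TA.ModDens

open Finset

/-- The homomorphism of a linear form in two variables. -/
def lin (m : ℕ) (w0 w1 : ℤ) : ZMod m × ZMod m →+ ZMod m where
  toFun t := (w0 : ZMod m) * t.1 + (w1 : ZMod m) * t.2
  map_zero' := by simp
  map_add' s t := by simp only [Prod.fst_add, Prod.snd_add]; ring

theorem lin_apply (m : ℕ) (w0 w1 : ℤ) (t : ZMod m × ZMod m) :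
    lin m w0 w1 t = (w0 : ZMod m) * t.1 + (w1 : ZMod m) * t.2 := rfl

theorem mem_range_lin {m : ℕ} (hm : 0 < m) {w0 w1 : ℤ} {g : ℕ}
    (hg0 : (g : ℤ) ∣ w0) (hg1 : (g : ℤ) ∣ w1) (hgm : (g : ℤ) ∣ m)
    (hb : ∃ x y z : ℤ, (g : ℤ) = w0 * x + w1 * y + m * z) (a : ℤ) :
    ((a : ZMod m) ∈ Set.range (lin m w0 w1)) ↔ (g : ℤ) ∣ a := by
  have : NeZero m := ⟨hm.ne'⟩
  constructor
  · rintro ⟨⟨s, t⟩, h⟩
    rw [lin_apply] at h
    simp only at h
    rw [← ZMod.natCast_zmod_val s, ← ZMod.natCast_zmod_val t] at h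
    have h2 : ((w0 * (s.val : ℤ) + w1 * (t.val : ℤ) : ℤ) : ZMod m) = ((a : ℤ) : ZMod m) := by
      push_cast
      exact h
    rw [ZMod.intCast_eq_intCast_iff_dvd_sub] at h2
    have h3 : (g : ℤ) ∣ a - (w0 * (s.val : ℤ) + w1 * (t.val : ℤ)) := hgm.trans h2
    have h4 : (g : ℤ) ∣ w0 * (s.val : ℤ) + w1 * (t.val : ℤ) :=
      dvd_add (hg0.mul_right _) (hg1.mul_right _)
    have := dvd_add h3 h4
    simpa using this
  · rintro ⟨b, rfl⟩
    obtain ⟨x, y, z, h⟩ := hb
    refine ⟨(((x * b : ℤ) : ZMod m), ((y * b : ℤ) : ZMod m)), ?_⟩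
    rw [lin_apply]
    simp only
    rw [h]
    push_cast
    rw [ZMod.natCast_self]
    ring

theorem card_range_lin {m : ℕ} (hm : 0 < m) {w0 w1 : ℤ} {g : ℕ} (hg : 0 < g)
    (hg0 : (g : ℤ) ∣ w0) (hg1 : (g : ℤ) ∣ w1) (hgm : g ∣ m)
    (hb : ∃ x y z : ℤ, (g : ℤ) = w0 * x + w1 * y + m * z) :
    Nat.card (Set.range (lin m w0 w1)) = m / g := by
  have : NeZero m := ⟨hm.ne'⟩
  have h1 : (Set.range (lin m w0 w1) : Set (ZMod m)) =
      (AddSubgroup.zmultiples ((g : ℕ) : ZMod m) : Set (ZMod m)) := by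
    ext a
    rw [← ZMod.natCast_zmod_val a]
    have h2 := mem_range_lin hm hg0 hg1 (by exact_mod_cast hgm) hb (a.val : ℤ)
    rw [Int.cast_natCast] at h2
    rw [h2, SetLike.mem_coe, AddSubgroup.mem_zmultiples_iff]
    constructor
    · rintro ⟨b, hb⟩
      refine ⟨b, ?_⟩
      have := congrArg (fun z : ℤ => (z : ZMod m)) hb
      simp only [Int.cast_natCast, Int.cast_mul] at this
      rw [this, zsmul_eq_mul, mul_comm]
    · rintro ⟨k, hk⟩
      have h3 : ((k * (g : ℤ) : ℤ) : ZMod m) = (((a.val : ℕ) : ℤ) : ZMod m) := by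
        push_cast
        rw [← hk, zsmul_eq_mul]
      rw [ZMod.intCast_eq_intCast_iff_dvd_sub] at h3
      have h4 : (g : ℤ) ∣ (a.val : ℤ) - k * g := (by exact_mod_cast hgm : (g : ℤ) ∣ m).trans h3
      have := dvd_add h4 (Dvd.intro_left k rfl : (g : ℤ) ∣ k * g)
      simpa using this
  rw [h1]
  have h5 : Nat.card (AddSubgroup.zmultiples ((g : ℕ) : ZMod m)) = m / g := by
    rw [Nat.card_zmultiples, ZMod.addOrderOf_coe _ hm.ne', Nat.gcd_eq_right hgm]
  exact h5

theorem card_sol {m : ℕ} [NeZero m] {w0 w1 : ℤ} {g : ℕ} (hg : 0 < g)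
    (hg0 : (g : ℤ) ∣ w0) (hg1 : (g : ℤ) ∣ w1) (hgm : g ∣ m)
    (hb : ∃ x y z : ℤ, (g : ℤ) = w0 * x + w1 * y + m * z) (a : ℤ) :
    (univ.filter fun t : ZMod m × ZMod m => lin m w0 w1 t = (a : ZMod m)).card =
      if (g : ℤ) ∣ a then g * m else 0 := by
  classical
  have hm : 0 < m := Nat.pos_of_ne_zero (NeZero.ne m)
  have hmem := mem_range_lin hm hg0 hg1 (by exact_mod_cast hgm) hb
  split_ifs with ha
  · have hR : Nat.card (Set.range (lin m w0 w1)) = m / g := card_range_lin hm hg hg0 hg1 hgm hb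
    have h1 : (univ : Finset (ZMod m × ZMod m)).card =
        ∑ b ∈ (Set.range (lin m w0 w1)).toFinset,
          (univ.filter fun t : ZMod m × ZMod m => lin m w0 w1 t = b).card :=
      card_eq_sum_card_fiberwise (fun t _ => by simp)
    have h2 : ∀ b ∈ (Set.range (lin m w0 w1)).toFinset,
        (univ.filter fun t : ZMod m × ZMod m => lin m w0 w1 t = b).card =
        (univ.filter fun t : ZMod m × ZMod m => lin m w0 w1 t = (a : ZMod m)).card := by
      intro b hb'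
      exact AddMonoidHom.card_fiber_eq_of_mem_range _ (by simpa using hb') ((hmem a).2 ha)
    rw [sum_congr rfl h2, sum_const, smul_eq_mul, card_univ, Fintype.card_prod, ZMod.card] at h1
    have h3 : (Set.range (lin m w0 w1)).toFinset.card = m / g := by
      rw [← hR, Nat.card_eq_card_toFinset]
    rw [h3] at h1
    obtain ⟨k, rfl⟩ := hgm
    rw [Nat.mul_div_cancel_left _ hg] at h1
    have hk : 0 < k := Nat.pos_of_mul_pos_left hm
    refine Nat.eq_of_mul_eq_mul_left hk ?_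
    rw [← h1]
    ring
  · rw [card_eq_zero, filter_eq_empty_iff]
    intro t _ ht
    exact ha ((hmem a).1 ⟨t, ht⟩)

end Pool.Agent.T6.H97.TA.ModDens
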