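import Pool.Agent.T6.H97.TA.Defs
import Pool.Agent.T6.H97.TA.DensA

set_option autoImplicit false

/-!
Module Dens, part B: lattice points of a plane region in a residue class.
-/

namespace Pool.Agent.T6.H97.TA.ModDens

open Finset Matrix Filter Topology MeasureTheory
open Pool.Agent.H548.WM (ht bx)
open Pool.Agent.T6.H81.BA (Cell)

/-- The region of the definition of `Vv`. -/
def KK {n : ℕ} (f : Fin n → Fin 3 → ℤ) (σ : Fin n → Bool) (w : Fin 3 → ℝ) : Set (Fin 2 → ℝ) :=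
  {s : Fin 2 → ℝ | |s 0| ≤ 1 ∧ |s 1| ≤ 1 ∧ |w 0 * s 0 + w 1 * s 1| ≤ |w 2| ∧
    ∀ i, (0 ≤ (f i 0 : ℝ) * s 0 + f i 1 * s 1 - f i 2 * ((w 0 * s 0 + w 1 * s 1) / w 2) ↔
      σ i = true)}

theorem abs_convex (a b c : ℝ) : Convex ℝ {s : Fin 2 → ℝ | |a * s 0 + b * s 1| ≤ c} := by
  have : {s : Fin 2 → ℝ | |a * s 0 + b * s 1| ≤ c} =
      {s : Fin 2 → ℝ | -c ≤ a * s 0 + b * s 1} ∩ {s : Fin 2 → ℝ | a * s 0 + b * s 1 ≤ c} := by
    ext s
    simp only [Set.mem_inter_iff, Set.mem_ofPred_eq, abs_le]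
  rw [this]
  have hl : IsLinearMap ℝ (fun s : Fin 2 → ℝ => a * s 0 + b * s 1) :=
    ⟨fun x y => by simp only [Pi.add_apply]; ring, fun t x => by
      simp only [Pi.smul_apply, smul_eq_mul]; ring⟩
  exact (convex_halfSpace_ge hl _).inter (convex_halfSpace_le hl _)

theorem KK_convex {n : ℕ} (f : Fin n → Fin 3 → ℤ) (σ : Fin n → Bool) (w : Fin 3 → ℝ) :
    Convex ℝ (KK f σ w) := by
  have h1 : KK f σ w = {s : Fin 2 → ℝ | |1 * s 0 + 0 * s 1| ≤ 1} ∩
      ({s : Fin 2 → ℝ | |0 * s 0 + 1 * s 1| ≤ 1} ∩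
      ({s : Fin 2 → ℝ | |w 0 * s 0 + w 1 * s 1| ≤ |w 2|} ∩
      ⋂ i, {s : Fin 2 → ℝ | (0 ≤ (f i 0 : ℝ) * s 0 + f i 1 * s 1 -
        f i 2 * ((w 0 * s 0 + w 1 * s 1) / w 2) ↔ σ i = true)})) := by
    ext s
    simp only [KK, Set.mem_inter_iff, Set.mem_iInter, one_mul, zero_mul, add_zero, zero_add]
    rfl
  rw [h1]
  refine (abs_convex _ _ _).inter ((abs_convex _ _ _).inter ((abs_convex _ _ _).inter ?_))
  refine convex_iInter fun i => ?_
  have hl : IsLinearMap ℝ (fun s : Fin 2 → ℝ => (f i 0 : ℝ) * s 0 + f i 1 * s 1 -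
        f i 2 * ((w 0 * s 0 + w 1 * s 1) / w 2)) :=
    ⟨fun x y => by simp only [Pi.add_apply]; ring, fun t x => by
      simp only [Pi.smul_apply, smul_eq_mul]; ring⟩
  by_cases hσ : σ i = true
  · simp only [hσ, iff_true]
    exact convex_halfSpace_ge hl 0
  · have hσ' : (σ i = true) = False := eq_false hσ
    simp only [hσ', iff_false, not_le]
    exact convex_halfSpace_lt hl 0

theorem Vv_eq {n : ℕ} (f : Fin n → Fin 3 → ℤ) (σ : Fin n → Bool) (w : Fin 3 → ℝ) :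
    Vv f σ w = |w 2|⁻¹ * (volume (KK f σ w)).toReal := rfl

theorem sfi {ι : Type} [Fintype ι] (e1 e2 : DecidableEq ι) (t : ι → Finset ℤ)
    (p : (ι → ℤ) → Prop) (d1 d2 : DecidablePred p) (f : (ι → ℤ) → ℝ) :
    (∑ z ∈ @Finset.filter _ p d1 (@Fintype.piFinset ι e1 _ _ t), f z) =
      ∑ z ∈ @Finset.filter _ p d2 (@Fintype.piFinset ι e2 _ _ t), f z := by
  have h : d1 = d2 := funext fun _ => Subsingleton.elim _ _
  have h' : e1 = e2 := funext fun _ => funext fun _ => Subsingleton.elim _ _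
  subst h
  subst h'
  rfl

open Classical in
theorem riem_class (hR : StmtRiem) (K : Set (Fin 2 → ℝ)) (hK : Convex ℝ K)
    (hb : ∀ s ∈ K, |s 0| ≤ 1 ∧ |s 1| ≤ 1) (N : ℕ) (hN : 1 ≤ N) (ρ : Fin 2 → ℤ) :
    Tendsto (fun Y : ℕ => ((((Fintype.piFinset fun _ : Fin 2 => Icc (-(Y : ℤ)) Y).filter
      (fun z => (∀ i, (N : ℤ) ∣ z i - ρ i) ∧
        (fun i => (z i : ℝ) / (Y : ℝ)) ∈ K)).card : ℕ) : ℝ) / (Y : ℝ) ^ 2) atTop
      (𝓝 ((volume K).toReal / (N : ℝ) ^ 2)) := by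
  set h : (Fin 2 → ℝ) → ℝ := K.indicator (fun _ => 1) with hh
  have hab : ∀ x, |h x| ≤ 1 := by
    intro x
    by_cases hx : x ∈ K
    · rw [hh, Set.indicator_of_mem hx]; simp
    · rw [hh, Set.indicator_of_notMem hx]; simp
  have hsupp : ∀ x : Fin 2 → ℝ, (∃ i, 1 < |x i|) → h x = 0 := by
    rintro x ⟨i, hi⟩
    rw [hh]
    refine Set.indicator_of_notMem (fun hx => ?_) _
    have := hb x hx
    fin_cases i
    · exact absurd hi (not_lt.2 this.1)
    · exact absurd hi (not_lt.2 this.2)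
  have hae : ∀ᵐ x : Fin 2 → ℝ, ContinuousAt h x := by
    have h0 : volume (frontier K) = 0 := hK.addHaar_frontier volume
    have : ∀ᵐ x : Fin 2 → ℝ, x ∉ frontier K := by
      rw [ae_iff]; simpa using h0
    filter_upwards [this] with x hx
    by_cases hx1 : x ∈ interior K
    · have : h =ᶠ[𝓝 x] fun _ => 1 := by
        filter_upwards [isOpen_interior.mem_nhds hx1] with y hy
        rw [hh, Set.indicator_of_mem (interior_subset hy)]
      exact (continuousAt_const.congr this.symm)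
    · have hx2 : x ∉ closure K := fun h2 => hx ⟨h2, hx1⟩
      have : h =ᶠ[𝓝 x] fun _ => 0 := by
        filter_upwards [isClosed_closure.isOpen_compl.mem_nhds hx2] with y hy
        rw [hh, Set.indicator_of_notMem (fun h3 => hy (subset_closure h3))]
      exact (continuousAt_const.congr this.symm)
  have hint : ∫ x, h x = (volume K).toReal := by
    rw [hh, integral_indicator₀ (hK.nullMeasurableSet volume)]
    simp [Measure.real]
  rw [Metric.tendsto_atTop]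
  intro ε hε
  obtain ⟨M, hM, hM2⟩ := hR (Fin 2) h 1 1 hab hsupp hae N hN (ε / 2) (by positivity)
  refine ⟨max ⌈M⌉₊ 1, fun Y hY => ?_⟩
  have hY1 : 1 ≤ Y := le_trans (le_max_right _ _) hY
  have hYM : M ≤ Y := (Nat.le_ceil M).trans (by exact_mod_cast (le_max_left _ _).trans hY)
  have hYpos : (0 : ℝ) < Y := by exact_mod_cast hY1
  have := hM2 (fun _ => (Y : ℝ)) (fun _ => hYM) ρ Y (fun _ => by simp)
  rw [hint, Fin.prod_univ_two, Fintype.card_fin] at this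
  have hs : (∑ z ∈ (Fintype.piFinset fun _ : Fin 2 => Icc (-(Y : ℤ)) Y).filter
        (fun z => ∀ i, (N : ℤ) ∣ z i - ρ i), h (fun i => (z i : ℝ) / (Y : ℝ))) =
      ((((Fintype.piFinset fun _ : Fin 2 => Icc (-(Y : ℤ)) Y).filter
      (fun z => (∀ i, (N : ℤ) ∣ z i - ρ i) ∧
        (fun i => (z i : ℝ) / (Y : ℝ)) ∈ K)).card : ℕ) : ℝ) := by
    rw [← filter_filter, card_filter]
    push_cast
    refine sum_congr rfl fun z _ => ?_
    rw [hh, Set.indicator_apply]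
  have this2 : |(∑ z ∈ (Fintype.piFinset fun _ : Fin 2 => Icc (-(Y : ℤ)) Y).filter
        (fun z => ∀ i, (N : ℤ) ∣ z i - ρ i), h (fun i => (z i : ℝ) / (Y : ℝ))) -
      (volume K).toReal * ((Y : ℝ) * Y) / (N : ℝ) ^ 2| ≤ ε / 2 * ((Y : ℝ) * Y) := by
    refine le_trans (le_of_eq ?_) this
    exact congrArg (fun t : ℝ => |t - _|) (sfi _ _ _ _ _ _ _)
  rw [hs] at this2
  rw [Real.dist_eq]
  set c := ((((Fintype.piFinset fun _ : Fin 2 => Icc (-(Y : ℤ)) Y).filter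
      (fun z => (∀ i, (N : ℤ) ∣ z i - ρ i) ∧
        (fun i => (z i : ℝ) / (Y : ℝ)) ∈ K)).card : ℕ) : ℝ) with hc
  have e1 : c / (Y : ℝ) ^ 2 - (volume K).toReal / (N : ℝ) ^ 2 =
      (c - (volume K).toReal * ((Y : ℝ) * Y) / (N : ℝ) ^ 2) / (Y : ℝ) ^ 2 := by
    field_simp
  rw [e1, abs_div, abs_of_pos (by positivity : (0 : ℝ) < (Y : ℝ) ^ 2),
    div_lt_iff₀ (by positivity)]
  calc _ ≤ ε / 2 * ((Y : ℝ) * Y) := this2
    _ < ε * (Y : ℝ) ^ 2 := by
        have : 0 < ε * (Y : ℝ) ^ 2 := by positivity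
        nlinarith

end Pool.Agent.T6.H97.TA.ModDens
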