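import Pool.Agent.T6.H97.TA.DensB

set_option autoImplicit false

/-!
Module Dens, part C: the vectors of a plane in a residue class.
-/

namespace Pool.Agent.T6.H97.TA.ModDens

open Finset Matrix Filter Topology MeasureTheory
open Pool.Agent.H548.WM (ht bx)
open Pool.Agent.T6.H81.BA (Cell)

open Classical in
/-- The vectors of a plane in a residue class with given signs. -/
noncomputable def AA {n : ℕ} (f : Fin n → Fin 3 → ℤ) (σ : Fin n → Bool) (Q : ℕ)
    (r w : Fin 3 → ℤ) (Y : ℕ) : Finset (Fin 3 → ℤ) :=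
  (bx 3 Y).filter fun v => w ⬝ᵥ v = 0 ∧ (∀ j, (Q : ℤ) ∣ v j - r j) ∧
    ∀ i, (0 ≤ f i ⬝ᵥ v ↔ σ i = true)

theorem gcd_facts (w : Fin 3 → ℤ) (hw : w 2 ≠ 0) : ∃ g : ℕ, 0 < g ∧ univ.gcd w = (g : ℤ) ∧
    (∀ j, (g : ℤ) ∣ w j) ∧ ∃ x y z : ℤ, (g : ℤ) = w 0 * x + w 1 * y + w 2 * z := by
  have h1 : ∀ j, univ.gcd w ∣ w j := fun j => Finset.gcd_dvd (mem_univ j)
  have hne : univ.gcd w ≠ 0 := fun h => hw (by
    have := h1 2
    rw [h] at this
    exact zero_dvd_iff.1 this)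
  have hnn : 0 ≤ univ.gcd w := by
    have : normalize (univ.gcd w) = univ.gcd w := Finset.normalize_gcd
    rw [← Int.abs_eq_normalize] at this
    rw [← this]; exact abs_nonneg _
  set g' : ℕ := Int.gcd (Int.gcd (w 0) (w 1)) (w 2) with hg'
  have h2 : (g' : ℤ) ∣ univ.gcd w := by
    refine Finset.dvd_gcd fun j _ => ?_
    have e0 : (g' : ℤ) ∣ (Int.gcd (w 0) (w 1) : ℤ) := Int.gcd_dvd_left _ _
    fin_cases j
    · exact e0.trans (Int.gcd_dvd_left _ _)
    · exact e0.trans (Int.gcd_dvd_right _ _)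
    · exact Int.gcd_dvd_right _ _
  have h3 : univ.gcd w ∣ (g' : ℤ) :=
    Int.dvd_coe_gcd (Int.dvd_coe_gcd (h1 0) (h1 1)) (h1 2)
  have h4 : univ.gcd w = (g' : ℤ) := by
    refine Int.dvd_antisymm hnn (by positivity) h3 h2
  refine ⟨g', ?_, h4, fun j => h4 ▸ h1 j, ?_⟩
  · by_contra h0
    have : g' = 0 := by omega
    rw [this] at h4
    exact hne (by simpa using h4)
  · refine ⟨Int.gcdA (w 0) (w 1) * Int.gcdA (Int.gcd (w 0) (w 1)) (w 2),
      Int.gcdB (w 0) (w 1) * Int.gcdA (Int.gcd (w 0) (w 1)) (w 2),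
      Int.gcdB (Int.gcd (w 0) (w 1)) (w 2), ?_⟩
    have e1 := Int.gcd_eq_gcd_ab (w 0) (w 1)
    have e2 := Int.gcd_eq_gcd_ab (Int.gcd (w 0) (w 1)) (w 2)
    rw [hg', e2]
    nth_rw 1 [e1]
    ring

theorem mem_AA {n : ℕ} {f : Fin n → Fin 3 → ℤ} {σ : Fin n → Bool} {Q : ℕ}
    {r w : Fin 3 → ℤ} {Y : ℕ} {v : Fin 3 → ℤ} : v ∈ AA f σ Q r w Y ↔
    (∀ j, |v j| ≤ Y) ∧ w 0 * v 0 + w 1 * v 1 + w 2 * v 2 = 0 ∧ (∀ j, (Q : ℤ) ∣ v j - r j) ∧
    ∀ i, (0 ≤ f i 0 * v 0 + f i 1 * v 1 + f i 2 * v 2 ↔ σ i = true) := by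
  classical
  simp only [AA, mem_filter, bx, Fintype.mem_piFinset, mem_Icc, abs_le, dotProduct,
    Fin.sum_univ_three]

theorem sign_iff {Y : ℕ} (hY : 1 ≤ Y) (a0 a1 a2 v0 v1 v2 w0 w1 w2 : ℤ) (hw : w2 ≠ 0)
    (h : w0 * v0 + w1 * v1 + w2 * v2 = 0) :
    (0 ≤ (a0 : ℝ) * (v0 / (Y : ℝ)) + a1 * (v1 / (Y : ℝ)) -
      a2 * (((w0 : ℝ) * (v0 / (Y : ℝ)) + w1 * (v1 / (Y : ℝ))) / w2)) ↔
      0 ≤ a0 * v0 + a1 * v1 + a2 * v2 := by
  have hY' : (0 : ℝ) < Y := by exact_mod_cast hY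
  have hw' : (w2 : ℝ) ≠ 0 := by exact_mod_cast hw
  have h' : (w0 : ℝ) * v0 + w1 * v1 = -(w2 * v2) := by
    have : (w0 : ℝ) * v0 + w1 * v1 + w2 * v2 = 0 := by exact_mod_cast h
    linarith
  have e1 : (a0 : ℝ) * (v0 / (Y : ℝ)) + a1 * (v1 / (Y : ℝ)) -
      a2 * (((w0 : ℝ) * (v0 / (Y : ℝ)) + w1 * (v1 / (Y : ℝ))) / w2) =
      ((a0 * v0 + a1 * v1 + a2 * v2 : ℤ) : ℝ) / Y := by
    have e2 : ((w0 : ℝ) * (v0 / (Y : ℝ)) + w1 * (v1 / (Y : ℝ))) / w2 = -(v2 / Y) := by
      rw [show (w0 : ℝ) * (v0 / (Y : ℝ)) + w1 * (v1 / (Y : ℝ)) =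
        ((w0 : ℝ) * v0 + w1 * v1) / Y by ring, h']
      field_simp
    rw [e2]
    push_cast
    ring
  rw [e1]
  constructor
  · intro h1
    have : (0 : ℝ) ≤ ((a0 * v0 + a1 * v1 + a2 * v2 : ℤ) : ℝ) := by
      by_contra hn
      push Not at hn
      exact absurd h1 (not_le.2 (div_neg_of_neg_of_pos hn hY'))
    exact_mod_cast this
  · intro h1
    exact div_nonneg (by exact_mod_cast h1) hY'.le

open Classical in
/-- The lattice points of the region in a residue class. -/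
noncomputable def cl (K : Set (Fin 2 → ℝ)) (N : ℕ) (ρ : Fin 2 → ℤ) (Y : ℕ) :
    Finset (Fin 2 → ℤ) :=
  (Fintype.piFinset fun _ : Fin 2 => Icc (-(Y : ℤ)) Y).filter
      (fun z => (∀ i, (N : ℤ) ∣ z i - ρ i) ∧ (fun i => (z i : ℝ) / (Y : ℝ)) ∈ K)

/-- The class. -/
def rh (Q m : ℕ) (r : Fin 3 → ℤ) (t : ZMod m × ZMod m) : Fin 2 → ℤ :=
  ![r 0 + Q * t.1.val, r 1 + Q * t.2.val]

theorem AA_card {n : ℕ} (f : Fin n → Fin 3 → ℤ) (σ : Fin n → Bool) (Q : ℕ) (hQ : 1 ≤ Q)
    (r w : Fin 3 → ℤ) (m : ℕ) [NeZero m] (hm : w 2 = m ∨ w 2 = -(m : ℤ)) (c : ℤ)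
    (hc : w 0 * r 0 + w 1 * r 1 + w 2 * r 2 = Q * c) (Y : ℕ) (hY : 1 ≤ Y) :
    (AA f σ Q r w Y).card =
      ∑ t ∈ univ.filter (fun t : ZMod m × ZMod m => lin m (w 0) (w 1) t = ((-c : ℤ) : ZMod m)),
        (cl (KK f σ (fun j => (w j : ℝ))) (Q * m) (rh Q m r t) Y).card := by
  classical
  have hm0 : (m : ℤ) ≠ 0 := by exact_mod_cast NeZero.ne m
  have hw2 : w 2 ≠ 0 := by rcases hm with h | h <;> rw [h] <;> simpa using NeZero.ne m
  have hmw : (m : ℤ) ∣ w 2 := by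
    rcases hm with h | h <;> rw [h]
    exact (dvd_neg).2 dvd_rfl
  have hwm : w 2 ∣ (m : ℤ) := by
    rcases hm with h | h <;> rw [h]
    exact (neg_dvd).2 dvd_rfl
  have hQ0 : (Q : ℤ) ≠ 0 := by exact_mod_cast (by omega : Q ≠ 0)
  have hY' : (0 : ℝ) < Y := by exact_mod_cast hY
  have hw2R : (w 2 : ℝ) ≠ 0 := by exact_mod_cast hw2
  let φ : (Fin 3 → ℤ) → ZMod m × ZMod m := fun v =>
    ((((v 0 - r 0) / Q : ℤ) : ZMod m), (((v 1 - r 1) / Q : ℤ) : ZMod m))
  rw [card_eq_sum_card_fiberwise (f := φ)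
    (t := univ.filter (fun t : ZMod m × ZMod m => lin m (w 0) (w 1) t = ((-c : ℤ) : ZMod m)))]
  · refine sum_congr rfl fun t ht => ?_
    have ht' := (mem_filter.1 ht).2
    rw [lin_apply] at ht'
    have ht2 : (m : ℤ) ∣ w 0 * t.1.val + w 1 * t.2.val + c := by
      rw [← ZMod.natCast_zmod_val t.1, ← ZMod.natCast_zmod_val t.2] at ht'
      have : ((-c : ℤ) : ZMod m) = ((w 0 * t.1.val + w 1 * t.2.val : ℤ) : ZMod m) := by
        rw [← ht']; push_cast; rfl
      rw [ZMod.intCast_eq_intCast_iff_dvd_sub] at this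
      simpa [sub_neg_eq_add] using this
    refine card_bij (fun v _ => ![v 0, v 1]) ?_ ?_ ?_
    · intro v hv
      obtain ⟨hv1, hv2⟩ := mem_filter.1 hv
      obtain ⟨hb, hw0, hq, hs⟩ := mem_AA.1 hv1
      have hv3 : ((v 0 - r 0) / Q : ℤ) = ((t.1.val : ℤ) : ZMod m) ∧
          ((v 1 - r 1) / Q : ℤ) = ((t.2.val : ℤ) : ZMod m) := by
        have h1 := congrArg Prod.fst hv2
        have h2 := congrArg Prod.snd hv2
        simp only [φ] at h1 h2
        refine ⟨by rw [h1]; simp, by rw [h2]; simp⟩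
      obtain ⟨a0, ha0⟩ := hq 0
      obtain ⟨a1, ha1⟩ := hq 1
      rw [ha0, ha1, Int.mul_ediv_cancel_left _ hQ0, Int.mul_ediv_cancel_left _ hQ0,
        ZMod.intCast_eq_intCast_iff_dvd_sub, ZMod.intCast_eq_intCast_iff_dvd_sub] at hv3
      simp only [cl, mem_filter, Fintype.mem_piFinset, mem_Icc]
      refine ⟨?_, ?_, ?_⟩
      · intro i
        fin_cases i
        · exact abs_le.1 (hb 0)
        · exact abs_le.1 (hb 1)
      · intro i
        fin_cases i
        · show ((Q * m : ℕ) : ℤ) ∣ v 0 - (r 0 + Q * t.1.val)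
          have : v 0 - (r 0 + Q * t.1.val) = Q * (-(t.1.val - a0)) := by linarith
          rw [this]; push_cast
          exact mul_dvd_mul_left _ ((dvd_neg).2 hv3.1)
        · show ((Q * m : ℕ) : ℤ) ∣ v 1 - (r 1 + Q * t.2.val)
          have : v 1 - (r 1 + Q * t.2.val) = Q * (-(t.2.val - a1)) := by linarith
          rw [this]; push_cast
          exact mul_dvd_mul_left _ ((dvd_neg).2 hv3.2)
      · refine ⟨?_, ?_, ?_, ?_⟩
        · show |((v 0 : ℤ) : ℝ) / Y| ≤ 1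
          rw [abs_div, abs_of_pos hY', div_le_one hY']
          exact_mod_cast hb 0
        · show |((v 1 : ℤ) : ℝ) / Y| ≤ 1
          rw [abs_div, abs_of_pos hY', div_le_one hY']
          exact_mod_cast hb 1
        · show |(w 0 : ℝ) * (((v 0 : ℤ) : ℝ) / Y) + w 1 * (((v 1 : ℤ) : ℝ) / Y)| ≤ |(w 2 : ℝ)|
          have e1 : (w 0 : ℝ) * (((v 0 : ℤ) : ℝ) / Y) + w 1 * (((v 1 : ℤ) : ℝ) / Y) =
              -(w 2 * ((v 2 : ℝ) / Y)) := by
            have : (w 0 : ℝ) * v 0 + w 1 * v 1 + w 2 * v 2 = 0 := by exact_mod_cast hw0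
            field_simp
            linarith
          rw [e1, abs_neg, abs_mul]
          refine mul_le_of_le_one_right (abs_nonneg _) ?_
          rw [abs_div, abs_of_pos hY', div_le_one hY']
          exact_mod_cast hb 2
        · intro i
          exact (sign_iff hY (f i 0) (f i 1) (f i 2) (v 0) (v 1) (v 2) (w 0) (w 1) (w 2)
            hw2 hw0).trans (hs i)
    · intro v hv v' hv' hvv
      obtain ⟨_, hw0, _, _⟩ := mem_AA.1 (mem_filter.1 hv).1
      obtain ⟨_, hw0', _, _⟩ := mem_AA.1 (mem_filter.1 hv').1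
      have e0 : v 0 = v' 0 := by simpa using congrFun hvv 0
      have e1 : v 1 = v' 1 := by simpa using congrFun hvv 1
      have e2 : v 2 = v' 2 := by
        rw [e0, e1] at hw0
        exact mul_left_cancel₀ hw2 (by linarith)
      funext j
      fin_cases j
      · exact e0
      · exact e1
      · exact e2
    · intro z hz
      simp only [cl, mem_filter, Fintype.mem_piFinset, mem_Icc] at hz
      obtain ⟨hzb, hzN, hzK⟩ := hz
      obtain ⟨k0, hk0⟩ := hzN 0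
      obtain ⟨k1, hk1⟩ := hzN 1
      have hk0' : z 0 = r 0 + Q * t.1.val + (Q * m : ℕ) * k0 := by
        have : z 0 - (r 0 + Q * t.1.val) = (Q * m : ℕ) * k0 := hk0
        linarith
      have hk1' : z 1 = r 1 + Q * t.2.val + (Q * m : ℕ) * k1 := by
        have : z 1 - (r 1 + Q * t.2.val) = (Q * m : ℕ) * k1 := hk1
        linarith
      have hdiv : (Q : ℤ) * w 2 ∣ w 0 * z 0 + w 1 * z 1 + w 2 * r 2 := by
        have e1 : w 0 * z 0 + w 1 * z 1 + w 2 * r 2 =
            Q * ((w 0 * t.1.val + w 1 * t.2.val + c) + m * (w 0 * k0 + w 1 * k1)) := by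
          rw [hk0', hk1']
          push_cast
          linear_combination hc
        rw [e1]
        exact mul_dvd_mul_left _ (dvd_add (hwm.trans ht2) (hwm.mul_right _))
      obtain ⟨e, he⟩ := hdiv
      have hw0 : w 0 * z 0 + w 1 * z 1 + w 2 * (r 2 - Q * e) = 0 := by
        linear_combination he
      refine ⟨![z 0, z 1, r 2 - Q * e], ?_, ?_⟩
      · rw [mem_filter]
        refine ⟨mem_AA.2 ⟨?_, ?_, ?_, ?_⟩, ?_⟩
        · intro j
          fin_cases j
          · exact abs_le.2 (hzb 0)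
          · exact abs_le.2 (hzb 1)
          · show |r 2 - Q * e| ≤ (Y : ℤ)
            have h3 := hzK.2.2.1
            have e1 : (w 0 : ℝ) * ((z 0 : ℝ) / Y) + w 1 * ((z 1 : ℝ) / Y) =
                -(w 2 * (((r 2 - Q * e : ℤ) : ℝ) / Y)) := by
              have : (w 0 : ℝ) * z 0 + w 1 * z 1 + w 2 * ((r 2 - Q * e : ℤ) : ℝ) = 0 := by
                exact_mod_cast hw0
              field_simp
              linarith
            have h4 : |(w 2 : ℝ)| * |((r 2 - Q * e : ℤ) : ℝ) / Y| ≤ |(w 2 : ℝ)| := by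
              rw [← abs_mul, ← abs_neg (_ * _), ← e1]
              exact h3
            have h5 : |((r 2 - Q * e : ℤ) : ℝ) / Y| ≤ 1 := by
              have := abs_pos.2 hw2R
              exact (mul_le_iff_le_one_right this).1 h4
            rw [abs_div, abs_of_pos hY', div_le_one hY'] at h5
            exact_mod_cast h5
        · simpa using hw0
        · intro j
          fin_cases j
          · refine ⟨t.1.val + m * k0, ?_⟩
            show z 0 - r 0 = _
            rw [hk0']; push_cast; ring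
          · refine ⟨t.2.val + m * k1, ?_⟩
            show z 1 - r 1 = _
            rw [hk1']; push_cast; ring
          · refine ⟨-e, ?_⟩
            show r 2 - Q * e - r 2 = _
            ring
        · intro i
          have h1 := hzK.2.2.2 i
          have h2 := sign_iff hY (f i 0) (f i 1) (f i 2) (z 0) (z 1) (r 2 - Q * e) (w 0) (w 1)
            (w 2) hw2 hw0
          exact (h2.symm.trans h1)
        · have e1 : (z 0 - r 0) / (Q : ℤ) = t.1.val + m * k0 := by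
            rw [hk0']
            rw [show r 0 + Q * (t.1.val : ℤ) + ((Q * m : ℕ) : ℤ) * k0 - r 0 =
              Q * (t.1.val + m * k0) by push_cast; ring]
            exact Int.mul_ediv_cancel_left _ hQ0
          have e2 : (z 1 - r 1) / (Q : ℤ) = t.2.val + m * k1 := by
            rw [hk1']
            rw [show r 1 + Q * (t.2.val : ℤ) + ((Q * m : ℕ) : ℤ) * k1 - r 1 =
              Q * (t.2.val + m * k1) by push_cast; ring]
            exact Int.mul_ediv_cancel_left _ hQ0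
          show ((((z 0 - r 0) / Q : ℤ) : ZMod m), (((z 1 - r 1) / Q : ℤ) : ZMod m)) = t
          rw [e1, e2]
          push_cast
          rw [ZMod.natCast_self, zero_mul, zero_mul, add_zero, add_zero,
            ZMod.natCast_zmod_val, ZMod.natCast_zmod_val]
      · funext i
        fin_cases i <;> rfl
  · intro v hv
    obtain ⟨hb, hw0, hq, hs⟩ := mem_AA.1 hv
    obtain ⟨a0, ha0⟩ := hq 0
    obtain ⟨a1, ha1⟩ := hq 1
    obtain ⟨a2, ha2⟩ := hq 2
    simp only [coe_filter, mem_univ, true_and, Set.mem_ofPred_eq]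
    rw [lin_apply]
    simp only [φ]
    rw [ha0, ha1, Int.mul_ediv_cancel_left _ hQ0, Int.mul_ediv_cancel_left _ hQ0]
    have e1 : (Q : ℤ) * (c + (w 0 * a0 + w 1 * a1 + w 2 * a2)) = 0 := by
      linear_combination hw0 - hc - w 0 * ha0 - w 1 * ha1 - w 2 * ha2
    have e2 : c + (w 0 * a0 + w 1 * a1 + w 2 * a2) = 0 := by
      rcases mul_eq_zero.1 e1 with h | h
      · exact absurd h hQ0
      · exact h
    have e3 : ((w 0 * a0 + w 1 * a1 : ℤ) : ZMod m) = ((-c : ℤ) : ZMod m) := by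
      rw [ZMod.intCast_eq_intCast_iff_dvd_sub]
      have : -c - (w 0 * a0 + w 1 * a1) = w 2 * a2 := by linarith
      rw [this]
      exact hmw.mul_right _
    rw [← e3]
    push_cast
    rfl

end Pool.Agent.T6.H97.TA.ModDens
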