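import Pool.Agent.T6.H97.TA.DensC

set_option autoImplicit false

/-!
Module Dens, part D: the asymptotic number of the vectors of a plane in a residue class.
-/

namespace Pool.Agent.T6.H97.TA.ModDens

open Finset Matrix Filter Topology MeasureTheory
open Pool.Agent.H548.WM (ht bx)
open Pool.Agent.T6.H81.BA (Cell)

/-- The arithmetic factor. -/
noncomputable def fac (Q : ℕ) (r w : Fin 3 → ℤ) : ℝ :=
  if (Q : ℤ) * univ.gcd w ∣ w ⬝ᵥ r then ((univ.gcd w : ℤ) : ℝ) else 0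

theorem AA_lim (hR : StmtRiem) {n : ℕ} (f : Fin n → Fin 3 → ℤ) (σ : Fin n → Bool) (Q : ℕ)
    (hQ : 1 ≤ Q) (r w : Fin 3 → ℤ) (hw : w 2 ≠ 0) :
    Tendsto (fun Y : ℕ => (((AA f σ Q r w Y).card : ℕ) : ℝ) / (Y : ℝ) ^ 2) atTop
      (𝓝 (fac Q r w / (Q : ℝ) ^ 2 * Vv f σ (fun j => (w j : ℝ)))) := by
  classical
  obtain ⟨g, hg, hgw, hgd, x, y, z, hb⟩ := gcd_facts w hw
  have hdot : w ⬝ᵥ r = w 0 * r 0 + w 1 * r 1 + w 2 * r 2 := by
    simp only [dotProduct, Fin.sum_univ_three]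
  have hQ0 : (Q : ℤ) ≠ 0 := by exact_mod_cast (by omega : Q ≠ 0)
  by_cases hQr : (Q : ℤ) ∣ w 0 * r 0 + w 1 * r 1 + w 2 * r 2
  · obtain ⟨c, hc⟩ := hQr
    set m : ℕ := (w 2).natAbs with hmdef
    have hm0 : 0 < m := Int.natAbs_pos.2 hw
    have : NeZero m := ⟨hm0.ne'⟩
    have hm : w 2 = m ∨ w 2 = -(m : ℤ) := Int.natAbs_eq _
    have hmR : |(w 2 : ℝ)| = (m : ℝ) := by
      rw [hmdef, Nat.cast_natAbs, Int.cast_abs]
    have hgm : g ∣ m := by
      have := Int.natAbs_dvd_natAbs.2 (hgd 2)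
      simpa using this
    have hb' : ∃ x y z : ℤ, (g : ℤ) = w 0 * x + w 1 * y + m * z := by
      rcases hm with h | h
      · exact ⟨x, y, z, by rw [hb, h]⟩
      · exact ⟨x, y, -z, by rw [hb, h]; ring⟩
    have hT := card_sol (m := m) hg (hgd 0) (hgd 1) hgm hb' (-c)
    set T := univ.filter (fun t : ZMod m × ZMod m => lin m (w 0) (w 1) t = ((-c : ℤ) : ZMod m))
      with hTdef
    set K := KK f σ (fun j => (w j : ℝ)) with hK
    have hlim : Tendsto (fun Y : ℕ => ∑ t ∈ T, (((cl K (Q * m) (rh Q m r t) Y).card : ℕ) : ℝ) /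
        (Y : ℝ) ^ 2) atTop (𝓝 (∑ _t ∈ T, (volume K).toReal / ((Q * m : ℕ) : ℝ) ^ 2)) := by
      refine tendsto_finsetSum _ fun t _ => ?_
      exact riem_class hR K (KK_convex f σ _) (fun s hs => ⟨hs.1, hs.2.1⟩) (Q * m)
        (Nat.mul_pos hQ hm0) (rh Q m r t)
    have hval : (∑ _t ∈ T, (volume K).toReal / ((Q * m : ℕ) : ℝ) ^ 2) =
        fac Q r w / (Q : ℝ) ^ 2 * Vv f σ (fun j => (w j : ℝ)) := by
      rw [sum_const, nsmul_eq_mul, hT, Vv_eq, ← hK]
      rw [hmR]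
      have hmR0 : (m : ℝ) ≠ 0 := by exact_mod_cast hm0.ne'
      have hQR0 : (Q : ℝ) ≠ 0 := by exact_mod_cast (by omega : Q ≠ 0)
      have hiff : ((Q : ℤ) * univ.gcd w ∣ w ⬝ᵥ r) ↔ (g : ℤ) ∣ -c := by
        rw [hdot, hc, hgw, dvd_neg]
        exact mul_dvd_mul_iff_left hQ0
      unfold fac
      by_cases hgc : (g : ℤ) ∣ -c
      · rw [if_pos hgc, if_pos (hiff.2 hgc), hgw]
        push_cast
        field_simp
      · rw [if_neg hgc, if_neg (fun h => hgc (hiff.1 h))]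
        simp
    rw [← hval]
    refine hlim.congr' ?_
    filter_upwards [eventually_ge_atTop 1] with Y hY
    rw [AA_card f σ Q hQ r w m hm c hc Y hY, ← sum_div, Nat.cast_sum]
  · have h0 : fac Q r w = 0 := by
      unfold fac
      rw [if_neg]
      intro h
      exact hQr (hdot ▸ (Dvd.intro _ rfl : (Q : ℤ) ∣ Q * univ.gcd w).trans h)
    rw [h0, zero_div, zero_mul]
    have h1 : ∀ Y, AA f σ Q r w Y = ∅ := by
      intro Y
      refine eq_empty_of_forall_notMem fun v hv => hQr ?_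
      obtain ⟨_, hw0, hq, _⟩ := mem_AA.1 hv
      have : w 0 * r 0 + w 1 * r 1 + w 2 * r 2 =
          -(w 0 * (v 0 - r 0) + w 1 * (v 1 - r 1) + w 2 * (v 2 - r 2)) := by
        linear_combination hw0
      rw [this]
      exact (dvd_neg).2 (dvd_add (dvd_add ((hq 0).mul_left _) ((hq 1).mul_left _))
        ((hq 2).mul_left _))
    refine tendsto_const_nhds.congr fun Y => ?_
    rw [h1 Y]
    simp

end Pool.Agent.T6.H97.TA.ModDens
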