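import Pool.Agent.T6.H97.TA.DensD

set_option autoImplicit false

/-!
Module Dens, part E: the Moebius function.
-/

namespace Pool.Agent.T6.H97.TA.ModDens

open Finset Matrix Filter Topology MeasureTheory
open scoped ArithmeticFunction.Moebius
open Pool.Agent.H548.WM (ht bx)
open Pool.Agent.T6.H81.BA (Cell)

open Classical in
/-- The nonzero vectors divisible by `d`. -/
noncomputable def ND {n : ℕ} (f : Fin n → Fin 3 → ℤ) (σ : Fin n → Bool) (q : ℕ)
    (r w : Fin 3 → ℤ) (d Y : ℕ) : Finset (Fin 3 → ℤ) :=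
  ((AA f σ q r w Y).erase 0).filter fun v => ∀ j, (d : ℤ) ∣ v j

theorem sum_mu (n : ℕ) : ∑ d ∈ n.divisors, (μ d : ℤ) = if n = 1 then 1 else 0 := by
  have h := congrArg (fun f : ArithmeticFunction ℤ => f n)
    ArithmeticFunction.moebius_mul_coe_zeta
  simp only [ArithmeticFunction.coe_mul_zeta_apply, ArithmeticFunction.one_apply] at h
  exact h

theorem pl_eq {n : ℕ} (f : Fin n → Fin 3 → ℤ) (σ : Fin n → Bool) (q : ℕ)
    (r w : Fin 3 → ℤ) (Y : ℕ) :
    ((pl (Cell f σ q r) w Y : ℕ) : ℤ) =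
      ∑ d ∈ range (Y + 1), μ d * (((ND f σ q r w d Y).card : ℕ) : ℤ) := by
  classical
  have h1 : pl (Cell f σ q r) w Y =
      (((AA f σ q r w Y).erase 0).filter fun v => univ.gcd v = 1).card := by
    unfold pl
    refine congrArg Finset.card (Finset.ext fun v => ?_)
    constructor
    · intro hv
      obtain ⟨hb, hw, hg, hq, hs⟩ := mem_filter.1 hv
      refine mem_filter.2 ⟨mem_erase.2 ⟨?_, mem_filter.2 ⟨hb, hw, hq, hs⟩⟩, hg⟩
      rintro rfl
      have : univ.gcd (0 : Fin 3 → ℤ) = 0 := Finset.gcd_eq_zero_iff.2 (fun _ _ => rfl)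
      rw [this] at hg
      exact zero_ne_one hg
    · intro hv
      obtain ⟨hv1, hg⟩ := mem_filter.1 hv
      obtain ⟨hb, hw, hq, hs⟩ := mem_filter.1 (mem_erase.1 hv1).2
      exact mem_filter.2 ⟨hb, hw, hg, hq, hs⟩
  have h2 : ∀ v ∈ (AA f σ q r w Y).erase 0, (if univ.gcd v = 1 then (1 : ℤ) else 0) =
      ∑ d ∈ range (Y + 1), if (∀ j, (d : ℤ) ∣ v j) then μ d else 0 := by
    intro v hv
    rw [mem_erase] at hv
    obtain ⟨hv0, hv1⟩ := hv
    have hb := (mem_AA.1 hv1).1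
    obtain ⟨j, hj⟩ := Function.ne_iff.1 hv0
    have hj' : v j ≠ 0 := hj
    set G : ℕ := (univ.gcd v).natAbs with hG
    have hnn : 0 ≤ univ.gcd v := by
      have : normalize (univ.gcd v) = univ.gcd v := Finset.normalize_gcd
      rw [← Int.abs_eq_normalize] at this
      rw [← this]; exact abs_nonneg _
    have hGv : (G : ℤ) = univ.gcd v := Int.natAbs_of_nonneg hnn
    have hG0 : G ≠ 0 := by
      intro h
      have h3 : univ.gcd v ∣ v j := Finset.gcd_dvd (mem_univ j)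
      rw [← hGv, h] at h3
      exact hj' (zero_dvd_iff.1 (by simpa using h3))
    have hdv : ∀ d : ℕ, d ∣ G ↔ ∀ j, (d : ℤ) ∣ v j := by
      intro d
      rw [← Int.natCast_dvd_natCast, hGv, Finset.dvd_gcd_iff]
      simp
    have hGY : G ≤ Y := by
      have h3 : (G : ℤ) ∣ v j := (hdv G).1 dvd_rfl j
      have h4 : (G : ℤ) ≤ |v j| := Int.le_of_dvd (abs_pos.2 hj') ((dvd_abs _ _).2 h3)
      exact_mod_cast h4.trans (hb j)
    have h5 : (univ.gcd v = 1) ↔ G = 1 := by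
      rw [← hGv]; exact_mod_cast Iff.rfl
    have h6 : (if univ.gcd v = 1 then (1 : ℤ) else 0) = ∑ d ∈ G.divisors, (μ d : ℤ) := by
      rw [sum_mu]
      by_cases h7 : G = 1
      · rw [if_pos h7, if_pos (h5.2 h7)]
      · rw [if_neg h7, if_neg (fun h => h7 (h5.1 h))]
    rw [h6, ← sum_filter]
    refine sum_congr ?_ fun _ _ => rfl
    ext d
    rw [Nat.mem_divisors, mem_filter, mem_range, hdv]
    constructor
    · rintro ⟨h7, _⟩
      exact ⟨Nat.lt_succ_of_le ((Nat.le_of_dvd (Nat.pos_of_ne_zero hG0)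
        ((hdv d).2 h7)).trans hGY), h7⟩
    · rintro ⟨_, h7⟩
      exact ⟨h7, hG0⟩
  rw [h1, card_filter]
  push_cast
  rw [sum_congr rfl h2, sum_comm]
  refine sum_congr rfl fun d _ => ?_
  rw [← sum_filter, sum_const, nsmul_eq_mul, mul_comm]
  rfl

theorem ND_zero {n : ℕ} (f : Fin n → Fin 3 → ℤ) (σ : Fin n → Bool) (q : ℕ)
    (r w : Fin 3 → ℤ) {d Y : ℕ} (h : Y < d) : ND f σ q r w d Y = ∅ := by
  classical
  refine eq_empty_of_forall_notMem fun v hv => ?_
  obtain ⟨h1, h2⟩ := mem_filter.1 hv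
  rw [mem_erase] at h1
  obtain ⟨j, hj⟩ := Function.ne_iff.1 h1.1
  have hj' : v j ≠ 0 := hj
  have hb := (mem_AA.1 h1.2).1 j
  have h4 : (d : ℤ) ≤ |v j| := Int.le_of_dvd (abs_pos.2 hj') ((dvd_abs _ _).2 (h2 j))
  have : (d : ℤ) ≤ Y := h4.trans hb
  omega

theorem ND_bound {n : ℕ} (f : Fin n → Fin 3 → ℤ) (σ : Fin n → Bool) (q : ℕ)
    (r w : Fin 3 → ℤ) (hw : w 2 ≠ 0) {d Y : ℕ} (hd : 1 ≤ d) :
    (((ND f σ q r w d Y).card : ℕ) : ℝ) ≤ 8 * ((Y : ℝ) / d) ^ 2 := by
  classical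
  set t : ℕ := Y / d with ht
  have hd0 : (d : ℤ) ≠ 0 := by exact_mod_cast (by omega : d ≠ 0)
  have hdpos : (0 : ℤ) < d := by exact_mod_cast hd
  have hcard : (ND f σ q r w d Y).card ≤
      (((Icc (-(t : ℤ)) t) ×ˢ (Icc (-(t : ℤ)) t)).erase (0, 0)).card := by
    refine card_le_card_of_injOn (fun v => (v 0 / d, v 1 / d)) ?_ ?_
    · intro v hv
      obtain ⟨h1, h2⟩ := mem_filter.1 (mem_coe.1 hv)
      rw [mem_erase] at h1
      obtain ⟨hb, hw0, _, _⟩ := mem_AA.1 h1.2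
      have hbd : ∀ j, v j / d ∈ Icc (-(t : ℤ)) t := by
        intro j
        obtain ⟨a, ha⟩ := h2 j
        have hbj := hb j
        rw [ha, abs_mul, abs_of_pos hdpos] at hbj
        rw [ha, Int.mul_ediv_cancel_left _ hd0, mem_Icc, ← abs_le, ht]
        push_cast
        rw [Int.le_ediv_iff_mul_le hdpos]
        linarith
      simp only [coe_erase, coe_product, Set.mem_sdiff, Set.mem_prod, mem_coe,
        Set.mem_singleton_iff, Prod.mk.injEq]
      refine ⟨⟨hbd 0, hbd 1⟩, ?_⟩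
      rintro ⟨h3, h4⟩
      apply h1.1
      have e0 : v 0 = 0 := by
        rw [← Int.ediv_mul_cancel (h2 0), h3, zero_mul]
      have e1 : v 1 = 0 := by
        rw [← Int.ediv_mul_cancel (h2 1), h4, zero_mul]
      have e2 : v 2 = 0 := by
        rw [e0, e1] at hw0
        simp only [mul_zero, zero_add] at hw0
        exact (mul_eq_zero.1 hw0).resolve_left hw
      funext j
      fin_cases j
      · exact e0
      · exact e1
      · exact e2
    · intro v hv v' hv' hvv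
      obtain ⟨h1, h2⟩ := mem_filter.1 (mem_coe.1 hv)
      obtain ⟨h1', h2'⟩ := mem_filter.1 (mem_coe.1 hv')
      rw [mem_erase] at h1 h1'
      obtain ⟨_, hw0, _, _⟩ := mem_AA.1 h1.2
      obtain ⟨_, hw0', _, _⟩ := mem_AA.1 h1'.2
      simp only [Prod.mk.injEq] at hvv
      have e0 : v 0 = v' 0 := by
        rw [← Int.ediv_mul_cancel (h2 0), hvv.1, Int.ediv_mul_cancel (h2' 0)]
      have e1 : v 1 = v' 1 := by
        rw [← Int.ediv_mul_cancel (h2 1), hvv.2, Int.ediv_mul_cancel (h2' 1)]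
      have e2 : v 2 = v' 2 := by
        rw [e0, e1] at hw0
        exact mul_left_cancel₀ hw (by linarith)
      funext j
      fin_cases j
      · exact e0
      · exact e1
      · exact e2
  have hcard2 : (((Icc (-(t : ℤ)) t) ×ˢ (Icc (-(t : ℤ)) t)).erase (0, 0)).card =
      (2 * t + 1) * (2 * t + 1) - 1 := by
    rw [card_erase_of_mem (by simp), card_product, Int.card_Icc]
    have : ((t : ℤ) + 1 - -(t : ℤ)).toNat = 2 * t + 1 := by omega
    rw [this]
  have h8 : (2 * t + 1) * (2 * t + 1) - 1 ≤ 8 * t ^ 2 := by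
    have : (2 * t + 1) * (2 * t + 1) = 4 * t ^ 2 + 4 * t + 1 := by ring
    rw [this]
    have : t ≤ t ^ 2 := by nlinarith [Nat.zero_le t, Nat.le_mul_self t]
    omega
  have h9 : (((ND f σ q r w d Y).card : ℕ) : ℝ) ≤ 8 * (t : ℝ) ^ 2 := by
    exact_mod_cast (hcard.trans (hcard2.le.trans h8))
  refine h9.trans ?_
  have : (t : ℝ) ≤ (Y : ℝ) / d := Nat.cast_div_le
  have h10 : (t : ℝ) ^ 2 ≤ ((Y : ℝ) / d) ^ 2 := pow_le_pow_left₀ (by positivity) this 2
  linarith

theorem ND_noncoprime {n : ℕ} (f : Fin n → Fin 3 → ℤ) (σ : Fin n → Bool) (q : ℕ)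
    (r w : Fin 3 → ℤ) (hr : ¬ ∃ p : ℕ, p.Prime ∧ p ∣ q ∧ ∀ j, (p : ℤ) ∣ r j) {d : ℕ} (Y : ℕ)
    (hd : ¬ d.Coprime q) : ND f σ q r w d Y = ∅ := by
  classical
  refine eq_empty_of_forall_notMem fun v hv => hr ?_
  obtain ⟨p, hp, hpd, hpq⟩ := Nat.Prime.not_coprime_iff_dvd.1 hd
  refine ⟨p, hp, hpq, fun j => ?_⟩
  obtain ⟨h1, h2⟩ := mem_filter.1 hv
  rw [mem_erase] at h1
  obtain ⟨_, _, hq, _⟩ := mem_AA.1 h1.2
  have e1 : (p : ℤ) ∣ v j := (Int.natCast_dvd_natCast.2 hpd).trans (h2 j)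
  have e2 : (p : ℤ) ∣ v j - r j := (Int.natCast_dvd_natCast.2 hpq).trans (hq j)
  have := dvd_sub e1 e2
  simpa using this

theorem ND_lim (hR : StmtRiem) {n : ℕ} (f : Fin n → Fin 3 → ℤ) (σ : Fin n → Bool) (q : ℕ)
    (hq1 : 1 ≤ q) (r w : Fin 3 → ℤ) (hw : w 2 ≠ 0) {d : ℕ} (hd1 : 1 ≤ d) (hd : d.Coprime q) :
    Tendsto (fun Y : ℕ => (((ND f σ q r w d Y).card : ℕ) : ℝ) / (Y : ℝ) ^ 2) atTop
      (𝓝 (fac q r w / ((q : ℝ) * d) ^ 2 * Vv f σ (fun j => (w j : ℝ)))) := by
  classical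
  set x : ℤ := Nat.gcdA d q with hx
  set y : ℤ := Nat.gcdB d q with hy
  have hxy : (d : ℤ) * x + q * y = 1 := by
    have := Nat.gcd_eq_gcd_ab d q
    rw [hd.gcd_eq_one] at this
    rw [hx, hy, ← this]; rfl
  set r' : Fin 3 → ℤ := fun j => (d * x) * r j with hr'
  have hset : ∀ Y, ND f σ q r w d Y = (AA f σ (q * d) r' w Y).erase 0 := by
    intro Y
    ext v
    simp only [ND, mem_filter, mem_erase, mem_AA]
    constructor
    · rintro ⟨⟨h0, hb, hw0, hq, hs⟩, hdv⟩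
      refine ⟨h0, hb, hw0, fun j => ?_, hs⟩
      push_cast
      have hcop : IsCoprime (q : ℤ) (d : ℤ) := ⟨y, x, by linarith⟩
      refine hcop.mul_dvd ?_ ?_
      · have : v j - r' j = (v j - r j) + q * (y * r j) := by
          rw [hr']; linear_combination (-(r j)) * hxy
        rw [this]
        exact dvd_add (hq j) (Dvd.intro _ rfl)
      · refine dvd_sub (hdv j) ?_
        rw [hr']
        exact ⟨x * r j, by ring⟩
    · rintro ⟨h0, hb, hw0, hq, hs⟩
      push_cast at hq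
      refine ⟨⟨h0, hb, hw0, fun j => ?_, hs⟩, fun j => ?_⟩
      · have e1 : (q : ℤ) ∣ v j - r' j := (Dvd.intro _ rfl).trans (hq j)
        have : v j - r j = (v j - r' j) - q * (y * r j) := by
          rw [hr']; linear_combination (r j) * hxy
        rw [this]
        exact dvd_sub e1 (Dvd.intro _ rfl)
      · have e1 : (d : ℤ) ∣ v j - r' j := (Dvd.intro_left _ rfl).trans (hq j)
        have e2 : (d : ℤ) ∣ r' j := by
          rw [hr']
          exact ⟨x * r j, by ring⟩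
        have := dvd_add e1 e2
        simpa using this
  have hfac : fac (q * d) r' w = fac q r w := by
    obtain ⟨g, hg, hgw, hgd, _⟩ := gcd_facts w hw
    have hdot : w ⬝ᵥ r' = (d * x) * (w ⬝ᵥ r) := by
      have : r' = (d * x) • r := rfl
      rw [this, dotProduct_smul, smul_eq_mul]
    have hgr : univ.gcd w ∣ w ⬝ᵥ r := by
      rw [hgw]
      exact Finset.dvd_sum fun j _ => (hgd j).mul_right _
    have hiff : (((q * d : ℕ) : ℤ) * univ.gcd w ∣ w ⬝ᵥ r') ↔
        ((q : ℤ) * univ.gcd w ∣ w ⬝ᵥ r) := by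
      rw [hdot]
      push_cast
      constructor
      · intro h
        have h1 : (q : ℤ) * univ.gcd w ∣ (d * x) * (w ⬝ᵥ r) := by
          refine Dvd.dvd.trans ⟨(d : ℤ), by ring⟩ h
        have h2 : (q : ℤ) * univ.gcd w ∣ (q * y) * (w ⬝ᵥ r) := by
          rw [mul_assoc]
          exact mul_dvd_mul_left _ (hgr.mul_left _)
        have h3 := dvd_add h1 h2
        rwa [← add_mul, hxy, one_mul] at h3
      · rintro ⟨e, he⟩
        exact ⟨x * e, by rw [he]; ring⟩
    unfold fac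
    by_cases h : (q : ℤ) * univ.gcd w ∣ w ⬝ᵥ r
    · rw [if_pos h, if_pos (hiff.2 h)]
    · rw [if_neg h, if_neg (fun h' => h (hiff.1 h'))]
  have hA := AA_lim hR f σ (q * d) (Nat.mul_pos hq1 hd1) r' w hw
  rw [hfac] at hA
  push_cast at hA
  have hsq : Tendsto (fun Y : ℕ => (1 : ℝ) / (Y : ℝ) ^ 2) atTop (𝓝 0) := by
    have := (tendsto_inv_atTop_zero.comp (tendsto_natCast_atTop_atTop (R := ℝ)))
    have h2 := this.pow 2
    simpa using h2
  have hlow : Tendsto (fun Y : ℕ => (((AA f σ (q * d) r' w Y).card : ℕ) : ℝ) / (Y : ℝ) ^ 2 -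
      1 / (Y : ℝ) ^ 2) atTop (𝓝 (fac q r w / ((q : ℝ) * d) ^ 2 * Vv f σ (fun j => (w j : ℝ)))) := by
    simpa using hA.sub hsq
  refine tendsto_of_tendsto_of_tendsto_of_le_of_le hlow hA ?_ ?_
  · intro Y
    simp only
    rw [← sub_div]
    refine div_le_div_of_nonneg_right ?_ (by positivity)
    rw [hset]
    have : (AA f σ (q * d) r' w Y).card - 1 ≤ ((AA f σ (q * d) r' w Y).erase 0).card :=
      pred_card_le_card_erase
    have h2 : (AA f σ (q * d) r' w Y).card ≤ ((AA f σ (q * d) r' w Y).erase 0).card + 1 := by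
      omega
    have h3 : (((AA f σ (q * d) r' w Y).card : ℕ) : ℝ) ≤
      (((AA f σ (q * d) r' w Y).erase 0).card : ℕ) + 1 := by exact_mod_cast h2
    linarith
  · intro Y
    simp only
    refine div_le_div_of_nonneg_right ?_ (by positivity)
    rw [hset]
    exact_mod_cast card_erase_le

/-- The Moebius factor. -/
noncomputable def mq (q d : ℕ) : ℝ := if d.Coprime q then (μ d : ℝ) / (d : ℝ) ^ 2 else 0

theorem mq_le (q d : ℕ) : |mq q d| ≤ 1 / (d : ℝ) ^ 2 := by
  unfold mq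
  split_ifs
  · rw [abs_div, abs_of_nonneg (by positivity : (0 : ℝ) ≤ (d : ℝ) ^ 2)]
    refine div_le_div_of_nonneg_right ?_ (by positivity)
    exact_mod_cast ArithmeticFunction.abs_moebius_le_one (n := d)
  · rw [abs_zero]; positivity

theorem mq_summable (q : ℕ) : Summable (mq q) :=
  Summable.of_norm_bounded hasSum_zeta_two.summable (fun d => mq_le q d)

theorem mq_nonneg (q : ℕ) : 0 ≤ ∑' d, mq q d := by
  have h1 := (mq_summable q).hasSum.add hasSum_zeta_two
  have h2 : mq q 1 + 1 / ((1 : ℕ) : ℝ) ^ 2 ≤ ∑' d, mq q d + Real.pi ^ 2 / 6 := by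
    refine le_hasSum h1 1 fun d _ => ?_
    have := mq_le q d
    rw [abs_le] at this
    linarith [this.1]
  have h3 : mq q 1 = 1 := by
    unfold mq
    rw [if_pos (Nat.coprime_one_left q)]
    simp
  rw [h3] at h2
  have h4 := Real.pi_lt_d2
  have h5 := Real.pi_pos
  have h6 : Real.pi ^ 2 ≤ 12 := by nlinarith
  norm_num at h2
  linarith

/-- Module Dens. -/
theorem dens_lim (hR : StmtRiem) {n : ℕ} (f : Fin n → Fin 3 → ℤ) (σ : Fin n → Bool) (q : ℕ)
    (hq1 : 1 ≤ q) (r : Fin 3 → ℤ) (hr : ¬ ∃ p : ℕ, p.Prime ∧ p ∣ q ∧ ∀ j, (p : ℤ) ∣ r j)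
    (w : Fin 3 → ℤ) (hw : w 2 ≠ 0) :
    Tendsto (fun Y : ℕ => (pl (Cell f σ q r) w Y : ℝ) / (Y : ℝ) ^ 2) atTop
      (𝓝 ((∑' d, mq q d) / (q : ℝ) ^ 2 * fac q r w * Vv f σ (fun j => (w j : ℝ)))) := by
  have hsum : Summable (fun d : ℕ => 8 * (1 / (d : ℝ) ^ 2)) :=
    hasSum_zeta_two.summable.mul_left 8
  have hT := tendsto_tsum_of_dominated_convergence (𝓕 := (atTop : Filter ℕ))
    (f := fun (Y : ℕ) (d : ℕ) => (μ d : ℝ) * ((((ND f σ q r w d Y).card : ℕ) : ℝ) /
      (Y : ℝ) ^ 2))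
    (g := fun d => mq q d * (fac q r w / (q : ℝ) ^ 2 * Vv f σ (fun j => (w j : ℝ))))
    hsum ?_ ?_
  · rw [tsum_mul_right] at hT
    have e1 : (∑' d, mq q d) * (fac q r w / (q : ℝ) ^ 2 * Vv f σ (fun j => (w j : ℝ))) =
        (∑' d, mq q d) / (q : ℝ) ^ 2 * fac q r w * Vv f σ (fun j => (w j : ℝ)) := by ring
    rw [e1] at hT
    refine hT.congr fun Y => ?_
    rw [tsum_eq_sum (s := range (Y + 1))]
    · have h1 := pl_eq f σ q r w Y
      have h2 : ((pl (Cell f σ q r) w Y : ℕ) : ℝ) =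
          ∑ d ∈ range (Y + 1), (μ d : ℝ) * (((ND f σ q r w d Y).card : ℕ) : ℝ) := by
        exact_mod_cast congrArg (fun z : ℤ => (z : ℝ)) h1
      rw [h2, sum_div]
      exact sum_congr rfl fun d _ => by ring
    · intro d hd
      rw [mem_range, not_lt] at hd
      rw [ND_zero f σ q r w (by omega : Y < d)]
      simp
  · intro d
    by_cases hd : d.Coprime q
    · rcases Nat.eq_zero_or_pos d with h0 | h0
      · subst h0
        have e1 : mq q 0 = 0 := by unfold mq; simp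
        rw [e1, zero_mul]
        refine tendsto_const_nhds.congr fun Y => ?_
        simp
      · have h1 := (ND_lim hR f σ q hq1 r w hw h0 hd).const_mul (μ d : ℝ)
        have e1 : mq q d * (fac q r w / (q : ℝ) ^ 2 * Vv f σ (fun j => (w j : ℝ))) =
            (μ d : ℝ) * (fac q r w / ((q : ℝ) * d) ^ 2 * Vv f σ (fun j => (w j : ℝ))) := by
          unfold mq
          rw [if_pos hd]
          have : (d : ℝ) ≠ 0 := by exact_mod_cast h0.ne'
          have : (q : ℝ) ≠ 0 := by exact_mod_cast (by omega : q ≠ 0)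
          field_simp
        rw [e1]
        exact h1
    · have e1 : mq q d = 0 := by unfold mq; rw [if_neg hd]
      rw [e1, zero_mul]
      refine tendsto_const_nhds.congr fun Y => ?_
      rw [ND_noncoprime f σ q r w hr Y hd]
      simp
  · filter_upwards [eventually_ge_atTop 1] with Y hY d
    have hY' : (0 : ℝ) < Y := by exact_mod_cast hY
    rw [norm_mul, Real.norm_eq_abs, Real.norm_eq_abs]
    rcases Nat.eq_zero_or_pos d with h0 | h0
    · subst h0; simp
    · have h1 : |(μ d : ℝ)| ≤ 1 := by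
        exact_mod_cast ArithmeticFunction.abs_moebius_le_one (n := d)
      have h2 := ND_bound f σ q r w hw (Y := Y) h0
      have h3 : |((((ND f σ q r w d Y).card : ℕ) : ℝ) / (Y : ℝ) ^ 2)| ≤
          8 * (1 / (d : ℝ) ^ 2) := by
        rw [abs_of_nonneg (by positivity), div_le_iff₀ (by positivity)]
        refine h2.trans (le_of_eq ?_)
        rw [div_pow]; ring
      calc |(μ d : ℝ)| * _ ≤ 1 * (8 * (1 / (d : ℝ) ^ 2)) :=
            mul_le_mul h1 h3 (abs_nonneg _) zero_le_one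
        _ = _ := one_mul _

end Pool.Agent.T6.H97.TA.ModDens
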