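import Mathlib
import Pool.Agent.T6.H97.TA.Fin
import Pool.Agent.T6.H97.TA.Brg

/-!
# Smooth divisors of type (1,1,1) in the threefold product of the plane: all heights, final form
-/

set_option autoImplicit false

namespace Pool.Agent.T6.H97.TA

open Finset Module Matrix Filter Topology
open Pool.Agent.H548.TL (g1 g2 g3 Sm s12 s23 Tx)
open Pool.Agent.T6.H81.BG (Pt StmtW3 StmtZ3 LFs Cone Phs ic)

theorem mt_tr {R : Type} [CommRing R] (a : (Fin 3 → Fin 3) → ℤ) {k l : Fin 3} (h : k ≠ l)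
    (P : Fin 3 → Fin 3 → R) : W978.QN.mt a l k P = (W978.QN.mt a k l P)ᵀ := by
  ext u v
  unfold W978.QN.mt
  rw [transpose_apply, of_apply, of_apply, Function.update_comm h]

theorem inU_iff (a : (Fin 3 → Fin 3) → ℤ) (P : Fin 3 → Fin 3 → ℤ) :
    W978.QN.InU a P ↔ D1 (W978.QN.cu a 1) (P 0) ≠ 0 ∧ D2 (W978.QN.cu a 1) (P 1) ≠ 0 ∧
      D3 (W978.QN.cu a 1) (P 2) ≠ 0 := by
  have e12 : (W978.QN.mt a 1 2 P).det = D1 (W978.QN.cu a 1) (P 0) := by
    unfold D1 W978.QN.mt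
    congr 1
    ext u v
    rw [of_apply, tf_eq]
    have h0 : (Function.update (Function.update P 1 (W978.QN.bv u)) 2 (W978.QN.bv v)) 0 = P 0 := by
      rw [Function.update_of_ne (by decide), Function.update_of_ne (by decide)]
    have h1 : (Function.update (Function.update P 1 (W978.QN.bv u)) 2 (W978.QN.bv v)) 1 =
        W978.QN.bv u := by
      rw [Function.update_of_ne (by decide), Function.update_self]
    rw [h0, h1, Function.update_self]
    unfold H548.TL.tf Tx W978.QN.bv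
    rw [of_apply]
    simp only [Pi.single_apply, mul_ite, mul_one, mul_zero, Finset.sum_ite_eq', mem_univ, if_true]
  have e02 : (W978.QN.mt a 0 2 P).det = D2 (W978.QN.cu a 1) (P 1) := by
    unfold D2 W978.QN.mt
    congr 1
    ext u v
    rw [of_apply, tf_eq]
    have h0 : (Function.update (Function.update P 0 (W978.QN.bv u)) 2 (W978.QN.bv v)) 0 =
        W978.QN.bv u := by
      rw [Function.update_of_ne (by decide), Function.update_self]
    have h1 : (Function.update (Function.update P 0 (W978.QN.bv u)) 2 (W978.QN.bv v)) 1 =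
        P 1 := by
      rw [Function.update_of_ne (by decide), Function.update_of_ne (by decide)]
    rw [h0, h1, Function.update_self]
    unfold H548.TL.tf Tx s12 W978.QN.bv
    rw [of_apply]
    simp only [Pi.single_apply, mul_ite, mul_one, mul_zero, Finset.sum_ite_eq', mem_univ, if_true]
    fin_cases u <;> simp [Fin.sum_univ_three]
  have e01 : (W978.QN.mt a 0 1 P).det = D3 (W978.QN.cu a 1) (P 2) := by
    unfold D3 W978.QN.mt
    congr 1
    ext u v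
    rw [of_apply, tf_eq]
    have h0 : (Function.update (Function.update P 0 (W978.QN.bv u)) 1 (W978.QN.bv v)) 0 =
        W978.QN.bv u := by
      rw [Function.update_of_ne (by decide), Function.update_self]
    have h1 : (Function.update (Function.update P 0 (W978.QN.bv u)) 1 (W978.QN.bv v)) 2 =
        P 2 := by
      rw [Function.update_of_ne (by decide), Function.update_of_ne (by decide)]
    rw [h0, h1, Function.update_self]
    unfold H548.TL.tf Tx s12 s23 W978.QN.bv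
    rw [of_apply]
    fin_cases u <;> fin_cases v <;> simp [Fin.sum_univ_three]
  have tr : ∀ k l : Fin 3, k ≠ l → (W978.QN.mt a l k P).det = (W978.QN.mt a k l P).det := by
    intro k l h
    rw [mt_tr a h, det_transpose]
  rw [← e12, ← e02, ← e01]
  constructor
  · intro h
    exact ⟨h 1 2 (by decide), h 0 2 (by decide), h 0 1 (by decide)⟩
  · rintro ⟨h1, h2, h3⟩ k l hkl
    fin_cases k <;> fin_cases l
    · exact absurd rfl hkl
    · exact h3
    · exact h2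
    · exact (tr 0 1 (by decide)).trans_ne h3
    · exact absurd rfl hkl
    · exact h1
    · exact (tr 0 2 (by decide)).trans_ne h2
    · exact (tr 1 2 (by decide)).trans_ne h1
    · exact absurd rfl hkl

theorem set_eq (a : (Fin 3 → Fin 3) → ℤ) (F : (Fin 3 → Fin 3 → ℤ) → ℝ) (B : ℝ) :
    {P : Fin 3 → Fin 3 → ℤ | (∀ i, W978.QN.Rep (P i)) ∧ W978.QN.tf a P = 0 ∧ W978.QN.InU a P ∧
      (∏ i, (W978.QN.nm (P i) : ℝ) ^ 2) * F P ≤ B} =
    {x : Pt n3 | (∀ v, H548.WM.Rep (x v)) ∧ PU (W978.QN.cu a 1) x ∧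
      (∏ v, (H548.WM.ht (x v) : ℝ) ^ 2) * F x ≤ B} := by
  ext P
  rw [Set.mem_ofPred_eq, Set.mem_ofPred_eq]
  have h1 : (∀ i, W978.QN.Rep (P i)) ↔ ∀ v, H548.WM.Rep (P v) := by
    refine forall_congr' fun i => rep_iff3 (P i)
  have h2 : (W978.QN.tf a P = 0 ∧ W978.QN.InU a P) ↔ PU (W978.QN.cu a 1) P := by
    unfold PU U3
    rw [inU_iff, tf_eq]
  have h3 : (∏ i, (W978.QN.nm (P i) : ℝ) ^ 2) = ∏ v, (H548.WM.ht (P v) : ℝ) ^ 2 := by
    refine Finset.prod_congr rfl fun i _ => ?_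
    rw [nm_eq]
    norm_cast
  rw [h1, ← h2, h3]
  tauto

/-- **The final form.** -/
theorem final (hBox : StmtBox) (hUb : StmtUb) (hHy : StmtHy) (hW : StmtW3) (hZ : StmtZ3)
    (a : (Fin 3 → Fin 3) → ℤ) (ha : W978.QN.Smooth a)
    (ψ : (∀ v, Fin (n3 v) → ℝ) → ℝ) (S : Finset Nat.Primes)
    (φ : ∀ p : Nat.Primes, (∀ v, Fin (n3 v) → ℚ_[p]) → ℝ)
    (hψ : LFs {x : ∀ v, Fin (n3 v) → ℝ | W978.QN.tf a x = 0} ψ)
    (hφ : ∀ p ∈ S, LFs {x : ∀ v, Fin (n3 v) → ℚ_[p] | W978.QN.tf a x = 0} (φ p)) :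
    ∃ c : ℝ, 0 < c ∧ Tendsto (fun B : ℝ =>
      ({P : Fin 3 → Fin 3 → ℤ | (∀ i, W978.QN.Rep (P i)) ∧ W978.QN.tf a P = 0 ∧
        W978.QN.InU a P ∧ (∏ i, (W978.QN.nm (P i) : ℝ) ^ 2) * Phs (n := n3) ψ S φ P ≤ B}.ncard : ℝ) /
        (B * Real.log B ^ 2)) atTop (𝓝 c) := by
  have hs := sm_of_smooth ha
  have hset0 : ∀ (K : Type) [NormedField K], {x : ∀ v, Fin (n3 v) → K | W978.QN.tf a x = 0} =
      {x : ∀ v, Fin (n3 v) → K | H548.TL.tf (W978.QN.cu a 1) (x 0) (x 1) (x 2) = 0} := by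
    intro K _
    ext x
    rw [Set.mem_ofPred_eq, Set.mem_ofPred_eq, tf_eq]
  rw [hset0 ℝ] at hψ
  have hφ' : ∀ p ∈ S, LFs {x : ∀ v, Fin (n3 v) → ℚ_[p] |
      H548.TL.tf (W978.QN.cu a 1) (x 0) (x 1) (x 2) = 0} (φ p) := by
    intro p hp
    have := hφ p hp
    rwa [hset0 ℚ_[p]] at this
  obtain ⟨c, hc⟩ := all_lim hBox hUb hHy hW hZ (W978.QN.cu a 1) hs ψ S φ hψ hφ'
  obtain ⟨-, c0, C0, B₀, hc0, -, hlow⟩ :=
    Pool.Agent.Results.MP_1acd66_nt.TrilinearOrder.result a ha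
  have hP0 : ∀ x : Pt n3, PU (W978.QN.cu a 1) x → ic ℝ x ∈ {x : ∀ v, Fin (n3 v) → ℝ |
      H548.TL.tf (W978.QN.cu a 1) (x 0) (x 1) (x 2) = 0} := by
    intro x hx
    show H548.TL.tf _ (fun i => ((x 0 i : ℤ) : ℝ)) (fun i => ((x 1 i : ℤ) : ℝ))
      (fun i => ((x 2 i : ℤ) : ℝ)) = 0
    rw [tf_cast, hx.1, Int.cast_zero]
  have hPp : ∀ x : Pt n3, PU (W978.QN.cu a 1) x → ∀ p : Nat.Primes, ic ℚ_[p] x ∈
      {x : ∀ v, Fin (n3 v) → ℚ_[p] |
        H548.TL.tf (W978.QN.cu a 1) (x 0) (x 1) (x 2) = 0} := by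
    intro x hx p
    show H548.TL.tf _ (fun i => ((x 0 i : ℤ) : ℚ_[p])) (fun i => ((x 1 i : ℤ) : ℚ_[p]))
      (fun i => ((x 2 i : ℤ) : ℚ_[p])) = 0
    rw [tf_cast, hx.1, Int.cast_zero]
  have hpos := Pool.Agent.T6.H81.BG.am_pos hZ (m := 2) (n := n3) (r := fun _ => 2)
    (fun _ => by norm_num) (P := PU (W978.QN.cu a 1))
    {x : ∀ v, Fin (n3 v) → ℝ | H548.TL.tf (W978.QN.cu a 1) (x 0) (x 1) (x 2) = 0}
    (fun p => {x : ∀ v, Fin (n3 v) → ℚ_[p] |
      H548.TL.tf (W978.QN.cu a 1) (x 0) (x 1) (x 2) = 0}) (cone_tf _) (fun p => cone_tf _)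
    hP0 hPp ψ S φ hψ hφ' hc0 (B₀ := B₀) (by
      intro B hB
      have h1 := (hlow B hB).2.1
      have h2 := set_eq a (fun _ => 1) B
      simp only [mul_one] at h2
      rw [h2] at h1
      exact h1) hc
  refine ⟨c, hpos, hc.congr fun B => ?_⟩
  rw [set_eq a (fun P => Phs (n := n3) ψ S φ P) B]

end Pool.Agent.T6.H97.TA
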