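import Pool.Agent.T6.H97.TA.Brg
import Pool.Agent.W978.QO.D
import Pool.Agent.W60.QN.Cmp
import Pool.Agent.W571.QN.Nst
import Pool.Agent.W150.QN.R
import Pool.Agent.W735.QN.CD
import Pool.Agent.W236.QN.QA
import Pool.Agent.W490.QO.SL
import Pool.Agent.W899.QO.Rho
import Pool.Agent.W737.QO.Avg

/-!
Module Ub: the sharp upper bound in boxes of any shape.
-/

set_option autoImplicit false

namespace Pool.Agent.T6.H97.TA

open Finset Matrix Filter Topology MeasureTheory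
open Pool.Agent.H548.WM (ht bx mem_bx card_bx)
open Pool.Agent.H548.TL (g1 g2 g3 tf Sm s12 s23 Tx g3_s12)

namespace ModUb

theorem geo (n : ℕ) : ∑ i ∈ range n, (1 / 4 : ℝ) ^ i ≤ 2 - 2 * (1 / 4 : ℝ) ^ n := by
  induction n with
  | zero => simp
  | succ n ih =>
    rw [Finset.sum_range_succ, pow_succ]
    have : (0 : ℝ) < (1 / 4 : ℝ) ^ n := by positivity
    nlinarith

theorem core (hBr : StmtBr) (T : T3) (hT : Sm ℂ T) : ∃ C : ℝ, 0 < C ∧ ∀ X₁ X₂ X₃ : ℕ,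
    1 ≤ X₁ → X₁ ≤ X₂ → X₂ ≤ X₃ →
      ((W978.QN.cs T X₁ X₂ X₃).card : ℝ) ≤ C * ((X₁ : ℝ) * X₂ * X₃) ^ 2 :=
  W978.QO.core' W150.QN.primPlane W735.QN.t_CD W236.QN.qa W490.QO.t_SL W60.QN.t_CMP
    W571.QN.nul (W737.QO.Avg.main W899.QO.rhoThm) T (hBr T hT).1 (hBr T hT).2

theorem mem_cs (T : T3) {X₁ X₂ X₃ : ℕ} {x y z : Fin 3 → ℤ} (h1 : ht x ≤ X₁) (h1' : X₁ ≤ 2 * ht x)
    (h2 : ht y ≤ X₂) (h3 : ht z ≤ X₃) (hU : U3 T x y z) (hx : Pr x) (hy : Pr y) (hz : Pr z) :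
    (x, y, z) ∈ W978.QN.cs T X₁ X₂ X₃ := by
  unfold W978.QN.cs
  simp only [Finset.mem_filter, Finset.mem_product, W978.QN.mem_bx]
  refine ⟨⟨?_, ?_, ?_⟩, ⟨(prim_iff x).2 hx, ?_, ?_⟩, (prim_iff y).2 hy, (prim_iff z).2 hz, ?_⟩
  · rw [nm_eq]; exact_mod_cast h1
  · rw [nm_eq]; exact_mod_cast h2
  · rw [nm_eq]; exact_mod_cast h3
  · rw [dm_mp]; exact hU.2.1
  · rw [nm_eq]; exact_mod_cast h1'
  · have h := hU.1
    rw [H548.TL.tf_g3] at h
    rw [wv_eq]
    first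
      | exact h
      | (rw [dotProduct_comm] at h; exact h)

theorem one_le_ht {v : Fin 3 → ℤ} (h : Pr v) : 1 ≤ ht v := by
  have := W978.QN.nm_pos ((prim_iff v).2 h)
  rw [nm_eq] at this
  exact_mod_cast this

theorem ordered (hBr : StmtBr) (T : T3) (hT : Sm ℂ T) : ∃ C : ℝ, 0 ≤ C ∧ ∀ A B Y : ℕ, 1 ≤ A →
    A ≤ B → B ≤ Y → (Cnt T Pr Pr Pr A B Y : ℝ) ≤ C * ((A : ℝ) * B * Y) ^ 2 := by
  classical
  obtain ⟨C, hC, h⟩ := core hBr T hT
  refine ⟨2 * C, by positivity, fun A B Y hA hAB hBY => ?_⟩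
  have hA0 : A ≠ 0 := by omega
  have hsub : Cnt T Pr Pr Pr A B Y ≤
      ((range (Nat.log 2 A + 1)).biUnion fun i => W978.QN.cs T (A / 2 ^ i) B Y).card := by
    unfold Cnt
    apply card_le_card
    rintro ⟨x, y, z⟩ hxyz
    simp only [Finset.mem_filter, Finset.mem_product, mem_bx] at hxyz
    obtain ⟨⟨h1, h2, h3⟩, hU, hx, hy, hz⟩ := hxyz
    rw [mem_biUnion]
    have hx1 : 1 ≤ ht x := one_le_ht hx
    have hq : A / ht x ≠ 0 := by
      have : 1 ≤ A / ht x := (Nat.one_le_div_iff (by omega)).2 h1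
      omega
    refine ⟨Nat.log 2 (A / ht x), ?_, ?_⟩
    · rw [mem_range]
      have : Nat.log 2 (A / ht x) ≤ Nat.log 2 A := Nat.log_mono_right (Nat.div_le_self _ _)
      omega
    · have e1 : 2 ^ Nat.log 2 (A / ht x) ≤ A / ht x := Nat.pow_log_le_self 2 hq
      have e2 : A / ht x < 2 ^ (Nat.log 2 (A / ht x) + 1) := Nat.lt_pow_succ_log_self (by norm_num) _
      set i := Nat.log 2 (A / ht x) with hi
      have hp : 0 < 2 ^ i := by positivity
      have e3 : 2 ^ i * ht x ≤ A := (Nat.le_div_iff_mul_le (by omega)).1 e1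
      have e4 : A < 2 ^ (i + 1) * ht x := (Nat.div_lt_iff_lt_mul (by omega)).1 e2
      apply mem_cs T _ _ h2 h3 hU hx hy hz
      · rw [Nat.le_div_iff_mul_le hp]
        linarith [mul_comm (2 ^ i) (ht x)]
      · apply le_of_lt
        rw [Nat.div_lt_iff_lt_mul hp]
        calc A < 2 ^ (i + 1) * ht x := e4
          _ = 2 * ht x * 2 ^ i := by ring
  have hterm : ∀ i ∈ range (Nat.log 2 A + 1), ((W978.QN.cs T (A / 2 ^ i) B Y).card : ℝ) ≤
      C * ((A : ℝ) * B * Y) ^ 2 * (1 / 4) ^ i := by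
    intro i hi
    rw [mem_range] at hi
    have hp : 0 < 2 ^ i := by positivity
    have e1 : 2 ^ i ≤ A := Nat.pow_le_of_le_log hA0 (by omega)
    have e2 : 1 ≤ A / 2 ^ i := (Nat.one_le_div_iff hp).2 e1
    have e3 := h (A / 2 ^ i) B Y e2 ((Nat.div_le_self _ _).trans hAB) hBY
    have e4 : ((A / 2 ^ i : ℕ) : ℝ) ≤ (A : ℝ) / 2 ^ i := by
      have := @Nat.cast_div_le ℝ _ _ _ A (2 ^ i)
      push_cast at this
      exact this
    calc ((W978.QN.cs T (A / 2 ^ i) B Y).card : ℝ) ≤ C * (((A / 2 ^ i : ℕ) : ℝ) * B * Y) ^ 2 := e3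
      _ ≤ C * ((A : ℝ) / 2 ^ i * B * Y) ^ 2 := by gcongr
      _ = C * ((A : ℝ) * B * Y) ^ 2 * (1 / 4) ^ i := by
          have : (1 / 4 : ℝ) ^ i = (1 / 2 ^ i) ^ 2 := by
            rw [show (1 / 4 : ℝ) = (1 / 2) ^ 2 by norm_num, ← pow_mul, mul_comm 2 i, pow_mul,
              _root_.one_div_pow]
          rw [this]
          ring
  calc (Cnt T Pr Pr Pr A B Y : ℝ)
      ≤ (((range (Nat.log 2 A + 1)).biUnion fun i => W978.QN.cs T (A / 2 ^ i) B Y).card : ℝ) := by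
        exact_mod_cast hsub
    _ ≤ ∑ i ∈ range (Nat.log 2 A + 1), ((W978.QN.cs T (A / 2 ^ i) B Y).card : ℝ) := by
        exact_mod_cast card_biUnion_le
    _ ≤ ∑ i ∈ range (Nat.log 2 A + 1), C * ((A : ℝ) * B * Y) ^ 2 * (1 / 4) ^ i :=
        Finset.sum_le_sum hterm
    _ = C * ((A : ℝ) * B * Y) ^ 2 * ∑ i ∈ range (Nat.log 2 A + 1), (1 / 4 : ℝ) ^ i := by
        rw [Finset.mul_sum]
    _ ≤ C * ((A : ℝ) * B * Y) ^ 2 * 2 := by
        apply mul_le_mul_of_nonneg_left _ (by positivity)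
        have := geo (Nat.log 2 A + 1)
        have h0 : (0 : ℝ) < (1 / 4 : ℝ) ^ (Nat.log 2 A + 1) := by positivity
        linarith
    _ = 2 * C * ((A : ℝ) * B * Y) ^ 2 := by ring

end ModUb

open ModUb

theorem ub (hBr : StmtBr) : StmtUb := by
  intro T hT
  obtain ⟨C1, h01, H1⟩ := ordered hBr T hT
  obtain ⟨C2, h02, H2⟩ := ordered hBr (s23 T) hT.s23
  obtain ⟨C3, h03, H3⟩ := ordered hBr (s12 T) hT.s12
  obtain ⟨C4, h04, H4⟩ := ordered hBr (s23 (s12 T)) hT.s12.s23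
  obtain ⟨C5, h05, H5⟩ := ordered hBr (s12 (s23 T)) hT.s23.s12
  obtain ⟨C6, h06, H6⟩ := ordered hBr (s23 (s12 (s23 T))) hT.s23.s12.s23
  refine ⟨C1 + C2 + C3 + C4 + C5 + C6, by positivity, fun A B Y hA hB hY => ?_⟩
  have key : ∀ (C : ℝ) (X : ℝ), C ≤ C1 + C2 + C3 + C4 + C5 + C6 → X ≤ C * ((A : ℝ) * B * Y) ^ 2 →
      X ≤ (C1 + C2 + C3 + C4 + C5 + C6) * ((A : ℝ) * B * Y) ^ 2 := by
    intro C X hC hX
    exact hX.trans (mul_le_mul_of_nonneg_right hC (by positivity))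
  rcases le_total A B with hAB | hAB
  · rcases le_total B Y with hBY | hBY
    · exact key C1 _ (by linarith) (H1 A B Y hA hAB hBY)
    · rcases le_total A Y with hAY | hAY
      · refine key C2 _ (by linarith) ?_
        have := H2 A Y B hA hAY hBY
        rw [Cnt_s23] at this
        calc _ ≤ _ := this
          _ = _ := by ring
      · refine key C5 _ (by linarith) ?_
        have := H5 Y A B hY hAY hAB
        rw [Cnt_s12, Cnt_s23] at this
        calc _ ≤ _ := this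
          _ = _ := by ring
  · rcases le_total A Y with hAY | hAY
    · refine key C3 _ (by linarith) ?_
      have := H3 B A Y hB hAB hAY
      rw [Cnt_s12] at this
      calc _ ≤ _ := this
        _ = _ := by ring
    · rcases le_total B Y with hBY | hBY
      · refine key C4 _ (by linarith) ?_
        have := H4 B Y A hB hBY hAY
        rw [Cnt_s23, Cnt_s12] at this
        calc _ ≤ _ := this
          _ = _ := by ring
      · refine key C6 _ (by linarith) ?_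
        have := H6 Y B A hY hBY hAB
        rw [Cnt_s23, Cnt_s12, Cnt_s23] at this
        calc _ ≤ _ := this
          _ = _ := by ring

end Pool.Agent.T6.H97.TA
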